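import Pool.Agent.Lib.P4cae09.Defs

/-!
# P4cae09.BandFun (1.8 h): the bump function `b_m` of the `m`-th gadget

`b(t,x,y) = χ(x²+y²) χ₂(t²) (-N + (N + 1/8) B(t,x,y))`, `N = NN m`, `δ = dd m`, `η = eta`, where
* `χ : ℝ → ℝ` smooth with values in `[0,1]`, `= 1` on `(-∞,1]`, `= 0` on `[4,∞)` (from
  `Real.smoothTransition`, e.g. `χ(s) = smoothTransition ((4-s)/3)`);
* `χ₂(s) = smoothTransition (26 - s)` : `= 1` for `s ≤ 25`, `= 0` for `s ≥ 26`;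
* `B : ℝ×ℝ×ℝ → [0,1]` smooth (smooth Urysohn, `exists_contMDiffMap_zero_one_of_isClosed` on the
  manifold `ℝ×ℝ×ℝ`) with `B = 1` on the closed set
  `F₁ = ⋃_{2|j| ≤ m} {|t - j/m| ≤ δ/2, ∃ s ∈ [0,4], |x - s j/m| ≤ δη/16, |y - s sn m j| ≤ δη/16}`
  (finite union of compact sets) and `B = 0` on the complement of the open set
  `O = ⋃_{2|j| ≤ m} {|t - j/m| < δ ∧ (x²+y² < η² ∨ |x - (j/m) √(x²+y²)| < δ √(x²+y²))}`.
`F₁ ⊆ O`: let `ρ = √(x²+y²) ≥ η`; `(j/m, sn m j)` is a unit vector, so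
`|ρ - s| ≤ √((x - s j/m)² + (y - s sn)²) ≤ √2 δη/16` and
`|x - (j/m)ρ| ≤ |x - s j/m| + |j/m| |s - ρ| ≤ δη/16 (1 + √2/2) < δ η ≤ δ ρ`.
Then: `band`: if `(t,x,y) ∉ O` then `B = 0`, `χ = χ₂ = 1`, `b = -N`. `tconst`: for `1 ≤ |t| ≤ 5`
there is no `j` with `|t - j/m| < δ` (as `|j/m| ≤ 1/2`, `δ ≤ 1/2`), so `B = 0` and
`b = -N χ(x²+y²)` for all those `t`. `ray`: if `s ≤ 4`, `B = 1` at both points and
`χ₂ = 1`: `b = χ(x²+y²)/8`; if `s > 4` then `x²+y² ≥ 4` and `b = 0`.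
Note `dd m ≤ 1/10^7`, `CC m ≥ 1000`.
-/

namespace P4cae09
open scoped ContDiff

namespace BandAux

/-- the open set -/
def Oset (m : ℕ) (j : ℤ) : Set (ℝ × ℝ × ℝ) :=
  {q | |q.1 - (j : ℝ) / m| < dd m ∧ (q.2.1 ^ 2 + q.2.2 ^ 2 < eta ^ 2 ∨
    |q.2.1 - (j : ℝ) / m * Real.sqrt (q.2.1 ^ 2 + q.2.2 ^ 2)| <
      dd m * Real.sqrt (q.2.1 ^ 2 + q.2.2 ^ 2))}

/-- the closed set -/
def Fset (m : ℕ) (j : ℤ) : Set (ℝ × ℝ × ℝ) :=
  {q | |q.1 - (j : ℝ) / m| ≤ dd m / 2 ∧ ∃ s, 0 ≤ s ∧ s ≤ 4 ∧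
    |q.2.1 - s * ((j : ℝ) / m)| ≤ dd m * eta / 16 ∧ |q.2.2 - s * sn m j| ≤ dd m * eta / 16}

theorem CC_ge (m : ℕ) : 1000 ≤ CC m := by
  unfold CC
  have : 1 ≤ Real.exp (1000 * m) := Real.one_le_exp (by positivity)
  linarith

theorem NN_pos (m : ℕ) : 0 < NN m := by
  unfold NN
  have := CC_ge m
  linarith

theorem dd_pos {m : ℕ} (hm : 1 ≤ m) : 0 < dd m := by
  unfold dd
  have h1 := CC_ge m
  have h2 : (0 : ℝ) < m := by exact_mod_cast hm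
  positivity

theorem dd_le {m : ℕ} (hm : 1 ≤ m) : dd m ≤ 1 / 10 ^ 7 := by
  unfold dd
  have h1 := CC_ge m
  have h2 : (1 : ℝ) ≤ m := by exact_mod_cast hm
  apply one_div_le_one_div_of_le (by norm_num)
  nlinarith

theorem eta_pos : 0 < eta := by unfold eta; norm_num

theorem abs_j {m : ℕ} (hm : 1 ≤ m) {j : ℤ} (hj : 2 * |j| ≤ m) : |(j : ℝ) / m| ≤ 1 / 2 := by
  have h2 : (0 : ℝ) < m := by exact_mod_cast hm
  rw [abs_div, abs_of_pos h2, div_le_iff₀ h2]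
  have h3 : ((2 * |j| : ℤ) : ℝ) ≤ ((m : ℤ) : ℝ) := by exact_mod_cast hj
  push_cast at h3
  linarith

theorem isOpen_O (m : ℕ) (j : ℤ) : IsOpen (Oset m j) := by
  have e : Oset m j = {q : ℝ × ℝ × ℝ | |q.1 - (j : ℝ) / m| < dd m} ∩
      ({q : ℝ × ℝ × ℝ | q.2.1 ^ 2 + q.2.2 ^ 2 < eta ^ 2} ∪
      {q : ℝ × ℝ × ℝ | |q.2.1 - (j : ℝ) / m * Real.sqrt (q.2.1 ^ 2 + q.2.2 ^ 2)| <
        dd m * Real.sqrt (q.2.1 ^ 2 + q.2.2 ^ 2)}) := rfl
  rw [e]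
  exact (isOpen_lt (by fun_prop) (by fun_prop)).inter
    ((isOpen_lt (by fun_prop) (by fun_prop)).union (isOpen_lt (by fun_prop) (by fun_prop)))

theorem isClosed_F (m : ℕ) (j : ℤ) : IsClosed (Fset m j) := by
  have h : Fset m j = (fun p : ℝ × ℝ × ℝ × ℝ =>
      ((j : ℝ) / m + p.1, p.2.1 * ((j : ℝ) / m) + p.2.2.1, p.2.1 * sn m j + p.2.2.2)) ''
      (Set.Icc (-(dd m / 2)) (dd m / 2) ×ˢ Set.Icc 0 4 ×ˢ
        Set.Icc (-(dd m * eta / 16)) (dd m * eta / 16) ×ˢ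
        Set.Icc (-(dd m * eta / 16)) (dd m * eta / 16)) := by
    ext ⟨t, x, y⟩
    unfold Fset
    simp only [Set.mem_ofPred_eq, Set.mem_image, Set.mem_prod, Set.mem_Icc, Prod.mk.injEq,
      Prod.exists]
    constructor
    · rintro ⟨h1, s, h2, h3, h4, h5⟩
      refine ⟨t - j / m, s, x - s * (j / m), y - s * sn m j, ⟨abs_le.1 h1, ⟨h2, h3⟩, abs_le.1 h4,
        abs_le.1 h5⟩, ?_, ?_, ?_⟩ <;> ring
    · rintro ⟨a, s, u, v, ⟨h1, ⟨h2, h3⟩, h4, h5⟩, rfl, rfl, rfl⟩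
      refine ⟨?_, s, h2, h3, ?_, ?_⟩
      · rw [add_sub_cancel_left]; exact abs_le.2 h1
      · rw [add_sub_cancel_left]; exact abs_le.2 h4
      · rw [add_sub_cancel_left]; exact abs_le.2 h5
  rw [h]
  apply IsCompact.isClosed
  apply IsCompact.image
  · exact isCompact_Icc.prod (isCompact_Icc.prod (isCompact_Icc.prod isCompact_Icc))
  · fun_prop

theorem sn_sq {m : ℕ} (hm : 1 ≤ m) {j : ℤ} (hj : 2 * |j| ≤ m) :
    ((j : ℝ) / m) ^ 2 + (sn m j) ^ 2 = 1 := by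
  unfold sn
  have h1 := abs_j hm hj
  have h2 : ((j : ℝ) / m) ^ 2 ≤ 1 / 4 := by
    rw [← sq_abs]
    nlinarith [abs_nonneg ((j : ℝ) / m)]
  rw [Real.sq_sqrt (by linarith)]
  ring

theorem sn_nonneg (m : ℕ) (j : ℤ) : 0 ≤ sn m j := Real.sqrt_nonneg _

/-- estimates for a point near the ray -/
theorem near {a c κ x y s : ℝ} (ha : |a| ≤ 1 / 2) (hc : 0 ≤ c) (hac : a ^ 2 + c ^ 2 = 1)
    (hκ : 0 ≤ κ) (hs : 0 ≤ s) (hx : |x - s * a| ≤ κ) (hy : |y - s * c| ≤ κ) :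
    x ^ 2 + y ^ 2 ≤ (s + 2 * κ) ^ 2 ∧ s ^ 2 - 3 * s * κ ≤ x ^ 2 + y ^ 2 := by
  obtain ⟨u, rfl⟩ : ∃ u, x = s * a + u := ⟨x - s * a, by ring⟩
  obtain ⟨v, rfl⟩ : ∃ v, y = s * c + v := ⟨y - s * c, by ring⟩
  rw [add_sub_cancel_left] at hx hy
  have hc1 : c ≤ 1 := by nlinarith [sq_nonneg a]
  have h1 : |a * u + c * v| ≤ 3 / 2 * κ := by
    calc |a * u + c * v| ≤ |a * u| + |c * v| := abs_add_le _ _
      _ = |a| * |u| + c * |v| := by rw [abs_mul, abs_mul, abs_of_nonneg hc]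
      _ ≤ 1 / 2 * κ + 1 * κ := by
          gcongr
      _ = 3 / 2 * κ := by ring
  have h2 := abs_le.1 h1
  have h3 : u ^ 2 ≤ κ ^ 2 := by rw [← sq_abs]; exact pow_le_pow_left₀ (abs_nonneg _) hx 2
  have h4 : v ^ 2 ≤ κ ^ 2 := by rw [← sq_abs]; exact pow_le_pow_left₀ (abs_nonneg _) hy 2
  have h5 : (s * a + u) ^ 2 + (s * c + v) ^ 2 =
      s ^ 2 + 2 * s * (a * u + c * v) + (u ^ 2 + v ^ 2) := by
    have : s ^ 2 = s ^ 2 * (a ^ 2 + c ^ 2) := by rw [hac, mul_one]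
    nlinarith
  rw [h5]
  constructor
  · nlinarith [mul_nonneg hs hκ]
  · nlinarith [mul_nonneg hs hκ, sq_nonneg u, sq_nonneg v]

theorem F_sub_O {m : ℕ} (hm : 1 ≤ m) {j : ℤ} (hj : 2 * |j| ≤ m) : Fset m j ⊆ Oset m j := by
  rintro ⟨t, x, y⟩ ⟨h1, s, h2, h3, h4, h5⟩
  simp only at h1 h4 h5
  have hd := dd_pos hm
  have hd1 := dd_le hm
  have he := eta_pos
  refine ⟨by simp only; linarith, ?_⟩
  simp only
  by_cases h6 : x ^ 2 + y ^ 2 < eta ^ 2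
  · exact Or.inl h6
  right
  push Not at h6
  set ρ := Real.sqrt (x ^ 2 + y ^ 2) with hρ
  have hρ0 : 0 ≤ ρ := Real.sqrt_nonneg _
  have hρ2 : ρ ^ 2 = x ^ 2 + y ^ 2 := Real.sq_sqrt (by positivity)
  have hρη : eta ≤ ρ := by
    rw [hρ]; exact Real.le_sqrt_of_sq_le h6
  have hκ : 0 ≤ dd m * eta / 16 := by positivity
  have hκη : dd m * eta / 16 ≤ eta / 16 := by nlinarith
  obtain ⟨n1, n2⟩ := near (abs_j hm hj) (sn_nonneg m j) (sn_sq hm hj) hκ h2 h4 h5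
  set κ := dd m * eta / 16 with hκdef
  have h7 : ρ ≤ s + 2 * κ := by
    rw [hρ]
    exact Real.sqrt_le_iff.2 ⟨by positivity, n1⟩
  have h8 : s - 2 * κ ≤ ρ := by
    by_cases h9 : s ≤ 4 * κ
    · linarith
    · push Not at h9
      apply le_of_sq_le_sq _ hρ0
      rw [hρ2]
      nlinarith
  have h10 : |s - ρ| ≤ 2 * κ := abs_le.2 ⟨by linarith, by linarith⟩
  have h11 : |x - (j : ℝ) / m * ρ| ≤ 2 * κ := by
    calc |x - (j : ℝ) / m * ρ| = |(x - s * ((j : ℝ) / m)) + (j : ℝ) / m * (s - ρ)| := by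
          congr 1; ring
      _ ≤ |x - s * ((j : ℝ) / m)| + |(j : ℝ) / m * (s - ρ)| := abs_add_le _ _
      _ = |x - s * ((j : ℝ) / m)| + |(j : ℝ) / m| * |s - ρ| := by rw [abs_mul]
      _ ≤ κ + 1 / 2 * (2 * κ) := by
          have := abs_j hm hj
          gcongr
      _ = 2 * κ := by ring
  calc |x - (j : ℝ) / m * ρ| ≤ 2 * κ := h11
    _ < dd m * eta := by rw [hκdef]; nlinarith [mul_pos hd he]
    _ ≤ dd m * ρ := mul_le_mul_of_nonneg_left hρη hd.le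

theorem finite_j (m : ℕ) : {j : ℤ | 2 * |j| ≤ m}.Finite := by
  apply (Set.finite_Icc (-(m : ℤ)) m).subset
  intro j hj
  simp only [Set.mem_ofPred_eq] at hj
  have h0 := abs_nonneg j
  have h1 : |j| ≤ m := by linarith
  exact abs_le.1 h1

theorem exists_B {m : ℕ} (hm : 1 ≤ m) : ∃ B : ℝ × ℝ × ℝ → ℝ, ContDiff ℝ ∞ B ∧
    (∀ q, 0 ≤ B q ∧ B q ≤ 1) ∧ (∀ j : ℤ, 2 * |j| ≤ m → ∀ q ∈ Fset m j, B q = 1) ∧
    (∀ q, (∀ j : ℤ, 2 * |j| ≤ m → q ∉ Oset m j) → B q = 0) := by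
  have hO : IsOpen (⋃ j ∈ {j : ℤ | 2 * |j| ≤ m}, Oset m j) :=
    isOpen_biUnion fun j _ => isOpen_O m j
  have hF : IsClosed (⋃ j ∈ {j : ℤ | 2 * |j| ≤ m}, Fset m j) :=
    (finite_j m).isClosed_biUnion fun j _ => isClosed_F m j
  obtain ⟨B, hB0, hB1, hB⟩ := exists_contMDiffMap_zero_one_of_isClosed (n := ⊤)
    (modelWithCornersSelf ℝ (ℝ × ℝ × ℝ)) hO.isClosed_compl hF (by
      rw [Set.disjoint_left]
      intro q hq hq'
      apply hq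
      simp only [Set.mem_iUnion] at hq' ⊢
      obtain ⟨j, hj, hq'⟩ := hq'
      exact ⟨j, hj, F_sub_O hm hj hq'⟩)
  refine ⟨B, B.contMDiff.contDiff, fun q => ⟨(hB q).1, (hB q).2⟩, ?_, ?_⟩
  · intro j hj q hq
    exact hB1 (Set.mem_biUnion hj hq)
  · intro q hq
    apply hB0
    simp only [Set.mem_compl_iff, Set.mem_iUnion, not_exists]
    exact fun j hj => hq j hj

end BandAux

open BandAux in
theorem exists_band (m : ℕ) (hm : 1 ≤ m) : ∃ b : ℝ × ℝ × ℝ → ℝ, IsBand m b := by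
  obtain ⟨B, hBs, hB, hB1, hB0⟩ := exists_B hm
  have hN := NN_pos m
  have hd := dd_pos hm
  have hd1 := dd_le hm
  have he := eta_pos
  set χ : ℝ → ℝ := fun s => Real.smoothTransition ((4 - s) / 3) with hχ
  set χ₂ : ℝ → ℝ := fun s => Real.smoothTransition (26 - s) with hχ₂
  have c0 : ∀ s, 0 ≤ χ s := fun s => Real.smoothTransition.nonneg _
  have c1 : ∀ s, χ s ≤ 1 := fun s => Real.smoothTransition.le_one _
  have c2 : ∀ s, s ≤ 1 → χ s = 1 := fun s hs => Real.smoothTransition.one_of_one_le (by linarith)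
  have c3 : ∀ s, 4 ≤ s → χ s = 0 := fun s hs => Real.smoothTransition.zero_of_nonpos (by linarith)
  have e0 : ∀ s, 0 ≤ χ₂ s := fun s => Real.smoothTransition.nonneg _
  have e1 : ∀ s, χ₂ s ≤ 1 := fun s => Real.smoothTransition.le_one _
  have e2 : ∀ s, s ≤ 25 → χ₂ s = 1 := fun s hs => Real.smoothTransition.one_of_one_le (by linarith)
  have e3 : ∀ s, 26 ≤ s → χ₂ s = 0 := fun s hs => Real.smoothTransition.zero_of_nonpos (by linarith)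
  have ht25 : ∀ t : ℝ, |t| ≤ 5 → χ₂ (t ^ 2) = 1 := by
    intro t ht
    apply e2
    rw [← sq_abs]
    nlinarith [abs_nonneg t]
  set b : ℝ × ℝ × ℝ → ℝ := fun q =>
    χ (q.2.1 ^ 2 + q.2.2 ^ 2) * χ₂ (q.1 ^ 2) * (-NN m + (NN m + 1 / 8) * B q) with hb
  have hprod : ∀ q : ℝ × ℝ × ℝ, 0 ≤ χ (q.2.1 ^ 2 + q.2.2 ^ 2) * χ₂ (q.1 ^ 2) ∧
      χ (q.2.1 ^ 2 + q.2.2 ^ 2) * χ₂ (q.1 ^ 2) ≤ 1 := fun q =>
    ⟨mul_nonneg (c0 _) (e0 _), mul_le_one₀ (c1 _) (e0 _) (e1 _)⟩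
  have hin : ∀ q, -NN m ≤ -NN m + (NN m + 1 / 8) * B q ∧
      -NN m + (NN m + 1 / 8) * B q ≤ 1 / 8 := by
    intro q
    obtain ⟨h1, h2⟩ := hB q
    constructor <;> nlinarith
  refine ⟨b, ?_, ?_, ?_, ?_, ?_, ?_, ?_, ?_⟩
  · -- smooth
    have s1 : ContDiff ℝ ∞ (fun q : ℝ × ℝ × ℝ => χ (q.2.1 ^ 2 + q.2.2 ^ 2)) := by
      apply (Real.smoothTransition.contDiff (n := ⊤)).comp
      fun_prop
    have s2 : ContDiff ℝ ∞ (fun q : ℝ × ℝ × ℝ => χ₂ (q.1 ^ 2)) := by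
      apply (Real.smoothTransition.contDiff (n := ⊤)).comp
      fun_prop
    exact (s1.mul s2).mul (contDiff_const.add (contDiff_const.mul hBs))
  · -- support
    apply HasCompactSupport.intro (K := Set.Icc (-6 : ℝ) 6 ×ˢ Set.Icc (-2 : ℝ) 2 ×ˢ Set.Icc (-2 : ℝ) 2)
      (isCompact_Icc.prod (isCompact_Icc.prod isCompact_Icc))
    rintro ⟨t, x, y⟩ hq
    simp only [Set.mem_prod, Set.mem_Icc, not_and_or, not_le] at hq
    simp only [hb]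
    rcases hq with hq | hq | hq
    · rw [e3 (t ^ 2) (by rcases hq with hq | hq <;> nlinarith)]
      simp
    · rw [c3 (x ^ 2 + y ^ 2) (by rcases hq with hq | hq <;> nlinarith [sq_nonneg y])]
      simp
    · rw [c3 (x ^ 2 + y ^ 2) (by rcases hq with hq | hq <;> nlinarith [sq_nonneg x])]
      simp
  · -- zero
    intro t x y h
    simp only [hb]
    rw [c3 _ h]
    simp
  · -- tconst
    intro t x y h1 h2
    have key : ∀ t : ℝ, 1 ≤ |t| → |t| ≤ 5 → b (t, x, y) = χ (x ^ 2 + y ^ 2) * (-NN m) := by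
      intro t h1 h2
      simp only [hb]
      rw [ht25 t h2, hB0 (t, x, y), mul_one, mul_zero, add_zero]
      rintro j hj ⟨h3, -⟩
      simp only at h3
      have h4 := abs_j hm hj
      have h5 : |t| ≤ |t - (j : ℝ) / m| + |(j : ℝ) / m| := by
        have := abs_add_le (t - (j : ℝ) / m) ((j : ℝ) / m)
        rwa [sub_add_cancel] at this
      have h6 : (1 : ℝ) / 10 ^ 7 ≤ 1 / 4 := by norm_num
      linarith
    rw [key t h1 h2, key 1 (by simp) (by rw [abs_one]; norm_num)]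
  · -- le
    intro q
    obtain ⟨p0, p1⟩ := hprod q
    obtain ⟨h1, h2⟩ := hin q
    simp only [hb]
    calc χ (q.2.1 ^ 2 + q.2.2 ^ 2) * χ₂ (q.1 ^ 2) * (-NN m + (NN m + 1 / 8) * B q)
        ≤ χ (q.2.1 ^ 2 + q.2.2 ^ 2) * χ₂ (q.1 ^ 2) * (1 / 8) := mul_le_mul_of_nonneg_left h2 p0
      _ ≤ 1 * (1 / 8) := mul_le_mul_of_nonneg_right p1 (by norm_num)
      _ = 1 / 8 := by ring
  · -- abs_le
    intro q
    obtain ⟨p0, p1⟩ := hprod q
    obtain ⟨h1, h2⟩ := hin q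
    simp only [hb]
    rw [abs_mul, abs_of_nonneg p0]
    have h3 : |-NN m + (NN m + 1 / 8) * B q| ≤ NN m + 1 := abs_le.2 ⟨by linarith, by linarith⟩
    calc χ (q.2.1 ^ 2 + q.2.2 ^ 2) * χ₂ (q.1 ^ 2) * |-NN m + (NN m + 1 / 8) * B q|
        ≤ 1 * (NN m + 1) := mul_le_mul p1 h3 (abs_nonneg _) zero_le_one
      _ = NN m + 1 := one_mul _
  · -- band
    intro t x y h1 h2
    by_cases h3 : ∀ j : ℤ, 2 * |j| ≤ m → (t, x, y) ∉ Oset m j
    · left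
      simp only [hb]
      rw [hB0 _ h3, ht25 t h1, c2 _ h2]
      simp
    · right
      push Not at h3
      obtain ⟨j, hj, h4, h5⟩ := h3
      exact ⟨j, hj, h4, h5⟩
  · -- ray
    intro j hj t t' x y s ht ht' hs hx hy
    have hκ : 0 ≤ dd m * eta / 16 := by positivity
    have hκ1 : dd m * eta / 16 ≤ 1 / 100 := by
      have : dd m * eta ≤ 1 * 1 := by
        apply mul_le_mul (by linarith [show (1 : ℝ) / 10 ^ 7 ≤ 1 by norm_num]) _ he.le zero_le_one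
        unfold eta; norm_num
      nlinarith [mul_le_mul hd1 (show eta ≤ 1 by unfold eta; norm_num) he.le
        (by norm_num : (0 : ℝ) ≤ 1 / 10 ^ 7)]
    have hj1 := abs_j hm hj
    have h5 : ∀ t : ℝ, |t - (j : ℝ) / m| ≤ dd m / 2 → |t| ≤ 5 := by
      intro t ht
      have h5 : |t| ≤ |t - (j : ℝ) / m| + |(j : ℝ) / m| := by
        have := abs_add_le (t - (j : ℝ) / m) ((j : ℝ) / m)
        rwa [sub_add_cancel] at this
      have h6 : (1 : ℝ) / 10 ^ 7 ≤ 1 / 4 := by norm_num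
      linarith
    by_cases hs4 : s ≤ 4
    · have key : ∀ t : ℝ, |t - (j : ℝ) / m| ≤ dd m / 2 →
          b (t, x, y) = χ (x ^ 2 + y ^ 2) * (1 / 8) := by
        intro t ht
        simp only [hb]
        rw [ht25 t (h5 t ht), hB1 j hj (t, x, y) ⟨ht, s, hs, hs4, hx, hy⟩]
        ring
      refine ⟨by rw [key t ht, key t' ht'], ?_, fun h => ?_⟩
      · rw [key t ht]
        exact mul_nonneg (c0 _) (by norm_num)
      · rw [key t ht, c2 _ h, one_mul]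
    · push Not at hs4
      obtain ⟨-, n2⟩ := near hj1 (sn_nonneg m j) (sn_sq hm hj) hκ hs hx hy
      have h6 : 4 ≤ x ^ 2 + y ^ 2 := by nlinarith
      have key : ∀ t : ℝ, b (t, x, y) = 0 := by
        intro t
        simp only [hb]
        rw [c3 _ h6]
        simp
      refine ⟨by rw [key t, key t'], (key t).ge, fun h => ?_⟩
      linarith

end P4cae09
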