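import Pool.Agent.Lib.P4cae09.Defs

/-!
# P4cae09.ScaleB (1.2 h): derivatives of the scaled bump

`F_ε(q) = ia ε · b(q₁, (q₂ - c)/ε, q₃/ε)`. For `k ≤ m` and `0 < ε ≤ 1`:
`‖D^k F_ε(q)‖ ≤ ia ε · ε^{-k} · sup ‖D^k b‖` (composition with the affine map
`q ↦ (q₁, (q₂-c)/ε, q₃/ε)` whose linear part has norm `≤ ε⁻¹`:
`ContinuousLinearMap.iteratedFDeriv_comp_right`, `iteratedFDeriv_comp_add_right` or `_sub`), and
`ia ε · ε^{-k} → 0`. `sup ‖D^k b‖ < ∞` as `b` is smooth with compact support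
(`HasCompactSupport.iteratedFDeriv`, continuity). Finitely many `k ≤ m`: intersect the
eventualities. Also for each fixed `ε > 0` all derivatives are bounded (`bdd`).
-/

namespace P4cae09
open scoped ContDiff
open Filter Topology

/-- the scaled gadget -/
noncomputable def scaleB (m : ℕ) (b : ℝ × ℝ × ℝ → ℝ) (ε : ℝ) (q : ℝ × ℝ × ℝ) : ℝ :=
  ia ε * b (q.1, (q.2.1 - cen m) / ε, q.2.2 / ε)

/-- the linear part of the change of variables -/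
noncomputable def ScaleB_L (ε : ℝ) : (ℝ × ℝ × ℝ) →L[ℝ] (ℝ × ℝ × ℝ) :=
  (ContinuousLinearMap.fst ℝ ℝ (ℝ × ℝ)).prod
    ((ε⁻¹ • ((ContinuousLinearMap.fst ℝ ℝ ℝ).comp (ContinuousLinearMap.snd ℝ ℝ (ℝ × ℝ)))).prod
      (ε⁻¹ • ((ContinuousLinearMap.snd ℝ ℝ ℝ).comp (ContinuousLinearMap.snd ℝ ℝ (ℝ × ℝ)))))

theorem ScaleB_L_apply (ε : ℝ) (q : ℝ × ℝ × ℝ) :
    ScaleB_L ε q = (q.1, ε⁻¹ * q.2.1, ε⁻¹ * q.2.2) := rfl

theorem ScaleB_eq (m : ℕ) (b : ℝ × ℝ × ℝ → ℝ) (ε : ℝ) :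
    scaleB m b ε = ia ε • (fun q => (b ∘ ScaleB_L ε) (q - (0, cen m, 0))) := by
  funext q
  unfold scaleB
  simp only [Pi.smul_apply, smul_eq_mul, Function.comp_apply, ScaleB_L_apply, Prod.fst_sub,
    Prod.snd_sub, sub_zero]
  congr 3
  ext <;> simp [div_eq_inv_mul]

theorem ScaleB_comp_contDiff {m : ℕ} {b : ℝ × ℝ × ℝ → ℝ} (hb : IsBand m b) (ε : ℝ) :
    ContDiff ℝ ∞ (fun q => (b ∘ ScaleB_L ε) (q - (0, cen m, 0))) :=
  (hb.smooth.comp (ScaleB_L ε).contDiff).comp (contDiff_id.sub contDiff_const)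

theorem scaleB_contDiff {m : ℕ} {b : ℝ × ℝ × ℝ → ℝ} (hb : IsBand m b) (ε : ℝ) :
    ContDiff ℝ ∞ (scaleB m b ε) := by
  rw [ScaleB_eq]
  exact (ScaleB_comp_contDiff hb ε).const_smul (ia ε)

theorem ScaleB_bd {m : ℕ} {b : ℝ × ℝ × ℝ → ℝ} (hb : IsBand m b) (k : ℕ) :
    ∃ B : ℝ, 0 ≤ B ∧ ∀ x, ‖iteratedFDeriv ℝ k b x‖ ≤ B := by
  obtain ⟨B, hB⟩ := (hb.supp.iteratedFDeriv (𝕜 := ℝ) k).exists_bound_of_continuous
    (hb.smooth.continuous_iteratedFDeriv (by exact_mod_cast le_top))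
  exact ⟨B, (norm_nonneg _).trans (hB 0), hB⟩

theorem ScaleB_ia (ε : ℝ) : 0 < ia ε := by
  unfold ia
  positivity

theorem ScaleB_norm {m : ℕ} {b : ℝ × ℝ × ℝ → ℝ} (hb : IsBand m b) (ε : ℝ) (k : ℕ) {B : ℝ}
    (hB : ∀ x, ‖iteratedFDeriv ℝ k b x‖ ≤ B) (q : ℝ × ℝ × ℝ) :
    ‖iteratedFDeriv ℝ k (scaleB m b ε) q‖ ≤ ia ε * (B * ‖ScaleB_L ε‖ ^ k) := by
  rw [ScaleB_eq, iteratedFDeriv_const_smul_apply
    ((ScaleB_comp_contDiff hb ε).contDiffAt.of_le (by exact_mod_cast le_top)),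
    norm_smul, Real.norm_of_nonneg (ScaleB_ia ε).le]
  refine mul_le_mul_of_nonneg_left ?_ (ScaleB_ia ε).le
  rw [iteratedFDeriv_comp_sub,
    (ScaleB_L ε).iteratedFDeriv_comp_right hb.smooth _ (by exact_mod_cast le_top)]
  refine (ContinuousMultilinearMap.norm_compContinuousLinearMap_le _ _).trans ?_
  rw [Finset.prod_const, Finset.card_univ, Fintype.card_fin]
  exact mul_le_mul_of_nonneg_right (hB _) (by positivity)

theorem scaleB_bdd {m : ℕ} {b : ℝ × ℝ × ℝ → ℝ} (hb : IsBand m b) {ε : ℝ} (hε : 0 < ε) (k : ℕ) :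
    ∃ C : ℝ, ∀ q, ‖iteratedFDeriv ℝ k (scaleB m b ε) q‖ ≤ C := by
  obtain ⟨B, _, hB⟩ := ScaleB_bd hb k
  exact ⟨_, fun q => ScaleB_norm hb ε k hB q⟩

theorem ScaleB_L_norm {ε : ℝ} (hε : 0 < ε) (hε1 : ε ≤ 1) : ‖ScaleB_L ε‖ ≤ ε⁻¹ := by
  have h1 : 1 ≤ ε⁻¹ := (one_le_inv₀ hε).2 hε1
  have h0 : 0 < ε⁻¹ := inv_pos.2 hε
  refine ContinuousLinearMap.opNorm_le_bound _ h0.le fun q => ?_
  rw [ScaleB_L_apply]
  have hq1 : |q.1| ≤ ‖q‖ := norm_fst_le q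
  have hq2 : |q.2.1| ≤ ‖q‖ := (norm_fst_le q.2).trans (norm_snd_le q)
  have hq3 : |q.2.2| ≤ ‖q‖ := (norm_snd_le q.2).trans (norm_snd_le q)
  have hq : 0 ≤ ‖q‖ := norm_nonneg q
  rw [Prod.norm_def, Prod.norm_def]
  refine max_le ?_ (max_le ?_ ?_)
  · rw [Real.norm_eq_abs]
    nlinarith
  · rw [Real.norm_eq_abs, abs_mul, abs_of_pos h0]
    exact mul_le_mul_of_nonneg_left hq2 h0.le
  · rw [Real.norm_eq_abs, abs_mul, abs_of_pos h0]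
    exact mul_le_mul_of_nonneg_left hq3 h0.le

theorem ScaleB_key (C : ℝ) (k : ℕ) :
    ∀ᶠ ε in 𝓝[>] (0 : ℝ), C * Real.exp (-ε⁻¹) ≤ ε ^ k := by
  have h1 : Tendsto (fun ε : ℝ => ε⁻¹) (𝓝[>] (0 : ℝ)) atTop := tendsto_inv_nhdsGT_zero
  have h2 := (Real.tendsto_pow_mul_exp_neg_atTop_nhds_zero k).comp h1
  have hpos : (0 : ℝ) < 1 / (|C| + 1) := by positivity
  have h3 : ∀ᶠ ε in 𝓝[>] (0 : ℝ), (ε⁻¹) ^ k * Real.exp (-ε⁻¹) < 1 / (|C| + 1) :=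
    h2.eventually_lt_const hpos
  filter_upwards [h3, self_mem_nhdsWithin] with ε h hε
  have hε' : 0 < ε := hε
  have hC : C ≤ |C| + 1 := by linarith [le_abs_self C]
  have hexp := Real.exp_pos (-ε⁻¹)
  have hεk : 0 < ε ^ k := by positivity
  rw [lt_div_iff₀ (by positivity), inv_pow] at h
  have h4 : ((|C| + 1) * Real.exp (-ε⁻¹)) / ε ^ k < 1 := by
    calc ((|C| + 1) * Real.exp (-ε⁻¹)) / ε ^ k = (ε ^ k)⁻¹ * Real.exp (-ε⁻¹) * (|C| + 1) := by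
          field_simp
      _ < 1 := h
  rw [div_lt_one hεk] at h4
  calc C * Real.exp (-ε⁻¹) ≤ (|C| + 1) * Real.exp (-ε⁻¹) :=
        mul_le_mul_of_nonneg_right hC hexp.le
    _ ≤ ε ^ k := h4.le

theorem scaleB_eventually {m : ℕ} {b : ℝ × ℝ × ℝ → ℝ} (hb : IsBand m b) :
    ∀ᶠ ε in 𝓝[>] (0 : ℝ), ∀ k ≤ m, ∀ q, ‖iteratedFDeriv ℝ k (scaleB m b ε) q‖ ≤ (1 / 2) ^ m := by
  have key : ∀ k ∈ Finset.range (m + 1), ∀ᶠ ε in 𝓝[>] (0 : ℝ), ∀ q,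
      ‖iteratedFDeriv ℝ k (scaleB m b ε) q‖ ≤ (1 / 2) ^ m := by
    intro k _
    obtain ⟨B, hB0, hB⟩ := ScaleB_bd hb k
    filter_upwards [ScaleB_key (160 * B * 2 ^ m) k, self_mem_nhdsWithin,
      Ioo_mem_nhdsGT (one_pos : (0 : ℝ) < 1)] with ε h hε hε1 q
    have hε' : 0 < ε := hε
    have hεk : 0 < ε ^ k := by positivity
    have hL := ScaleB_L_norm hε' hε1.2.le
    have hLk : ‖ScaleB_L ε‖ ^ k ≤ (ε ^ k)⁻¹ := by
      rw [← inv_pow]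
      exact pow_le_pow_left₀ (norm_nonneg _) hL k
    have h2m : (0 : ℝ) < 2 ^ m := by positivity
    calc ‖iteratedFDeriv ℝ k (scaleB m b ε) q‖ ≤ ia ε * (B * ‖ScaleB_L ε‖ ^ k) :=
          ScaleB_norm hb ε k hB q
      _ ≤ ia ε * (B * (ε ^ k)⁻¹) :=
          mul_le_mul_of_nonneg_left (mul_le_mul_of_nonneg_left hLk hB0) (ScaleB_ia ε).le
      _ = (160 * B * 2 ^ m * Real.exp (-ε⁻¹)) / ε ^ k * (1 / 2) ^ m := by
          unfold ia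
          have e1 : (2 : ℝ) ^ m * (1 / 2) ^ m = 1 := by
            rw [← mul_pow]
            norm_num
          calc 160 * Real.exp (-ε⁻¹) * (B * (ε ^ k)⁻¹)
              = 160 * Real.exp (-ε⁻¹) * (B * (ε ^ k)⁻¹) * ((2 : ℝ) ^ m * (1 / 2) ^ m) := by
                rw [e1, mul_one]
            _ = _ := by
                rw [div_eq_mul_inv]
                ring
      _ ≤ 1 * (1 / 2) ^ m := by
          refine mul_le_mul_of_nonneg_right ?_ (by positivity)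
          rw [div_le_one hεk]
          exact h
      _ = (1 / 2) ^ m := one_mul _
  have h := (Filter.eventually_all_finset (Finset.range (m + 1))).2 key
  filter_upwards [h] with ε hε k hk
  exact hε k (Finset.mem_range.2 (Nat.lt_succ_of_le hk))

end P4cae09
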