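import Pool.Agent.Lib.P4cae09.Defs

/-!
# P4cae09.SmallEv (0.8 h): `Small m ε` holds for all small `ε > 0`

Each field is of the form: (constant) `e^{-c/ε}` times a power of `1/ε` tends to `0` as `ε → 0+`
(substitute `s = ε⁻¹ → ∞`, `Real.tendsto_pow_mul_exp_neg_atTop_nhds_zero`).
`s3`: `√(26 CC ia ε) = √(26·160·CC) e^{-1/(2ε)}`.
-/

namespace P4cae09
open Filter Topology

theorem SmallEv_key (C c : ℝ) (hc : 0 < c) (k : ℕ) :
    ∀ᶠ ε in 𝓝[>] (0 : ℝ), C * Real.exp (-c * ε⁻¹) ≤ ε ^ k := by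
  have h1 : Tendsto (fun ε : ℝ => c * ε⁻¹) (𝓝[>] (0 : ℝ)) atTop :=
    Tendsto.const_mul_atTop hc tendsto_inv_nhdsGT_zero
  have h2 := (Real.tendsto_pow_mul_exp_neg_atTop_nhds_zero k).comp h1
  have hpos : (0 : ℝ) < c ^ k / (|C| + 1) := by positivity
  have h3 : ∀ᶠ ε in 𝓝[>] (0 : ℝ), (c * ε⁻¹) ^ k * Real.exp (-(c * ε⁻¹)) < c ^ k / (|C| + 1) := by
    have h4 := h2.eventually_lt_const hpos
    exact h4
  filter_upwards [h3, self_mem_nhdsWithin] with ε h hε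
  have hε' : 0 < ε := hε
  have e1 : Real.exp (-c * ε⁻¹) = Real.exp (-(c * ε⁻¹)) := by
    congr 1
    ring
  rw [e1]
  have hC : C ≤ |C| + 1 := by linarith [le_abs_self C]
  have hexp := Real.exp_pos (-(c * ε⁻¹))
  have hck : 0 < c ^ k := by positivity
  have hεk : 0 < ε ^ k := by positivity
  rw [lt_div_iff₀ (by positivity)] at h
  have e2 : (c * ε⁻¹) ^ k = c ^ k / ε ^ k := by
    rw [mul_pow, inv_pow]
    rfl
  rw [e2] at h
  have e3 : c ^ k / ε ^ k * Real.exp (-(c * ε⁻¹)) * (|C| + 1) =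
      c ^ k * (((|C| + 1) * Real.exp (-(c * ε⁻¹))) / ε ^ k) := by
    field_simp
  rw [e3] at h
  have h5 : ((|C| + 1) * Real.exp (-(c * ε⁻¹))) / ε ^ k < 1 := by
    by_contra hcon
    push Not at hcon
    nlinarith
  rw [div_lt_one hεk] at h5
  calc C * Real.exp (-(c * ε⁻¹)) ≤ (|C| + 1) * Real.exp (-(c * ε⁻¹)) :=
        mul_le_mul_of_nonneg_right hC hexp.le
    _ ≤ ε ^ k := h5.le

theorem SmallEv_CC (m : ℕ) : 0 < CC m := by
  unfold CC
  positivity

theorem small_eventually (m : ℕ) (hm : 1 ≤ m) : ∀ᶠ ε in 𝓝[>] (0 : ℝ), Small m ε := by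
  have hCC := SmallEv_CC m
  have hm0 : (0 : ℝ) < m := by exact_mod_cast hm
  have hdd : 0 < dd m := by
    unfold dd
    positivity
  have hcen : 0 < cen m / 8 := by
    unfold cen
    positivity
  have hle : ∀ {a : ℝ}, 0 < a → ∀ᶠ ε in 𝓝[>] (0 : ℝ), ε ≤ a := by
    intro a ha
    filter_upwards [Ioo_mem_nhdsGT ha] with ε hε
    exact hε.2.le
  filter_upwards [self_mem_nhdsWithin, hle (a := 1 / 20) (by norm_num), hle hcen,
    SmallEv_key (160 * 10 ^ 6) 1 one_pos 2,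
    SmallEv_key (1000 * CC m) (98 / 100) (by norm_num) 0,
    SmallEv_key (m * CC m * Real.sqrt (26 * CC m * 160) * 10 ^ 10) (1 / 2) (by norm_num) 1,
    SmallEv_key (m * 10 ^ 6) (9 / 10) (by norm_num) 0,
    SmallEv_key (NN m * 160 * 10 ^ 6) 1 one_pos 1,
    SmallEv_key (10 ^ 4 / (dd m) ^ 2) (1 / 3) (by norm_num) 0] with ε h0 h1 h2 k1 k2 k3 k4 k5 k6
  have hε : 0 < ε := h0
  have e1 : Real.exp (-1 * ε⁻¹) = Real.exp (-ε⁻¹) := by
    congr 1
    ring
  refine ⟨hε, h1, h2, ?_, ?_, ?_, ?_, ?_, ?_⟩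
  · unfold ia
    rw [e1] at k1
    linarith
  · rw [pow_zero] at k2
    have h5 : Real.exp (98 / 100 * ε⁻¹) * Real.exp (-(98 / 100) * ε⁻¹) = 1 := by
      rw [← Real.exp_add]
      rw [show 98 / 100 * ε⁻¹ + -(98 / 100) * ε⁻¹ = 0 by ring, Real.exp_zero]
    have h6 := Real.exp_pos (-(98 / 100) * ε⁻¹)
    have h7 := Real.exp_pos (98 / 100 * ε⁻¹)
    calc 1000 * CC m = (1000 * CC m * Real.exp (-(98 / 100) * ε⁻¹)) *
          Real.exp (98 / 100 * ε⁻¹) := by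
          rw [mul_assoc, mul_comm (Real.exp (-(98 / 100) * ε⁻¹)), h5, mul_one]
      _ ≤ 1 * Real.exp (98 / 100 * ε⁻¹) := mul_le_mul_of_nonneg_right k2 h7.le
      _ = _ := one_mul _
  · rw [pow_one] at k3
    have e2 : Real.sqrt (26 * CC m * ia ε) =
        Real.sqrt (26 * CC m * 160) * Real.exp (-(1 / 2) * ε⁻¹) := by
      have e3 : Real.exp (-ε⁻¹) = Real.exp (-(1 / 2) * ε⁻¹) ^ 2 := by
        rw [← Real.exp_nat_mul]
        congr 1
        push_cast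
        ring
      unfold ia
      rw [show 26 * CC m * (160 * Real.exp (-ε⁻¹)) = (26 * CC m * 160) * Real.exp (-ε⁻¹) by ring,
        Real.sqrt_mul (by positivity), e3, Real.sqrt_sq (Real.exp_pos _).le]
    rw [e2]
    linarith
  · rw [pow_zero] at k4
    linarith
  · rw [pow_one, e1] at k5
    unfold ia
    linarith
  · rw [pow_zero] at k6
    have hd2 : 0 < (dd m) ^ 2 := by positivity
    rw [div_mul_eq_mul_div, div_le_one hd2] at k6
    linarith

end P4cae09
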