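import Pool.Agent.Lib.P4cae09.BandFun
import Pool.Agent.Lib.P4cae09.SmallEv
import Pool.Agent.Lib.P4cae09.ScaleB

/-!
# P4cae09.BetaSum (1.8 h): the function `β = Σ_m scaleB m b_m ε_m`

For every `m ≥ 1` choose `b_m` (`exists_band`) and `ε_m` with `Small m ε_m`, the estimate of
`scaleB_eventually`, and `(NN m + 1) ia ε_m ≤ 1/(8M)` (also eventually true).
`β q = ∑' m, if 1 ≤ m then scaleB m b_m ε_m q else 0` (or sum over `m+1`).
* smooth: `contDiff_tsum` with `v k m = ` a bound of `‖D^k‖` of the `m`-th term, `≤ 2^{-m}` for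
  `m ≥ k` (so summable: finitely many terms differ from a geometric series).
* the supports in `(x,y)` are in the discs `(x-c_m)²+y² < (2ε_m)²`, pairwise disjoint because
  `|c_m - c_l| ≥ c_l - c_{l+1} = c_l/2 ≥ 4 ε_l` for `m ≠ l` (`l < m`; use `ε_m ≤ c_m/8`), hence at every
  point at most one term is nonzero and `β = ` that term (or `0`): all the fields follow from the
  fields of `IsBand` by scaling (`x ↦ (x-c_m)/ε_m`, `y ↦ y/ε_m`,
  `√(((x-c)/ε)²+(y/ε)²) = √((x-c)²+y²)/ε`).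
* `ray`: if the point is in the disc of `m`: field `ray` of `b_m`. Otherwise it is in no disc: for
  `l ≠ m` a point within `√2 δηε_m/16` of the ray `c_m + s e_j` is at distance
  `≥ (√3/2)|c_m-c_l| - ε_m/100 ≥ 2 ε_l` from `c_l` (`|e_j|=1`, second coordinate of `e_j` at least `√3/2`
  as `|j/m| ≤ 1/2`; distance from `(c_l,0)` to the line is `|c_m-c_l| sn m j`;
  `|c_m - c_l| ≥ 4 max(ε_m, ε_l)`), so `β = 0` there and all three conclusions are clear
  (in the third one the hypothesis fails).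
-/

namespace P4cae09

open Filter Topology
open scoped ContDiff

theorem BetaSum_cen_pos (m : ℕ) : 0 < cen m := by unfold cen; positivity

theorem BetaSum_cen_succ_le {l m : ℕ} (h : l < m) : cen m ≤ cen l / 2 := by
  have h1 : cen m ≤ cen (l + 1) := by
    unfold cen
    exact pow_le_pow_of_le_one (by norm_num) (by norm_num) h
  have h2 : cen (l + 1) = cen l / 2 := by
    unfold cen
    rw [pow_succ]; ring
  linarith

theorem BetaSum_cen_sep {l m : ℕ} (h : l ≠ m) : cen l / 2 ≤ |cen l - cen m| ∧ cen m / 2 ≤ |cen l - cen m| := by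
  rcases lt_or_gt_of_ne h with h | h
  · have h1 := BetaSum_cen_succ_le h
    have h2 := BetaSum_cen_pos l
    have h3 := BetaSum_cen_pos m
    have h4 := le_abs_self (cen l - cen m)
    constructor <;> linarith
  · have h1 := BetaSum_cen_succ_le h
    have h2 := BetaSum_cen_pos l
    have h3 := BetaSum_cen_pos m
    have h4 := neg_abs_le (cen l - cen m)
    constructor <;> linarith

theorem BetaSum_CC_pos (m : ℕ) : 0 < CC m := SmallEv_CC m

theorem BetaSum_NN_pos (m : ℕ) : 0 < NN m := by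
  have := BetaSum_CC_pos m
  unfold NN
  linarith

theorem BetaSum_ia_pos (ε : ℝ) : 0 < ia ε := by unfold ia; positivity

theorem BetaSum_CC_ge (m : ℕ) : 1000 ≤ CC m := by
  have h : (1 : ℝ) ≤ Real.exp (1000 * m) := Real.one_le_exp (by positivity)
  unfold CC
  linarith

theorem BetaSum_dd_nonneg (m : ℕ) : 0 ≤ dd m := by
  have := BetaSum_CC_pos m
  unfold dd
  positivity

theorem BetaSum_dd_le {m : ℕ} (hm : 1 ≤ m) : dd m ≤ 1 / 1000 := by
  have h1 := BetaSum_CC_ge m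
  have hm' : (1 : ℝ) ≤ m := by exact_mod_cast hm
  have h2 : (1000 : ℝ) ≤ 10 ^ 7 * m * CC m := by nlinarith
  unfold dd
  exact one_div_le_one_div_of_le (by norm_num) h2

theorem BetaSum_sn_sq {m : ℕ} (hm : 1 ≤ m) {j : ℤ} (hj : 2 * |j| ≤ m) :
    |(j : ℝ) / m| ≤ 1 / 2 ∧ ((j : ℝ) / m) ^ 2 + sn m j ^ 2 = 1 ∧ 86 / 100 ≤ sn m j := by
  have hm' : (0 : ℝ) < m := by exact_mod_cast hm
  have h1 : |(j : ℝ) / m| ≤ 1 / 2 := by
    rw [abs_div, abs_of_pos hm', div_le_iff₀ hm']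
    have h2 : (2 : ℝ) * |(j : ℝ)| ≤ m := by exact_mod_cast hj
    linarith
  have h3 : ((j : ℝ) / m) ^ 2 ≤ 1 / 4 := by
    have h4 : |(j : ℝ) / m| ^ 2 ≤ (1 / 2) ^ 2 := pow_le_pow_left₀ (abs_nonneg _) h1 2
    rw [sq_abs] at h4
    linarith
  refine ⟨h1, ?_, ?_⟩
  · unfold sn
    rw [Real.sq_sqrt (by linarith)]
    ring
  · unfold sn
    apply Real.le_sqrt_of_sq_le
    norm_num
    linarith

theorem BetaSum_beta_choice (M : ℝ) (m : ℕ) : ∃ (b : ℝ × ℝ × ℝ → ℝ) (ε : ℝ), 1 ≤ m →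
    IsBand m b ∧ Small m ε ∧ (NN m + 1) * ia ε * (8 * M) ≤ 1 ∧
    ∀ k ≤ m, ∀ q, ‖iteratedFDeriv ℝ k (scaleB m b ε) q‖ ≤ (1 / 2) ^ m := by
  by_cases hm : 1 ≤ m
  · obtain ⟨b, hb⟩ := exists_band m hm
    have h := (small_eventually m hm).and ((scaleB_eventually hb).and
      (SmallEv_key ((NN m + 1) * 160 * (8 * M)) 1 one_pos 0))
    obtain ⟨ε, h1, h2, h3⟩ := h.exists
    refine ⟨b, ε, fun _ => ⟨hb, h1, ?_, h2⟩⟩
    rw [pow_zero] at h3
    have e : (-1 : ℝ) * ε⁻¹ = -ε⁻¹ := by ring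
    rw [e] at h3
    unfold ia
    linarith
  · exact ⟨fun _ => 0, 0, fun h => absurd h hm⟩

section sum

variable (b : ℕ → ℝ × ℝ × ℝ → ℝ) (ε : ℕ → ℝ)

/-- the `m`-th term of the sum -/
noncomputable def BetaSum_bterm (m : ℕ) (q : ℝ × ℝ × ℝ) : ℝ :=
  if 1 ≤ m then scaleB m (b m) (ε m) q else 0

/-- the sum -/
noncomputable def BetaSum_bsum (q : ℝ × ℝ × ℝ) : ℝ := ∑' m, BetaSum_bterm b ε m q

variable {b ε}

theorem BetaSum_bterm_zero (h : ∀ m, 1 ≤ m → IsBand m (b m) ∧ Small m (ε m)) (m : ℕ) (t x y : ℝ)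
    (hq : 1 ≤ m → (2 * ε m) ^ 2 ≤ (x - cen m) ^ 2 + y ^ 2) : BetaSum_bterm b ε m (t, x, y) = 0 := by
  unfold BetaSum_bterm
  split_ifs with hm
  · obtain ⟨hb, hs⟩ := h m hm
    have hε := hs.pos
    have h1 : 4 ≤ ((x - cen m) / ε m) ^ 2 + (y / ε m) ^ 2 := by
      rw [div_pow, div_pow, ← add_div, le_div_iff₀ (by positivity)]
      have := hq hm
      nlinarith
    unfold scaleB
    have := hb.zero t ((x - cen m) / ε m) (y / ε m) h1
    simp only
    rw [this, mul_zero]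
  · rfl

theorem BetaSum_disc_disj (h : ∀ m, 1 ≤ m → IsBand m (b m) ∧ Small m (ε m)) {l m : ℕ} (hl : 1 ≤ l)
    (hm : 1 ≤ m) (hne : l ≠ m) {x y : ℝ} (h1 : (x - cen m) ^ 2 + y ^ 2 < (2 * ε m) ^ 2) :
    (2 * ε l) ^ 2 ≤ (x - cen l) ^ 2 + y ^ 2 := by
  by_contra hcon
  push Not at hcon
  have hεm := (h m hm).2.pos
  have hεl := (h l hl).2.pos
  have h2 : |x - cen m| < 2 * ε m := by
    apply abs_lt_of_sq_lt_sq _ (by linarith)
    nlinarith [sq_nonneg y]
  have h3 : |x - cen l| < 2 * ε l := by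
    apply abs_lt_of_sq_lt_sq _ (by linarith)
    nlinarith [sq_nonneg y]
  have h4 : |cen l - cen m| < 2 * ε m + 2 * ε l := by
    have e : cen l - cen m = (x - cen m) - (x - cen l) := by ring
    rw [e]
    exact (abs_sub _ _).trans_lt (by linarith)
  have h5 := BetaSum_cen_sep hne
  have h6 := (h m hm).2.le_cen
  have h7 := (h l hl).2.le_cen
  have h8 := BetaSum_cen_pos l
  have h9 := BetaSum_cen_pos m
  linarith [h5.1, h5.2]

theorem BetaSum_bsum_disc (h : ∀ m, 1 ≤ m → IsBand m (b m) ∧ Small m (ε m)) {m : ℕ} (hm : 1 ≤ m)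
    (t : ℝ) {x y : ℝ} (h1 : (x - cen m) ^ 2 + y ^ 2 < (2 * ε m) ^ 2) :
    BetaSum_bsum b ε (t, x, y) = ia (ε m) * b m (t, (x - cen m) / ε m, y / ε m) := by
  unfold BetaSum_bsum
  rw [tsum_eq_single m]
  · unfold BetaSum_bterm
    rw [if_pos hm]
    rfl
  · intro l hl
    exact BetaSum_bterm_zero h l t x y (fun hl1 => BetaSum_disc_disj h hl1 hm hl h1)

theorem BetaSum_bsum_zero (h : ∀ m, 1 ≤ m → IsBand m (b m) ∧ Small m (ε m)) (t x y : ℝ)
    (hq : ∀ m : ℕ, 1 ≤ m → (2 * ε m) ^ 2 ≤ (x - cen m) ^ 2 + y ^ 2) :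
    BetaSum_bsum b ε (t, x, y) = 0 := by
  unfold BetaSum_bsum
  have : (fun m => BetaSum_bterm b ε m (t, x, y)) = fun _ => 0 := by
    funext m
    exact BetaSum_bterm_zero h m t x y (hq m)
  rw [this, tsum_zero]

theorem BetaSum_bsum_cases (h : ∀ m, 1 ≤ m → IsBand m (b m) ∧ Small m (ε m)) (x y : ℝ) :
    (∃ m, 1 ≤ m ∧ (x - cen m) ^ 2 + y ^ 2 < (2 * ε m) ^ 2) ∨ ∀ t, BetaSum_bsum b ε (t, x, y) = 0 := by
  by_cases hc : ∃ m, 1 ≤ m ∧ (x - cen m) ^ 2 + y ^ 2 < (2 * ε m) ^ 2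
  · exact Or.inl hc
  · push Not at hc
    exact Or.inr fun t => BetaSum_bsum_zero h t x y hc

theorem BetaSum_sqrt_scale {e x y : ℝ} (he : 0 < e) :
    Real.sqrt ((x / e) ^ 2 + (y / e) ^ 2) = Real.sqrt (x ^ 2 + y ^ 2) / e := by
  rw [div_pow, div_pow, ← add_div, Real.sqrt_div' _ (by positivity), Real.sqrt_sq he.le]

theorem BetaSum_bsum_smooth (h : ∀ m, 1 ≤ m → IsBand m (b m) ∧ Small m (ε m))
    (hd : ∀ m, 1 ≤ m → ∀ k ≤ m, ∀ q, ‖iteratedFDeriv ℝ k (scaleB m (b m) (ε m)) q‖ ≤ (1 / 2) ^ m) :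
    ContDiff ℝ ∞ (BetaSum_bsum b ε) := by
  have e : ∀ m, 1 ≤ m → BetaSum_bterm b ε m = scaleB m (b m) (ε m) := by
    intro m hm
    funext q
    unfold BetaSum_bterm
    rw [if_pos hm]
  have hf : ∀ m, ContDiff ℝ ((⊤ : ℕ∞) : WithTop ℕ∞) (BetaSum_bterm b ε m) := by
    intro m
    by_cases hm : 1 ≤ m
    · rw [e m hm]
      exact scaleB_contDiff (h m hm).1 _
    · have : BetaSum_bterm b ε m = fun _ => 0 := by
        funext q
        unfold BetaSum_bterm
        rw [if_neg hm]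
      rw [this]
      exact contDiff_const
  unfold BetaSum_bsum
  refine contDiff_tsum_of_eventually (N := ⊤) (v := fun _ m => (1 / 2 : ℝ) ^ m) hf ?_ ?_
  · intro k _
    exact summable_geometric_of_lt_one (by norm_num) (by norm_num)
  · intro k _
    rw [Nat.cofinite_eq_atTop]
    filter_upwards [eventually_ge_atTop (max 1 k)] with m hm q
    have hm1 : 1 ≤ m := (le_max_left _ _).trans hm
    rw [e m hm1]
    exact hd m hm1 k ((le_max_right _ _).trans hm) q

/-- a point near the ray of the `m`-th gadget is in no other disc -/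
theorem BetaSum_ray_disj (h : ∀ m, 1 ≤ m → IsBand m (b m) ∧ Small m (ε m)) {l m : ℕ} (hl : 1 ≤ l)
    (hm : 1 ≤ m) (hne : l ≠ m) {j : ℤ} (hj : 2 * |j| ≤ m) {x y s : ℝ}
    (hx : |x - cen m - s * ((j : ℝ) / m)| ≤ dd m * eta * ε m / 16)
    (hy : |y - s * sn m j| ≤ dd m * eta * ε m / 16) :
    (2 * ε l) ^ 2 ≤ (x - cen l) ^ 2 + y ^ 2 := by
  by_contra hcon
  push Not at hcon
  have hεm := (h m hm).2.pos
  have hεl := (h l hl).2.pos
  obtain ⟨hu, huv, hv⟩ := BetaSum_sn_sq hm hj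
  obtain ⟨u, hu'⟩ : ∃ u : ℝ, u = (j : ℝ) / m := ⟨_, rfl⟩
  obtain ⟨v, hv'⟩ : ∃ v : ℝ, v = sn m j := ⟨_, rfl⟩
  rw [← hu'] at hu huv hx
  rw [← hv'] at huv hv hy
  have hκ : dd m * eta * ε m / 16 ≤ ε m / 1000 := by
    have h1 := BetaSum_dd_le hm
    have h2 := BetaSum_dd_nonneg m
    have h3 : dd m * eta ≤ 1 / 1000 * 1 := by
      unfold eta
      nlinarith
    have h4 : dd m * eta * ε m ≤ 1 / 1000 * ε m := by
      apply mul_le_mul_of_nonneg_right _ hεm.le
      linarith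
    linarith
  have hx2 : |x - cen m - s * u| ≤ ε m / 1000 := hx.trans hκ
  have hy2 : |y - s * v| ≤ ε m / 1000 := hy.trans hκ
  have hv1 : v ≤ 1 := by nlinarith [sq_nonneg u]
  have hA : |v * (x - cen m) - u * y| ≤ 2 * (ε m / 1000) := by
    have e : v * (x - cen m) - u * y = v * (x - cen m - s * u) - u * (y - s * v) := by ring
    rw [e]
    refine (abs_sub _ _).trans ?_
    rw [abs_mul, abs_mul, abs_of_nonneg (by linarith : (0 : ℝ) ≤ v)]
    have a1 : v * |x - cen m - s * u| ≤ 1 * (ε m / 1000) :=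
      mul_le_mul hv1 hx2 (abs_nonneg _) (by norm_num)
    have a2 : |u| * |y - s * v| ≤ 1 * (ε m / 1000) :=
      mul_le_mul (by linarith) hy2 (abs_nonneg _) (by norm_num)
    linarith
  have hB : |v * (x - cen l) - u * y| ≤ 2 * ε l := by
    apply abs_le_of_sq_le_sq _ (by linarith)
    have e : (v * (x - cen l) - u * y) ^ 2 + (u * (x - cen l) + v * y) ^ 2
        = (u ^ 2 + v ^ 2) * ((x - cen l) ^ 2 + y ^ 2) := by ring
    rw [huv, one_mul] at e
    nlinarith [sq_nonneg (u * (x - cen l) + v * y)]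
  have hC : v * |cen l - cen m| ≤ 2 * (ε m / 1000) + 2 * ε l := by
    have e : v * (cen l - cen m) = (v * (x - cen m) - u * y) - (v * (x - cen l) - u * y) := by ring
    have e2 : v * |cen l - cen m| = |v * (cen l - cen m)| := by
      rw [abs_mul, abs_of_nonneg (by linarith : (0 : ℝ) ≤ v)]
    rw [e2, e]
    exact (abs_sub _ _).trans (by linarith)
  have hD : 86 / 100 * |cen l - cen m| ≤ v * |cen l - cen m| :=
    mul_le_mul_of_nonneg_right hv (abs_nonneg _)
  have h5 := BetaSum_cen_sep hne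
  have h6 := (h m hm).2.le_cen
  have h7 := (h l hl).2.le_cen
  have h8 := BetaSum_cen_pos l
  have h9 := BetaSum_cen_pos m
  linarith [h5.1, h5.2]

end sum

theorem exists_beta (M : ℝ) (hM : 0 < M) :
    ∃ (ε : ℕ → ℝ) (β : ℝ × ℝ × ℝ → ℝ), IsBeta M ε β := by
  choose b ε hbε using BetaSum_beta_choice M
  have h : ∀ m, 1 ≤ m → IsBand m (b m) ∧ Small m (ε m) :=
    fun m hm => ⟨(hbε m hm).1, (hbε m hm).2.1⟩
  refine ⟨ε, BetaSum_bsum b ε, ?_, ?_, ?_, ?_, ?_, ?_, ?_, ?_⟩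
  · exact fun m hm => (h m hm).2
  · exact BetaSum_bsum_smooth h (fun m hm => (hbε m hm).2.2.2)
  · rintro ⟨t, x, y⟩
    rcases BetaSum_bsum_cases h x y with ⟨m, hm, hd⟩ | h0
    · rw [BetaSum_bsum_disc h hm t hd, abs_mul, abs_of_pos (BetaSum_ia_pos _)]
      have h1 := (h m hm).1.abs_le (t, (x - cen m) / ε m, y / ε m)
      have h2 := (hbε m hm).2.2.1
      have h3 := BetaSum_ia_pos (ε m)
      rw [le_div_iff₀ (by positivity)]
      calc ia (ε m) * |b m (t, (x - cen m) / ε m, y / ε m)| * (8 * M)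
          ≤ ia (ε m) * (NN m + 1) * (8 * M) := by
            apply mul_le_mul_of_nonneg_right _ (by positivity)
            exact mul_le_mul_of_nonneg_left h1 h3.le
        _ = (NN m + 1) * ia (ε m) * (8 * M) := by ring
        _ ≤ 1 := h2
    · rw [h0 t, abs_zero]
      positivity
  · exact fun t x y hq => BetaSum_bsum_zero h t x y hq
  · intro t x y h1 h2
    unfold BetaSum_bsum
    congr 1
    funext m
    unfold BetaSum_bterm
    split_ifs with hm
    · unfold scaleB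
      simp only
      rw [(h m hm).1.tconst t _ _ h1 h2]
    · rfl
  · intro m hm t x y hd
    rw [BetaSum_bsum_disc h hm t hd]
    have h1 := (h m hm).1.le (t, (x - cen m) / ε m, y / ε m)
    have h3 := BetaSum_ia_pos (ε m)
    calc ia (ε m) * b m (t, (x - cen m) / ε m, y / ε m) ≤ ia (ε m) * (1 / 8) :=
          mul_le_mul_of_nonneg_left h1 h3.le
      _ = ia (ε m) / 8 := by ring
  · intro m hm t x y ht hd
    have hε := (h m hm).2.pos
    have hd' : (x - cen m) ^ 2 + y ^ 2 < (2 * ε m) ^ 2 := by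
      have : 0 < ε m ^ 2 := by positivity
      nlinarith
    have h3 := BetaSum_ia_pos (ε m)
    have hd1 : ((x - cen m) / ε m) ^ 2 + (y / ε m) ^ 2 ≤ 1 := by
      rw [div_pow, div_pow, ← add_div, div_le_one (by positivity)]
      exact hd
    rw [BetaSum_bsum_disc h hm t hd']
    rcases (h m hm).1.band t _ _ ht hd1 with h4 | ⟨j, hj1, hj2, h5⟩
    · left
      calc ia (ε m) * b m (t, (x - cen m) / ε m, y / ε m) ≤ ia (ε m) * (-NN m) :=
            mul_le_mul_of_nonneg_left h4 h3.le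
        _ = -(NN m * ia (ε m)) := by ring
    · right
      refine ⟨j, hj1, hj2, ?_⟩
      rcases h5 with h6 | h6
      · left
        rw [div_pow, div_pow, ← add_div, div_lt_iff₀ (by positivity)] at h6
        calc (x - cen m) ^ 2 + y ^ 2 < eta ^ 2 * ε m ^ 2 := h6
          _ = (eta * ε m) ^ 2 := by ring
      · right
        rw [BetaSum_sqrt_scale hε] at h6
        have e1 : (x - cen m) / ε m - (j : ℝ) / m * (Real.sqrt ((x - cen m) ^ 2 + y ^ 2) / ε m)
            = ((x - cen m) - (j : ℝ) / m * Real.sqrt ((x - cen m) ^ 2 + y ^ 2)) / ε m := by ring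
        rw [e1, abs_div, abs_of_pos hε, ← mul_div_assoc, div_lt_div_iff_of_pos_right hε] at h6
        exact h6
  · intro m hm j hj t t' x y s ht ht' hs hx hy
    have hε := (h m hm).2.pos
    by_cases hd : (x - cen m) ^ 2 + y ^ 2 < (2 * ε m) ^ 2
    · rw [BetaSum_bsum_disc h hm t hd, BetaSum_bsum_disc h hm t' hd]
      have h3 := BetaSum_ia_pos (ε m)
      have hx' : |(x - cen m) / ε m - s / ε m * ((j : ℝ) / m)| ≤ dd m * eta / 16 := by
        have e1 : (x - cen m) / ε m - s / ε m * ((j : ℝ) / m)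
            = (x - cen m - s * ((j : ℝ) / m)) / ε m := by ring
        rw [e1, abs_div, abs_of_pos hε, div_le_iff₀ hε]
        linarith
      have hy' : |y / ε m - s / ε m * sn m j| ≤ dd m * eta / 16 := by
        have e1 : y / ε m - s / ε m * sn m j = (y - s * sn m j) / ε m := by ring
        rw [e1, abs_div, abs_of_pos hε, div_le_iff₀ hε]
        linarith
      obtain ⟨r1, r2, r3⟩ := (h m hm).1.ray j hj t t' _ _ (s / ε m) ht ht' (by positivity) hx' hy'
      refine ⟨by rw [r1], mul_nonneg h3.le r2, ?_⟩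
      intro hd2
      have hd1 : ((x - cen m) / ε m) ^ 2 + (y / ε m) ^ 2 ≤ 1 := by
        rw [div_pow, div_pow, ← add_div, div_le_one (by positivity)]
        exact hd2
      rw [r3 hd1]
      ring
    · push Not at hd
      have hno : ∀ l : ℕ, 1 ≤ l → (2 * ε l) ^ 2 ≤ (x - cen l) ^ 2 + y ^ 2 := by
        intro l hl
        by_cases hlm : l = m
        · rw [hlm]; exact hd
        · exact BetaSum_ray_disj h hl hm hlm hj hx hy
      rw [BetaSum_bsum_zero h t x y hno, BetaSum_bsum_zero h t' x y hno]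
      refine ⟨rfl, le_refl _, ?_⟩
      intro hd2
      exfalso
      have : 0 < ε m ^ 2 := by positivity
      nlinarith

end P4cae09
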