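import Pool.Agent.Lib.P4cae09.GGfun

/-!
# P4cae09.Bounds (1.5 h): bounds on the domain

Let `rho c β P < 0` (or `≤ 0`). All squares and `ell`'s are `≥ 0`, `gg ≤ 10`, `|β| ≤ 1/(8M) ≤ 1`, so with
`z,w,v,p,r`: `M|v|² - |z||v| + (|z|²-1)² + K(..)² + K (Im p)² + K (Im r)² + ell + ell + ell ≤ 11`
(and `- gg (Re r) ≥ 4` if `Re r ≥ 5`, `gg_large`). As `M|v|² - |z||v| ≥ -|z|²/(4M)`:
`(|z|²-1)² ≤ 11 + |z|²/(4M)` gives `|z| ≤ 3` (`|z|² ≤ 4.4`); then `-|z|²/(4M)` is tiny, every `ell ≤ 11.1 < 12`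
so `|w|² - 4 < 2`, `(Re p)² - 16 < 2`, `-1 - Re r < 2` (`ell_large`), and `Re r < 5`. `M|v|² ≤ 3|v| + 11`
gives `|v| ≤ 5/√M ≤ u/20` (`M ≥ 10^4/u²`, `u ≤ 10^{-6}`), so `|zv| ≤ u`; `K(Im p)² + K(Im r)² ≤ 12`.
`dom_key` is the inequality `rho < 0` with some nonnegative terms dropped (`Re(zv) = -Re U`).
-/

namespace P4cae09
open scoped ContDiff

variable {c : Consts} {ε : ℕ → ℝ} {β : ℝ × ℝ × ℝ → ℝ}

private lemma M_big (c : Consts) : 10 ^ 16 ≤ c.M := by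
  have hu := c.u_pos
  have hu2 : c.u ^ 2 ≤ 1 / 10 ^ 12 := by
    have h := c.u_le
    have h2 : c.u ^ 2 ≤ (1 / 10 ^ 6) ^ 2 := by
      apply pow_le_pow_left₀ hu.le h
    norm_num at h2 ⊢
    linarith
  have h1 : (10 : ℝ) ^ 16 ≤ 10 ^ 4 / c.u ^ 2 := by
    rw [le_div_iff₀ (by positivity)]
    nlinarith
  linarith [c.M_ge]

private lemma M_usq (c : Consts) : 10 ^ 4 ≤ c.M * c.u ^ 2 := by
  have hu := c.u_pos
  have h := c.M_ge
  rwa [div_le_iff₀ (by positivity)] at h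

/-- the scalar inequality behind the bounds -/
private lemma scalar_bounds {M u a b t s : ℝ} (hM : 10 ^ 16 ≤ M) (hMu : 10 ^ 4 ≤ M * u ^ 2)
    (hu : 0 < u) (hu1 : u ≤ 1 / 10 ^ 6) (ha : 0 ≤ a) (hb : 0 ≤ b) (hs : 0 ≤ s)
    (hg : t ≤ 10 + 1 / 10) (h : -(a * b) + M * b ^ 2 + (a ^ 2 - 1) ^ 2 + s ≤ t) :
    a ≤ 3 ∧ b ≤ u / 20 ∧ s ≤ t + 1 / 10 ∧ -(1 / 10) ≤ t := by
  have hM0 : (0 : ℝ) < M := by linarith [show (0 : ℝ) < 10 ^ 16 by norm_num]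
  -- `a b ≤ M b² / 2 + a² / (2 M)`
  have hab : a * b ≤ M * b ^ 2 / 2 + a ^ 2 / 10 ^ 4 := by
    have h1 : a * b ≤ (100 * b) ^ 2 * 1 + a ^ 2 / (4 * 10 ^ 4) := by
      nlinarith [sq_nonneg (100 * b - a / 200)]
    have h2 : (100 * b) ^ 2 ≤ M * b ^ 2 / 2 := by
      nlinarith [sq_nonneg b, mul_nonneg (sub_nonneg.mpr hM) (sq_nonneg b)]
    have h3 : a ^ 2 / (4 * 10 ^ 4) ≤ a ^ 2 / 10 ^ 4 := by
      apply div_le_div_of_nonneg_left (sq_nonneg a) (by norm_num) (by norm_num)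
    linarith
  have hMb : 0 ≤ M * b ^ 2 := by positivity
  have h1 : (a ^ 2 - 1) ^ 2 ≤ t + a ^ 2 / 10 ^ 4 := by linarith
  have ha2 : a ^ 2 ≤ 9 := by
    by_contra hcon
    push Not at hcon
    nlinarith [sq_nonneg (a ^ 2 - 9)]
  have ha3 : a ≤ 3 := by
    nlinarith
  have hsm : a ^ 2 / 10 ^ 4 ≤ 1 / 10 := by
    rw [div_le_div_iff₀ (by norm_num) (by norm_num)]
    linarith
  refine ⟨ha3, ?_, ?_, ?_⟩
  · by_contra hcon
    push Not at hcon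
    have hab3 : a * b ≤ 3 * b := mul_le_mul_of_nonneg_right ha3 hb
    have h4 : M * b ^ 2 ≤ 3 * b + 11 := by nlinarith [sq_nonneg (a ^ 2 - 1)]
    -- `M b ≥ 10^14`, so `3 b ≤ M b² / 2`
    have h5 : M * (u / 20) ^ 2 ≤ M * b ^ 2 := by
      apply mul_le_mul_of_nonneg_left _ hM0.le
      exact pow_le_pow_left₀ (by positivity) hcon.le 2
    have h6 : (25 : ℝ) ≤ M * (u / 20) ^ 2 := by nlinarith
    -- `b` cannot be large
    have h7 : b ≤ 1 := by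
      by_contra hb1
      push Not at hb1
      nlinarith
    nlinarith
  · nlinarith [sq_nonneg (a ^ 2 - 1)]
  · nlinarith [sq_nonneg (a ^ 2 - 1)]

/-- bounds on the closed region `rho ≤ 0` -/
theorem rho_bounds (hβ : IsBeta c.M ε β) {P : Fin 5 → ℂ} (hP : rho c β P ≤ 0) :
    ‖P 0‖ ≤ 3 ∧ ‖P 1‖ ≤ 3 ∧ ‖P 2‖ ≤ c.u ∧ ‖P 0 * P 2‖ ≤ c.u ∧ |(P 3).re| ≤ 5 ∧ |(P 4).re| ≤ 5 ∧
      c.K * ((P 3).im ^ 2 + (P 4).im ^ 2) ≤ 12 := by
  have hM := M_big c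
  have hM0 : (0 : ℝ) < c.M := by linarith [show (0 : ℝ) < 10 ^ 16 by norm_num]
  have hK0 : (0 : ℝ) < c.K := by linarith [c.K_ge, show (0 : ℝ) < 10 ^ 14 by norm_num]
  have hu := c.u_pos
  have hb := hβ.abs_le (tt P, (P 3).re, (P 4).re)
  have hb1 : (1 : ℝ) / (8 * c.M) ≤ 1 / 10 := by
    rw [div_le_div_iff₀ (by positivity) (by norm_num)]
    linarith [show (10 : ℝ) ≤ 10 ^ 16 by norm_num]
  have hb2 := (abs_le.mp hb).1
  have hb3 := (abs_le.mp hb).2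
  have hre : -(‖P 0‖ * ‖P 2‖) ≤ (P 0 * P 2).re := by
    have h := Complex.abs_re_le_norm (P 0 * P 2)
    rw [norm_mul] at h
    linarith [(abs_le.mp h).1]
  have he1 := ell_nonneg (‖P 1‖ ^ 2 - 4)
  have he2 := ell_nonneg ((P 3).re ^ 2 - 16)
  have he3 := ell_nonneg (-1 - (P 4).re)
  have hk1 : 0 ≤ c.K * (((starRingEnd ℂ) (P 0) * P 1).im) ^ 2 := by positivity
  have hk2 : 0 ≤ c.K * (P 3).im ^ 2 := by positivity
  have hk3 : 0 ≤ c.K * (P 4).im ^ 2 := by positivity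
  have hg := gg_le (P 4).re
  unfold rho at hP
  set s : ℝ := c.K * (((starRingEnd ℂ) (P 0) * P 1).im) ^ 2 + c.K * (P 3).im ^ 2
    + c.K * (P 4).im ^ 2 + ell (‖P 1‖ ^ 2 - 4) + ell ((P 3).re ^ 2 - 16)
    + ell (-1 - (P 4).re) with hs
  set t : ℝ := gg (P 4).re + β (tt P, (P 3).re, (P 4).re) with ht
  have hs0 : 0 ≤ s := by rw [hs]; positivity
  have hmain := scalar_bounds (M := c.M) (u := c.u) (a := ‖P 0‖) (b := ‖P 2‖) (t := t) (s := s)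
    hM (M_usq c) hu c.u_le (norm_nonneg _) (norm_nonneg _) hs0 (by rw [ht]; linarith)
    (by rw [hs, ht]; linarith)
  obtain ⟨h1, h2, h3, h4⟩ := hmain
  have ht' : t ≤ 10 + 1 / 10 := by rw [ht]; linarith
  have hs' : s ≤ 10 + 2 / 10 := by linarith
  have hw : ‖P 1‖ ^ 2 - 4 < 2 := by
    by_contra hcon
    push Not at hcon
    have := ell_large hcon
    rw [hs] at hs'
    linarith
  have hp : (P 3).re ^ 2 - 16 < 2 := by
    by_contra hcon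
    push Not at hcon
    have := ell_large hcon
    rw [hs] at hs'
    linarith
  have hr : -1 - (P 4).re < 2 := by
    by_contra hcon
    push Not at hcon
    have := ell_large hcon
    rw [hs] at hs'
    linarith
  have hr5 : (P 4).re < 5 := by
    by_contra hcon
    push Not at hcon
    have := gg_large hcon
    rw [ht] at h4
    linarith
  have hb0 : ‖P 2‖ ≤ c.u := by linarith
  refine ⟨h1, ?_, hb0, ?_, ?_, ?_, ?_⟩
  · nlinarith [norm_nonneg (P 1)]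
  · rw [norm_mul]
    nlinarith [norm_nonneg (P 0), norm_nonneg (P 2)]
  · apply abs_le_of_sq_le_sq _ (by norm_num)
    linarith
  · rw [abs_le]
    constructor <;> linarith
  · rw [hs] at hs'
    linarith

theorem dom_bounds (hβ : IsBeta c.M ε β) {P : Fin 5 → ℂ} (hP : P ∈ Dom c β) :
    ‖P 0‖ ≤ 3 ∧ ‖P 1‖ ≤ 3 ∧ ‖P 2‖ ≤ c.u ∧ ‖P 0 * P 2‖ ≤ c.u ∧ |(P 3).re| ≤ 5 ∧ |(P 4).re| ≤ 5 ∧
      c.K * ((P 3).im ^ 2 + (P 4).im ^ 2) ≤ 12 :=
  rho_bounds hβ (le_of_lt hP)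

/-- the key inequality on the domain -/
theorem dom_key {P : Fin 5 → ℂ} (hP : P ∈ Dom c β) :
    c.K * ((P 3).im ^ 2 + (P 4).im ^ 2) + c.K * (((starRingEnd ℂ) (P 0) * P 1).im) ^ 2
      + (‖P 0‖ ^ 2 - 1) ^ 2 < (UU P).re + (gg (P 4).re + β (tt P, (P 3).re, (P 4).re)) := by
  have hM := M_big c
  have hM0 : (0 : ℝ) < c.M := by linarith [show (0 : ℝ) < 10 ^ 16 by norm_num]
  have he1 := ell_nonneg (‖P 1‖ ^ 2 - 4)
  have he2 := ell_nonneg ((P 3).re ^ 2 - 16)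
  have he3 := ell_nonneg (-1 - (P 4).re)
  have hMv : 0 ≤ c.M * ‖P 2‖ ^ 2 := by positivity
  have h : rho c β P < 0 := hP
  unfold rho at h
  have hU : (UU P).re = -(P 0 * P 2).re := by
    unfold UU
    rw [Complex.neg_re]
  rw [hU]
  linarith

theorem dom_isBounded (hβ : IsBeta c.M ε β) : Bornology.IsBounded (Dom c β) := by
  rw [isBounded_iff_forall_norm_le]
  refine ⟨10, ?_⟩
  intro P hP
  obtain ⟨h0, h1, h2, _, h3, h4, h5⟩ := dom_bounds hβ hP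
  have hK : (12 : ℝ) ≤ c.K := by linarith [c.K_ge, show (12 : ℝ) ≤ 10 ^ 14 by norm_num]
  have h6 : (P 3).im ^ 2 + (P 4).im ^ 2 ≤ 1 := by
    by_contra hcon
    push Not at hcon
    nlinarith [sq_nonneg (P 3).im, sq_nonneg (P 4).im]
  have h7 : |(P 3).im| ≤ 1 := by
    apply abs_le_of_sq_le_sq _ (by norm_num)
    nlinarith [sq_nonneg (P 4).im]
  have h8 : |(P 4).im| ≤ 1 := by
    apply abs_le_of_sq_le_sq _ (by norm_num)
    nlinarith [sq_nonneg (P 3).im]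
  rw [pi_norm_le_iff_of_nonneg (by norm_num)]
  intro i
  fin_cases i
  · show ‖P 0‖ ≤ 10
    linarith
  · show ‖P 1‖ ≤ 10
    linarith
  · show ‖P 2‖ ≤ 10
    have := c.u_le
    norm_num at this
    linarith
  · show ‖P 3‖ ≤ 10
    have := Complex.norm_le_abs_re_add_abs_im (P 3)
    linarith
  · show ‖P 4‖ ≤ 10
    have := Complex.norm_le_abs_re_add_abs_im (P 4)
    linarith

end P4cae09
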