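import Pool.Agent.Lib.P4cae09.Defs

/-!
# P4cae09.CauchyParam (2 h): Cauchy integrals with parameters are holomorphic

General principle: `E` finite-dimensional complex normed space (`Fin 5 → ℂ`), `W ⊆ E` open, `G : ℂ → E → ℂ` such that
for `u` on the unit circle and `Q ∈ W`, `G u` is complex differentiable at `Q`, and `(u, Q) ↦ G u Q` is continuous on
`{‖u‖=1} × W`. Then `Q ↦ ∮ u in C(0,1), G u Q` is differentiable on `W`. Proof: near `Q₀` (ball `B(Q₀,r)`, compactness of the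
circle) `|G| ≤ C`; the Cauchy estimate on complex lines gives `‖fderiv (G u)‖ ≤ 2C/r` on `B(Q₀,r/2)` for each `u`; apply
`hasFDerivAt_integral_of_dominated_of_fderiv_le`; measurability of `u ↦ fderiv (G u) Q₀`: `measurable_fderiv_with_param`
for the composition with a retraction on the ball. Apply it to `G u P = (u - P 0)⁻¹ f (shear t u (unsh t P))` on the open
set `fig t N`.
-/

namespace P4cae09

namespace CauchyAux

open Metric Set

/-- radial retraction on a closed ball -/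
noncomputable def retr (Q0 : Fin 5 → ℂ) (r : ℝ) (Q : Fin 5 → ℂ) : Fin 5 → ℂ :=
  Q0 + (r / max r ‖Q - Q0‖) • (Q - Q0)

theorem retr_cont (Q0 : Fin 5 → ℂ) {r : ℝ} (hr : 0 < r) : Continuous (retr Q0 r) := by
  have h1 : Continuous fun Q : Fin 5 → ℂ => r / max r ‖Q - Q0‖ :=
    continuous_const.div (by fun_prop) fun Q => (lt_of_lt_of_le hr (le_max_left _ _)).ne'
  have h2 : Continuous fun Q : Fin 5 → ℂ => Q - Q0 := by fun_prop
  exact continuous_const.add (h1.smul h2)

theorem retr_mem (Q0 : Fin 5 → ℂ) {r : ℝ} (hr : 0 < r) (Q : Fin 5 → ℂ) :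
    retr Q0 r Q ∈ closedBall Q0 r := by
  unfold retr
  rw [mem_closedBall, dist_eq_norm, add_sub_cancel_left, norm_smul]
  have h1 : 0 < max r ‖Q - Q0‖ := lt_of_lt_of_le hr (le_max_left _ _)
  rw [Real.norm_of_nonneg (by positivity), div_mul_eq_mul_div, div_le_iff₀ h1]
  exact mul_le_mul_of_nonneg_left (le_max_right _ _) hr.le

theorem retr_eq (Q0 : Fin 5 → ℂ) {r : ℝ} (hr : 0 < r) {Q : Fin 5 → ℂ} (hQ : Q ∈ closedBall Q0 r) :
    retr Q0 r Q = Q := by
  unfold retr
  rw [mem_closedBall, dist_eq_norm] at hQ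
  rw [max_eq_left hQ, div_self hr.ne', one_smul, add_sub_cancel]

theorem fderiv_bound {W : Set (Fin 5 → ℂ)} (hW : IsOpen W) (g : (Fin 5 → ℂ) → ℂ)
    (hd : DifferentiableOn ℂ g W) {Q0 : Fin 5 → ℂ} {r C : ℝ} (hr : 0 < r)
    (hrW : closedBall Q0 r ⊆ W) (hC : ∀ Q ∈ closedBall Q0 r, ‖g Q‖ ≤ C) {Q : Fin 5 → ℂ}
    (hQ : Q ∈ ball Q0 (r / 2)) : ‖fderiv ℂ g Q‖ ≤ C / (r / 2) := by
  have hC0 : 0 ≤ C := (norm_nonneg _).trans (hC Q0 (mem_closedBall_self hr.le))
  refine ContinuousLinearMap.opNorm_le_bound _ (by positivity) ?_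
  intro v
  by_cases hv : v = 0
  · rw [hv]
    simp
  have hv0 : 0 < ‖v‖ := norm_pos_iff.2 hv
  have hmem : ∀ ζ : ℂ, ‖ζ‖ ≤ (r / 2) / ‖v‖ → Q + ζ • v ∈ closedBall Q0 r := by
    intro ζ hζ
    rw [mem_closedBall, dist_eq_norm]
    rw [mem_ball, dist_eq_norm] at hQ
    have h1 : ‖ζ • v‖ ≤ r / 2 := by
      rw [norm_smul]
      rwa [le_div_iff₀ hv0] at hζ
    calc ‖Q + ζ • v - Q0‖ = ‖(Q - Q0) + ζ • v‖ := by congr 1; abel
      _ ≤ ‖Q - Q0‖ + ‖ζ • v‖ := norm_add_le _ _
      _ ≤ r := by linarith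
  have hdiff : ∀ ζ : ℂ, ‖ζ‖ ≤ (r / 2) / ‖v‖ →
      HasDerivAt (fun ζ : ℂ => g (Q + ζ • v)) (fderiv ℂ g (Q + ζ • v) v) ζ := by
    intro ζ hζ
    have h1 : HasFDerivAt g (fderiv ℂ g (Q + ζ • v)) (Q + ζ • v) :=
      (hd.differentiableAt (hW.mem_nhds (hrW (hmem ζ hζ)))).hasFDerivAt
    have h2 : HasDerivAt (fun ζ : ℂ => Q + ζ • v) v ζ := by
      have := ((hasDerivAt_id ζ).smul_const v).const_add Q
      simpa using this
    exact h1.comp_hasDerivAt ζ h2
  have hR : 0 < (r / 2) / ‖v‖ := by positivity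
  have hcl : DiffContOnCl ℂ (fun ζ : ℂ => g (Q + ζ • v)) (ball 0 ((r / 2) / ‖v‖)) := by
    apply DifferentiableOn.diffContOnCl
    rw [closure_ball _ hR.ne']
    intro ζ hζ
    rw [mem_closedBall, dist_zero_right] at hζ
    exact (hdiff ζ hζ).differentiableAt.differentiableWithinAt
  have h3 := Complex.norm_deriv_le_of_forall_mem_sphere_norm_le hR hcl (C := C) (by
    intro ζ hζ
    rw [mem_sphere, dist_zero_right] at hζ
    exact hC _ (hmem ζ hζ.le))
  have h4 := hdiff 0 (by rw [norm_zero]; exact hR.le)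
  rw [h4.deriv, zero_smul, add_zero] at h3
  refine h3.trans (le_of_eq ?_)
  field_simp

theorem diffParam {W : Set (Fin 5 → ℂ)} (hW : IsOpen W) (G : ℝ → (Fin 5 → ℂ) → ℂ)
    (hc : ContinuousOn (Function.uncurry G) (univ ×ˢ W))
    (hd : ∀ θ, DifferentiableOn ℂ (G θ) W) (a b : ℝ) :
    DifferentiableOn ℂ (fun Q => ∫ θ in a..b, G θ Q) W := by
  intro Q0 hQ0
  obtain ⟨r, hr, hrW⟩ : ∃ r > 0, closedBall Q0 r ⊆ W :=
    nhds_basis_closedBall.mem_iff.1 (hW.mem_nhds hQ0)
  obtain ⟨C, hC⟩ := ((isCompact_uIcc (a := a) (b := b)).prod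
    (isCompact_closedBall Q0 r)).exists_bound_of_continuousOn
      (hc.mono (prod_mono (subset_univ _) hrW))
  have hGc : Continuous (Function.uncurry fun θ Q => G θ (retr Q0 r Q)) := by
    refine hc.comp_continuous (f := fun p : ℝ × (Fin 5 → ℂ) => (p.1, retr Q0 r p.2)) ?_ ?_
    · exact continuous_fst.prodMk ((retr_cont Q0 hr).comp continuous_snd)
    · intro p
      exact ⟨mem_univ _, hrW (retr_mem Q0 hr p.2)⟩
  have hmeas := measurable_fderiv_with_param ℂ hGc
  have hev : ∀ θ, fderiv ℂ (fun Q => G θ (retr Q0 r Q)) Q0 = fderiv ℂ (G θ) Q0 := by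
    intro θ
    apply Filter.EventuallyEq.fderiv_eq
    filter_upwards [closedBall_mem_nhds Q0 hr] with Q hQ
    rw [retr_eq Q0 hr hQ]
  have hmeas2 : Measurable (fun θ => fderiv ℂ (G θ) Q0) := by
    have h1 : Measurable (fun θ : ℝ => fderiv ℂ (fun Q => G θ (retr Q0 r Q)) Q0) :=
      hmeas.comp (measurable_id.prodMk measurable_const)
    have h2 : (fun θ : ℝ => fderiv ℂ (fun Q => G θ (retr Q0 r Q)) Q0) =
        fun θ => fderiv ℂ (G θ) Q0 := funext hev
    rwa [h2] at h1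
  have hcont : ∀ Q ∈ W, Continuous fun θ => G θ Q := by
    intro Q hQ
    refine hc.comp_continuous (f := fun θ : ℝ => (θ, Q)) (by fun_prop) ?_
    intro θ
    exact ⟨mem_univ _, hQ⟩
  have key := intervalIntegral.hasFDerivAt_integral_of_dominated_of_fderiv_le (𝕜 := ℂ)
    (μ := MeasureTheory.volume) (a := a) (b := b) (s := ball Q0 (r / 2))
    (F := fun Q θ => G θ Q) (F' := fun Q θ => fderiv ℂ (G θ) Q) (x₀ := Q0)
    (bound := fun _ => C / (r / 2)) (ball_mem_nhds Q0 (by positivity)) ?_ ?_ ?_ ?_ ?_ ?_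
  · exact key.differentiableAt.differentiableWithinAt
  · filter_upwards [hW.mem_nhds hQ0] with Q hQ
    exact (hcont Q hQ).aestronglyMeasurable
  · exact (hcont Q0 hQ0).intervalIntegrable _ _
  · exact hmeas2.aestronglyMeasurable
  · filter_upwards with θ hθ Q hQ
    refine fderiv_bound hW (G θ) (hd θ) hr hrW ?_ hQ
    intro Q' hQ'
    exact hC (θ, Q') ⟨uIoc_subset_uIcc hθ, hQ'⟩
  · exact intervalIntegrable_const
  · filter_upwards with θ _ Q hQ
    refine ((hd θ).differentiableAt (hW.mem_nhds (hrW ?_))).hasFDerivAt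
    exact ball_subset_closedBall (ball_subset_ball (by linarith) hQ)

theorem shear_diff (t u : ℂ) : Differentiable ℂ fun P : Fin 5 → ℂ => shear t u (unsh t P) := by
  unfold shear unsh
  rw [differentiable_pi]
  intro i
  fin_cases i
  · simp
  · show Differentiable ℂ fun P : Fin 5 → ℂ => P 1 - t * P 0 + t * u
    fun_prop
  · show Differentiable ℂ fun P : Fin 5 → ℂ => P 2
    fun_prop
  · show Differentiable ℂ fun P : Fin 5 → ℂ => P 3
    fun_prop
  · show Differentiable ℂ fun P : Fin 5 → ℂ => P 4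
    fun_prop

theorem shear_cont (t : ℂ) :
    Continuous fun p : ℝ × (Fin 5 → ℂ) => shear t (circleMap 0 1 p.1) (unsh t p.2) := by
  unfold shear unsh
  rw [continuous_pi_iff]
  intro i
  have hcm : Continuous fun p : ℝ × (Fin 5 → ℂ) => circleMap 0 1 p.1 :=
    (continuous_circleMap 0 1).comp continuous_fst
  fin_cases i
  · simpa using hcm
  · simp only [Fin.mk_one, Matrix.cons_val_zero, Matrix.cons_val_one]
    fun_prop
  · simp only [Matrix.cons_val]
    fun_prop
  · simp only [Matrix.cons_val]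
    fun_prop
  · simp only [Matrix.cons_val]
    fun_prop

theorem fig_open (t : ℂ) {N : Set (Fin 4 → ℂ)} (hN : IsOpen N) : IsOpen (fig t N) := by
  have h1 : Continuous fun P : Fin 5 → ℂ => unsh t P := by
    unfold unsh
    rw [continuous_pi_iff]
    intro i
    fin_cases i
    · show Continuous fun P : Fin 5 → ℂ => P 1 - t * P 0
      fun_prop
    · show Continuous fun P : Fin 5 → ℂ => P 2
      fun_prop
    · show Continuous fun P : Fin 5 → ℂ => P 3
      fun_prop
    · show Continuous fun P : Fin 5 → ℂ => P 4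
      fun_prop
  have h2 : IsOpen {P : Fin 5 → ℂ | ‖P 0‖ < 1} :=
    isOpen_lt (by fun_prop) continuous_const
  exact h2.inter (hN.preimage h1)

end CauchyAux

open CauchyAux Set in
theorem cauchyParam {D : Set (Fin 5 → ℂ)} (hD : IsOpen D) {f : (Fin 5 → ℂ) → ℂ}
    (hf : DifferentiableOn ℂ f D) (t : ℂ) {N : Set (Fin 4 → ℂ)} (hN : IsOpen N)
    (hring : ∀ n ∈ N, ∀ ζ : ℂ, ‖ζ‖ = 1 → shear t ζ n ∈ D) :
    DifferentiableOn ℂ (fun P : Fin 5 → ℂ => (2 * Real.pi * Complex.I)⁻¹ *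
      ∮ u in C(0, 1), (u - P 0)⁻¹ * f (shear t u (unsh t P))) (fig t N) := by
  have hnorm : ∀ θ : ℝ, ‖circleMap 0 1 θ‖ = 1 := by
    intro θ
    rw [norm_circleMap_zero, abs_one]
  have hne : ∀ (θ : ℝ) (P : Fin 5 → ℂ), P ∈ fig t N → circleMap 0 1 θ - P 0 ≠ 0 := by
    intro θ P hP h
    rw [sub_eq_zero] at h
    have h1 := hP.1
    rw [← h, hnorm] at h1
    exact lt_irrefl _ h1
  have hmem : ∀ (θ : ℝ) (P : Fin 5 → ℂ), P ∈ fig t N →
      shear t (circleMap 0 1 θ) (unsh t P) ∈ D :=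
    fun θ P hP => hring _ hP.2 _ (hnorm θ)
  have key := diffParam (fig_open t hN) (fun θ P => deriv (circleMap 0 1) θ •
    ((circleMap 0 1 θ - P 0)⁻¹ * f (shear t (circleMap 0 1 θ) (unsh t P)))) ?_ ?_ 0 (2 * Real.pi)
  · exact key.const_mul _
  · have e : (Function.uncurry fun (θ : ℝ) (P : Fin 5 → ℂ) => deriv (circleMap 0 1) θ •
        ((circleMap 0 1 θ - P 0)⁻¹ * f (shear t (circleMap 0 1 θ) (unsh t P)))) =
        fun p => (circleMap 0 1 p.1 * Complex.I) •
        ((circleMap 0 1 p.1 - p.2 0)⁻¹ * f (shear t (circleMap 0 1 p.1) (unsh t p.2))) := by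
      funext p
      simp only [Function.uncurry, deriv_circleMap]
    rw [e]
    have hcm : Continuous fun p : ℝ × (Fin 5 → ℂ) => circleMap 0 1 p.1 :=
      (continuous_circleMap 0 1).comp continuous_fst
    refine ContinuousOn.smul (hcm.mul continuous_const).continuousOn (ContinuousOn.mul ?_ ?_)
    · refine ContinuousOn.inv₀ (hcm.sub (by fun_prop)).continuousOn ?_
      intro p hp
      exact hne p.1 p.2 hp.2
    · refine hf.continuousOn.comp (shear_cont t).continuousOn ?_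
      intro p hp
      exact hmem p.1 p.2 hp.2
  · intro θ
    have h0 : DifferentiableOn ℂ (fun P : Fin 5 → ℂ => (circleMap 0 1 θ - P 0)⁻¹ *
        f (shear t (circleMap 0 1 θ) (unsh t P))) (fig t N) := ?_
    · exact h0.const_smul (deriv (circleMap 0 1) θ)
    refine DifferentiableOn.mul ?_ ?_
    · refine DifferentiableOn.inv (by fun_prop) ?_
      intro P hP
      exact hne θ P hP
    · refine hf.comp (shear_diff t _).differentiableOn ?_
      intro P hP
      exact hmem θ P hP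

end P4cae09
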