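import Pool.Agent.Lib.P4cae09.GGfun

/-!
# P4cae09.RhoSmooth (0.7 h): `rho` is smooth, `Dom` is open

`‖z‖² = re² + im²` is smooth; `re`, `im`, coordinates are continuous real-linear maps.
-/

namespace P4cae09
open scoped ContDiff

variable {c : Consts} {ε : ℕ → ℝ} {β : ℝ × ℝ × ℝ → ℝ}

theorem rho_contDiff (hβ : IsBeta c.M ε β) : ContDiff ℝ ∞ (rho c β) := by
  have hP : ∀ i : Fin 5, ContDiff ℝ ∞ (fun P : Fin 5 → ℂ => P i) := fun i =>
    contDiff_apply ℝ ℂ i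
  have hre : ∀ {f : (Fin 5 → ℂ) → ℂ}, ContDiff ℝ ∞ f → ContDiff ℝ ∞ (fun P => (f P).re) :=
    fun hf => Complex.reCLM.contDiff.comp hf
  have him : ∀ {f : (Fin 5 → ℂ) → ℂ}, ContDiff ℝ ∞ f → ContDiff ℝ ∞ (fun P => (f P).im) :=
    fun hf => Complex.imCLM.contDiff.comp hf
  have hconj : ContDiff ℝ ∞ (fun P : Fin 5 → ℂ => (starRingEnd ℂ) (P 0)) :=
    Complex.conjCLE.contDiff.comp (hP 0)
  have hnorm : ∀ i : Fin 5, ContDiff ℝ ∞ (fun P : Fin 5 → ℂ => ‖P i‖ ^ 2) :=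
    fun i => (hP i).norm_sq ℝ
  have htt : ContDiff ℝ ∞ tt := hre (hconj.mul (hP 1))
  have hβ' : ContDiff ℝ ∞ (fun P : Fin 5 → ℂ => β (tt P, (P 3).re, (P 4).re)) :=
    hβ.smooth.comp (htt.prodMk ((hre (hP 3)).prodMk (hre (hP 4))))
  have h1 : ContDiff ℝ ∞ (fun P : Fin 5 → ℂ => ell (‖P 1‖ ^ 2 - 4)) :=
    ell_contDiff.comp ((hnorm 1).sub contDiff_const)
  have h2 : ContDiff ℝ ∞ (fun P : Fin 5 → ℂ => ell ((P 3).re ^ 2 - 16)) :=
    ell_contDiff.comp (((hre (hP 3)).pow 2).sub contDiff_const)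
  have h3 : ContDiff ℝ ∞ (fun P : Fin 5 → ℂ => ell (-1 - (P 4).re)) :=
    ell_contDiff.comp (contDiff_const.sub (hre (hP 4)))
  have h4 : ContDiff ℝ ∞ (fun P : Fin 5 → ℂ => gg (P 4).re) :=
    gg_contDiff.comp (hre (hP 4))
  unfold rho
  exact (((((((((hre ((hP 0).mul (hP 2))).add (contDiff_const.mul (hnorm 2))).add
    (((hnorm 0).sub contDiff_const).pow 2)).add
    (contDiff_const.mul ((him (hconj.mul (hP 1))).pow 2))).add
    (contDiff_const.mul ((him (hP 3)).pow 2))).add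
    (contDiff_const.mul ((him (hP 4)).pow 2))).add h1).add h2).add h3).sub h4 |>.sub hβ'

theorem dom_isOpen (hβ : IsBeta c.M ε β) : IsOpen (Dom c β) :=
  isOpen_lt (rho_contDiff hβ).continuous continuous_const

end P4cae09
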