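import Pool.Agent.Lib.P4cae09.Root

/-!
# P4cae09.RootHolo (1.5 h): the small root depends holomorphically on the data

Let `A, b : E → ℂ` be differentiable at `P` (`E` a complex normed space), `1/10 < ‖1 + A P‖`,
`‖b P‖ < ‖1 + A P‖/80`. Near `P` the inequalities persist, so `y(Q) = Yroot (A Q) (b Q)` is the unique root.
Direct proof: for `Q` near `P`, subtract the two equations:
`(1 + A P)(y(Q) - y(P)) - [φ(y(Q)) - φ(y(P))] = (b Q - b P) - (A Q - A P) y(Q)` with `φ(y) = e^{-y} - 1 + y`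
Lipschitz with constant `1/20` on the ball, so `y` is continuous (even locally Lipschitz) at `P`; then
`φ(y(Q)) - φ(y(P)) = (1 - e^{-y(P)})(y(Q)-y(P)) + o(y(Q)-y(P))`, and dividing by `A P + e^{-y(P)} ≠ 0`
(norm `≥ 1/10 - 1/20`) gives the derivative
`y' = (b' - y(P) A')/(A P + e^{-y(P)})`. Alternatively: for the map `F : (A, y) ↦ 1 - e^{-y} + A y` use
`HasStrictFDerivAt.implicitFunction` (or the local inverse of `(A, y) ↦ (A, 1 - e^{-y} + A y)` in `ℂ × ℂ`), together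
with uniqueness of the root.
-/

namespace P4cae09

open Filter Topology Asymptotics

theorem Yroot_differentiableAt {E : Type*} [NormedAddCommGroup E] [NormedSpace ℂ E] {A b : E → ℂ}
    {P : E} (hA : DifferentiableAt ℂ A P) (hb : DifferentiableAt ℂ b P)
    (h1 : 1 / 10 < ‖1 + A P‖) (h2 : ‖b P‖ < ‖1 + A P‖ / 80) :
    DifferentiableAt ℂ (fun Q => Yroot (A Q) (b Q)) P := by
  have hAc : ContinuousAt A P := hA.continuousAt
  have hbc : ContinuousAt b P := hb.continuousAt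
  have hNc : ContinuousAt (fun Q => ‖1 + A Q‖) P := (continuousAt_const.add hAc).norm
  have ev1 : ∀ᶠ Q in 𝓝 P, 1 / 10 < ‖1 + A Q‖ := hNc.eventually (lt_mem_nhds h1)
  have ev2 : ∀ᶠ Q in 𝓝 P, ‖b Q‖ < ‖1 + A Q‖ / 80 :=
    hbc.norm.eventually_lt (hNc.div_const 80) h2
  set Y : E → ℂ := fun Q => Yroot (A Q) (b Q) with hY
  have evY : ∀ᶠ Q in 𝓝 P, ‖Y Q‖ ≤ 1 / 40 ∧ 1 - Complex.exp (-(Y Q)) + A Q * Y Q = b Q := by
    filter_upwards [ev1, ev2] with Q hq1 hq2
    exact Yroot_spec hq1.le hq2.le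
  have hYP : ‖Y P‖ ≤ 1 / 40 ∧ 1 - Complex.exp (-(Y P)) + A P * Y P = b P := evY.self_of_nhds
  -- the difference estimate
  have key : ∀ᶠ Q in 𝓝 P, ‖Y Q - Y P‖ ≤ 20 * (‖b Q - b P‖ + ‖A Q - A P‖) := by
    filter_upwards [evY] with Q hQ
    have e1 := root_eq hQ.2
    have e2 := root_eq hYP.2
    have e : (1 + A P) * (Y Q - Y P) = (phiR (Y Q) - phiR (Y P)) + (b Q - b P) - (A Q - A P) * Y Q := by
      linear_combination e1 - e2
    have n1 : ‖1 + A P‖ * ‖Y Q - Y P‖ ≤ 1 / 20 * ‖Y Q - Y P‖ + ‖b Q - b P‖ + ‖A Q - A P‖ * (1 / 40) := by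
      rw [← norm_mul, e]
      refine (norm_sub_le _ _).trans ?_
      refine add_le_add ?_ ?_
      · exact (norm_add_le _ _).trans (by linarith [phiR_lip hQ.1 hYP.1])
      · rw [norm_mul]
        exact mul_le_mul_of_nonneg_left hQ.1 (norm_nonneg _)
    have n2 : 1 / 10 * ‖Y Q - Y P‖ ≤ ‖1 + A P‖ * ‖Y Q - Y P‖ :=
      mul_le_mul_of_nonneg_right h1.le (norm_nonneg _)
    have := norm_nonneg (A Q - A P)
    linarith
  have hδO : (fun Q => Y Q - Y P) =O[𝓝 P] (fun Q => Q - P) := by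
    have hbO : (fun Q => b Q - b P) =O[𝓝 P] (fun Q => Q - P) := hb.isBigO_sub
    have hAO : (fun Q => A Q - A P) =O[𝓝 P] (fun Q => Q - P) := hA.isBigO_sub
    have h3 : (fun Q => ‖b Q - b P‖ + ‖A Q - A P‖) =O[𝓝 P] (fun Q => Q - P) :=
      hbO.norm_left.add hAO.norm_left
    refine IsBigO.trans (IsBigO.of_bound 20 ?_) h3
    filter_upwards [key] with Q hQ
    rw [Real.norm_of_nonneg (by positivity)]
    exact hQ
  have hδ0 : Tendsto (fun Q => Y Q - Y P) (𝓝 P) (𝓝 0) := by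
    refine hδO.trans_tendsto ?_
    have : ContinuousAt (fun Q : E => Q - P) P := continuousAt_id.sub continuousAt_const
    have h := this.tendsto
    simpa using h
  set D : ℂ := A P + Complex.exp (-(Y P)) with hD
  have hD0 : D ≠ 0 := by
    intro h0
    have e : 1 + A P = 1 - Complex.exp (-(Y P)) := by
      rw [hD] at h0
      linear_combination h0
    have n := phiR_deriv_norm_le (y := Y P) (by linarith [hYP.1])
    rw [← e] at n
    linarith [hYP.1]
  have hφ : (fun Q => phiR (Y Q) - phiR (Y P) - (1 - Complex.exp (-(Y P))) * (Y Q - Y P)) =o[𝓝 P]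
      (fun Q => Q - P) := by
    have hd := (phiR_hasDerivAt (Y P)).hasFDerivAt.isLittleO
    have hYt : Tendsto Y (𝓝 P) (𝓝 (Y P)) := by
      have := hδ0.add_const (Y P)
      simpa using this
    have h4 := hd.comp_tendsto hYt
    have h5 : (fun Q => phiR (Y Q) - phiR (Y P) - (1 - Complex.exp (-(Y P))) * (Y Q - Y P)) =o[𝓝 P]
        (fun Q => Y Q - Y P) := by
      refine h4.congr_left ?_
      intro Q
      simp [Function.comp]
      ring
    exact h5.trans_isBigO hδO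
  obtain ⟨A', hA'⟩ := hA
  obtain ⟨b', hb'⟩ := hb
  refine ⟨D⁻¹ • (b' - (Y P) • A'), ?_⟩
  refine HasFDerivAt.of_isLittleO ?_
  have hAo := hA'.isLittleO
  have hbo := hb'.isLittleO
  have hAA : (fun Q => (A Q - A P) * (Y Q - Y P)) =o[𝓝 P] (fun Q => Q - P) := by
    have h6 : (fun Q => A Q - A P) =o[𝓝 P] (fun _ => (1 : ℝ)) := by
      rw [isLittleO_one_iff]
      exact tendsto_sub_nhds_zero_iff.mpr hAc.tendsto
    have h7 := h6.mul_isBigO hδO.norm_right
    refine h7.trans_isBigO ?_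
    refine IsBigO.of_bound 1 (Eventually.of_forall fun Q => ?_)
    simp
  have hsum : (fun Q => D⁻¹ * ((b Q - b P - b' (Q - P)) - (Y P) * (A Q - A P - A' (Q - P))
      - (A Q - A P) * (Y Q - Y P)
      + (phiR (Y Q) - phiR (Y P) - (1 - Complex.exp (-(Y P))) * (Y Q - Y P)))) =o[𝓝 P]
      (fun Q => Q - P) := by
    refine IsLittleO.const_mul_left ?_ _
    exact ((hbo.sub (hAo.const_mul_left (Y P))).sub hAA).add hφ
  refine hsum.congr' ?_ (EventuallyEq.refl _ _)
  filter_upwards [evY] with Q hQ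
  have e1 := root_eq hQ.2
  have e2 := root_eq hYP.2
  have e : D * (Y Q - Y P) = (b Q - b P) - (Y P) * (A Q - A P) - (A Q - A P) * (Y Q - Y P)
      + (phiR (Y Q) - phiR (Y P) - (1 - Complex.exp (-(Y P))) * (Y Q - Y P)) := by
    rw [hD]
    linear_combination e1 - e2
  have e3 : D⁻¹ * D = 1 := inv_mul_cancel₀ hD0
  have e4 : (D⁻¹ • (b' - (Y P) • A')) (Q - P) = D⁻¹ * (b' (Q - P) - Y P * A' (Q - P)) := rfl
  rw [e4]
  linear_combination (-D⁻¹) * e + (Y Q - Y P) * e3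

end P4cae09
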