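import Pool.Agent.Lib.P4cae09.Cover
import Pool.Agent.Lib.P4cae09.RhoSmooth
import Pool.Agent.Lib.P4cae09.RootHolo

/-!
# P4cae09.Chi: the separating holomorphic function on the domain

`A = AA m ε`, `B = BB m ε` are holomorphic on `Dom` (`ζ ↦ ζ^{-1/2}` is holomorphic on `Re ζ > 0`, `cov_re`).
`V_I = {P ∈ Dom : CC m < ‖A‖}`, `V_j = {P ∈ Dom ∩ bandSet m ε j : ‖A‖ < 2 CC m}`, open; they cover `Dom` (`cov_or`).
`χ P = if CC m < ‖A‖ then χ_I P else if P ∈ bandSet j (some j, 2|j| ≤ m) then χ_j P else 0`,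
`χ_I = χ₀ + Yroot (A e^{χ₀}) (1 - e^{χ₀})`, `χ₀ = B/A`; `χ_j = 2πij + Yroot A (B - 2πijA)`. All solve
`1 - e^{-χ} + Aχ = B`, and on `V_I ∩ V_j` the values agree (`root_unique`).
-/

namespace P4cae09

variable {c : Consts} {ε : ℕ → ℝ} {β : ℝ × ℝ × ℝ → ℝ}

/-! ### Numerical facts -/

theorem chi_CC (m : ℕ) : CC m = 1000 * (Real.exp (500 * m) * Real.exp (500 * m)) := by
  unfold CC
  rw [← Real.exp_add]
  congr 2
  ring

theorem chi_CC_ge {m : ℕ} (hm : 1 ≤ m) : 100000 < CC m := by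
  have hm1 : (1 : ℝ) ≤ m := by exact_mod_cast hm
  unfold CC
  have h1 := Real.add_one_le_exp (1000 * (m : ℝ))
  nlinarith

/-! ### The pieces -/

/-- the function on `V_I` -/
noncomputable def chiI (A B : ℂ) : ℂ :=
  B / A + Yroot (A * Complex.exp (B / A)) (1 - Complex.exp (B / A))

/-- the function on `V_j` -/
noncomputable def chiJ (j : ℤ) (A B : ℂ) : ℂ :=
  2 * Real.pi * Complex.I * j + Yroot A (B - 2 * Real.pi * Complex.I * j * A)

theorem chiI_bounds {m : ℕ} {A B : ℂ} (hA : CC m < ‖A‖) (hB : ‖B‖ ≤ 500 * m * ‖A‖) :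
    1 / 10 < ‖1 + A * Complex.exp (B / A)‖ ∧
      ‖1 - Complex.exp (B / A)‖ < ‖1 + A * Complex.exp (B / A)‖ / 80 ∧
      2 * ‖1 - Complex.exp (B / A)‖ / ‖1 + A * Complex.exp (B / A)‖ ≤ 1 / 200 := by
  have hCC : 0 < CC m := by unfold CC; positivity
  have hA0 : 0 < ‖A‖ := hCC.trans hA
  set E : ℝ := Real.exp (500 * m) with hE
  have hE1 : 1 ≤ E := Real.one_le_exp (by positivity)
  have hχ : ‖B / A‖ ≤ 500 * m := by
    rw [norm_div, div_le_iff₀ hA0]
    exact hB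
  have hre : |(B / A).re| ≤ 500 * m := (Complex.abs_re_le_norm _).trans hχ
  have hup : ‖Complex.exp (B / A)‖ ≤ E := by
    rw [Complex.norm_exp]
    exact Real.exp_le_exp.2 (le_of_abs_le hre)
  have hlow : E⁻¹ ≤ ‖Complex.exp (B / A)‖ := by
    rw [Complex.norm_exp, hE, ← Real.exp_neg]
    exact Real.exp_le_exp.2 (neg_le_of_abs_le hre)
  have hE0 : 0 < E := by linarith
  have h1 : 1000 * E ≤ ‖A * Complex.exp (B / A)‖ := by
    rw [norm_mul]
    calc 1000 * E = CC m * E⁻¹ := by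
          rw [chi_CC, ← hE]
          field_simp
      _ ≤ ‖A‖ * ‖Complex.exp (B / A)‖ :=
          mul_le_mul hA.le hlow (by positivity) hA0.le
  have h2 : 999 * E ≤ ‖1 + A * Complex.exp (B / A)‖ := by
    have h3 : ‖A * Complex.exp (B / A)‖ ≤ ‖1 + A * Complex.exp (B / A)‖ + ‖(1 : ℂ)‖ := by
      have h4 : A * Complex.exp (B / A) = (1 + A * Complex.exp (B / A)) - 1 := by ring
      calc ‖A * Complex.exp (B / A)‖ = ‖(1 + A * Complex.exp (B / A)) - 1‖ := by rw [← h4]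
        _ ≤ _ := norm_sub_le _ _
    rw [norm_one] at h3
    linarith
  have h3 : ‖1 - Complex.exp (B / A)‖ ≤ 2 * E := by
    refine (norm_sub_le _ _).trans ?_
    rw [norm_one]
    linarith
  refine ⟨by linarith, by linarith, ?_⟩
  rw [div_le_div_iff₀ (by linarith) (by norm_num)]
  linarith

theorem chiI_spec {m : ℕ} {A B : ℂ} (hA : CC m < ‖A‖) (hB : ‖B‖ ≤ 500 * m * ‖A‖) :
    1 - Complex.exp (-(chiI A B)) + A * chiI A B = B ∧ ‖chiI A B - B / A‖ ≤ 1 / 200 := by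
  have hCC : 0 < CC m := by unfold CC; positivity
  have hA0 : A ≠ 0 := by
    intro h
    rw [h, norm_zero] at hA
    linarith
  obtain ⟨h1, h2, h3⟩ := chiI_bounds hA hB
  obtain ⟨h4, h5⟩ := Yroot_spec h1.le h2.le
  have h6 := root_bound h1.le h4 h5
  unfold chiI
  set y := Yroot (A * Complex.exp (B / A)) (1 - Complex.exp (B / A)) with hy
  set x := B / A with hx
  constructor
  · have h7 : Complex.exp (-(x + y)) = 1 + A * y := by
      have h8 : Complex.exp (-y) = Complex.exp x * (1 + A * y) := by linear_combination -h5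
      rw [neg_add, Complex.exp_add, h8, ← mul_assoc, ← Complex.exp_add, neg_add_cancel,
        Complex.exp_zero, one_mul]
    rw [h7]
    have h9 : A * x = B := by
      rw [hx]
      field_simp
    linear_combination h9
  · rw [add_sub_cancel_left]
    exact h6.trans h3

theorem chiJ_spec {A B : ℂ} {j : ℤ} (hA : 1 / 6 ≤ ‖1 + A‖)
    (hb : ‖B - 2 * Real.pi * Complex.I * j * A‖ ≤ 1 / 2000) :
    ‖Yroot A (B - 2 * Real.pi * Complex.I * j * A)‖ ≤ 1 / 40 ∧
      1 - Complex.exp (-(Yroot A (B - 2 * Real.pi * Complex.I * j * A))) +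
        A * Yroot A (B - 2 * Real.pi * Complex.I * j * A) =
          B - 2 * Real.pi * Complex.I * j * A :=
  Yroot_spec (by linarith) (by linarith)

theorem chi_agree {m : ℕ} {A B : ℂ} {j : ℤ} (hm : 1 ≤ m) (hA : CC m < ‖A‖)
    (hB : ‖B‖ ≤ 500 * m * ‖A‖) (hA' : 1 / 6 ≤ ‖1 + A‖)
    (hb : ‖B - 2 * Real.pi * Complex.I * j * A‖ ≤ 1 / 2000) : chiI A B = chiJ j A B := by
  have hCC := chi_CC_ge hm
  have hA0 : A ≠ 0 := by
    intro h
    rw [h, norm_zero] at hA
    linarith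
  obtain ⟨h1, h2⟩ := chiI_spec hA hB
  obtain ⟨h3, h4⟩ := chiJ_spec hA' hb
  set w : ℂ := 2 * Real.pi * Complex.I * j with hw
  have hexp : Complex.exp (-(chiI A B)) = Complex.exp (-(chiI A B - w)) := by
    rw [Complex.exp_eq_exp_iff_exists_int]
    refine ⟨-j, ?_⟩
    rw [hw]
    push_cast
    ring
  have h5 : ‖chiI A B - w‖ ≤ 1 / 40 := by
    have h6 : chiI A B - w = (chiI A B - B / A) + (B - w * A) / A := by
      field_simp
      ring
    rw [h6]
    refine (norm_add_le _ _).trans ?_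
    have h7 : ‖(B - w * A) / A‖ ≤ 1 / 2000 := by
      rw [norm_div]
      exact div_le_of_le_mul₀ (norm_nonneg _) (by norm_num)
        (hb.trans (by nlinarith))
    linarith
  have h6 : 1 - Complex.exp (-(chiI A B - w)) + A * (chiI A B - w) = B - w * A := by
    rw [← hexp]
    linear_combination h1
  have h7 := root_unique (by linarith) h5 h3 h6 h4
  unfold chiJ
  rw [← hw]
  linear_combination h7

/-! ### Holomorphy of the quantities -/

theorem chi_coord (i : Fin 5) (P : Fin 5 → ℂ) :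
    DifferentiableAt ℂ (fun Q : Fin 5 → ℂ => Q i) P := by fun_prop

theorem zz_differentiable (m : ℕ) (e : ℝ) (P : Fin 5 → ℂ) :
    DifferentiableAt ℂ (zz m e) P := by
  unfold zz UU
  fun_prop

theorem chi_pow {m : ℕ} {e : ℝ} {P : Fin 5 → ℂ} (h : 0 < (zz m e P).re) :
    DifferentiableAt ℂ (fun Q => (zz m e Q) ^ (-(1 / 2) : ℂ)) P :=
  (zz_differentiable m e P).cpow (differentiableAt_const _) (Or.inl h)

theorem chi_Psi {m : ℕ} {e : ℝ} {P : Fin 5 → ℂ} (h : 0 < (zz m e P).re) :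
    DifferentiableAt ℂ (fun Q => Psi (zz m e Q)) P := by
  unfold Psi
  exact ((chi_pow h).const_mul _).cexp

theorem AA_differentiable {m : ℕ} {e : ℝ} {P : Fin 5 → ℂ} (h : 0 < (zz m e P).re) :
    DifferentiableAt ℂ (AA m e) P := by
  have h1 : DifferentiableAt ℂ UU P := by
    unfold UU
    fun_prop
  unfold AA
  exact (h1.add (chi_Psi h)).const_mul _

theorem BB_differentiable {m : ℕ} {e : ℝ} {P : Fin 5 → ℂ} (h : 0 < (zz m e P).re) :
    DifferentiableAt ℂ (BB m e) P := by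
  have h1 : DifferentiableAt ℂ (fun Q : Fin 5 → ℂ => -(Q 2 * Q 1)) P := by fun_prop
  have h2 : DifferentiableAt ℂ (SS m e) P := by
    unfold SS
    have h3 : DifferentiableAt ℂ (fun Q : Fin 5 → ℂ => Q 3 - cen m) P := by fun_prop
    exact h3.mul (chi_pow h)
  unfold BB
  exact (h1.add ((chi_Psi h).mul h2)).const_mul _

theorem bandSet_isOpen (m : ℕ) (e : ℝ) (j : ℤ) : IsOpen (bandSet m e j) := by
  have h1 : Continuous (XX m) := by
    unfold XX
    fun_prop
  have h2 : Continuous tt := by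
    unfold tt
    fun_prop
  have h3 : Continuous fun P : Fin 5 → ℂ => (P 3).re - cen m - (j : ℝ) / m * XX m P := by
    fun_prop
  unfold bandSet
  refine (isOpen_lt h1 continuous_const).inter
    ((isOpen_lt ((h2.sub continuous_const).abs) continuous_const).inter ?_)
  exact (isOpen_lt h1 continuous_const).union (isOpen_lt h3.abs (continuous_const.mul h1))

theorem band_unique {m : ℕ} (hm : 1 ≤ m) {e : ℝ} {i j : ℤ} {P : Fin 5 → ℂ}
    (hi : P ∈ bandSet m e i) (hj : P ∈ bandSet m e j) : i = j := by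
  have hm1 : (1 : ℝ) ≤ m := by exact_mod_cast hm
  have hm0 : (0 : ℝ) < m := by linarith
  have h1 := hi.2.1
  have h2 := hj.2.1
  have hdd : dd m ≤ 1 / (2 * m) := by
    unfold dd
    have hCC := chi_CC_ge hm
    refine one_div_le_one_div_of_le (by positivity) ?_
    nlinarith [mul_pos hm0 (by linarith : 0 < CC m)]
  have h3 : |(i : ℝ) / m - (j : ℝ) / m| < 1 / m := by
    have h4 : (i : ℝ) / m - (j : ℝ) / m = (tt P - (j : ℝ) / m) - (tt P - (i : ℝ) / m) := by ring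
    rw [h4]
    refine (abs_sub _ _).trans_lt ?_
    have h5 : 1 / (m : ℝ) = 1 / (2 * m) + 1 / (2 * m) := by
      field_simp
      norm_num
    rw [h5]
    linarith
  rw [← sub_div, abs_div, abs_of_pos hm0, div_lt_div_iff_of_pos_right hm0] at h3
  have h4 : |i - j| < 1 := by
    have h5 : ((|i - j| : ℤ) : ℝ) < 1 := by
      push_cast
      exact h3
    exact_mod_cast h5
  have h5 := Int.abs_lt_one_iff.1 h4
  omega

open Classical in
/-- the separating function -/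
noncomputable def chiF (m : ℕ) (e : ℝ) (P : Fin 5 → ℂ) : ℂ :=
  if CC m < ‖AA m e P‖ then chiI (AA m e P) (BB m e P)
  else if h : ∃ j : ℤ, 2 * |j| ≤ m ∧ P ∈ bandSet m e j then
    chiJ h.choose (AA m e P) (BB m e P) else 0

theorem chiF_band (hβ : IsBeta c.M ε β) {m : ℕ} (hm : 1 ≤ m) {P : Fin 5 → ℂ}
    (hP : P ∈ Dom c β) {j : ℤ} (hj : 2 * |j| ≤ m) (hb : P ∈ bandSet m (ε m) j)
    (hA : ‖AA m (ε m) P‖ < 2 * CC m) :
    chiF m (ε m) P = chiJ j (AA m (ε m) P) (BB m (ε m) P) := by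
  have h1 := cov_band hβ hm hP hj hb
  have h2 := cov_band' hβ hm hP hj hb hA
  have h3 : 1 / 6 ≤ ‖1 + AA m (ε m) P‖ := by
    have := norm_nonneg (AA m (ε m) P)
    linarith
  unfold chiF
  by_cases hC : CC m < ‖AA m (ε m) P‖
  · rw [if_pos hC]
    have hCC := chi_CC_ge hm
    exact chi_agree hm hC (cov_B hβ hm hP (by linarith)) h3 h2
  · have hex : ∃ j : ℤ, 2 * |j| ≤ m ∧ P ∈ bandSet m (ε m) j := ⟨j, hj, hb⟩
    rw [if_neg hC, dif_pos hex, band_unique hm hex.choose_spec.2 hb]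

theorem chiF_differentiableOn (hβ : IsBeta c.M ε β) {m : ℕ} (hm : 1 ≤ m) :
    DifferentiableOn ℂ (chiF m (ε m)) (Dom c β) := by
  intro P hP
  refine DifferentiableAt.differentiableWithinAt ?_
  have hre := cov_re hβ hm hP
  have hAd := AA_differentiable hre
  have hBd := BB_differentiable hre
  have hCC := chi_CC_ge hm
  have hnorm : ContinuousAt (fun Q => ‖AA m (ε m) Q‖) P := hAd.continuousAt.norm
  by_cases hC : CC m < ‖AA m (ε m) P‖
  · have hA0 : AA m (ε m) P ≠ 0 := by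
      intro h
      rw [h, norm_zero] at hC
      linarith
    have hq : DifferentiableAt ℂ (fun Q => BB m (ε m) Q / AA m (ε m) Q) P := by
      simp only [div_eq_mul_inv]
      exact hBd.mul (hAd.inv hA0)
    have hB := cov_B hβ hm hP (by linarith)
    obtain ⟨h1, h2, -⟩ := chiI_bounds hC hB
    have hy : DifferentiableAt ℂ (fun Q => Yroot
        (AA m (ε m) Q * Complex.exp (BB m (ε m) Q / AA m (ε m) Q))
        (1 - Complex.exp (BB m (ε m) Q / AA m (ε m) Q))) P :=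
      Yroot_differentiableAt (hAd.mul hq.cexp) ((differentiableAt_const _).sub hq.cexp) h1 h2
    have hd : DifferentiableAt ℂ (fun Q => chiI (AA m (ε m) Q) (BB m (ε m) Q)) P := hq.add hy
    refine hd.congr_of_eventuallyEq ?_
    have hev := hnorm.eventually (lt_mem_nhds hC)
    filter_upwards [hev] with Q hQ
    unfold chiF
    rw [if_pos hQ]
  · have hlt : ‖AA m (ε m) P‖ < 2 * CC m := by linarith [not_lt.1 hC]
    obtain ⟨j, hj, hb⟩ := (cov_or hβ hm hP).resolve_left hC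
    have h1 := cov_band hβ hm hP hj hb
    have h2 := cov_band' hβ hm hP hj hb hlt
    have h3 : 1 / 6 ≤ ‖1 + AA m (ε m) P‖ := by
      have := norm_nonneg (AA m (ε m) P)
      linarith
    have hy : DifferentiableAt ℂ (fun Q => Yroot (AA m (ε m) Q)
        (BB m (ε m) Q - 2 * Real.pi * Complex.I * j * AA m (ε m) Q)) P :=
      Yroot_differentiableAt hAd (hBd.sub (hAd.const_mul _)) (by linarith) (by linarith)
    have hd : DifferentiableAt ℂ (fun Q => chiJ j (AA m (ε m) Q) (BB m (ε m) Q)) P :=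
      (differentiableAt_const _).add hy
    refine hd.congr_of_eventuallyEq ?_
    have hev := hnorm.eventually (gt_mem_nhds hlt)
    filter_upwards [hev, (bandSet_isOpen m (ε m) j).mem_nhds hb,
      (dom_isOpen hβ).mem_nhds hP] with Q hQ hQ2 hQ3
    exact chiF_band hβ hm hQ3 hj hQ2 hQ

/-! ### The value on the ring -/

section ring

variable (m : ℕ) (e : ℝ) (j : ℤ) (ζ : ℂ)

theorem ring_coords : shear (tj m j) ζ (pth m j 0) 0 = ζ ∧
    shear (tj m j) ζ (pth m j 0) 1 = tj m j * ζ ∧ shear (tj m j) ζ (pth m j 0) 2 = 0 ∧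
    shear (tj m j) ζ (pth m j 0) 3 = ((cen m : ℝ) : ℂ) ∧
    shear (tj m j) ζ (pth m j 0) 4 = 0 := by
  unfold shear pth
  refine ⟨rfl, ?_, ?_, ?_, ?_⟩
  · show (0 : ℂ) + tj m j * ζ = _
    rw [zero_add]
  · rfl
  · show (((cen m + 0 * ((j : ℝ) / m) : ℝ)) : ℂ) = _
    rw [zero_mul, add_zero]
  · show (((0 * sn m j : ℝ)) : ℂ) = _
    rw [zero_mul, Complex.ofReal_zero]

theorem ring_UU : UU (shear (tj m j) ζ (pth m j 0)) = 0 := by
  obtain ⟨h0, h1, h2, h3, h4⟩ := ring_coords m j ζ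
  unfold UU
  rw [h0, h2]
  ring

theorem ring_zz : zz m e (shear (tj m j) ζ (pth m j 0)) = ((ia e : ℝ) : ℂ) := by
  obtain ⟨h0, h1, h2, h3, h4⟩ := ring_coords m j ζ
  unfold zz
  rw [ring_UU, h3, h4]
  ring

theorem ring_AA : AA m e (shear (tj m j) ζ (pth m j 0)) =
    ((ia e : ℝ) : ℂ)⁻¹ * Psi ((ia e : ℝ) : ℂ) := by
  unfold AA
  rw [ring_UU, ring_zz, zero_add, Complex.ofReal_inv]

theorem ring_BB : BB m e (shear (tj m j) ζ (pth m j 0)) = 0 := by
  obtain ⟨h0, h1, h2, h3, h4⟩ := ring_coords m j ζ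
  unfold BB SS
  rw [h2, h3]
  ring

end ring

theorem ring_norm {e : ℝ} : ‖((ia e : ℝ) : ℂ)⁻¹ * Psi ((ia e : ℝ) : ℂ)‖ ≤ 20000 := by
  have hia : 0 < ia e := by unfold ia; positivity
  unfold Psi
  have h1 : ((ia e : ℝ) : ℂ) ^ (-(1 / 2) : ℂ) = (((ia e) ^ (-(1 / 2) : ℝ) : ℝ) : ℂ) := by
    rw [Complex.ofReal_cpow hia.le]
    congr 1
    push_cast
    ring
  rw [h1, norm_mul, norm_inv, Complex.norm_real, Real.norm_of_nonneg hia.le, Complex.norm_exp]
  set x : ℝ := (ia e) ^ (-(1 / 2) : ℝ) with hx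
  have hx0 : 0 < x := Real.rpow_pos_of_pos hia _
  have h2 : (ia e)⁻¹ = x ^ 2 := by
    rw [hx, ← Real.rpow_natCast, ← Real.rpow_mul hia.le]
    norm_num
    exact (Real.rpow_neg_one _).symm
  have h3 : (-(1 / 100 : ℂ) * (x : ℂ)).re = -(x / 100) := by
    have h4 : (-(1 / 100 : ℂ) * (x : ℂ)) = ((-(x / 100) : ℝ) : ℂ) := by
      push_cast
      ring
    rw [h4, Complex.ofReal_re]
  rw [h3, h2, Real.exp_neg]
  have h4 : (x / 100) ^ 2 / 2 ≤ Real.exp (x / 100) := by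
    have := Real.quadratic_le_exp_of_nonneg (show 0 ≤ x / 100 by positivity)
    have h5 : 0 ≤ x / 100 := by positivity
    linarith
  rw [← div_eq_mul_inv, div_le_iff₀ (Real.exp_pos _)]
  nlinarith

theorem ring_band {m : ℕ} (hm : 1 ≤ m) {e : ℝ} (he : 0 < e) (j : ℤ) {ζ : ℂ} (hζ : ‖ζ‖ = 1) :
    shear (tj m j) ζ (pth m j 0) ∈ bandSet m e j := by
  obtain ⟨h0, h1, h2, h3, h4⟩ := ring_coords m j ζ
  have hX : XX m (shear (tj m j) ζ (pth m j 0)) = 0 := by
    unfold XX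
    rw [h3, h4]
    simp
  have ht : tt (shear (tj m j) ζ (pth m j 0)) = (j : ℝ) / m := by
    unfold tt
    rw [h0, h1]
    have h5 : (starRingEnd ℂ) ζ * (tj m j * ζ) = tj m j * (((‖ζ‖ ^ 2 : ℝ)) : ℂ) := by
      have h6 : (starRingEnd ℂ) ζ * ζ = ((‖ζ‖ ^ 2 : ℝ) : ℂ) := by
        rw [mul_comm, Complex.mul_conj, Complex.normSq_eq_norm_sq]
      linear_combination (tj m j) * h6
    rw [h5, hζ]
    unfold tj
    simp
  refine ⟨?_, ?_, Or.inl ?_⟩
  · rw [hX]
    exact he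
  · rw [ht, sub_self, abs_zero]
    have hCC := chi_CC_ge hm
    have hm0 : (0 : ℝ) < m := by exact_mod_cast hm
    unfold dd
    have : 0 < CC m := by linarith
    positivity
  · rw [hX]
    unfold eta
    positivity

theorem exists_chi (hβ : IsBeta c.M ε β) {m : ℕ} (hm : 1 ≤ m)
    (hring : ∀ j : ℤ, 2 * |j| ≤ m → ∀ ζ : ℂ, ‖ζ‖ = 1 →
      shear (tj m j) ζ (pth m j 0) ∈ Dom c β) :
    ∃ χ : (Fin 5 → ℂ) → ℂ, DifferentiableOn ℂ χ (Dom c β) ∧
      ∀ j : ℤ, 2 * |j| ≤ m → ∃ κ : ℂ, ‖κ - 2 * Real.pi * Complex.I * j‖ ≤ 1 / 40 ∧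
        ∀ ζ : ℂ, ‖ζ‖ = 1 → χ (shear (tj m j) ζ (pth m j 0)) = κ := by
  refine ⟨chiF m (ε m), chiF_differentiableOn hβ hm, fun j hj => ?_⟩
  have hε : 0 < ε m := (hβ.small m hm).pos
  have hCC := chi_CC_ge hm
  set A₀ : ℂ := ((ia (ε m) : ℝ) : ℂ)⁻¹ * Psi ((ia (ε m) : ℝ) : ℂ) with hA₀
  have hA : ‖A₀‖ < 2 * CC m := by
    have := ring_norm (e := ε m)
    linarith
  refine ⟨chiJ j A₀ 0, ?_, fun ζ hζ => ?_⟩
  · have hP := hring j hj 1 norm_one
    have hb := ring_band hm hε j (ζ := 1) norm_one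
    have h1 := cov_band hβ hm hP hj hb
    rw [ring_AA, ← hA₀] at h1
    have h2 := cov_band' hβ hm hP hj hb (by rw [ring_AA, ← hA₀]; exact hA)
    rw [ring_AA, ring_BB, ← hA₀] at h2
    have h3 : 1 / 6 ≤ ‖1 + A₀‖ := by
      have := norm_nonneg A₀
      linarith
    have h4 := (chiJ_spec h3 h2).1
    unfold chiJ
    rw [add_sub_cancel_left]
    exact h4
  · rw [chiF_band hβ hm (hring j hj ζ hζ) hj (ring_band hm hε j hζ)
      (by rw [ring_AA, ← hA₀]; exact hA), ring_AA, ring_BB]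

end P4cae09
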