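import Pool.Agent.Lib.P4cae09.Bounds
import Pool.Agent.Lib.P4cae09.RhoSmooth

/-!
# P4cae09.ConnA (1.3 h): first half of the connectedness of the domain

From `P` move along segments on which `rho` does not increase:
1. `v → -conj z/(2M)` (`v ↦ Re(zv) + M|v|²` is convex with minimum there);
2. `Im p → 0`, `Im r → 0` (real parts fixed);
3. if `z ≠ 0`: `w → w - i x (Im(conj z w)/|z|²) z`, `x ∈ [0,1]`: `conj z w` becomes `conj z w - i x Im(conj z w)`:
   real part fixed, imaginary part decreasing to `0`; `|w| = |conj z w|/|z|` decreases, `ell` monotone.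
   (if `z = 0` nothing to do).
-/

namespace P4cae09

variable {c : Consts} {ε : ℕ → ℝ} {β : ℝ × ℝ × ℝ → ℝ}

/-- points in normal form -/
def NormalPt (c : Consts) (P : Fin 5 → ℂ) : Prop :=
  P 2 = -(starRingEnd ℂ) (P 0) / (2 * (c.M : ℂ)) ∧ (P 3).im = 0 ∧ (P 4).im = 0 ∧
    ((starRingEnd ℂ) (P 0) * P 1).im = 0

namespace ConnAAux

theorem M_pos (c : Consts) : 0 < c.M := by
  have h1 := c.M_ge
  have h2 := c.u_pos
  have : 0 < 10 ^ 4 / c.u ^ 2 := by positivity
  linarith

theorem K_pos (c : Consts) : 0 < c.K := by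
  have h1 := c.K_ge
  linarith

/-- a path of values of `rho` not above the starting value -/
theorem step {P : Fin 5 → ℂ} (hP : P ∈ Dom c β) (γ : ℝ → Fin 5 → ℂ) (hγ : Continuous γ)
    (h0 : γ 0 = P) (h : ∀ s ∈ Set.Icc (0 : ℝ) 1, rho c β (γ s) ≤ rho c β P) :
    γ 1 ∈ Dom c β ∧ JoinedIn (Dom c β) P (γ 1) := by
  have hD : ∀ s ∈ Set.Icc (0 : ℝ) 1, γ s ∈ Dom c β := fun s hs =>
    lt_of_le_of_lt (h s hs) hP
  refine ⟨hD 1 (by simp), JoinedIn.ofLine (f := γ) hγ.continuousOn h0 rfl ?_⟩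
  rintro _ ⟨s, hs, rfl⟩
  exact hD s hs

theorem rho_mk (z w v p r : ℂ) : rho c β ![z, w, v, p, r] =
    (z * v).re + c.M * ‖v‖ ^ 2 + (‖z‖ ^ 2 - 1) ^ 2
    + c.K * (((starRingEnd ℂ) z * w).im) ^ 2 + c.K * p.im ^ 2 + c.K * r.im ^ 2
    + ell (‖w‖ ^ 2 - 4) + ell (p.re ^ 2 - 16) + ell (-1 - r.re)
    - gg r.re - β (((starRingEnd ℂ) z * w).re, p.re, r.re) := rfl

theorem eta5 (P : Fin 5 → ℂ) : P = ![P 0, P 1, P 2, P 3, P 4] := by
  ext i
  fin_cases i <;> rfl

theorem cont5 {f0 f1 f2 f3 f4 : ℝ → ℂ} (h0 : Continuous f0) (h1 : Continuous f1)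
    (h2 : Continuous f2) (h3 : Continuous f3) (h4 : Continuous f4) :
    Continuous (fun s => (![f0 s, f1 s, f2 s, f3 s, f4 s] : Fin 5 → ℂ)) := by
  rw [continuous_pi_iff]
  intro i
  fin_cases i
  · exact h0
  · exact h1
  · exact h2
  · exact h3
  · exact h4

/-- completing the square -/
theorem square (c : Consts) (z v : ℂ) : (z * v).re + c.M * ‖v‖ ^ 2 =
    c.M * ‖v - (-(starRingEnd ℂ) z / (2 * (c.M : ℂ)))‖ ^ 2 - ‖z‖ ^ 2 / (4 * c.M) := by
  have hM := M_pos c
  have hM0 : (c.M : ℝ) ≠ 0 := hM.ne'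
  have e : v - (-(starRingEnd ℂ) z / (2 * (c.M : ℂ))) =
      v + (((2 * c.M)⁻¹ : ℝ) : ℂ) * (starRingEnd ℂ) z := by
    push_cast
    field_simp
    ring
  rw [e]
  simp only [← Complex.normSq_eq_norm_sq, Complex.normSq_apply, Complex.add_re, Complex.add_im,
    Complex.mul_re, Complex.mul_im, Complex.ofReal_re, Complex.ofReal_im, Complex.conj_re,
    Complex.conj_im]
  field_simp
  ring

end ConnAAux

open ConnAAux in
theorem joined_normal (hβ : IsBeta c.M ε β) {P : Fin 5 → ℂ} (hP : P ∈ Dom c β) :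
    ∃ Q ∈ Dom c β, NormalPt c Q ∧ JoinedIn (Dom c β) P Q := by
  have hM := M_pos c
  have hK := K_pos c
  -- step 1
  set v1 : ℂ := -(starRingEnd ℂ) (P 0) / (2 * (c.M : ℂ)) with hv1
  obtain ⟨hQ1, hJ1⟩ := step hP
    (fun s : ℝ => ![P 0, P 1, P 2 + (s : ℂ) * (v1 - P 2), P 3, P 4])
    (cont5 continuous_const continuous_const
      (continuous_const.add (Complex.continuous_ofReal.mul continuous_const))
      continuous_const continuous_const)
    (by
      conv_rhs => rw [eta5 P]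
      simp) (by
      intro s hs
      conv_rhs => rw [eta5 P]
      simp only [rho_mk]
      have h1 := square c (P 0) (P 2 + (s : ℂ) * (v1 - P 2))
      have h2 := square c (P 0) (P 2)
      rw [← hv1] at h1 h2
      have e1 : P 2 + (s : ℂ) * (v1 - P 2) - v1 = ((1 - s : ℝ) : ℂ) * (P 2 - v1) := by
        push_cast
        ring
      have e2 : ‖P 2 + (s : ℂ) * (v1 - P 2) - v1‖ ≤ ‖P 2 - v1‖ := by
        rw [e1, norm_mul, Complex.norm_real, Real.norm_of_nonneg (by linarith [hs.2])]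
        have := norm_nonneg (P 2 - v1)
        nlinarith [hs.1]
      have e3 : c.M * ‖P 2 + (s : ℂ) * (v1 - P 2) - v1‖ ^ 2 ≤ c.M * ‖P 2 - v1‖ ^ 2 := by
        apply mul_le_mul_of_nonneg_left _ hM.le
        exact pow_le_pow_left₀ (norm_nonneg _) e2 2
      linarith)
  -- step 2
  obtain ⟨hQ2, hJ2⟩ := step hQ1
    (fun s : ℝ => ![P 0, P 1, v1, P 3 - (s : ℂ) * ((P 3).im * Complex.I),
      P 4 - (s : ℂ) * ((P 4).im * Complex.I)])
    (cont5 continuous_const continuous_const continuous_const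
      (continuous_const.sub (Complex.continuous_ofReal.mul continuous_const))
      (continuous_const.sub (Complex.continuous_ofReal.mul continuous_const)))
    (by
      simp) (by
      intro s hs
      simp only [rho_mk]
      have e0 : P 2 + ((1 : ℝ) : ℂ) * (v1 - P 2) = v1 := by
        push_cast
        ring
      rw [e0]
      have r3 : (P 3 - (s : ℂ) * ((P 3).im * Complex.I)).re = (P 3).re := by simp
      have r4 : (P 4 - (s : ℂ) * ((P 4).im * Complex.I)).re = (P 4).re := by simp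
      have i3 : (P 3 - (s : ℂ) * ((P 3).im * Complex.I)).im = (1 - s) * (P 3).im := by
        simp
        ring
      have i4 : (P 4 - (s : ℂ) * ((P 4).im * Complex.I)).im = (1 - s) * (P 4).im := by
        simp
        ring
      rw [r3, r4, i3, i4]
      have hs1 : (1 - s) ^ 2 ≤ 1 := by nlinarith [hs.1, hs.2]
      have k3 : c.K * ((1 - s) * (P 3).im) ^ 2 ≤ c.K * (P 3).im ^ 2 := by
        apply mul_le_mul_of_nonneg_left _ hK.le
        rw [mul_pow]
        nlinarith [sq_nonneg (P 3).im]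
      have k4 : c.K * ((1 - s) * (P 4).im) ^ 2 ≤ c.K * (P 4).im ^ 2 := by
        apply mul_le_mul_of_nonneg_left _ hK.le
        rw [mul_pow]
        nlinarith [sq_nonneg (P 4).im]
      linarith)
  have hJ12 := hJ1.trans hJ2
  set p2 : ℂ := P 3 - ((1 : ℝ) : ℂ) * ((P 3).im * Complex.I) with hp2
  set r2 : ℂ := P 4 - ((1 : ℝ) : ℂ) * ((P 4).im * Complex.I) with hr2
  have hp2i : p2.im = 0 := by simp [hp2]
  have hr2i : r2.im = 0 := by simp [hr2]
  -- step 3
  by_cases hz : P 0 = 0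
  · refine ⟨_, hQ2, ⟨rfl, hp2i, hr2i, ?_⟩, hJ12⟩
    show ((starRingEnd ℂ) (P 0) * P 1).im = 0
    rw [hz]
    simp
  · have hz0 : 0 < ‖P 0‖ := norm_pos_iff.mpr hz
    set k : ℝ := ((starRingEnd ℂ) (P 0) * P 1).im / ‖P 0‖ ^ 2 with hk
    have key : ∀ s : ℝ, (starRingEnd ℂ) (P 0) * (P 1 - (s : ℂ) * ((k : ℂ) * Complex.I * P 0)) =
        (starRingEnd ℂ) (P 0) * P 1 -
          ((s * ((starRingEnd ℂ) (P 0) * P 1).im : ℝ) : ℂ) * Complex.I := by
      intro s
      have h1 : (starRingEnd ℂ) (P 0) * P 0 = ((‖P 0‖ ^ 2 : ℝ) : ℂ) := by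
        rw [mul_comm, Complex.mul_conj, Complex.normSq_eq_norm_sq]
      have h2 : k * ‖P 0‖ ^ 2 = ((starRingEnd ℂ) (P 0) * P 1).im := by
        rw [hk]
        field_simp
      calc (starRingEnd ℂ) (P 0) * (P 1 - (s : ℂ) * ((k : ℂ) * Complex.I * P 0)) =
          (starRingEnd ℂ) (P 0) * P 1 - (s : ℂ) * (k : ℂ) * Complex.I *
            ((starRingEnd ℂ) (P 0) * P 0) := by ring
        _ = (starRingEnd ℂ) (P 0) * P 1 - ((s * (k * ‖P 0‖ ^ 2) : ℝ) : ℂ) * Complex.I := by
            rw [h1]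
            push_cast
            ring
        _ = _ := by rw [h2]
    obtain ⟨hQ3, hJ3⟩ := step hQ2
      (fun s : ℝ => ![P 0, P 1 - (s : ℂ) * ((k : ℂ) * Complex.I * P 0), v1, p2, r2])
      (cont5 continuous_const
        (continuous_const.sub (Complex.continuous_ofReal.mul continuous_const))
        continuous_const continuous_const continuous_const)
      (by simp) (by
      intro s hs
      simp only [rho_mk]
      have hs1 : (1 - s) ^ 2 ≤ 1 := by nlinarith [hs.1, hs.2]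
      have er : ((starRingEnd ℂ) (P 0) * (P 1 - (s : ℂ) * ((k : ℂ) * Complex.I * P 0))).re =
          ((starRingEnd ℂ) (P 0) * P 1).re := by
        rw [key s]
        simp
      have ei : ((starRingEnd ℂ) (P 0) * (P 1 - (s : ℂ) * ((k : ℂ) * Complex.I * P 0))).im =
          (1 - s) * ((starRingEnd ℂ) (P 0) * P 1).im := by
        rw [key s, Complex.sub_im]
        have : (((s * ((starRingEnd ℂ) (P 0) * P 1).im : ℝ) : ℂ) * Complex.I).im =
            s * ((starRingEnd ℂ) (P 0) * P 1).im := by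
          simp only [Complex.mul_im, Complex.ofReal_re, Complex.ofReal_im, Complex.I_re,
            Complex.I_im]
          ring
        rw [this]
        ring
      rw [er, ei]
      have k1 : c.K * ((1 - s) * ((starRingEnd ℂ) (P 0) * P 1).im) ^ 2 ≤
          c.K * (((starRingEnd ℂ) (P 0) * P 1).im) ^ 2 := by
        apply mul_le_mul_of_nonneg_left _ hK.le
        rw [mul_pow]
        nlinarith [sq_nonneg ((starRingEnd ℂ) (P 0) * P 1).im]
      have k2 : ‖P 1 - (s : ℂ) * ((k : ℂ) * Complex.I * P 0)‖ ^ 2 ≤ ‖P 1‖ ^ 2 := by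
        have a1 : ‖(starRingEnd ℂ) (P 0) * (P 1 - (s : ℂ) * ((k : ℂ) * Complex.I * P 0))‖ ^ 2 ≤
            ‖(starRingEnd ℂ) (P 0) * P 1‖ ^ 2 := by
          rw [← Complex.normSq_eq_norm_sq, ← Complex.normSq_eq_norm_sq, Complex.normSq_apply,
            Complex.normSq_apply, er, ei]
          nlinarith [sq_nonneg ((starRingEnd ℂ) (P 0) * P 1).im]
        rw [norm_mul, norm_mul, mul_pow, mul_pow, Complex.norm_conj] at a1
        exact le_of_mul_le_mul_left a1 (by positivity)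
      have k3 : ell (‖P 1 - (s : ℂ) * ((k : ℂ) * Complex.I * P 0)‖ ^ 2 - 4) ≤
          ell (‖P 1‖ ^ 2 - 4) := ell_mono (by linarith)
      linarith)
    refine ⟨_, hQ3, ⟨rfl, hp2i, hr2i, ?_⟩, hJ12.trans hJ3⟩
    show ((starRingEnd ℂ) (P 0) * (P 1 - ((1 : ℝ) : ℂ) * ((k : ℂ) * Complex.I * P 0))).im = 0
    rw [key 1, Complex.sub_im]
    simp

end P4cae09
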