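import Pool.Agent.Lib.P4cae09.ConnA

/-!
# P4cae09.ConnB (2 h): the domain is connected

For a normal point (`NormalPt`) with `s = |z|²`, `t = tt P = ± |z||w|`, real `p`, `r`:
`rho = -s/(4M) + (s-1)² + ell(|w|²-4) + ell(p²-16) + ell(-1-r) - gg r - β(t,p,r)`. Keep `v = -conj z/(2M)`
along all the paths (all points stay normal). `s* = 1 + 1/(8M)`, where `φ(s) = -s/(4M)+(s-1)²` is
minimal, `φ(s*) = -1/(4M) - 1/(64M²)`, `φ` is decreasing before and increasing after `s*`.
(a) `z = 0`: `rho < 0` forces `gg r + β > 1`, so `r ≥ 1/5` (`gg_quarter`), `β = 0` for this `(p,r)` and all `t`;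
   move `w → 0` (`ell` decreases), then `z → √s*` (real).
(b) `z ≠ 0` and `(p,r)` in no disc `(p-c_m)²+r² < (2ε_m)²`: `β(t,p,r) = 0` for all `t`. Move `z → z √(s*/s)`
   (real factor), `w` fixed: `Im(conj z w) = 0` stays, `φ` decreases.
(c) `z ≠ 0` and `(p,r)` in a disc: `|r| ≤ 1/10`, `ell(p²-16) = ell(-1-r) = 0`, `gg r + β ≤ 1/100` so
   `(s-1)² ≤ 1/50`. If `|t| ≤ 3/2`: move `z → xz`, `w → w/x` (`x` real from `1` to `√(s*/s)`): `conj z w` is constant,
   `|w|² = t²/|z|² < 4` so `ell = 0`. If `|t| > 3/2` (and `< 5`): move `z → xz`, `w` fixed: `|t|` stays in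
   `[1,5]`, `β` constant (`tconst`).
(d) now `s = s*`. If `|w|² > 4` shrink `w` to `|w| = 2` (`|t| ∈ [1,5]`, `tconst`, or outside the discs `β = 0`;
   `ell` decreases). Then `φ(s*) - gg r - β + ...`: `-gg r - β + φ(s*) ≤ -1/(8M)` if `r ≤ 4` whatever `t` is
   (`gg ≥ 0`, `|β| ≤ 1/(8M)`, `β = 0` if `r > 4`...), so: move `w → 0`; `p → 0` (`ell` decreases); `r → 2`
   (`ell(-1-r)` decreases, `-gg` decreases towards `r = 2` from both sides by `gg_mono`, `gg_anti`; for `r > 1/5`
   `β = 0`; for `r ≤ 1/5`, `gg ≥ 0`): along the way `rho ≤ max(previous, -1/(8M)) < 0`.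
(e) rotate: `z = √s* e^{iθ} → √s*`.
Base point `![√s*, 0, -√s*/(2M), 0, 2]`.
-/

namespace P4cae09

open Set

/-! ### Paths from continuous curves -/

theorem joined_of_curve {E : Type*} [TopologicalSpace E] {D : Set E} {f : ℝ → E} {a b : ℝ}
    (hf : ContinuousOn f (uIcc a b)) (hD : ∀ x ∈ uIcc a b, f x ∈ D) : JoinedIn D (f a) (f b) := by
  have h1 : IsPathConnected (uIcc a b) :=
    (convex_uIcc a b).isPathConnected nonempty_uIcc
  have h2 : IsPathConnected (f '' uIcc a b) := h1.image' hf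
  have h3 := h2.joinedIn (f a) (mem_image_of_mem f left_mem_uIcc) (f b)
    (mem_image_of_mem f right_mem_uIcc)
  refine h3.mono ?_
  rintro _ ⟨x, hx, rfl⟩
  exact hD x hx

variable {c : Consts} {ε : ℕ → ℝ} {β : ℝ × ℝ × ℝ → ℝ}

theorem M_big (c : Consts) : (10 : ℝ) ^ 16 ≤ c.M := by
  have h1 := c.M_ge
  have h2 := c.u_pos
  have h3 := c.u_le
  have h4 : c.u ^ 2 ≤ 1 / 10 ^ 12 := by
    have : c.u ^ 2 ≤ (1 / 10 ^ 6) ^ 2 := pow_le_pow_left₀ h2.le h3 2
    calc c.u ^ 2 ≤ (1 / 10 ^ 6) ^ 2 := this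
      _ = 1 / 10 ^ 12 := by norm_num
  have h5 : (0 : ℝ) < c.u ^ 2 := by positivity
  have h6 : (10 : ℝ) ^ 16 ≤ 10 ^ 4 / c.u ^ 2 := by
    rw [le_div_iff₀ h5]
    nlinarith
  linarith

/-- the profile in `s = |z|²` -/
noncomputable def phis (c : Consts) (s : ℝ) : ℝ := -s / (4 * c.M) + (s - 1) ^ 2

/-- the defining function on normal points -/
noncomputable def RR (c : Consts) (β : ℝ × ℝ × ℝ → ℝ) (x y p r : ℝ) : ℝ :=
  phis c (x ^ 2) + ell (y ^ 2 - 4) + ell (p ^ 2 - 16) + ell (-1 - r) - gg r - β (x * y, p, r)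

/-- normal points -/
noncomputable def NP (c : Consts) (e : ℂ) (x y p r : ℝ) : Fin 5 → ℂ :=
  ![(x : ℂ) * e, (y : ℂ) * e, -((x : ℂ) * (starRingEnd ℂ) e) / (2 * (c.M : ℂ)), (p : ℂ), (r : ℂ)]

theorem conj_mul_self_one {e : ℂ} (he : ‖e‖ = 1) : (starRingEnd ℂ) e * e = 1 := by
  rw [← Complex.normSq_eq_conj_mul_self, Complex.normSq_eq_norm_sq, he]
  norm_num

theorem rho_NP (c : Consts) (β : ℝ × ℝ × ℝ → ℝ) {e : ℂ} (he : ‖e‖ = 1) (x y p r : ℝ) :
    rho c β (NP c e x y p r) = RR c β x y p r := by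
  have hM : 0 < c.M := lt_of_lt_of_le (by norm_num) (M_big c)
  have h1 := conj_mul_self_one he
  have e0 : NP c e x y p r 0 = (x : ℂ) * e := rfl
  have e1 : NP c e x y p r 1 = (y : ℂ) * e := rfl
  have e2 : NP c e x y p r 2 = -((x : ℂ) * (starRingEnd ℂ) e) / (2 * (c.M : ℂ)) := rfl
  have e3 : NP c e x y p r 3 = (p : ℂ) := rfl
  have e4 : NP c e x y p r 4 = (r : ℂ) := rfl
  have f1 : (starRingEnd ℂ) ((x : ℂ) * e) * ((y : ℂ) * e) = ((x * y : ℝ) : ℂ) := by
    rw [map_mul, Complex.conj_ofReal]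
    have : (x : ℂ) * (starRingEnd ℂ) e * ((y : ℂ) * e) = (x : ℂ) * y * ((starRingEnd ℂ) e * e) := by
      ring
    rw [this, h1]
    push_cast
    ring
  have f2 : ((x : ℂ) * e) * (-((x : ℂ) * (starRingEnd ℂ) e) / (2 * (c.M : ℂ))) =
      ((-(x ^ 2) / (2 * c.M) : ℝ) : ℂ) := by
    have : ((x : ℂ) * e) * (-((x : ℂ) * (starRingEnd ℂ) e) / (2 * (c.M : ℂ))) =
        -((x : ℂ) ^ 2) * ((starRingEnd ℂ) e * e) / (2 * (c.M : ℂ)) := by ring
    rw [this, h1]
    push_cast
    ring
  have f3 : ‖((x : ℂ) * e)‖ ^ 2 = x ^ 2 := by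
    rw [norm_mul, he, mul_one, Complex.norm_real, Real.norm_eq_abs, sq_abs]
  have f4 : ‖((y : ℂ) * e)‖ ^ 2 = y ^ 2 := by
    rw [norm_mul, he, mul_one, Complex.norm_real, Real.norm_eq_abs, sq_abs]
  have f5 : ‖(-((x : ℂ) * (starRingEnd ℂ) e) / (2 * (c.M : ℂ)))‖ ^ 2 = x ^ 2 / (4 * c.M ^ 2) := by
    rw [norm_div, norm_neg, norm_mul, RCLike.norm_conj, he, mul_one, Complex.norm_real,
      Real.norm_eq_abs]
    have : ‖(2 * (c.M : ℂ))‖ = 2 * c.M := by
      rw [norm_mul, Complex.norm_real, Real.norm_eq_abs, abs_of_pos hM]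
      norm_num
    rw [this, div_pow, sq_abs]
    ring
  unfold rho tt
  rw [e0, e1, e2, e3, e4, f1, f2, f3, f4, f5]
  simp only [Complex.ofReal_re, Complex.ofReal_im]
  unfold RR phis
  have : c.M * (x ^ 2 / (4 * c.M ^ 2)) = x ^ 2 / (4 * c.M) := by
    field_simp
  rw [this]
  field_simp
  ring

theorem continuous_NP (c : Consts) {T : Type*} [TopologicalSpace T] {e : T → ℂ} {x y p r : T → ℝ}
    {S : Set T}
    (he : ContinuousOn e S) (hx : ContinuousOn x S) (hy : ContinuousOn y S)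
    (hp : ContinuousOn p S) (hr : ContinuousOn r S) :
    ContinuousOn (fun s => NP c (e s) (x s) (y s) (p s) (r s)) S := by
  have k : ∀ {f : T → ℝ}, ContinuousOn f S → ContinuousOn (fun s => (f s : ℂ)) S :=
    fun hf => Complex.continuous_ofReal.comp_continuousOn hf
  have kc : ContinuousOn (fun s => (starRingEnd ℂ) (e s)) S :=
    Complex.continuous_conj.comp_continuousOn he
  refine continuousOn_pi.mpr fun i => ?_
  fin_cases i
  · exact (k hx).mul he
  · exact (k hy).mul he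
  · exact ((k hx).mul kc).neg.div_const _
  · exact k hp
  · exact k hr

/-! ### Facts on the profile -/

/-- the minimum point -/
noncomputable def ss (c : Consts) : ℝ := 1 + 1 / (8 * c.M)

theorem phis_eq (c : Consts) (s : ℝ) :
    phis c s = (s - ss c) ^ 2 - 1 / (4 * c.M) - 1 / (64 * c.M ^ 2) := by
  have hM : 0 < c.M := lt_of_lt_of_le (by norm_num) (M_big c)
  unfold phis ss
  field_simp
  ring

theorem phis_le_of {c : Consts} {s s' : ℝ} (h : |s' - ss c| ≤ |s - ss c|) :
    phis c s' ≤ phis c s := by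
  rw [phis_eq, phis_eq]
  have := sq_le_sq.mpr h
  linarith

theorem phis_ss (c : Consts) : phis c (ss c) ≤ -(1 / (4 * c.M)) := by
  have hM : 0 < c.M := lt_of_lt_of_le (by norm_num) (M_big c)
  rw [phis_eq]
  have : 0 < 1 / (64 * c.M ^ 2) := by positivity
  nlinarith

theorem ss_pos (c : Consts) : 1 ≤ ss c ∧ ss c ≤ 101 / 100 := by
  have hM := M_big c
  have hM' : 0 < c.M := lt_of_lt_of_le (by norm_num) hM
  unfold ss
  constructor
  · have : 0 < 1 / (8 * c.M) := by positivity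
    linarith
  · have : 1 / (8 * c.M) ≤ 1 / 100 := by
      apply one_div_le_one_div_of_le (by norm_num)
      linarith
    linarith

/-- `x*` -/
noncomputable def xs (c : Consts) : ℝ := Real.sqrt (ss c)

theorem xs_sq (c : Consts) : xs c ^ 2 = ss c :=
  Real.sq_sqrt (by linarith [(ss_pos c).1])

theorem xs_ge (c : Consts) : 1 ≤ xs c := by
  have h1 := xs_sq c
  have h2 := (ss_pos c).1
  have h3 : 0 ≤ xs c := Real.sqrt_nonneg _
  nlinarith

theorem xs_le (c : Consts) : xs c ≤ 101 / 100 := by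
  have h1 := xs_sq c
  have h2 := (ss_pos c).2
  have h3 : 1 ≤ xs c := xs_ge c
  nlinarith

/-- between `x` and `x*` the profile is at most its value at `x` -/
theorem phis_between {c : Consts} {x x' : ℝ} (hx : 0 ≤ x) (h : x' ∈ uIcc x (xs c)) :
    phis c (x' ^ 2) ≤ phis c (x ^ 2) := by
  apply phis_le_of
  have h0 := xs_ge c
  rw [← xs_sq]
  rcases le_total x (xs c) with h1 | h1
  · rw [uIcc_of_le h1] at h
    have a1 : x' ^ 2 ≤ xs c ^ 2 := pow_le_pow_left₀ (hx.trans h.1) h.2 2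
    have a2 : x ^ 2 ≤ x' ^ 2 := pow_le_pow_left₀ hx h.1 2
    rw [abs_of_nonpos (by linarith), abs_of_nonpos (by linarith)]
    linarith
  · rw [uIcc_of_ge h1] at h
    have a1 : xs c ^ 2 ≤ x' ^ 2 := pow_le_pow_left₀ (by linarith) h.1 2
    have a2 : x' ^ 2 ≤ x ^ 2 := pow_le_pow_left₀ (by linarith [h.1]) h.2 2
    rw [abs_of_nonneg (by linarith), abs_of_nonneg (by linarith)]
    linarith

/-! ### Facts on `β` -/

/-- outside all discs -/
def OutD (ε : ℕ → ℝ) (p r : ℝ) : Prop := ∀ m : ℕ, 1 ≤ m → (2 * ε m) ^ 2 ≤ (p - cen m) ^ 2 + r ^ 2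

theorem cen_le {m : ℕ} (hm : 1 ≤ m) : cen m ≤ 1 / 2 := by
  unfold cen
  calc ((1 : ℝ) / 2) ^ m ≤ (1 / 2) ^ 1 := pow_le_pow_of_le_one (by norm_num) (by norm_num) hm
    _ = 1 / 2 := by norm_num

theorem cen_nonneg (m : ℕ) : 0 ≤ cen m := by
  unfold cen
  positivity

theorem not_outD (hβ : IsBeta c.M ε β) {p r : ℝ} (h : ¬ OutD ε p r) :
    |r| ≤ 1 / 10 ∧ |p| ≤ 6 / 10 := by
  unfold OutD at h
  push Not at h
  obtain ⟨m, hm, h⟩ := h
  have hs := hβ.small m hm
  have h1 := hs.pos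
  have h2 := hs.le
  have h3 : (2 * ε m) ^ 2 ≤ (1 / 10) ^ 2 := pow_le_pow_left₀ (by linarith) (by linarith) 2
  have h4 := cen_le hm
  have h5 := cen_nonneg m
  constructor
  · apply abs_le_of_sq_le_sq _ (by norm_num)
    nlinarith [sq_nonneg (p - cen m)]
  · have h6 : |p - cen m| ≤ 1 / 10 := by
      apply abs_le_of_sq_le_sq _ (by norm_num)
      nlinarith [sq_nonneg r]
    rw [abs_le] at h6 ⊢
    constructor <;> linarith [h6.1, h6.2]

theorem beta_out (hβ : IsBeta c.M ε β) {p r : ℝ} (h : OutD ε p r) (t : ℝ) : β (t, p, r) = 0 :=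
  hβ.zero t p r h

theorem beta_le (hβ : IsBeta c.M ε β) (q : ℝ × ℝ × ℝ) : -β q ≤ 1 / (8 * c.M) :=
  (neg_le_abs _).trans (hβ.abs_le q)

theorem beta_le' (hβ : IsBeta c.M ε β) (q : ℝ × ℝ × ℝ) : β q ≤ 1 / (8 * c.M) :=
  (le_abs_self _).trans (hβ.abs_le q)

theorem inv8M (c : Consts) : 1 / (8 * c.M) ≤ 1 / 1000 := by
  have hM := M_big c
  apply one_div_le_one_div_of_le (by norm_num)
  linarith

theorem inv8M_pos (c : Consts) : 0 < 1 / (8 * c.M) := by
  have hM := M_big c
  have hM' : 0 < c.M := lt_of_lt_of_le (by norm_num) hM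
  positivity

theorem inv4M (c : Consts) : 1 / (4 * c.M) = 2 * (1 / (8 * c.M)) := by
  have hM := M_big c
  have hM' : 0 < c.M := lt_of_lt_of_le (by norm_num) hM
  field_simp
  norm_num

theorem phis_ss' (c : Consts) : phis c (xs c ^ 2) ≤ -(2 * (1 / (8 * c.M))) := by
  rw [xs_sq, ← inv4M]
  exact phis_ss c

theorem gg_nonneg_of_le {r : ℝ} (h : |r| ≤ 1 / 10) : 0 ≤ gg r := by
  rcases le_or_gt r 0 with h1 | h1
  · rw [gg_of_nonpos h1]
  · exact (gg_pos h1 (by linarith [le_abs_self r])).le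

theorem gg_le_of_le {r : ℝ} (h : |r| ≤ 1 / 10) : gg r ≤ 1 / 100 := by
  have h1 : gg r ≤ 20 * Real.exp (-(1 / 10 : ℝ)⁻¹) :=
    gg_le_exp ((le_abs_self r).trans h) (by norm_num)
  have h2 : (-(1 / 10 : ℝ)⁻¹) = -10 := by norm_num
  rw [h2] at h1
  have h3 : Real.exp (-10) ≤ 1 / 2000 := by
    rw [Real.exp_neg]
    have : (2000 : ℝ) ≤ Real.exp 10 := by
      have h5 : (2.7 : ℝ) ≤ Real.exp 1 := by linarith [Real.exp_one_gt_d9]
      have h6 : (2.7 : ℝ) ^ 10 ≤ Real.exp 1 ^ 10 := pow_le_pow_left₀ (by norm_num) h5 10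
      have h7 : Real.exp 1 ^ 10 = Real.exp 10 := by
        rw [Real.exp_one_pow]
        norm_num
      rw [h7] at h6
      refine le_trans ?_ h6
      norm_num
    rw [inv_le_comm₀ (by positivity) (by norm_num)]
    linarith
  linarith

/-! ### The moves -/

theorem RR_y_bound (hβ : IsBeta c.M ε β) {x y p r : ℝ} (h : RR c β x y p r < 0) :
    ell (y ^ 2 - 4) < 11 := by
  have hg := gg_le r
  have h1 := beta_le' hβ (x * y, p, r)
  have h2 := inv8M c
  have h3 : -(2 * (1 / (8 * c.M))) - 1 / 1000 ≤ phis c (x ^ 2) := by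
    rw [phis_eq, inv4M]
    have hM := M_big c
    have hM' : 0 < c.M := lt_of_lt_of_le (by norm_num) hM
    have : 1 / (64 * c.M ^ 2) ≤ 1 / 1000 := by
      apply one_div_le_one_div_of_le (by norm_num)
      nlinarith
    nlinarith [sq_nonneg (x ^ 2 - ss c)]
  have h4 := ell_nonneg (p ^ 2 - 16)
  have h5 := ell_nonneg (-1 - r)
  unfold RR at h
  linarith

theorem y_bound (hβ : IsBeta c.M ε β) {x y p r : ℝ} (h : RR c β x y p r < 0) :
    |y| ≤ 245 / 100 := by
  have h1 := RR_y_bound hβ h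
  have h2 : y ^ 2 - 4 < 2 := by
    by_contra hcon
    have := ell_large (not_lt.mp hcon)
    linarith
  apply abs_le_of_sq_le_sq _ (by norm_num)
  nlinarith

/-- outside the discs: move `x` to `x*` -/
theorem move_x_out (hβ : IsBeta c.M ε β) {x y p r : ℝ} (hx : 0 ≤ x) (ho : OutD ε p r)
    (h : RR c β x y p r < 0) : ∀ x' ∈ uIcc x (xs c), RR c β x' y p r < 0 := by
  intro x' hx'
  have h1 := phis_between hx hx'
  unfold RR at h ⊢
  rw [beta_out hβ ho] at h ⊢
  linarith

/-- in a disc `x` is close to `1` -/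
theorem x_close (hβ : IsBeta c.M ε β) {x y p r : ℝ} (hx : 0 ≤ x) (ho : ¬ OutD ε p r)
    (h : RR c β x y p r < 0) : 8 / 10 ≤ x ^ 2 ∧ x ^ 2 ≤ 12 / 10 := by
  obtain ⟨h1, h2⟩ := not_outD hβ ho
  have h3 := gg_le_of_le h1
  have h4 := beta_le' hβ (x * y, p, r)
  have h5 := inv8M c
  have h6 := ell_nonneg (y ^ 2 - 4)
  have h7 := ell_nonneg (p ^ 2 - 16)
  have h8 := ell_nonneg (-1 - r)
  have hM := M_big c
  have hM' : 0 < c.M := lt_of_lt_of_le (by norm_num) hM
  have h9 : phis c (x ^ 2) < 2 / 100 := by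
    unfold RR at h
    linarith
  rw [phis_eq, inv4M] at h9
  have h10 : 1 / (64 * c.M ^ 2) ≤ 1 / 1000 := by
    apply one_div_le_one_div_of_le (by norm_num)
    nlinarith
  have h11 : (x ^ 2 - ss c) ^ 2 < (19 / 100) ^ 2 := by nlinarith
  have h12 := abs_lt_of_sq_lt_sq h11 (by norm_num)
  rw [abs_lt] at h12
  have h13 := ss_pos c
  constructor <;> linarith [h12.1, h12.2, h13.1, h13.2]

theorem uIcc_close {x x' : ℝ} (hx : 0 ≤ x) (h : 8 / 10 ≤ x ^ 2 ∧ x ^ 2 ≤ 12 / 10)
    (h' : x' ∈ uIcc x (xs c)) : 89 / 100 ≤ x' ∧ x' ≤ 11 / 10 := by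
  have a1 : 89 / 100 ≤ x := by
    by_contra hcon
    push Not at hcon
    nlinarith
  have a2 : x ≤ 11 / 10 := by
    by_contra hcon
    push Not at hcon
    nlinarith
  have a3 := xs_ge c
  have a4 := xs_le c
  rw [mem_uIcc] at h'
  rcases h' with h' | h'
  · exact ⟨a1.trans h'.1, h'.2.trans (by linarith)⟩
  · exact ⟨le_trans (by linarith) h'.1, h'.2.trans a2⟩

/-- in a disc, `|xy| > 3/2`: move `x` to `x*`, `y` fixed -/
theorem move_x_in1 (hβ : IsBeta c.M ε β) {x y p r : ℝ} (hx : 0 ≤ x) (ho : ¬ OutD ε p r)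
    (ht : 3 / 2 < |x * y|)
    (h : RR c β x y p r < 0) : ∀ x' ∈ uIcc x (xs c), RR c β x' y p r < 0 := by
  intro x' hx'
  have h1 := phis_between hx hx'
  have h2 := x_close hβ hx ho h
  have h3 := uIcc_close hx h2 left_mem_uIcc (c := c)
  have h4 := uIcc_close hx h2 hx'
  have h5 := y_bound hβ h
  have key : ∀ x'' : ℝ, 89 / 100 ≤ x'' → x'' ≤ 11 / 10 → β (x'' * y, p, r) = β (1, p, r) := by
    intro x'' k1 k2
    have k3 : |x * y| = x * |y| := by rw [abs_mul, abs_of_nonneg hx]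
    have k4 : 136 / 100 ≤ |y| := by
      rw [k3] at ht
      by_contra hcon
      push Not at hcon
      nlinarith [abs_nonneg y]
    have k5 : |x'' * y| = x'' * |y| := by rw [abs_mul, abs_of_nonneg (by linarith)]
    apply hβ.tconst
    · rw [k5]
      nlinarith
    · rw [k5]
      nlinarith
  unfold RR at h ⊢
  rw [key x' h4.1 h4.2]
  rw [key x h3.1 h3.2] at h
  linarith

/-- in a disc, `|xy| ≤ 3/2`: move `x` to `x*`, `xy` fixed -/
theorem move_x_in2 (hβ : IsBeta c.M ε β) {x y p r : ℝ} (hx : 0 ≤ x) (ho : ¬ OutD ε p r)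
    (ht : |x * y| ≤ 3 / 2)
    (h : RR c β x y p r < 0) : ∀ x' ∈ uIcc x (xs c), RR c β x' (x * y / x') p r < 0 := by
  intro x' hx'
  have h1 := phis_between hx hx'
  have h2 := x_close hβ hx ho h
  have h4 := uIcc_close hx h2 hx'
  have h6 : x' * (x * y / x') = x * y := by
    have : x' ≠ 0 := by linarith [h4.1]
    field_simp
  have h7 : (x * y / x') ^ 2 - 4 ≤ 0 := by
    have : (x * y / x') ^ 2 = (x * y) ^ 2 / x' ^ 2 := by ring
    rw [this]
    have k1 : (x * y) ^ 2 ≤ 9 / 4 := by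
      rw [← sq_abs]
      nlinarith [abs_nonneg (x * y)]
    have k2 : 79 / 100 ≤ x' ^ 2 := by nlinarith
    have k3 : (x * y) ^ 2 / x' ^ 2 ≤ 4 := by
      rw [div_le_iff₀ (by linarith)]
      nlinarith
    linarith
  have h8 := ell_of_nonpos h7
  have h9 := ell_nonneg (y ^ 2 - 4)
  unfold RR at h ⊢
  rw [h6, h8]
  linarith

/-- `x = x*`, in a disc: move `y` to `0` -/
theorem move_y (hβ : IsBeta c.M ε β) {y p r : ℝ} (h : RR c β (xs c) y p r < 0) :
    ∀ y' : ℝ, |y'| ≤ |y| → RR c β (xs c) y' p r < 0 := by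
  intro y' hy'
  have hsq : y' ^ 2 ≤ y ^ 2 := sq_le_sq.mpr hy'
  have hell : ell (y' ^ 2 - 4) ≤ ell (y ^ 2 - 4) := ell_mono (by linarith)
  by_cases ho : OutD ε p r
  · unfold RR at h ⊢
    rw [beta_out hβ ho] at h ⊢
    linarith
  · obtain ⟨h1, h2⟩ := not_outD hβ ho
    by_cases hy2 : |y'| ≤ 2
    · have e1 : ell (y' ^ 2 - 4) = 0 := by
        apply ell_of_nonpos
        have : y' ^ 2 ≤ 2 ^ 2 := by
          rw [← sq_abs]
          exact pow_le_pow_left₀ (abs_nonneg _) hy2 2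
        linarith
      have e2 : ell (p ^ 2 - 16) = 0 := by
        apply ell_of_nonpos
        rw [← sq_abs]
        nlinarith [abs_nonneg p]
      have e3 : ell (-1 - r) = 0 := by
        apply ell_of_nonpos
        rw [abs_le] at h1
        linarith [h1.1]
      have e4 := gg_nonneg_of_le h1
      have e5 := beta_le hβ (xs c * y', p, r)
      have e6 := phis_ss' c
      have e7 := inv8M_pos c
      unfold RR
      rw [e1, e2, e3]
      linarith
    · push Not at hy2
      have hb := y_bound hβ h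
      have a3 := xs_ge c
      have a4 := xs_le c
      have key : ∀ y'' : ℝ, 2 < |y''| → |y''| ≤ 245 / 100 →
          β (xs c * y'', p, r) = β (1, p, r) := by
        intro y'' k1 k2
        have k5 : |xs c * y''| = xs c * |y''| := by rw [abs_mul, abs_of_nonneg (by linarith)]
        apply hβ.tconst
        · rw [k5]
          nlinarith
        · rw [k5]
          nlinarith
      unfold RR at h ⊢
      rw [key y' hy2 (hy'.trans hb)]
      rw [key y (hy2.trans_le hy') hb] at h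
      linarith

/-- the function without `β` -/
noncomputable def GG (c : Consts) (p r : ℝ) : ℝ :=
  phis c (xs c ^ 2) + ell (p ^ 2 - 16) + ell (-1 - r) - gg r

theorem RR_of_GG (hβ : IsBeta c.M ε β) {p r : ℝ} (h : GG c p r < 0) : RR c β (xs c) 0 p r < 0 := by
  have e1 : ell ((0 : ℝ) ^ 2 - 4) = 0 := ell_of_nonpos (by norm_num)
  by_cases ho : OutD ε p r
  · unfold RR
    unfold GG at h
    rw [beta_out hβ ho, e1]
    linarith
  · obtain ⟨h1, h2⟩ := not_outD hβ ho
    have e2 : ell (p ^ 2 - 16) = 0 := by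
      apply ell_of_nonpos
      rw [← sq_abs]
      nlinarith [abs_nonneg p]
    have e3 : ell (-1 - r) = 0 := by
      apply ell_of_nonpos
      rw [abs_le] at h1
      linarith [h1.1]
    have e4 := gg_nonneg_of_le h1
    have e5 := beta_le hβ (xs c * 0, p, r)
    have e6 := phis_ss' c
    have e7 := inv8M_pos c
    unfold RR
    rw [e1, e2, e3]
    linarith

theorem GG_of_RR (hβ : IsBeta c.M ε β) {p r : ℝ} (h : RR c β (xs c) 0 p r < 0) : GG c p r < 0 := by
  have e1 : ell ((0 : ℝ) ^ 2 - 4) = 0 := ell_of_nonpos (by norm_num)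
  by_cases ho : OutD ε p r
  · unfold RR at h
    unfold GG
    rw [beta_out hβ ho, e1] at h
    linarith
  · obtain ⟨h1, h2⟩ := not_outD hβ ho
    have e2 : ell (p ^ 2 - 16) = 0 := by
      apply ell_of_nonpos
      rw [← sq_abs]
      nlinarith [abs_nonneg p]
    have e3 : ell (-1 - r) = 0 := by
      apply ell_of_nonpos
      rw [abs_le] at h1
      linarith [h1.1]
    have e4 := gg_nonneg_of_le h1
    have e6 := phis_ss' c
    have e7 := inv8M_pos c
    unfold GG
    rw [e2, e3]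
    linarith

theorem move_p {p r p' : ℝ} (h : GG c p r < 0) (hp : |p'| ≤ |p|) : GG c p' r < 0 := by
  have hsq : p' ^ 2 ≤ p ^ 2 := sq_le_sq.mpr hp
  have hell : ell (p' ^ 2 - 16) ≤ ell (p ^ 2 - 16) := ell_mono (by linarith)
  unfold GG at h ⊢
  linarith

theorem move_r {r r' : ℝ} (h : GG c 0 r < 0) (hr : r' ∈ uIcc r 2) : GG c 0 r' < 0 := by
  unfold GG at h ⊢
  rcases le_total r 2 with h1 | h1
  · rw [uIcc_of_le h1] at hr
    have k1 : gg r ≤ gg r' := gg_mono h1 hr.2 hr.1
    have k2 : ell (-1 - r') ≤ ell (-1 - r) := ell_mono (by linarith [hr.1])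
    linarith
  · rw [uIcc_of_ge h1] at hr
    have k1 : gg r ≤ gg r' := gg_anti hr.1 h1 hr.2
    have k2 : ell (-1 - r') = 0 := ell_of_nonpos (by linarith [hr.1])
    have k3 := ell_nonneg (-1 - r)
    rw [k2]
    linarith

/-! ### Assembly -/

theorem NP_mem (hβ : IsBeta c.M ε β) {e : ℂ} (he : ‖e‖ = 1) {x y p r : ℝ}
    (h : RR c β x y p r < 0) : NP c e x y p r ∈ Dom c β := by
  show rho c β (NP c e x y p r) < 0
  rw [rho_NP c β he]
  exact h

/-- the base point -/
noncomputable def base (c : Consts) : Fin 5 → ℂ := NP c 1 (xs c) 0 0 2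

theorem GG_base (c : Consts) : GG c 0 2 < 0 := by
  have e2 : ell ((0 : ℝ) ^ 2 - 16) = 0 := ell_of_nonpos (by norm_num)
  have e3 : ell (-1 - (2 : ℝ)) = 0 := ell_of_nonpos (by norm_num)
  have e4 := gg_two
  have e6 := phis_ss' c
  have e7 := inv8M_pos c
  unfold GG
  rw [e2, e3]
  linarith

theorem base_mem (hβ : IsBeta c.M ε β) : base c ∈ Dom c β :=
  NP_mem hβ (by simp) (RR_of_GG hβ (GG_base c))

theorem joined_xs (hβ : IsBeta c.M ε β) {e : ℂ} (he : ‖e‖ = 1) {x y p r : ℝ} (hx : 0 ≤ x)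
    (h : RR c β x y p r < 0) :
    ∃ y', RR c β (xs c) y' p r < 0 ∧
      JoinedIn (Dom c β) (NP c e x y p r) (NP c e (xs c) y' p r) := by
  by_cases ho : OutD ε p r
  · refine ⟨y, move_x_out hβ hx ho h _ right_mem_uIcc, ?_⟩
    refine joined_of_curve (f := fun s => NP c e s y p r) (a := x) (b := xs c) ?_ ?_
    · exact continuous_NP c continuousOn_const continuousOn_id continuousOn_const
        continuousOn_const continuousOn_const
    · intro s hs
      exact NP_mem hβ he (move_x_out hβ hx ho h s hs)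
  · by_cases ht : 3 / 2 < |x * y|
    · refine ⟨y, move_x_in1 hβ hx ho ht h _ right_mem_uIcc, ?_⟩
      refine joined_of_curve (f := fun s => NP c e s y p r) (a := x) (b := xs c) ?_ ?_
      · exact continuous_NP c continuousOn_const continuousOn_id continuousOn_const
          continuousOn_const continuousOn_const
      · intro s hs
        exact NP_mem hβ he (move_x_in1 hβ hx ho ht h s hs)
    · push Not at ht
      have h2 := x_close hβ hx ho h
      have h3 := uIcc_close hx h2 left_mem_uIcc (c := c)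
      refine ⟨x * y / xs c, move_x_in2 hβ hx ho ht h _ right_mem_uIcc, ?_⟩
      have hy : y = x * y / x := by
        have : x ≠ 0 := by linarith [h3.1]
        field_simp
      have := joined_of_curve (D := Dom c β) (f := fun s => NP c e s (x * y / s) p r) (a := x)
        (b := xs c) ?_ ?_
      · rw [← hy] at this
        exact this
      · refine continuous_NP c continuousOn_const continuousOn_id ?_
          continuousOn_const continuousOn_const
        refine continuousOn_const.div continuousOn_id ?_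
        intro s hs
        have := (uIcc_close hx h2 hs).1
        show s ≠ 0
        linarith
      · intro s hs
        exact NP_mem hβ he (move_x_in2 hβ hx ho ht h s hs)

theorem abs_le_of_uIcc_zero {a s : ℝ} (h : s ∈ uIcc a 0) : |s| ≤ |a| := by
  rw [mem_uIcc] at h
  rcases h with h | h
  · rw [abs_of_nonpos h.2, abs_of_nonpos (h.1.trans h.2)]
    linarith [h.1]
  · rw [abs_of_nonneg h.1, abs_of_nonneg (h.1.trans h.2)]
    exact h.2

theorem joined_base (hβ : IsBeta c.M ε β) {e : ℂ} (he : ‖e‖ = 1) {x y p r : ℝ} (hx : 0 ≤ x)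
    (h : RR c β x y p r < 0) :
    JoinedIn (Dom c β) (NP c e x y p r) (base c) := by
  obtain ⟨y1, h1, j1⟩ := joined_xs hβ he hx h
  have j2 : JoinedIn (Dom c β) (NP c e (xs c) y1 p r) (NP c e (xs c) 0 p r) := by
    refine joined_of_curve (f := fun s => NP c e (xs c) s p r) (a := y1) (b := 0) ?_ ?_
    · exact continuous_NP c continuousOn_const continuousOn_const continuousOn_id
        continuousOn_const continuousOn_const
    · intro s hs
      exact NP_mem hβ he (move_y hβ h1 s (abs_le_of_uIcc_zero hs))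
  have g1 : GG c p r < 0 := GG_of_RR hβ (move_y hβ h1 0 (by simp))
  have j3 : JoinedIn (Dom c β) (NP c e (xs c) 0 p r) (NP c e (xs c) 0 0 r) := by
    refine joined_of_curve (f := fun s => NP c e (xs c) 0 s r) (a := p) (b := 0) ?_ ?_
    · exact continuous_NP c continuousOn_const continuousOn_const continuousOn_const
        continuousOn_id continuousOn_const
    · intro s hs
      exact NP_mem hβ he (RR_of_GG hβ (move_p g1 (abs_le_of_uIcc_zero hs)))
  have g2 : GG c 0 r < 0 := move_p g1 (by simp)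
  have j4 : JoinedIn (Dom c β) (NP c e (xs c) 0 0 r) (NP c e (xs c) 0 0 2) := by
    refine joined_of_curve (f := fun s => NP c e (xs c) 0 0 s) (a := r) (b := 2) ?_ ?_
    · exact continuous_NP c continuousOn_const continuousOn_const continuousOn_const
        continuousOn_const continuousOn_id
    · intro s hs
      exact NP_mem hβ he (RR_of_GG hβ (move_r g2 hs))
  have j5 : JoinedIn (Dom c β) (NP c e (xs c) 0 0 2) (base c) := by
    have k1 : e = Complex.exp (Complex.arg e * Complex.I) := by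
      have := Complex.norm_mul_exp_arg_mul_I e
      rw [he] at this
      simpa using this.symm
    have := joined_of_curve (D := Dom c β)
      (f := fun s : ℝ => NP c (Complex.exp (s * Complex.I)) (xs c) 0 0 2) (a := Complex.arg e)
      (b := 0) ?_ ?_
    · have e2 : NP c (Complex.exp ((0 : ℝ) * Complex.I)) (xs c) 0 0 2 = base c := by
        simp [base]
      rw [← k1, e2] at this
      exact this
    · refine continuous_NP c ?_ continuousOn_const continuousOn_const
        continuousOn_const continuousOn_const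
      exact (Complex.continuous_exp.comp
        ((Complex.continuous_ofReal).mul continuous_const)).continuousOn
    · intro s _
      refine NP_mem hβ ?_ (RR_of_GG hβ (GG_base c))
      rw [Complex.norm_exp_ofReal_mul_I]
  exact (((j1.trans j2).trans j3).trans j4).trans j5

/-- normal points are of the form `NP` -/
theorem normal_eq {P : Fin 5 → ℂ} (h : NormalPt c P) :
    ∃ (e : ℂ) (x y p r : ℝ), ‖e‖ = 1 ∧ 0 ≤ x ∧ P = NP c e x y p r := by
  obtain ⟨h2, h3, h4, h1⟩ := h
  have k3 : P 3 = (((P 3).re : ℝ) : ℂ) := by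
    apply Complex.ext <;> simp [h3]
  have k4 : P 4 = (((P 4).re : ℝ) : ℂ) := by
    apply Complex.ext <;> simp [h4]
  by_cases hz : P 0 = 0
  · by_cases hw : P 1 = 0
    · refine ⟨1, 0, 0, (P 3).re, (P 4).re, by simp, le_refl _, ?_⟩
      funext i
      fin_cases i
      · show P 0 = ((0 : ℝ) : ℂ) * 1
        simp [hz]
      · show P 1 = ((0 : ℝ) : ℂ) * 1
        simp [hw]
      · show P 2 = -(((0 : ℝ) : ℂ) * (starRingEnd ℂ) 1) / (2 * (c.M : ℂ))
        rw [h2, hz]
        simp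
      · exact k3
      · exact k4
    · have hn : (‖P 1‖ : ℂ) ≠ 0 := by
        simpa using hw
      refine ⟨P 1 / ‖P 1‖, 0, ‖P 1‖, (P 3).re, (P 4).re, ?_, le_refl _, ?_⟩
      · rw [norm_div, Complex.norm_real, norm_norm, div_self]
        simpa using hw
      funext i
      fin_cases i
      · show P 0 = ((0 : ℝ) : ℂ) * (P 1 / ‖P 1‖)
        simp [hz]
      · show P 1 = (‖P 1‖ : ℂ) * (P 1 / ‖P 1‖)
        field_simp
      · show P 2 = -(((0 : ℝ) : ℂ) * (starRingEnd ℂ) (P 1 / ‖P 1‖)) / (2 * (c.M : ℂ))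
        rw [h2, hz]
        simp
      · exact k3
      · exact k4
  · have hn : (‖P 0‖ : ℂ) ≠ 0 := by
      simpa using hz
    have hn' : ‖P 0‖ ≠ 0 := by simpa using hz
    set q := (starRingEnd ℂ) (P 0) * P 1 with hq
    have kq : q = ((q.re : ℝ) : ℂ) := by
      apply Complex.ext <;> simp [h1]
    have hcc : P 0 * (starRingEnd ℂ) (P 0) = ((‖P 0‖ : ℝ) : ℂ) ^ 2 := by
      rw [Complex.mul_conj, Complex.normSq_eq_norm_sq]
      push_cast
      ring
    refine ⟨P 0 / ‖P 0‖, ‖P 0‖, q.re / ‖P 0‖, (P 3).re, (P 4).re, ?_, norm_nonneg _, ?_⟩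
    · rw [norm_div, Complex.norm_real, norm_norm, div_self hn']
    funext i
    fin_cases i
    · show P 0 = (‖P 0‖ : ℂ) * (P 0 / ‖P 0‖)
      field_simp
    · show P 1 = ((q.re / ‖P 0‖ : ℝ) : ℂ) * (P 0 / ‖P 0‖)
      push_cast
      rw [← kq, hq]
      field_simp
      rw [← hcc]
      ring
    · show P 2 = -((‖P 0‖ : ℂ) * (starRingEnd ℂ) (P 0 / ‖P 0‖)) / (2 * (c.M : ℂ))
      rw [h2, map_div₀, Complex.conj_ofReal]
      congr 1
      field_simp
    · exact k3
    · exact k4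

theorem dom_isConnected (hβ : IsBeta c.M ε β) : IsConnected (Dom c β) := by
  have : IsPathConnected (Dom c β) := by
    refine ⟨base c, base_mem hβ, ?_⟩
    intro P hP
    obtain ⟨Q, hQ, hN, hj⟩ := joined_normal hβ hP
    obtain ⟨e, x, y, p, r, he, hx, rfl⟩ := normal_eq hN
    have hR : RR c β x y p r < 0 := by
      rw [← rho_NP c β he]
      exact hQ
    exact (hj.trans (joined_base hβ he hx hR)).symm
  exact this.isConnected

end P4cae09
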