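import Pool.Agent.Lib.P4cae09.ZoneO1

/-!
# P4cae09.ZoneI1: the inner zone `X ≤ ε`, off the bands

`h ≤ -(NN m - 1) ia`. `Re ζ ≥ K Y² - h + X² + ia - Y² ≥ X² + (K-1)Y² + ia > 0`.
If `9‖Psi‖ ≤ ‖U‖`: `‖U+Psi‖ ≥ (8/9)‖U‖ ≥ (8/9) Re U ≥ (8/9)(NN m - 1) ia`, `NN m - 1 = 2 CC m + 9`.
Otherwise `K Y² ≤ Re U + h ≤ ‖U‖ ≤ 10‖Psi‖`, phase lemma with `R = √(X² + ia) ≤ 1/10`:
`‖U+Psi‖ ≥ Re U + Re Psi ≥ (NN m - 1) ia + 0.9‖Psi‖`.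
-/

namespace P4cae09

theorem zoneI_ia_pos (ε : ℝ) : 0 < ia ε := by
  unfold ia
  positivity

theorem zoneI_CC_pos (m : ℕ) : 0 < CC m := by
  unfold CC
  positivity

theorem zoneI_re {U ζ : ℂ} {a om : ℝ} (hζ : ζ = U + (a : ℝ) + (om : ℂ) * Complex.I) :
    ζ.re = U.re + a := by
  rw [hζ]
  simp

/-- the phase lemma with `R = √(X² + ia)` -/
theorem zoneI_phase (c : Consts) {m : ℕ} {ε : ℝ} (hs : Small m ε) {U ζ : ℂ} {X Y om : ℝ}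
    (hX : 0 ≤ X) (hX' : X ≤ ε) (hY : 0 ≤ Y) (hU : ‖U‖ ≤ c.u)
    (hζ : ζ = U + (X ^ 2 + ia ε - Y ^ 2 : ℝ) + (om : ℂ) * Complex.I) (hom : |om| ≤ 2 * X * Y)
    (hre : 0 < ζ.re) (h9 : ‖U‖ ≤ 9 * ‖Psi ζ‖) (h10 : c.K * Y ^ 2 ≤ 10 * ‖Psi ζ‖) :
    9 / 10 * ‖Psi ζ‖ ≤ (Psi ζ).re := by
  have hia := zoneI_ia_pos ε
  have h1 := hs.s1
  have h2 := hs.le
  have h3 := hs.pos
  have hsq : Real.sqrt (X ^ 2 + ia ε) ^ 2 = X ^ 2 + ia ε := Real.sq_sqrt (by positivity)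
  have hXR : X ≤ Real.sqrt (X ^ 2 + ia ε) := by
    refine Real.le_sqrt_of_sq_le ?_
    linarith
  refine c.phase U ζ (Real.sqrt (X ^ 2 + ia ε)) Y om (Real.sqrt_pos.mpr (by positivity)) ?_ hY ?_
    ?_ hre hU h9 h10
  · rw [show (1:ℝ) / 10 = Real.sqrt ((1 / 10) ^ 2) by rw [Real.sqrt_sq (by norm_num)]]
    refine Real.sqrt_le_sqrt ?_
    have : X ^ 2 ≤ ε ^ 2 := by gcongr
    nlinarith
  · rw [hsq]
    exact hζ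
  · refine hom.trans ?_
    have : X * Y ≤ Real.sqrt (X ^ 2 + ia ε) * Y := mul_le_mul_of_nonneg_right hXR hY
    nlinarith

/-- `‖q‖² ≤ Re ζ` gives `‖q ζ^{-1/2}‖ ≤ 1` -/
theorem zoneI_quot {ζ q : ℂ} (h : 0 < ζ.re) (hq : ‖q‖ ^ 2 ≤ ζ.re) :
    ‖q * ζ ^ (-(1 / 2) : ℂ)‖ ≤ 6 / 5 := by
  rw [norm_mul, norm_zinv h]
  have h1 : ζ.re ≤ ‖ζ‖ := Complex.re_le_norm ζ
  have h2 : 0 < ‖ζ‖ := lt_of_lt_of_le h h1
  have h3 : ‖q‖ ≤ Real.sqrt ‖ζ‖ := Real.le_sqrt_of_sq_le (hq.trans h1)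
  have h4 : 0 < Real.sqrt ‖ζ‖ := Real.sqrt_pos.mpr h2
  rw [← div_eq_mul_inv]
  have : ‖q‖ / Real.sqrt ‖ζ‖ ≤ 1 := (div_le_one h4).mpr h3
  linarith

theorem zoneOff (c : Consts) {m : ℕ} {ε : ℝ} (hs : Small m ε) {U ζ q : ℂ} {X Y om h : ℝ}
    (hX : 0 ≤ X) (hX' : X ≤ ε) (hY : 0 ≤ Y) (hU : ‖U‖ ≤ c.u)
    (hre : c.K * Y ^ 2 ≤ U.re + h) (hh : h ≤ -((NN m - 1) * ia ε))
    (hζ : ζ = U + (X ^ 2 + ia ε - Y ^ 2 : ℝ) + (om : ℂ) * Complex.I) (hom : |om| ≤ 2 * X * Y)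
    (hq : ‖q‖ ^ 2 ≤ X ^ 2 + Y ^ 2) :
    0 < ζ.re ∧ ‖U‖ + ‖Psi ζ‖ ≤ 13 * ‖U + Psi ζ‖ ∧ CC m < (ia ε)⁻¹ * ‖U + Psi ζ‖ ∧
      ‖q * ζ ^ (-(1 / 2) : ℂ)‖ ≤ 6 / 5 := by
  have hia := zoneI_ia_pos ε
  have hC := zoneI_CC_pos m
  have hK := c.K_ge
  have hN : NN m - 1 = 2 * CC m + 9 := by
    unfold NN
    ring
  rw [hN] at hh
  have hN0 : 0 < (2 * CC m + 9) * ia ε := by positivity
  have hζre := zoneI_re hζ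
  have hYY : 2 * Y ^ 2 ≤ c.K * Y ^ 2 := mul_le_mul_of_nonneg_right (by linarith) (sq_nonneg Y)
  have hY2 := sq_nonneg Y
  have hX2 := sq_nonneg X
  have hre0 : X ^ 2 + Y ^ 2 < ζ.re := by linarith
  have hpos : 0 < ζ.re := by linarith
  have hKY : 0 ≤ c.K * Y ^ 2 := by linarith
  have hUre : (2 * CC m + 9) * ia ε ≤ U.re := by linarith
  have hUU : U.re ≤ ‖U‖ := Complex.re_le_norm U
  have key : ‖U‖ + ‖Psi ζ‖ ≤ 13 * ‖U + Psi ζ‖ ∧ (CC m + 1) * ia ε ≤ ‖U + Psi ζ‖ := by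
    rcases le_or_gt (9 * ‖Psi ζ‖) ‖U‖ with h9 | h9
    · have h1 : ‖U‖ - ‖Psi ζ‖ ≤ ‖U + Psi ζ‖ := by
        have := norm_sub_le (U + Psi ζ) (Psi ζ)
        rw [add_sub_cancel_right] at this
        linarith
      have h0 := norm_nonneg (Psi ζ)
      constructor
      · linarith
      · nlinarith
    · have hp := zoneI_phase c hs hX hX' hY hU hζ hom hpos h9.le (by linarith)
      have h1 : (U + Psi ζ).re ≤ ‖U + Psi ζ‖ := Complex.re_le_norm _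
      rw [Complex.add_re] at h1
      have h0 := norm_nonneg (Psi ζ)
      constructor
      · linarith
      · nlinarith
  refine ⟨hpos, key.1, ?_, zoneI_quot hpos (hq.trans hre0.le)⟩
  have h1 : (CC m + 1) ≤ (ia ε)⁻¹ * ‖U + Psi ζ‖ := by
    rw [inv_mul_eq_div, le_div_iff₀ hia]
    exact key.2
  linarith

end P4cae09
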