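import Pool.Agent.Lib.P4cae09.ZoneO1
import Pool.Agent.Lib.P4cae09.ZoneI1

/-!
# P4cae09.ZoneI2: the inner zone `X ≤ ε` in a band

`h ≤ ia/4`. `Re ζ ≥ K Y² - h + X² + ia - Y² ≥ X² + (K-1)Y² + (3/4) ia > 0`.
`‖U‖ + ‖Psi‖ ≤ 12‖U+Psi‖ + 3 ia`: if `9‖Psi‖ ≤ ‖U‖` clear; else if `‖Psi‖ ≤ ia/4` the sum is `≤ 2.5 ia`; else
`K Y² ≤ ‖U‖ + h ≤ 10‖Psi‖`, phase lemma (`R = √(X²+ia) ≤ 1/10`): `‖U+Psi‖ ≥ 0.9‖Psi‖ - ia/4`.
`(1+‖A‖)/6 ≤ ‖1+A‖` for `A = (ia)⁻¹(U+Psi)`: if `‖A‖ ≥ 2` clear. If `‖A‖ < 2`: if `‖Psi‖ ≤ ia/4` then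
`Re A ≥ -1/4 - 1/4` (`Re U ≥ -h`), so `‖1+A‖ ≥ 1/2`; else `‖U‖ ≤ 2 ia + ‖Psi‖ ≤ 9‖Psi‖`, phase lemma,
`Re Psi ≥ 0`, `Re A ≥ -1/4`, `‖1+A‖ ≥ 3/4`.
-/

namespace P4cae09

theorem zoneIn (c : Consts) {m : ℕ} {ε : ℝ} (hs : Small m ε) {U ζ q : ℂ} {X Y om h : ℝ}
    (hX : 0 ≤ X) (hX' : X ≤ ε) (hY : 0 ≤ Y) (hU : ‖U‖ ≤ c.u)
    (hre : c.K * Y ^ 2 ≤ U.re + h) (hh : h ≤ ia ε / 4)
    (hζ : ζ = U + (X ^ 2 + ia ε - Y ^ 2 : ℝ) + (om : ℂ) * Complex.I) (hom : |om| ≤ 2 * X * Y)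
    (hq : ‖q‖ ^ 2 ≤ X ^ 2 + Y ^ 2) :
    0 < ζ.re ∧ ‖U‖ + ‖Psi ζ‖ ≤ 12 * ‖U + Psi ζ‖ + 3 * ia ε ∧
      (1 + ‖((ia ε)⁻¹ : ℂ) * (U + Psi ζ)‖) / 6 ≤ ‖1 + ((ia ε)⁻¹ : ℂ) * (U + Psi ζ)‖ ∧
      ‖q * ζ ^ (-(1 / 2) : ℂ)‖ ≤ 6 / 5 := by
  have hia := zoneI_ia_pos ε
  have hK := c.K_ge
  have hζre := zoneI_re hζ
  have hYY : 2 * Y ^ 2 ≤ c.K * Y ^ 2 := mul_le_mul_of_nonneg_right (by linarith) (sq_nonneg Y)
  have hY2 := sq_nonneg Y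
  have hX2 := sq_nonneg X
  have hre0 : X ^ 2 + Y ^ 2 < ζ.re := by linarith
  have hpos : 0 < ζ.re := by linarith
  have hKY : 0 ≤ c.K * Y ^ 2 := by linarith
  have hUre : -(ia ε / 4) ≤ U.re := by linarith
  have hUU : U.re ≤ ‖U‖ := Complex.re_le_norm U
  have h0 := norm_nonneg (Psi ζ)
  have hS0 := norm_nonneg (U + Psi ζ)
  have hre2 : U.re + (Psi ζ).re ≤ ‖U + Psi ζ‖ := by
    have h1 : (U + Psi ζ).re ≤ ‖U + Psi ζ‖ := Complex.re_le_norm _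
    rwa [Complex.add_re] at h1
  have hlow : -‖Psi ζ‖ ≤ (Psi ζ).re := by
    have := Complex.abs_re_le_norm (Psi ζ)
    exact (abs_le.mp this).1
  refine ⟨hpos, ?_, ?_, zoneI_quot hpos (hq.trans hre0.le)⟩
  · rcases le_or_gt (9 * ‖Psi ζ‖) ‖U‖ with h9 | h9
    · have h1 : ‖U‖ - ‖Psi ζ‖ ≤ ‖U + Psi ζ‖ := by
        have := norm_sub_le (U + Psi ζ) (Psi ζ)
        rw [add_sub_cancel_right] at this
        linarith
      linarith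
    · rcases le_or_gt ‖Psi ζ‖ (ia ε / 4) with hP | hP
      · linarith
      · have hp := zoneI_phase c hs hX hX' hY hU hζ hom hpos h9.le (by linarith)
        linarith
  · have hc : ((ia ε)⁻¹ : ℂ) = (((ia ε)⁻¹ : ℝ) : ℂ) := by push_cast; rfl
    have hiv : 0 < (ia ε)⁻¹ := inv_pos.mpr hia
    have hnA : ‖((ia ε)⁻¹ : ℂ) * (U + Psi ζ)‖ = (ia ε)⁻¹ * ‖U + Psi ζ‖ := by
      rw [hc, norm_mul, Complex.norm_real, Real.norm_of_nonneg hiv.le]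
    have hreA : (((ia ε)⁻¹ : ℂ) * (U + Psi ζ)).re = (ia ε)⁻¹ * (U.re + (Psi ζ).re) := by
      rw [hc, Complex.re_ofReal_mul, Complex.add_re]
    set A : ℂ := ((ia ε)⁻¹ : ℂ) * (U + Psi ζ) with hA
    rcases le_or_gt 2 ‖A‖ with h2 | h2
    · have h1 : ‖A‖ - 1 ≤ ‖1 + A‖ := by
        have := norm_sub_le (1 + A) 1
        rw [add_sub_cancel_left, norm_one] at this
        linarith
      linarith
    · have h3 : (1 : ℝ) + A.re ≤ ‖1 + A‖ := by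
        have h1 : (1 + A).re ≤ ‖1 + A‖ := Complex.re_le_norm _
        simpa using h1
      have h4 : -(1 / 2) ≤ A.re := by
        have h5 : -(ia ε / 2) ≤ U.re + (Psi ζ).re := by
          rcases le_or_gt ‖Psi ζ‖ (ia ε / 4) with hP | hP
          · linarith
          · have h6 : ‖U + Psi ζ‖ < 2 * ia ε := by
              rw [hnA, inv_mul_eq_div, div_lt_iff₀ hia] at h2
              exact h2
            have h7 : ‖U‖ ≤ ‖U + Psi ζ‖ + ‖Psi ζ‖ := by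
              have := norm_sub_le (U + Psi ζ) (Psi ζ)
              rwa [add_sub_cancel_right] at this
            have hp := zoneI_phase c hs hX hX' hY hU hζ hom hpos (by linarith) (by linarith)
            linarith
        rw [hreA, inv_mul_eq_div, le_div_iff₀ hia]
        linarith
      linarith

end P4cae09
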