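import Pool.Agent.Lib.P4cae09.ZoneO1

/-!
# P4cae09.ZoneI3 (2 h): in a band and `|A| < 2C`, `B` is close to `2πi j A`

Pure statement. `i0 = ia ε`, `e₁ = √(26 CC m · i0)`, `κ = j/m ∈ [-1/2,1/2]`; data `z, w, v` with `U = -zv`;
`q = q₁`, `q.re = x₁`, `X ≥ |x₁|`, `|q.im| ≤ Y`.
From `hsum`, `hA` (`(ia)⁻¹‖U+Psi‖ < 2 CC m`): `‖U‖ + ‖Psi‖ ≤ (24 CC m + 3) i0 ≤ 25 CC m i0`.
From `hkey` (each term on the left is `≤ ‖U‖ + i0/4 ≤ 26 CC m i0`): `Y ≤ e₁`, `|Im(conj z w)| ≤ e₁`,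
`|‖z‖²-1| ≤ e₁ ≤ 1/10`.
(1) `|-vw - κU| = |v||w - κz|` and `|w - κz| = |conj z w - κ|z|²|/|z|`,
   `|conj z w - κ|z|²| ≤ |tt - κ| + |Im(conj z w)| + |κ| |1 - |z|²| ≤ δ + 2e₁`, `|v| = ‖U‖/|z|`, `|z|² ≥ 9/10`:
   `|-vw - κU| ≤ ‖U‖ (δ+2e₁)/0.9`.
(2) `X < ηε`: `‖ζ‖ ≤ ‖U‖ + i0 + X² + Y² + 2XY ≤ 2 (ηε)²` so by `psi_upper`
   `‖Psi‖ ≤ exp(-(7/1000)/(√2 ηε)) ≤ exp(-1.9/ε)` (`η = 1/400`: `(7/1000)·400/√2 = 1.979..`), so
   `i0⁻¹‖Psi‖ ≤ (1/160) e^{-(9/10)/ε}`, and `m e^{-(9/10)/ε} ≤ 10^{-6}` by `s4`; `‖S - κ‖ ≤ 2`.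
(3) `X ≥ ηε`: `ζ = X²(1+x)`, `‖x‖ ≤ (‖U‖ + i0 + Y² + 2XY)/X² ≤ 60 CC m i0/X² + 2e₁/X ≤ 4 e₁/(ηε)` (small by `s3`),
   `‖(1+x)^{-1/2} - 1‖ ≤ ‖x‖` for `‖x‖ ≤ 1/2`, so `‖qζ^{-1/2} - x₁/X‖ ≤ 6 e₁/(ηε)` and `|x₁/X - κ| ≤ δ`.
(4) Sum: `‖B - 2πi j A‖ = 2πm i0⁻¹ ‖(-vw - κU) + Psi (S - κ)‖ ≤ 2πm·25 CC m ((δ+2e₁)/0.9 + δ + 6e₁/(ηε)) + tiny`
   with `δ = 1/(10^7 m CC m)`, `m CC m e₁ ≤ ε/10^10` (`s3`).
-/

namespace P4cae09

theorem CC_ge (m : ℕ) : 1000 ≤ CC m := by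
  unfold CC
  have : (1 : ℝ) ≤ Real.exp (1000 * m) := Real.one_le_exp (by positivity)
  linarith

theorem ia_pos' (ε : ℝ) : 0 < ia ε := by unfold ia; positivity

theorem cpow_scale {X : ℝ} (hX : 0 < X) {y : ℂ} (hy : y ≠ 0) :
    (((X ^ 2 : ℝ) : ℂ) * y) ^ (-(1 / 2) : ℂ) = ((X⁻¹ : ℝ) : ℂ) * y ^ (-(1 / 2) : ℂ) := by
  have hX2 : 0 < X ^ 2 := by positivity
  have hne : ((X ^ 2 : ℝ) : ℂ) * y ≠ 0 := by
    apply mul_ne_zero _ hy
    exact_mod_cast hX2.ne'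
  rw [Complex.cpow_def_of_ne_zero hne, Complex.cpow_def_of_ne_zero hy,
    Complex.log_ofReal_mul hX2 hy, add_mul, Complex.exp_add]
  congr 1
  rw [Real.log_pow]
  have : ((((2 : ℕ) : ℝ) * Real.log X : ℝ) : ℂ) * (-(1 / 2) : ℂ) = ((-Real.log X : ℝ) : ℂ) := by
    push_cast; ring
  rw [this, ← Complex.ofReal_exp, Real.exp_neg, Real.exp_log hX]

/-- `‖(1+x)^{-1/2} - 1‖ ≤ 2‖x‖` for `‖x‖ ≤ 1/2` -/
theorem inv_sqrt_near {x : ℂ} (hx : ‖x‖ ≤ 1 / 2) :
    ‖(1 + x) ^ (-(1 / 2) : ℂ) - 1‖ ≤ 2 * ‖x‖ := by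
  have hre : 0 < (1 + x).re := by
    have h1 : |x.re| ≤ ‖x‖ := Complex.abs_re_le_norm x
    have h2 := abs_le.mp h1
    simp only [Complex.add_re, Complex.one_re]
    linarith [h2.1]
  have hne : (1 + x) ≠ 0 := by
    intro h
    rw [h] at hre
    simp at hre
  set y : ℂ := (1 + x) ^ (-(1 / 2) : ℂ) with hy
  have hy2 : y * y * (1 + x) = 1 := by
    rw [hy, ← Complex.cpow_add _ _ hne]
    have : (-(1 / 2) : ℂ) + -(1 / 2) = -1 := by norm_num
    rw [this, Complex.cpow_neg_one, inv_mul_cancel₀ hne]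
  have hyre : 0 ≤ y.re := by
    rw [hy, Complex.cpow_def_of_ne_zero hne, Complex.exp_re]
    apply mul_nonneg (Real.exp_pos _).le
    apply Real.cos_nonneg_of_neg_pi_div_two_le_of_le
    · have h1 := Complex.neg_pi_lt_arg (1 + x)
      have h2 := Complex.arg_le_pi (1 + x)
      have : (Complex.log (1 + x) * (-(1 / 2) : ℂ)).im = -(Complex.arg (1 + x)) / 2 := by
        simp [Complex.mul_im, Complex.log_im, Complex.log_re]
        ring
      rw [this]; linarith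
    · have h1 := Complex.neg_pi_lt_arg (1 + x)
      have h2 := Complex.arg_le_pi (1 + x)
      have : (Complex.log (1 + x) * (-(1 / 2) : ℂ)).im = -(Complex.arg (1 + x)) / 2 := by
        simp [Complex.mul_im, Complex.log_im, Complex.log_re]
        ring
      rw [this]; linarith
  have h1y : 1 ≤ ‖1 + y‖ := by
    have : (1 + y).re ≤ ‖1 + y‖ := Complex.re_le_norm _
    simp only [Complex.add_re, Complex.one_re] at this
    linarith
  have h1x : 1 / 2 ≤ ‖1 + x‖ := by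
    have : ‖(1 : ℂ)‖ - ‖x‖ ≤ ‖1 + x‖ := by
      have := norm_sub_norm_le (1 : ℂ) (-x)
      simpa [sub_neg_eq_add] using this
    simp at this
    linarith
  have key : (y - 1) * (1 + y) * (1 + x) = -x := by
    linear_combination hy2
  have hn : ‖y - 1‖ * ‖1 + y‖ * ‖1 + x‖ = ‖x‖ := by
    rw [← norm_mul, ← norm_mul, key, norm_neg]
  have h0 : 0 ≤ ‖y - 1‖ := norm_nonneg _
  nlinarith [mul_le_mul_of_nonneg_left h1y h0, mul_nonneg h0 (norm_nonneg (1 + y)),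
    mul_le_mul (mul_le_mul_of_nonneg_left h1y h0) h1x (by norm_num) (by positivity)]

theorem zoneIn3 {m : ℕ} (hm : 1 ≤ m) {ε : ℝ} (hs : Small m ε) {K : ℝ} (hK : 1 ≤ K) {j : ℤ}
    (hj : 2 * |j| ≤ m) {z w v U ζ q : ℂ} {X Y om h : ℝ}
    (hUdef : U = -(z * v)) (hX : 0 ≤ X) (hX' : X ≤ ε) (hY : 0 ≤ Y)
    (hkey : K * Y ^ 2 + K * (((starRingEnd ℂ) z * w).im) ^ 2 + (‖z‖ ^ 2 - 1) ^ 2 ≤ U.re + h)
    (hh : h ≤ ia ε / 4) (hre : 0 < ζ.re)
    (hζ : ζ = U + (X ^ 2 + ia ε - Y ^ 2 : ℝ) + (om : ℂ) * Complex.I) (hom : |om| ≤ 2 * X * Y)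
    (hq : |q.re| ≤ X) (hq' : |q.im| ≤ Y) (hS : ‖q * ζ ^ (-(1 / 2) : ℂ)‖ ≤ 6 / 5)
    (ht : |((starRingEnd ℂ) z * w).re - (j : ℝ) / m| < dd m)
    (hband : X < eta * ε ∨ |q.re - (j : ℝ) / m * X| < dd m * X)
    (hsum : ‖U‖ + ‖Psi ζ‖ ≤ 12 * ‖U + Psi ζ‖ + 3 * ia ε)
    (hA : ‖((ia ε)⁻¹ : ℂ) * (U + Psi ζ)‖ < 2 * CC m) :
    ‖2 * Real.pi * Complex.I * m * ((ia ε)⁻¹ : ℂ) *
        (-(v * w) + Psi ζ * (q * ζ ^ (-(1 / 2) : ℂ))) -
      2 * Real.pi * Complex.I * j * (((ia ε)⁻¹ : ℂ) * (U + Psi ζ))‖ ≤ 1 / 2000 := by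
  have hC := CC_ge m
  have hi := ia_pos' ε
  have hε := hs.pos
  have hε20 := hs.le
  have hmR : (1 : ℝ) ≤ m := by exact_mod_cast hm
  set C := CC m with hCdef
  set i0 := ia ε with hi0
  set e1 := Real.sqrt (26 * C * i0) with he1
  have he1sq : e1 ^ 2 = 26 * C * i0 := by
    rw [he1, Real.sq_sqrt (by positivity)]
  have he1nn : 0 ≤ e1 := Real.sqrt_nonneg _
  have hs3 : m * C * e1 ≤ ε / 10 ^ 10 := hs.s3
  have hmC : (1000 : ℝ) ≤ m * C := by nlinarith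
  set Ψ := Psi ζ with hΨ
  set κ : ℝ := (j : ℝ) / m with hκ
  have hκabs : |κ| ≤ 1 / 2 := by
    rw [hκ, abs_div, abs_of_nonneg (by positivity : (0 : ℝ) ≤ m), div_le_iff₀ (by linarith)]
    have : (2 * |j| : ℤ) ≤ (m : ℤ) := hj
    have h2 : (2 : ℝ) * |(j : ℝ)| ≤ m := by exact_mod_cast this
    linarith
  -- bound of ‖U + Ψ‖
  have hUΨ : ‖U + Ψ‖ < 2 * C * i0 := by
    rw [norm_mul, norm_inv, Complex.norm_real, Real.norm_of_nonneg hi.le,
      inv_mul_lt_iff₀ hi] at hA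
    linarith
  have hsum' : ‖U‖ + ‖Ψ‖ ≤ 25 * C * i0 := by nlinarith
  have hUn : ‖U‖ ≤ 25 * C * i0 := by linarith [norm_nonneg Ψ]
  have hΨn : ‖Ψ‖ ≤ 25 * C * i0 := by linarith [norm_nonneg U]
  have hUre : U.re ≤ ‖U‖ := Complex.re_le_norm U
  have hR : U.re + h ≤ e1 ^ 2 := by rw [he1sq]; nlinarith
  have hk1 : Y ^ 2 ≤ K * Y ^ 2 := le_mul_of_one_le_left (sq_nonneg Y) hK
  have hk2 : ((starRingEnd ℂ) z * w).im ^ 2 ≤ K * ((starRingEnd ℂ) z * w).im ^ 2 :=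
    le_mul_of_one_le_left (sq_nonneg _) hK
  have hk3 : 0 ≤ (‖z‖ ^ 2 - 1) ^ 2 := sq_nonneg _
  have hk4 : 0 ≤ Y ^ 2 := sq_nonneg _
  have hk5 : 0 ≤ ((starRingEnd ℂ) z * w).im ^ 2 := sq_nonneg _
  have hYe : Y ≤ e1 := by
    apply le_of_sq_le_sq _ he1nn
    linarith
  have hIm : |((starRingEnd ℂ) z * w).im| ≤ e1 := by
    apply abs_le_of_sq_le_sq _ he1nn
    linarith
  have hzz : |‖z‖ ^ 2 - 1| ≤ e1 := by
    apply abs_le_of_sq_le_sq _ he1nn
    linarith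
  have he1small : e1 ≤ ε / 10 ^ 13 := by
    have : 1000 * e1 ≤ ε / 10 ^ 10 := by nlinarith
    linarith
  have hδ : m * C * dd m = 1 / 10 ^ 7 := by
    unfold dd
    rw [← hCdef]
    field_simp
  have hδpos : 0 ≤ dd m := by unfold dd; positivity
  -- first part
  have hz2 : 9 / 10 ≤ ‖z‖ ^ 2 := by
    have := (abs_le.mp hzz).1
    linarith
  have hzpos : 0 < ‖z‖ := by
    rcases (norm_nonneg z).lt_or_eq with h | h
    · exact h
    · rw [← h] at hz2; norm_num at hz2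
  have hp1 : ‖-(v * w) - (κ : ℂ) * U‖ ≤ 25 * C * i0 * (12 / 10 * dd m + 2 * e1) := by
    have e : -(v * w) - (κ : ℂ) * U = -(v * (w - κ * z)) := by rw [hUdef]; ring
    rw [e, norm_neg, norm_mul]
    have hUv : ‖U‖ = ‖z‖ * ‖v‖ := by rw [hUdef, norm_neg, norm_mul]
    have hw : ‖z‖ * ‖w - κ * z‖ ≤ dd m + 15 / 10 * e1 := by
      have e2 : ‖z‖ * ‖w - κ * z‖ = ‖(starRingEnd ℂ) z * w - ((κ * ‖z‖ ^ 2 : ℝ) : ℂ)‖ := by
        have : ‖z‖ = ‖(starRingEnd ℂ) z‖ := (RCLike.norm_conj z).symm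
        rw [this, ← norm_mul]
        congr 1
        have hzc : (starRingEnd ℂ) z * z = ((‖z‖ ^ 2 : ℝ) : ℂ) := by
          rw [mul_comm, Complex.mul_conj, Complex.normSq_eq_norm_sq]
        rw [mul_sub, mul_left_comm, hzc]
        rw [← this]
        push_cast
        ring
      rw [e2]
      have e3 : (starRingEnd ℂ) z * w - ((κ * ‖z‖ ^ 2 : ℝ) : ℂ) =
          (((((starRingEnd ℂ) z * w).re - κ : ℝ)) : ℂ) +
          ((((starRingEnd ℂ) z * w).im : ℝ) : ℂ) * Complex.I +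
          ((κ * (1 - ‖z‖ ^ 2) : ℝ) : ℂ) := by
        apply Complex.ext
        · simp only [Complex.sub_re, Complex.add_re, Complex.ofReal_re, Complex.mul_re,
            Complex.ofReal_im, Complex.I_re, Complex.I_im]
          ring
        · simp only [Complex.sub_im, Complex.add_im, Complex.ofReal_re, Complex.mul_im,
            Complex.ofReal_im, Complex.I_re, Complex.I_im]
          ring
      rw [e3]
      refine (norm_add_le _ _).trans ?_
      refine (add_le_add_left (norm_add_le _ _) _).trans ?_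
      rw [norm_mul, Complex.norm_I, mul_one]
      simp only [Complex.norm_real, Real.norm_eq_abs]
      have h3 : |κ * (1 - ‖z‖ ^ 2)| ≤ 1 / 2 * e1 := by
        rw [abs_mul, abs_sub_comm 1]
        exact mul_le_mul hκabs hzz (abs_nonneg _) (by norm_num)
      linarith
    have hvw : ‖v‖ * ‖w - κ * z‖ * ‖z‖ ^ 2 = ‖U‖ * (‖z‖ * ‖w - κ * z‖) := by
      rw [hUv]; ring
    have h5 : ‖v‖ * ‖w - κ * z‖ * (9 / 10) ≤ 25 * C * i0 * (dd m + 15 / 10 * e1) := by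
      calc ‖v‖ * ‖w - κ * z‖ * (9 / 10) ≤ ‖v‖ * ‖w - κ * z‖ * ‖z‖ ^ 2 := by
            apply mul_le_mul_of_nonneg_left hz2; positivity
        _ = ‖U‖ * (‖z‖ * ‖w - κ * z‖) := hvw
        _ ≤ _ := mul_le_mul hUn hw (by positivity) (by positivity)
    have h6 : 0 ≤ 25 * C * i0 * dd m := by positivity
    have h7 : 0 ≤ 25 * C * i0 * e1 := by positivity
    nlinarith
  -- second part
  have hp2 : ‖Ψ‖ * ‖q * ζ ^ (-(1 / 2) : ℂ) - (κ : ℂ)‖ ≤
      i0 * (25 * C * (dd m + 13 * (400 * e1 / ε)) + 2 * (Real.exp (-(9 / 10) * ε⁻¹) / 160)) := by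
    by_cases hXs : X < eta * ε
    · -- small X
      have hζn : ‖ζ‖ ≤ 2 * (eta * ε) ^ 2 := by
        have h1 : ‖ζ‖ ≤ ‖U‖ + (X ^ 2 + i0 + Y ^ 2) + 2 * X * Y := by
          rw [hζ]
          refine (norm_add_le _ _).trans ?_
          refine (add_le_add_left (norm_add_le _ _) _).trans ?_
          rw [norm_mul, Complex.norm_I, mul_one]
          simp only [Complex.norm_real, Real.norm_eq_abs]
          have h2 : |X ^ 2 + i0 - Y ^ 2| ≤ X ^ 2 + i0 + Y ^ 2 := by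
            rw [abs_le]; constructor <;> nlinarith [sq_nonneg X, sq_nonneg Y]
          linarith
        have h2 : ‖U‖ + i0 ≤ e1 ^ 2 := by rw [he1sq]; nlinarith
        have hηε : (0:ℝ) < eta * ε := by unfold eta; positivity
        have he1η : e1 ≤ eta * ε / 100 := by
          unfold eta
          linarith
        nlinarith [mul_nonneg hX hY, mul_le_mul hXs.le hYe hY hηε.le, sq_nonneg (e1)]
      have hPsi : ‖Ψ‖ ≤ i0 * (Real.exp (-(9 / 10) * ε⁻¹) / 160) := by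
        have h1 := psi_upper hre
        have hζpos : 0 < ‖ζ‖ := norm_pos_iff.mpr (by rintro rfl; simp at hre)
        have h2 : (19 / 10) * ε⁻¹ ≤ (7 / 1000) * (Real.sqrt ‖ζ‖)⁻¹ := by
          have h3 : Real.sqrt ‖ζ‖ ≤ 142 / 100 * (eta * ε) := by
            rw [show (142 / 100 * (eta * ε)) = Real.sqrt ((142 / 100 * (eta * ε)) ^ 2) by
              rw [Real.sqrt_sq]; unfold eta; positivity]
            apply Real.sqrt_le_sqrt
            nlinarith [sq_nonneg (eta * ε)]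
          have h4 : 0 < Real.sqrt ‖ζ‖ := Real.sqrt_pos.mpr hζpos
          rw [← div_eq_mul_inv, ← div_eq_mul_inv, div_le_div_iff₀ hε h4]
          unfold eta at h3
          nlinarith
        have h3 : ‖Ψ‖ ≤ Real.exp (-(19 / 10) * ε⁻¹) := by
          refine h1.trans (Real.exp_le_exp.mpr ?_)
          linarith
        refine h3.trans (le_of_eq ?_)
        rw [hi0]
        unfold ia
        rw [show (-(19 / 10) * ε⁻¹) = -ε⁻¹ + (-(9 / 10) * ε⁻¹) by ring, Real.exp_add]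
        ring
      have hSk : ‖q * ζ ^ (-(1 / 2) : ℂ) - (κ : ℂ)‖ ≤ 2 := by
        refine (norm_sub_le _ _).trans ?_
        rw [Complex.norm_real, Real.norm_eq_abs]
        linarith
      have h4 : ‖Ψ‖ * ‖q * ζ ^ (-(1 / 2) : ℂ) - (κ : ℂ)‖ ≤
          i0 * (Real.exp (-(9 / 10) * ε⁻¹) / 160) * 2 :=
        mul_le_mul hPsi hSk (norm_nonneg _) (by positivity)
      have h5 : 0 ≤ i0 * (25 * C * (dd m + 13 * (400 * e1 / ε))) := by positivity
      nlinarith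
    · -- large X
      rw [not_lt] at hXs
      have hXε : ε / 400 ≤ X := by unfold eta at hXs; linarith
      have hXpos : 0 < X := by linarith [div_pos hε (by norm_num : (0:ℝ) < 400)]
      have hb : |q.re - κ * X| < dd m * X := by
        rcases hband with h | h
        · linarith
        · exact h
      set τ : ℝ := 400 * e1 / ε with hτ
      have hτnn : 0 ≤ τ := by positivity
      have hτe : e1 / X ≤ τ := by
        rw [hτ, div_le_div_iff₀ hXpos hε]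
        nlinarith
      have hτsmall : τ ≤ 1 / 10 ^ 10 := by
        rw [hτ, div_le_iff₀ hε]
        nlinarith
      set x : ℂ := (U + (i0 - Y ^ 2 : ℝ) + (om : ℂ) * Complex.I) / ((X ^ 2 : ℝ) : ℂ) with hx
      have hX2 : ((X ^ 2 : ℝ) : ℂ) ≠ 0 := by
        norm_cast; positivity
      have hζx : ζ = ((X ^ 2 : ℝ) : ℂ) * (1 + x) := by
        rw [hx, mul_add, mul_div_cancel₀ _ hX2, hζ]
        push_cast
        ring
      have hxn : ‖x‖ ≤ 3 * τ := by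
        rw [hx, norm_div, Complex.norm_real, Real.norm_of_nonneg (by positivity),
          div_le_iff₀ (by positivity)]
        have h1 : ‖U + ((i0 - Y ^ 2 : ℝ) : ℂ) + (om : ℂ) * Complex.I‖ ≤
            ‖U‖ + (i0 + Y ^ 2) + 2 * X * Y := by
          refine (norm_add_le _ _).trans ?_
          refine (add_le_add_left (norm_add_le _ _) _).trans ?_
          rw [norm_mul, Complex.norm_I, mul_one]
          simp only [Complex.norm_real, Real.norm_eq_abs]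
          have h2 : |i0 - Y ^ 2| ≤ i0 + Y ^ 2 := by
            rw [abs_le]; constructor <;> nlinarith [sq_nonneg Y]
          linarith
        have h2 : ‖U‖ + i0 ≤ e1 ^ 2 := by rw [he1sq]; nlinarith
        have h3 : e1 ≤ τ * X := by
          rw [div_le_iff₀ hXpos] at hτe; exact hτe
        have h4 : e1 ^ 2 ≤ (τ * X) ^ 2 := pow_le_pow_left₀ he1nn h3 2
        have h5 : X * Y ≤ X * (τ * X) := mul_le_mul_of_nonneg_left (hYe.trans h3) hXpos.le
        have h6 : Y ^ 2 ≤ (τ * X) ^ 2 := pow_le_pow_left₀ hY (hYe.trans h3) 2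
        have h7 : τ ^ 2 ≤ τ / 10 := by nlinarith
        have h8 : (τ * X) ^ 2 ≤ τ / 10 * X ^ 2 := by
          rw [mul_pow]; exact mul_le_mul_of_nonneg_right h7 (by positivity)
        nlinarith
      have hcpow : ζ ^ (-(1 / 2) : ℂ) = ((X⁻¹ : ℝ) : ℂ) * (1 + x) ^ (-(1 / 2) : ℂ) := by
        rw [hζx]
        refine cpow_scale hXpos ?_
        intro h0
        rw [h0, mul_zero] at hζx
        rw [hζx] at hre
        simp at hre
      have hnear := inv_sqrt_near (x := x) (by linarith)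
      have hqn : ‖q‖ ≤ 2 * X := by
        refine (Complex.norm_le_abs_re_add_abs_im q).trans ?_
        have : Y ≤ X := by
          have h3 : e1 ≤ τ * X := by
            rw [div_le_iff₀ hXpos] at hτe; exact hτe
          nlinarith
        linarith
      have hdec : q * ζ ^ (-(1 / 2) : ℂ) - (κ : ℂ) =
          q * ((X⁻¹ : ℝ) : ℂ) * ((1 + x) ^ (-(1 / 2) : ℂ) - 1) +
          (((q.re - κ * X) * X⁻¹ : ℝ) : ℂ) + ((q.im * X⁻¹ : ℝ) : ℂ) * Complex.I := by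
        rw [hcpow]
        have hqq : q = (q.re : ℂ) + (q.im : ℂ) * Complex.I := (Complex.re_add_im q).symm
        have hXX : (κ : ℂ) = ((κ * X * X⁻¹ : ℝ) : ℂ) := by
          congr 1; field_simp
        rw [hXX]
        push_cast
        conv_lhs => rw [hqq]
        conv_rhs => rw [hqq]
        simp only [Complex.add_re, Complex.ofReal_re, Complex.mul_re, Complex.I_re, mul_zero,
          Complex.ofReal_im, Complex.I_im, mul_one, sub_self, add_zero, Complex.add_im,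
          Complex.mul_im, zero_add]
        ring
      have hfin : ‖q * ζ ^ (-(1 / 2) : ℂ) - (κ : ℂ)‖ ≤ dd m + 13 * τ := by
        rw [hdec]
        refine (norm_add_le _ _).trans ?_
        refine (add_le_add_left (norm_add_le _ _) _).trans ?_
        rw [norm_mul, norm_mul, norm_mul, Complex.norm_I, mul_one]
        simp only [Complex.norm_real, Real.norm_eq_abs]
        rw [abs_mul, abs_mul, abs_of_pos (inv_pos.mpr hXpos)]
        have h1 : ‖q‖ * X⁻¹ ≤ 2 := by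
          rw [← div_eq_mul_inv, div_le_iff₀ hXpos]; exact hqn
        have h2 : |q.re - κ * X| * X⁻¹ ≤ dd m := by
          rw [← div_eq_mul_inv, div_le_iff₀ hXpos]; exact hb.le
        have h3 : |q.im| * X⁻¹ ≤ τ := by
          rw [← div_eq_mul_inv]
          refine le_trans ?_ hτe
          exact div_le_div_of_nonneg_right (hq'.trans hYe) hXpos.le
        have h4 : ‖q‖ * X⁻¹ * ‖(1 + x) ^ (-(1 / 2) : ℂ) - 1‖ ≤ 2 * (2 * (3 * τ)) :=
          mul_le_mul h1 (hnear.trans (by linarith)) (norm_nonneg _) (by norm_num)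
        linarith
      have h5 : ‖Ψ‖ * ‖q * ζ ^ (-(1 / 2) : ℂ) - (κ : ℂ)‖ ≤
          25 * C * i0 * (dd m + 13 * τ) :=
        mul_le_mul hΨn hfin (norm_nonneg _) (by positivity)
      have h6 : 0 ≤ i0 * (2 * (Real.exp (-(9 / 10) * ε⁻¹) / 160)) := by positivity
      nlinarith
  -- assembly
  have hdecomp : 2 * Real.pi * Complex.I * m * ((i0 : ℂ)⁻¹) *
        (-(v * w) + Ψ * (q * ζ ^ (-(1 / 2) : ℂ))) -
      2 * Real.pi * Complex.I * j * (((i0 : ℂ)⁻¹) * (U + Ψ)) =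
      ((2 * Real.pi * m * i0⁻¹ : ℝ) : ℂ) * Complex.I *
        ((-(v * w) - (κ : ℂ) * U) + Ψ * (q * ζ ^ (-(1 / 2) : ℂ) - (κ : ℂ))) := by
    have hmne : (m : ℂ) ≠ 0 := by
      have : (m : ℝ) ≠ 0 := by positivity
      exact_mod_cast this
    have hκm : (m : ℂ) * (κ : ℂ) = (j : ℂ) := by
      rw [hκ]; push_cast; field_simp
    rw [← hκm]
    push_cast
    ring
  rw [hdecomp, norm_mul, norm_mul, Complex.norm_I, mul_one, Complex.norm_real,
    Real.norm_of_nonneg (by positivity)]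
  have hB : ‖(-(v * w) - (κ : ℂ) * U) + Ψ * (q * ζ ^ (-(1 / 2) : ℂ) - (κ : ℂ))‖ ≤
      25 * C * i0 * (12 / 10 * dd m + 2 * e1) +
      i0 * (25 * C * (dd m + 13 * (400 * e1 / ε)) + 2 * (Real.exp (-(9 / 10) * ε⁻¹) / 160)) := by
    refine (norm_add_le _ _).trans ?_
    rw [norm_mul]
    exact add_le_add hp1 hp2
  have hpi : Real.pi < 3.15 := Real.pi_lt_d2
  have hmain : 2 * Real.pi * m * i0⁻¹ * (25 * C * i0 * (12 / 10 * dd m + 2 * e1) +
      i0 * (25 * C * (dd m + 13 * (400 * e1 / ε)) + 2 * (Real.exp (-(9 / 10) * ε⁻¹) / 160))) =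
      2 * Real.pi * (25 * (12 / 10 * (m * C * dd m) + 2 * (m * C * e1)) +
        (25 * ((m * C * dd m) + 13 * (400 * (m * C * e1) / ε)) +
        2 * (m * Real.exp (-(9 / 10) * ε⁻¹) / 160))) := by
    field_simp
  refine (mul_le_mul_of_nonneg_left hB (by positivity)).trans ?_
  rw [hmain, hδ]
  have h1 : m * C * e1 / ε ≤ 1 / 10 ^ 10 := by
    rw [div_le_iff₀ hε]; linarith
  have h2 := hs.s4
  have h3 : (400 * (m * C * e1) / ε) = 400 * (m * C * e1 / ε) := by ring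
  rw [h3]
  have h4 : 0 ≤ m * C * e1 / ε := by positivity
  have h5 : m * C * e1 ≤ 1 / 10 ^ 11 := by
    have : ε / 10 ^ 10 ≤ 1 / 10 ^ 11 := by
      rw [div_le_div_iff₀ (by norm_num) (by norm_num)]
      linarith
    linarith
  have h6 : 0 ≤ m * Real.exp (-(9 / 10) * ε⁻¹) := by positivity
  have hin : (25 * (12 / 10 * (1 / 10 ^ 7) + 2 * (m * C * e1)) +
        (25 * ((1 / 10 ^ 7 : ℝ) + 13 * (400 * (m * C * e1 / ε))) +
        2 * (m * Real.exp (-(9 / 10) * ε⁻¹) / 160))) ≤ 2 / 10 ^ 5 := by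
    nlinarith
  have hnn : 0 ≤ (25 * (12 / 10 * (1 / 10 ^ 7) + 2 * (m * C * e1)) +
        (25 * ((1 / 10 ^ 7 : ℝ) + 13 * (400 * (m * C * e1 / ε))) +
        2 * (m * Real.exp (-(9 / 10) * ε⁻¹) / 160))) := by positivity
  nlinarith [Real.pi_pos]

end P4cae09
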