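import Pool.Agent.Lib.P4cae09.ZoneO2
import Pool.Agent.Lib.P4cae09.ZoneI1
import Pool.Agent.Lib.P4cae09.ZoneI2
import Pool.Agent.Lib.P4cae09.ZoneI3
import Pool.Agent.Lib.P4cae09.Bounds

/-!
# P4cae09.Cover (2 h): assembly of the zone estimates on the domain

For `P ∈ Dom`, `m ≥ 1`, `ε = ε m`: `q = P 3 - c_m`, `X = XX m P`, `Y = √((Im p)² + (Im r)²)`,
`om = 2((Re q)(Im p) + (Re r)(Im r))` (`|om| ≤ 2XY`, Cauchy-Schwarz), `U = UU P`, `ζ = zz m ε P`,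
`h = gg (Re r) + β(..)`; `dom_key` gives `K Y² ≤ Re U + h`, `dom_bounds` gives `‖U‖ ≤ u` (`UU P = -(zv)`),
`K Y² ≤ 12`, `X ≤ 12`.
* `X ≥ 1/20`: `zoneO1`; `‖U+Psi‖ ≥ 4/5 - u ≥ 7/10`, `(ia)⁻¹ ≥ 2 CC m` (`s2`: `e^{1/ε}/160`); `‖vw‖ ≤ 3u`, `‖Psi‖ ≤ 1`.
* `ε ≤ X ≤ 1/20`: `h ≤ 40 e^{-1/X}`: `gg (Re r) ≤ 20 e^{-1/X}` (`gg_le_exp`, `Re r ≤ X`); `β ≤ 20 e^{-1/X}`: if the point
  `(Re p, Re r)` is in the disc of `l` (radius `2ε_l`) then `β ≤ ia ε_l/8 = 20 e^{-1/ε_l}` (`upper`) and `X ≥ ε_l`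
  (for `l = m` by assumption; for `l ≠ m`, `X ≥ |c_m-c_l| - 2ε_l ≥ 2ε_l` since `|c_m-c_l| ≥ 4ε_l`, `Small.le_cen`);
  if it is in no disc, `β = 0` (`zero`). Then `zoneO2`. `‖z‖ ≥ 9/10`: `(‖z‖²-1)² ≤ ‖U‖ + h ≤ 1/100`, so
  `‖vw‖ = ‖U‖‖w‖/‖z‖ ≤ 4‖U‖`.
* `X < ε`: `gg (Re r) ≤ 20 e^{-1/ε} = ia/8`; `band` of `IsBeta` (`|tt P| ≤ ‖z‖‖w‖ ≤ 5`: `‖z‖ ≤ 1.1`, `‖w‖ ≤ 3`): either
  `β ≤ -NN m ia`, so `h ≤ -(NN m - 1) ia`: `zoneOff`; or `P ∈ bandSet m ε j`.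
  In `bandSet`: `β ≤ ia/8` (`upper`), `h ≤ ia/4`: `zoneIn`, `zoneIn3`.
`‖BB‖ ≤ 2πm (ia)⁻¹(‖vw‖ + ‖Psi‖‖SS‖) ≤ 2πm (ia)⁻¹·4(‖U‖+‖Psi‖)` etc. In a band with `‖AA‖ ≥ 3`:
`3 ia ≤ ‖U+Psi‖` so `‖U‖+‖Psi‖ ≤ 13‖U+Psi‖`. `2π·4·13 ≤ 500`.
-/

namespace P4cae09

variable {c : Consts} {ε : ℕ → ℝ} {β : ℝ × ℝ × ℝ → ℝ}

namespace CovAux

noncomputable def YY (P : Fin 5 → ℂ) : ℝ := Real.sqrt ((P 3).im ^ 2 + (P 4).im ^ 2)

noncomputable def OM (m : ℕ) (P : Fin 5 → ℂ) : ℝ :=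
  2 * (((P 3).re - cen m) * (P 3).im + (P 4).re * (P 4).im)

noncomputable def HH (β : ℝ × ℝ × ℝ → ℝ) (P : Fin 5 → ℂ) : ℝ :=
  gg (P 4).re + β (tt P, (P 3).re, (P 4).re)

theorem XX_sq (m : ℕ) (P : Fin 5 → ℂ) :
    XX m P ^ 2 = ((P 3).re - cen m) ^ 2 + (P 4).re ^ 2 :=
  Real.sq_sqrt (by positivity)

theorem XX_nonneg (m : ℕ) (P : Fin 5 → ℂ) : 0 ≤ XX m P := Real.sqrt_nonneg _

theorem YY_sq (P : Fin 5 → ℂ) : YY P ^ 2 = (P 3).im ^ 2 + (P 4).im ^ 2 :=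
  Real.sq_sqrt (by positivity)

theorem YY_nonneg (P : Fin 5 → ℂ) : 0 ≤ YY P := Real.sqrt_nonneg _

theorem zeta (m : ℕ) (e : ℝ) (P : Fin 5 → ℂ) :
    zz m e P = UU P + (XX m P ^ 2 + ia e - YY P ^ 2 : ℝ) + (OM m P : ℂ) * Complex.I := by
  unfold zz
  rw [XX_sq, YY_sq]
  apply Complex.ext
  · simp [OM, pow_two]
    ring
  · simp [OM, pow_two]
    ring

theorem om_le (m : ℕ) (P : Fin 5 → ℂ) : |OM m P| ≤ 2 * XX m P * YY P := by
  have hX := XX_nonneg m P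
  have hY := YY_nonneg P
  refine abs_le_of_sq_le_sq ?_ (by positivity)
  have h1 := XX_sq m P
  have h2 := YY_sq P
  have e : (2 * XX m P * YY P) ^ 2 = 4 * (XX m P ^ 2 * YY P ^ 2) := by ring
  rw [e, h1, h2]
  unfold OM
  nlinarith [sq_nonneg (((P 3).re - cen m) * (P 4).im - (P 4).re * (P 3).im)]

theorem q_re (m : ℕ) (P : Fin 5 → ℂ) : (P 3 - (cen m : ℂ)).re = (P 3).re - cen m := by simp

theorem q_im (m : ℕ) (P : Fin 5 → ℂ) : (P 3 - (cen m : ℂ)).im = (P 3).im := by simp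

theorem q_le (m : ℕ) (P : Fin 5 → ℂ) : ‖P 3 - (cen m : ℂ)‖ ^ 2 ≤ XX m P ^ 2 + YY P ^ 2 := by
  rw [Complex.sq_norm, Complex.normSq_apply, q_re, q_im, XX_sq, YY_sq]
  nlinarith [sq_nonneg (P 4).re, sq_nonneg (P 4).im]

theorem q_re_le (m : ℕ) (P : Fin 5 → ℂ) : |(P 3 - (cen m : ℂ)).re| ≤ XX m P := by
  rw [q_re]
  refine abs_le_of_sq_le_sq ?_ (XX_nonneg m P)
  rw [XX_sq]
  nlinarith [sq_nonneg (P 4).re]

theorem q_im_le (m : ℕ) (P : Fin 5 → ℂ) : |(P 3 - (cen m : ℂ)).im| ≤ YY P := by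
  rw [q_im]
  refine abs_le_of_sq_le_sq ?_ (YY_nonneg P)
  rw [YY_sq]
  nlinarith [sq_nonneg (P 4).im]

theorem ia_pos (e : ℝ) : 0 < ia e := by
  unfold ia
  positivity

theorem exp_small {X : ℝ} (h0 : 0 < X) (hX : X ≤ 1 / 20) : 40 * Real.exp (-X⁻¹) ≤ 1 / 200 := by
  have h1 : (20 : ℝ) ≤ X⁻¹ := by
    rw [le_inv_comm₀ (by norm_num) h0]
    linarith
  have h2 : Real.exp (-X⁻¹) ≤ Real.exp (-20) := Real.exp_le_exp.2 (by linarith)
  have h3 : (2 : ℝ) ^ 20 ≤ Real.exp 20 := by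
    have h4 : Real.exp 20 = Real.exp 1 ^ 20 := by
      rw [Real.exp_one_pow]
      norm_num
    rw [h4]
    have := Real.exp_one_gt_d9
    exact pow_le_pow_left₀ (by norm_num) (by linarith) 20
  have h5 : Real.exp (-20) ≤ ((2 : ℝ) ^ 20)⁻¹ := by
    rw [Real.exp_neg]
    exact inv_anti₀ (by norm_num) h3
  have h6 : ((2 : ℝ) ^ 20)⁻¹ ≤ 1 / 10 ^ 6 := by norm_num
  linarith

theorem UU_norm (P : Fin 5 → ℂ) : ‖UU P‖ = ‖P 0‖ * ‖P 2‖ := by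
  unfold UU
  rw [norm_neg, norm_mul]

theorem AA_norm (m : ℕ) (e : ℝ) (P : Fin 5 → ℂ) :
    ‖AA m e P‖ = (ia e)⁻¹ * ‖UU P + Psi (zz m e P)‖ := by
  unfold AA
  rw [norm_mul, Complex.norm_real, Real.norm_of_nonneg (inv_pos.2 (ia_pos e)).le]

theorem AA_eq (m : ℕ) (e : ℝ) (P : Fin 5 → ℂ) :
    AA m e P = ((ia e)⁻¹ : ℂ) * (UU P + Psi (zz m e P)) := by
  unfold AA
  rw [Complex.ofReal_inv]

theorem BB_eq (m : ℕ) (e : ℝ) (P : Fin 5 → ℂ) :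
    BB m e P = 2 * Real.pi * Complex.I * m * ((ia e)⁻¹ : ℂ) *
      (-(P 2 * P 1) + Psi (zz m e P) * SS m e P) := by
  unfold BB
  rw [Complex.ofReal_inv]

theorem AA_pos_eq {m : ℕ} {e : ℝ} {P : Fin 5 → ℂ} :
    ‖UU P + Psi (zz m e P)‖ = ia e * ‖AA m e P‖ := by
  rw [AA_norm, ← mul_assoc, mul_inv_cancel₀ (ia_pos e).ne', one_mul]

/-- bounds which follow from smallness of `h` -/
theorem z_bounds (hβ : IsBeta c.M ε β) {P : Fin 5 → ℂ} (hP : P ∈ Dom c β)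
    (hh : HH β P ≤ 1 / 200) :
    9 / 10 ≤ ‖P 0‖ ∧ ‖P 0‖ ≤ 11 / 10 ∧ ‖P 2 * P 1‖ ≤ 4 * ‖UU P‖ := by
  obtain ⟨b0, b1, b2, b3, -, -, -⟩ := dom_bounds hβ hP
  have hk := dom_key hP
  have hK := c.K_ge
  have hu := c.u_le
  have hU : ‖UU P‖ ≤ c.u := by
    unfold UU
    rw [norm_neg]
    exact b3
  have h1 : (UU P).re ≤ ‖UU P‖ := Complex.re_le_norm _
  have h2 : (‖P 0‖ ^ 2 - 1) ^ 2 ≤ 1 / 100 := by
    have e1 : 0 ≤ c.K * ((P 3).im ^ 2 + (P 4).im ^ 2) := by positivity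
    have e2 : 0 ≤ c.K * (((starRingEnd ℂ) (P 0) * P 1).im) ^ 2 := by positivity
    unfold HH at hh
    linarith
  have h3 : |‖P 0‖ ^ 2 - 1| ≤ 1 / 10 := by
    refine abs_le_of_sq_le_sq ?_ (by norm_num)
    linarith
  rw [abs_le] at h3
  have hn := norm_nonneg (P 0)
  have h4 : 9 / 10 ≤ ‖P 0‖ := by nlinarith
  have h5 : ‖P 0‖ ≤ 11 / 10 := by nlinarith
  refine ⟨h4, h5, ?_⟩
  rw [norm_mul, UU_norm]
  have n2 := norm_nonneg (P 2)
  nlinarith [mul_le_mul_of_nonneg_left b1 n2, mul_le_mul_of_nonneg_right h4 n2]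

theorem key_re {P : Fin 5 → ℂ} (hP : P ∈ Dom c β) :
    c.K * YY P ^ 2 ≤ (UU P).re + HH β P := by
  have hk := dom_key hP
  have hK := c.K_ge
  have e2 : 0 ≤ c.K * (((starRingEnd ℂ) (P 0) * P 1).im) ^ 2 := by positivity
  have e3 : 0 ≤ (‖P 0‖ ^ 2 - 1) ^ 2 := sq_nonneg _
  rw [YY_sq]
  unfold HH
  linarith

theorem key_full {P : Fin 5 → ℂ} (hP : P ∈ Dom c β) :
    c.K * YY P ^ 2 + c.K * (((starRingEnd ℂ) (P 0) * P 1).im) ^ 2 + (‖P 0‖ ^ 2 - 1) ^ 2 ≤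
      (UU P).re + HH β P := by
  have hk := dom_key hP
  rw [YY_sq]
  unfold HH
  linarith

theorem U_le (hβ : IsBeta c.M ε β) {P : Fin 5 → ℂ} (hP : P ∈ Dom c β) : ‖UU P‖ ≤ c.u := by
  obtain ⟨-, -, -, b3, -, -, -⟩ := dom_bounds hβ hP
  unfold UU
  rw [norm_neg]
  exact b3

/-- the inner zone -/
theorem h_inner (hβ : IsBeta c.M ε β) {m : ℕ} (hm : 1 ≤ m) {P : Fin 5 → ℂ}
    (hX : XX m P < ε m) : gg (P 4).re ≤ ia (ε m) / 8 ∧ HH β P ≤ ia (ε m) / 4 := by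
  have hs := hβ.small m hm
  have h4 : (P 4).re ≤ XX m P := by
    refine (le_abs_self _).trans (abs_le_of_sq_le_sq ?_ (XX_nonneg m P))
    rw [XX_sq]
    nlinarith [sq_nonneg ((P 3).re - cen m)]
  have h1 : gg (P 4).re ≤ 20 * Real.exp (-(ε m)⁻¹) := gg_le_exp (h4.trans hX.le) hs.pos
  have h2 : gg (P 4).re ≤ ia (ε m) / 8 := by
    unfold ia
    linarith
  refine ⟨h2, ?_⟩
  have h3 : β (tt P, (P 3).re, (P 4).re) ≤ ia (ε m) / 8 := by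
    refine hβ.upper m hm _ _ _ ?_
    rw [← XX_sq]
    have := XX_nonneg m P
    have := hs.pos
    nlinarith
  unfold HH
  linarith

theorem ia_small {m : ℕ} {e : ℝ} (hs : Small m e) : ia e ≤ 1 / 10 ^ 6 := by
  have h1 := hs.s1
  have h2 := hs.le
  have h3 := hs.pos
  have h4 : e ^ 2 ≤ 1 := by nlinarith
  have h5 : e ^ 2 / 10 ^ 6 ≤ 1 / 10 ^ 6 := by
    rw [div_le_div_iff_of_pos_right (by norm_num)]
    exact h4
  linarith

theorem inner (hβ : IsBeta c.M ε β) {m : ℕ} (hm : 1 ≤ m) {P : Fin 5 → ℂ} (hP : P ∈ Dom c β)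
    (hX : XX m P < ε m) :
    ‖P 2 * P 1‖ ≤ 4 * ‖UU P‖ ∧ |tt P| ≤ 5 ∧ 0 < (zz m (ε m) P).re ∧
      ‖UU P‖ + ‖Psi (zz m (ε m) P)‖ ≤ 12 * ‖UU P + Psi (zz m (ε m) P)‖ + 3 * ia (ε m) ∧
      (1 + ‖AA m (ε m) P‖) / 6 ≤ ‖1 + AA m (ε m) P‖ ∧ ‖SS m (ε m) P‖ ≤ 6 / 5 := by
  have hs := hβ.small m hm
  obtain ⟨-, hh⟩ := h_inner hβ hm hX
  have hi := ia_small hs
  obtain ⟨z1, z2, z3⟩ := z_bounds hβ hP (by linarith)
  obtain ⟨b0, b1, -, -, -, -, -⟩ := dom_bounds hβ hP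
  have hz := zoneIn c hs (XX_nonneg m P) hX.le (YY_nonneg P) (U_le hβ hP) (key_re hP) hh
    (zeta m (ε m) P) (om_le m P) (q_le m P)
  refine ⟨z3, ?_, hz.1, hz.2.1, ?_, hz.2.2.2⟩
  swap
  · rw [AA_eq]
    exact hz.2.2.1
  have h1 : |tt P| ≤ ‖P 0‖ * ‖P 1‖ := by
    unfold tt
    refine (Complex.abs_re_le_norm _).trans ?_
    rw [norm_mul, RCLike.norm_conj]
  have := norm_nonneg (P 0)
  have := norm_nonneg (P 1)
  nlinarith

theorem cen_pos (m : ℕ) : 0 < cen m := by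
  unfold cen
  positivity

theorem cen_le_one (m : ℕ) : cen m ≤ 1 := by
  unfold cen
  exact pow_le_one₀ (by norm_num) (by norm_num)

theorem cen_half {m l : ℕ} (h : m < l) : cen l ≤ cen m / 2 := by
  unfold cen
  have : (1 / 2 : ℝ) ^ l ≤ (1 / 2) ^ (m + 1) :=
    pow_le_pow_of_le_one (by norm_num) (by norm_num) h
  rw [pow_succ] at this
  linarith

theorem cen_dist {m l : ℕ} (h : l ≠ m) : cen l / 2 ≤ |cen m - cen l| := by
  have h1 := cen_pos m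
  have h2 := cen_pos l
  rcases lt_or_gt_of_ne h with h' | h'
  · have := cen_half h'
    rw [abs_sub_comm]
    refine le_trans ?_ (le_abs_self _)
    linarith
  · have := cen_half h'
    refine le_trans ?_ (le_abs_self _)
    linarith

/-- `h` outside the disc of radius `ε m` -/
theorem h_outer (hβ : IsBeta c.M ε β) {m : ℕ} (hm : 1 ≤ m) {P : Fin 5 → ℂ}
    (hX : ε m ≤ XX m P) : HH β P ≤ 40 * Real.exp (-(XX m P)⁻¹) := by
  have hs := hβ.small m hm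
  have hX0 : 0 < XX m P := lt_of_lt_of_le hs.pos hX
  have h4 : (P 4).re ≤ XX m P := by
    refine (le_abs_self _).trans (abs_le_of_sq_le_sq ?_ (XX_nonneg m P))
    rw [XX_sq]
    nlinarith [sq_nonneg ((P 3).re - cen m)]
  have h1 : gg (P 4).re ≤ 20 * Real.exp (-(XX m P)⁻¹) := gg_le_exp h4 hX0
  have h2 : β (tt P, (P 3).re, (P 4).re) ≤ 20 * Real.exp (-(XX m P)⁻¹) := by
    by_cases hall : ∀ l : ℕ, 1 ≤ l → (2 * ε l) ^ 2 ≤ ((P 3).re - cen l) ^ 2 + (P 4).re ^ 2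
    · rw [hβ.zero _ _ _ hall]
      positivity
    · push Not at hall
      obtain ⟨l, hl, hlt⟩ := hall
      have hsl := hβ.small l hl
      have h3 := hβ.upper l hl (tt P) _ _ hlt
      have h5 : ε l ≤ XX m P := by
        by_cases hlm : l = m
        · rw [hlm]
          exact hX
        · have d1 := cen_dist hlm
          have d2 := hsl.le_cen
          have d3 := hsl.pos
          have d4 : |(P 3).re - cen l| < 2 * ε l := by
            refine abs_lt_of_sq_lt_sq ?_ (by positivity)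
            nlinarith [sq_nonneg (P 4).re]
          have d5 : |(P 3).re - cen m| ≤ XX m P := by
            refine abs_le_of_sq_le_sq ?_ (XX_nonneg m P)
            rw [XX_sq]
            nlinarith [sq_nonneg (P 4).re]
          have d6 : |cen m - cen l| ≤ |(P 3).re - cen l| + |(P 3).re - cen m| := by
            have e : cen m - cen l = ((P 3).re - cen l) - ((P 3).re - cen m) := by ring
            rw [e]
            exact abs_sub _ _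
          linarith
      have h6 : ia (ε l) / 8 ≤ 20 * Real.exp (-(XX m P)⁻¹) := by
        unfold ia
        have h7 : (XX m P)⁻¹ ≤ (ε l)⁻¹ := inv_anti₀ hsl.pos h5
        have h8 : Real.exp (-(ε l)⁻¹) ≤ Real.exp (-(XX m P)⁻¹) :=
          Real.exp_le_exp.2 (by linarith)
        linarith
      linarith
  unfold HH
  linarith

theorem inv_ia {m : ℕ} {e : ℝ} (hs : Small m e) : 6 * CC m ≤ (ia e)⁻¹ := by
  have h1 := hs.s2
  have h3 := hs.pos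
  have h2 : Real.exp (98 / 100 * e⁻¹) ≤ Real.exp e⁻¹ := by
    refine Real.exp_le_exp.2 ?_
    have : 0 < e⁻¹ := inv_pos.2 h3
    linarith
  unfold ia
  rw [mul_inv, Real.exp_neg, inv_inv]
  have hC : 0 < CC m := by
    unfold CC
    positivity
  linarith

theorem CC_pos (m : ℕ) : 0 < CC m := by
  unfold CC
  positivity

/-- everywhere on the domain: outside the bands `A` is large -/
theorem cov (hβ : IsBeta c.M ε β) {m : ℕ} (hm : 1 ≤ m) {P : Fin 5 → ℂ} (hP : P ∈ Dom c β) :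
    (0 < (zz m (ε m) P).re ∧ ‖P 2 * P 1‖ + 2 * ‖Psi (zz m (ε m) P)‖ ≤
        60 * ‖UU P + Psi (zz m (ε m) P)‖ ∧
      CC m < (ia (ε m))⁻¹ * ‖UU P + Psi (zz m (ε m) P)‖ ∧ ‖SS m (ε m) P‖ ≤ 6 / 5) ∨
    ∃ j : ℤ, 2 * |j| ≤ m ∧ P ∈ bandSet m (ε m) j := by
  have hs := hβ.small m hm
  have hU := U_le hβ hP
  have hu := c.u_le
  obtain ⟨b0, b1, b2, -, b3, b4, b5⟩ := dom_bounds hβ hP
  rcases le_or_gt (1 / 20) (XX m P) with hX | hX
  · -- far away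
    left
    have hX12 : XX m P ≤ 12 := by
      refine le_of_sq_le_sq ?_ (by norm_num)
      rw [XX_sq]
      rw [abs_le] at b3 b4
      have c1 := cen_pos m
      have c2 := cen_le_one m
      nlinarith
    have hK : c.K * YY P ^ 2 ≤ 12 := by
      rw [YY_sq]
      exact b5
    obtain ⟨z1, z2, z3⟩ := zoneO1 c hX hX12 (YY_nonneg P) (ia_pos (ε m)).le hU hK
      (zeta m (ε m) P) (om_le m P) (q_le m P)
    have z4 := psi_le_one z1
    have z5 : ‖Psi (zz m (ε m) P)‖ ≤ ‖UU P + Psi (zz m (ε m) P)‖ + ‖UU P‖ := by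
      have := norm_sub_le (UU P + Psi (zz m (ε m) P)) (UU P)
      rwa [add_sub_cancel_left] at this
    have z6 : 7 / 10 ≤ ‖UU P + Psi (zz m (ε m) P)‖ := by linarith
    refine ⟨z1, ?_, ?_, z3⟩
    · have e : ‖P 2 * P 1‖ ≤ 1 := by
        rw [norm_mul]
        have := norm_nonneg (P 2)
        have := norm_nonneg (P 1)
        nlinarith
      linarith
    · have h6 := inv_ia hs
      have hC := CC_pos m
      calc CC m < 6 * CC m * (7 / 10) := by linarith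
        _ ≤ (ia (ε m))⁻¹ * ‖UU P + Psi (zz m (ε m) P)‖ :=
          mul_le_mul h6 z6 (by norm_num) (inv_nonneg.2 (ia_pos _).le)
  · rcases le_or_gt (ε m) (XX m P) with hX1 | hX1
    · left
      have hX0 : 0 < XX m P := lt_of_lt_of_le hs.pos hX1
      have hh := h_outer hβ hm hX1
      have hsm := exp_small hX0 hX.le
      obtain ⟨-, -, w3⟩ := z_bounds hβ hP (by linarith)
      obtain ⟨z1, z2, z3, z4⟩ := zoneO2 c hs hX1 hX.le (YY_nonneg P) hU (key_re hP) hh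
        (zeta m (ε m) P) (om_le m P) (q_le m P)
      refine ⟨z1, ?_, z3, z4⟩
      have n1 := norm_nonneg (UU P)
      have n2 := norm_nonneg (Psi (zz m (ε m) P))
      have n3 := norm_nonneg (UU P + Psi (zz m (ε m) P))
      linarith
    · obtain ⟨i1, i2, i3, i4, i5, i6⟩ := inner hβ hm hP hX1
      obtain ⟨g1, g2⟩ := h_inner hβ hm hX1
      have hle : ((P 3).re - cen m) ^ 2 + (P 4).re ^ 2 ≤ (ε m) ^ 2 := by
        rw [← XX_sq]
        exact pow_le_pow_left₀ (XX_nonneg m P) hX1.le 2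
      rcases hβ.band m hm (tt P) (P 3).re (P 4).re i2 hle with hb | ⟨j, hj, hj1, hj2⟩
      · left
        have hh : HH β P ≤ -((NN m - 1) * ia (ε m)) := by
          unfold HH
          have := ia_pos (ε m)
          linarith
        obtain ⟨z1, z2, z3, z4⟩ := zoneOff c hs (XX_nonneg m P) hX1.le (YY_nonneg P) hU
          (key_re hP) hh (zeta m (ε m) P) (om_le m P) (q_le m P)
        refine ⟨z1, ?_, z3, z4⟩
        have n1 := norm_nonneg (UU P)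
        have n2 := norm_nonneg (Psi (zz m (ε m) P))
        have n3 := norm_nonneg (UU P + Psi (zz m (ε m) P))
        linarith
      · right
        refine ⟨j, hj, hX1, hj1, ?_⟩
        rcases hj2 with h | h
        · left
          rw [← XX_sq] at h
          have h7 : 0 ≤ eta * ε m := by
            unfold eta
            have := hs.pos
            positivity
          exact lt_of_pow_lt_pow_left₀ 2 h7 h
        · right
          exact h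

theorem BB_norm (m : ℕ) (e : ℝ) (P : Fin 5 → ℂ) :
    ‖BB m e P‖ = 2 * Real.pi * m * ((ia e)⁻¹ * ‖-(P 2 * P 1) + Psi (zz m e P) * SS m e P‖) := by
  unfold BB
  rw [norm_mul, norm_mul, norm_mul, norm_mul, norm_mul, Complex.norm_real,
    Complex.norm_real, Complex.norm_I, Complex.norm_natCast,
    Real.norm_of_nonneg (inv_pos.2 (ia_pos e)).le,
    Real.norm_of_nonneg Real.pi_pos.le, Complex.norm_ofNat]
  ring

theorem BB_le {m : ℕ} {e : ℝ} {P : Fin 5 → ℂ} (hS : ‖SS m e P‖ ≤ 6 / 5)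
    (h : ‖P 2 * P 1‖ + 2 * ‖Psi (zz m e P)‖ ≤ 60 * ‖UU P + Psi (zz m e P)‖) :
    ‖BB m e P‖ ≤ 500 * m * ‖AA m e P‖ := by
  rw [BB_norm, AA_norm]
  have hi := inv_pos.2 (ia_pos e)
  have h1 : ‖-(P 2 * P 1) + Psi (zz m e P) * SS m e P‖ ≤
      60 * ‖UU P + Psi (zz m e P)‖ := by
    refine (norm_add_le _ _).trans ?_
    rw [norm_neg, norm_mul (Psi (zz m e P))]
    have n2 := norm_nonneg (Psi (zz m e P))
    have := mul_le_mul_of_nonneg_left hS n2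
    linarith
  have hpi : Real.pi ≤ 4 := Real.pi_le_four
  have hpi0 := Real.pi_pos
  have n3 := norm_nonneg (UU P + Psi (zz m e P))
  have hm0 : (0 : ℝ) ≤ m := Nat.cast_nonneg m
  calc 2 * Real.pi * m * ((ia e)⁻¹ * ‖-(P 2 * P 1) + Psi (zz m e P) * SS m e P‖)
      ≤ 2 * Real.pi * m * ((ia e)⁻¹ * (60 * ‖UU P + Psi (zz m e P)‖)) := by gcongr
    _ = (120 * Real.pi) * (m * ((ia e)⁻¹ * ‖UU P + Psi (zz m e P)‖)) := by ring
    _ ≤ 500 * (m * ((ia e)⁻¹ * ‖UU P + Psi (zz m e P)‖)) := by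
        refine mul_le_mul_of_nonneg_right ?_ (by positivity)
        have := Real.pi_lt_d2
        linarith
    _ = 500 * m * ((ia e)⁻¹ * ‖UU P + Psi (zz m e P)‖) := by ring

end CovAux

open CovAux

theorem cov_re (hβ : IsBeta c.M ε β) {m : ℕ} (hm : 1 ≤ m) {P : Fin 5 → ℂ} (hP : P ∈ Dom c β) :
    0 < (zz m (ε m) P).re := by
  rcases cov hβ hm hP with h | ⟨j, -, hj⟩
  · exact h.1
  · exact (inner hβ hm hP hj.1).2.2.1

theorem cov_or (hβ : IsBeta c.M ε β) {m : ℕ} (hm : 1 ≤ m) {P : Fin 5 → ℂ} (hP : P ∈ Dom c β) :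
    CC m < ‖AA m (ε m) P‖ ∨ ∃ j : ℤ, 2 * |j| ≤ m ∧ P ∈ bandSet m (ε m) j := by
  rcases cov hβ hm hP with h | h
  · left
    rw [AA_norm]
    exact h.2.2.1
  · exact Or.inr h

theorem cov_B (hβ : IsBeta c.M ε β) {m : ℕ} (hm : 1 ≤ m) {P : Fin 5 → ℂ} (hP : P ∈ Dom c β)
    (hA : 3 ≤ ‖AA m (ε m) P‖) : ‖BB m (ε m) P‖ ≤ 500 * m * ‖AA m (ε m) P‖ := by
  rcases cov hβ hm hP with h | ⟨j, -, hj⟩
  · exact BB_le h.2.2.2 h.2.1
  · obtain ⟨i1, i2, i3, i4, i5, i6⟩ := inner hβ hm hP hj.1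
    refine BB_le i6 ?_
    have h1 := AA_pos_eq (m := m) (e := ε m) (P := P)
    have h2 : ia (ε m) * 3 ≤ ‖UU P + Psi (zz m (ε m) P)‖ := by
      rw [h1]
      exact mul_le_mul_of_nonneg_left hA (ia_pos _).le
    have n1 := norm_nonneg (UU P)
    have n2 := norm_nonneg (Psi (zz m (ε m) P))
    linarith

theorem cov_band (hβ : IsBeta c.M ε β) {m : ℕ} (hm : 1 ≤ m) {P : Fin 5 → ℂ} (hP : P ∈ Dom c β)
    {j : ℤ} (hj : 2 * |j| ≤ m) (hb : P ∈ bandSet m (ε m) j) :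
    (1 + ‖AA m (ε m) P‖) / 6 ≤ ‖1 + AA m (ε m) P‖ :=
  (inner hβ hm hP hb.1).2.2.2.2.1

theorem cov_band' (hβ : IsBeta c.M ε β) {m : ℕ} (hm : 1 ≤ m) {P : Fin 5 → ℂ} (hP : P ∈ Dom c β)
    {j : ℤ} (hj : 2 * |j| ≤ m) (hb : P ∈ bandSet m (ε m) j)
    (hA : ‖AA m (ε m) P‖ < 2 * CC m) :
    ‖BB m (ε m) P - 2 * Real.pi * Complex.I * j * AA m (ε m) P‖ ≤ 1 / 2000 := by
  obtain ⟨i1, i2, i3, i4, i5, i6⟩ := inner hβ hm hP hb.1
  have hK : 1 ≤ c.K := le_trans (by norm_num) c.K_ge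
  have hband : XX m P < eta * ε m ∨
      |(P 3 - (cen m : ℂ)).re - (j : ℝ) / m * XX m P| < dd m * XX m P := by
    rw [q_re]
    exact hb.2.2
  rw [AA_eq] at hA
  rw [BB_eq, AA_eq]
  exact zoneIn3 hm (hβ.small m hm) hK hj (z := P 0) (w := P 1) (v := P 2) rfl (XX_nonneg m P)
    hb.1.le (YY_nonneg P) (key_full hP) (h_inner hβ hm hb.1).2 i3 (zeta m (ε m) P) (om_le m P)
    (q_re_le m P) (q_im_le m P) i6 hb.2.1 hband i4 hA

end P4cae09
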