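import Pool.Agent.Lib.P4cae09.Bounds
import Pool.Agent.Lib.P4cae09.RhoSmooth

/-!
# P4cae09.Crit: the differential of `rho` does not vanish on `{rho = 0}`

Suppose `rho P = 0` and `fderiv ℝ rho P = 0`; then for every curve `γ` through `P` the function
`x ↦ rho (γ x)` has derivative `0` at `0`. `s = |z|²`.
1. `v`-directions: `v = -conj z/(2M)`; then `Re(zv) + M|v|² = -s/(4M)`.
2. `dp = i`, `dr = i`: `Im p = Im r = 0`.
3. `dw = i z`: `Im(conj z w) = 0`.
4. Case `gg (Re r) ≥ 1/4`: `β = 0` near `P`, `|w|² ≤ 4`, `(Re p)² ≤ 16`, `Re r = 2`, `s = 0` or `s = 1 + 1/(8M)`,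
   and `rho < 0`.
5. Case `gg (Re r) < 1/4`: `2/5 ≤ s ≤ 8/5`, all `ell = 0`, `0 ≤ gg`; the curve `((1+x) z, (1+x)⁻¹ w)` gives
   `s = 1 + 1/(8M)` and `rho < 0`.
-/

namespace P4cae09
open scoped ContDiff Topology
open Filter

variable {c : Consts} {ε : ℕ → ℝ} {β : ℝ × ℝ × ℝ → ℝ}

private lemma rho_re (c : Consts) (β : ℝ × ℝ × ℝ → ℝ) (z w v p r : ℂ) :
    rho c β ![z, w, v, p, r] = z.re * v.re - z.im * v.im + c.M * (v.re ^ 2 + v.im ^ 2)
      + (z.re ^ 2 + z.im ^ 2 - 1) ^ 2 + c.K * (z.re * w.im - z.im * w.re) ^ 2 + c.K * p.im ^ 2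
      + c.K * r.im ^ 2 + ell (w.re ^ 2 + w.im ^ 2 - 4) + ell (p.re ^ 2 - 16) + ell (-1 - r.re)
      - gg r.re - β (z.re * w.re + z.im * w.im, p.re, r.re) := by
  have hn : ∀ a : ℂ, ‖a‖ ^ 2 = a.re ^ 2 + a.im ^ 2 := by
    intro a
    rw [Complex.sq_norm, Complex.normSq_apply]
    ring
  have h1 : ((starRingEnd ℂ) z * w).re = z.re * w.re + z.im * w.im := by
    simp [Complex.mul_re]
  have h2 : ((starRingEnd ℂ) z * w).im = z.re * w.im - z.im * w.re := by
    simp [Complex.mul_im]
    ring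
  have h3 : (z * v).re = z.re * v.re - z.im * v.im := Complex.mul_re z v
  show (z * v).re + c.M * ‖v‖ ^ 2 + (‖z‖ ^ 2 - 1) ^ 2 +
      c.K * (((starRingEnd ℂ) z * w).im) ^ 2 + c.K * p.im ^ 2 + c.K * r.im ^ 2 +
      ell (‖w‖ ^ 2 - 4) + ell (p.re ^ 2 - 16) + ell (-1 - r.re) - gg r.re -
      β (((starRingEnd ℂ) z * w).re, p.re, r.re) = _
  rw [h1, h2, h3, hn, hn, hn]

private lemma key (hβ : IsBeta c.M ε β) {z w v p r : ℂ}
    (hd : fderiv ℝ (rho c β) ![z, w, v, p, r] = 0) (Z W V Q R : ℝ → ℂ)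
    (hZ : DifferentiableAt ℝ Z 0) (hW : DifferentiableAt ℝ W 0) (hV : DifferentiableAt ℝ V 0)
    (hQ : DifferentiableAt ℝ Q 0) (hR : DifferentiableAt ℝ R 0)
    (h0 : ![Z 0, W 0, V 0, Q 0, R 0] = ![z, w, v, p, r]) (f : ℝ → ℝ) (f' : ℝ)
    (hf : HasDerivAt f f' 0)
    (hEq : ∀ᶠ x in 𝓝 (0 : ℝ), rho c β ![Z x, W x, V x, Q x, R x] = f x) : f' = 0 := by
  have hγ : DifferentiableAt ℝ (fun x => ![Z x, W x, V x, Q x, R x]) 0 := by
    rw [differentiableAt_pi]
    intro i
    fin_cases i
    · exact hZ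
    · exact hW
    · exact hV
    · exact hQ
    · exact hR
  have h1 : HasFDerivAt (rho c β) (0 : (Fin 5 → ℂ) →L[ℝ] ℝ) ![Z 0, W 0, V 0, Q 0, R 0] := by
    rw [h0, ← hd]
    exact ((rho_contDiff hβ).differentiable (by simp)).differentiableAt.hasFDerivAt
  have h2 := h1.comp_hasDerivAt (x := (0 : ℝ)) hγ.hasDerivAt
  have h3 : HasDerivAt (rho c β ∘ fun x => ![Z x, W x, V x, Q x, R x]) f' 0 :=
    hf.congr_of_eventuallyEq hEq
  have h4 := h3.unique h2
  simpa using h4

private lemma dpoly (c0 c1 c2 c3 c4 : ℝ) :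
    HasDerivAt (fun x : ℝ => c0 + c1 * x + c2 * x ^ 2 + c3 * x ^ 3 + c4 * x ^ 4) c1 0 := by
  have h1 := (hasDerivAt_id (0 : ℝ)).const_mul c1
  have h2 := (hasDerivAt_pow 2 (0 : ℝ)).const_mul c2
  have h3 := (hasDerivAt_pow 3 (0 : ℝ)).const_mul c3
  have h4 := (hasDerivAt_pow 4 (0 : ℝ)).const_mul c4
  have h := ((((hasDerivAt_const (0 : ℝ) c0).add h1).add h2).add h3).add h4
  refine h.congr_deriv ?_
  simp

private lemma dcomp {g : ℝ → ℝ} (hg : ContDiff ℝ ∞ g) {u : ℝ → ℝ} {u' : ℝ}
    (hu : HasDerivAt u u' 0) : HasDerivAt (fun x => g (u x)) (deriv g (u 0) * u') 0 := by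
  have h : HasDerivAt g (deriv g (u 0)) (u 0) :=
    (hg.differentiable (by simp)).differentiableAt.hasDerivAt
  exact h.comp (0 : ℝ) hu

private lemma beta_y (hβ : IsBeta c.M ε β) (t x y : ℝ) (hy : 1 / 10 ≤ |y|) :
    β (t, x, y) = 0 := by
  refine hβ.zero t x y fun m hm => ?_
  have h1 := (hβ.small m hm).pos
  have h2 := (hβ.small m hm).le
  have h3 : (1 / 10) ^ 2 ≤ y ^ 2 := by
    rw [← sq_abs y]
    exact pow_le_pow_left₀ (by norm_num) hy 2
  nlinarith [sq_nonneg (x - cen m)]

private lemma beta_x (hβ : IsBeta c.M ε β) (t x y : ℝ) (hx : 1 ≤ |x|) :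
    β (t, x, y) = 0 := by
  refine hβ.zero t x y fun m hm => ?_
  have h1 := (hβ.small m hm).pos
  have h2 := (hβ.small m hm).le
  have h3 : cen m ≤ 1 / 2 := by
    unfold cen
    calc ((1 : ℝ) / 2) ^ m ≤ (1 / 2) ^ 1 :=
          pow_le_pow_of_le_one (by norm_num) (by norm_num) hm
      _ = 1 / 2 := by norm_num
  have h4 : 0 < cen m := by
    unfold cen
    positivity
  have h5 : (1 / 2) ^ 2 ≤ (x - cen m) ^ 2 := by
    rcases le_abs.1 hx with h | h
    · nlinarith
    · nlinarith
  nlinarith [sq_nonneg y]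

private lemma M_ge (c : Consts) : (10 : ℝ) ^ 4 ≤ c.M := by
  have h1 := c.u_pos
  have h2 := c.u_le
  refine le_trans ?_ c.M_ge
  rw [le_div_iff₀ (by positivity)]
  have : c.u ^ 2 ≤ 1 := by
    have : c.u ≤ 1 := h2.trans (by norm_num)
    nlinarith
  nlinarith

private lemma near0 : ∀ᶠ x in 𝓝 (0 : ℝ), -(1 / 20) < x ∧ x < 1 / 20 := by
  filter_upwards [Metric.ball_mem_nhds (0 : ℝ) (by norm_num : (0 : ℝ) < 1 / 20)] with x hx
  rw [Metric.mem_ball, Real.dist_eq, sub_zero] at hx
  exact abs_lt.1 hx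

private lemma s_range {s M : ℝ} (hM : (10 : ℝ) ^ 4 ≤ M) (hs : 0 ≤ s)
    (h : (s - 1) ^ 2 ≤ s / (4 * M) + 1 / 4 + 1 / (8 * M)) : 2 / 5 ≤ s ∧ s ≤ 8 / 5 := by
  have hM0 : 0 < M := by linarith [show (0 : ℝ) < 10 ^ 4 by norm_num]
  have h1 : s / (4 * M) ≤ s / 1000 := by
    apply div_le_div_of_nonneg_left hs (by norm_num)
    linarith [show (250 : ℝ) ≤ 10 ^ 4 by norm_num]
  have h2 : 1 / (8 * M) ≤ 1 / 1000 := by
    apply div_le_div_of_nonneg_left (by norm_num) (by norm_num)
    linarith [show (125 : ℝ) ≤ 10 ^ 4 by norm_num]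
  constructor
  · by_contra hc
    push_neg at hc
    nlinarith
  · by_contra hc
    push_neg at hc
    nlinarith

theorem rho_regular (hβ : IsBeta c.M ε β) {P : Fin 5 → ℂ} (hP : rho c β P = 0) :
    fderiv ℝ (rho c β) P ≠ 0 := by
  intro hd
  obtain ⟨z, w, v, p, r, rfl⟩ : ∃ z w v p r : ℂ, P = ![z, w, v, p, r] :=
    ⟨P 0, P 1, P 2, P 3, P 4, by
      funext i
      fin_cases i <;> rfl⟩
  have hM4 := M_ge c
  have hM0 : 0 < c.M := by linarith [show (0 : ℝ) < 10 ^ 4 by norm_num]
  have hK0 : 0 < c.K := by linarith [c.K_ge, show (0 : ℝ) < 10 ^ 14 by norm_num]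
  have bnd := rho_bounds hβ (le_of_eq hP)
  have hw3 : ‖w‖ ≤ 3 := bnd.2.1
  have hw9 : w.re ^ 2 + w.im ^ 2 ≤ 9 := by
    have h1 : ‖w‖ ^ 2 = w.re ^ 2 + w.im ^ 2 := by
      rw [Complex.sq_norm, Complex.normSq_apply]
      ring
    rw [← h1]
    nlinarith [norm_nonneg w]
  have hβabs := abs_le.1 (hβ.abs_le (z.re * w.re + z.im * w.im, p.re, r.re))
  -- step 1: the `v`-directions
  have hv1 : z.re + 2 * c.M * v.re = 0 := by
    refine key hβ hd (fun _ => z) (fun _ => w) (fun x => v + x • (1 : ℂ)) (fun _ => p)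
      (fun _ => r) (by fun_prop) (by fun_prop) (by fun_prop) (by fun_prop) (by fun_prop)
      (by simp) _ _ (dpoly (rho c β ![z, w, v, p, r]) (z.re + 2 * c.M * v.re) c.M 0 0)
      (Eventually.of_forall fun x => ?_)
    rw [rho_re, rho_re]
    simp only [Complex.add_re, Complex.add_im, Complex.real_smul, Complex.mul_re,
      Complex.mul_im, Complex.ofReal_re, Complex.ofReal_im, Complex.one_re, Complex.one_im]
    ring
  have hv2 : -z.im + 2 * c.M * v.im = 0 := by
    refine key hβ hd (fun _ => z) (fun _ => w) (fun x => v + x • Complex.I) (fun _ => p)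
      (fun _ => r) (by fun_prop) (by fun_prop) (by fun_prop) (by fun_prop) (by fun_prop)
      (by simp) _ _ (dpoly (rho c β ![z, w, v, p, r]) (-z.im + 2 * c.M * v.im) c.M 0 0)
      (Eventually.of_forall fun x => ?_)
    rw [rho_re, rho_re]
    simp only [Complex.add_re, Complex.add_im, Complex.real_smul, Complex.mul_re,
      Complex.mul_im, Complex.ofReal_re, Complex.ofReal_im, Complex.I_re, Complex.I_im]
    ring
  -- step 2
  have hp : p.im = 0 := by
    have h : 2 * c.K * p.im = 0 := by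
      refine key hβ hd (fun _ => z) (fun _ => w) (fun _ => v) (fun x => p + x • Complex.I)
        (fun _ => r) (by fun_prop) (by fun_prop) (by fun_prop) (by fun_prop) (by fun_prop)
        (by simp) _ _ (dpoly (rho c β ![z, w, v, p, r]) (2 * c.K * p.im) c.K 0 0)
        (Eventually.of_forall fun x => ?_)
      rw [rho_re, rho_re]
      simp only [Complex.add_re, Complex.add_im, Complex.real_smul, Complex.mul_re,
        Complex.mul_im, Complex.ofReal_re, Complex.ofReal_im, Complex.I_re, Complex.I_im,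
        mul_zero, zero_mul, sub_zero, add_zero, mul_one]
      ring
    rcases mul_eq_zero.1 h with h | h
    · exact absurd h (by positivity)
    · exact h
  have hr : r.im = 0 := by
    have h : 2 * c.K * r.im = 0 := by
      refine key hβ hd (fun _ => z) (fun _ => w) (fun _ => v) (fun _ => p)
        (fun x => r + x • Complex.I) (by fun_prop) (by fun_prop) (by fun_prop) (by fun_prop)
        (by fun_prop) (by simp) _ _
        (dpoly (rho c β ![z, w, v, p, r]) (2 * c.K * r.im) c.K 0 0)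
        (Eventually.of_forall fun x => ?_)
      rw [rho_re, rho_re]
      simp only [Complex.add_re, Complex.add_im, Complex.real_smul, Complex.mul_re,
        Complex.mul_im, Complex.ofReal_re, Complex.ofReal_im, Complex.I_re, Complex.I_im,
        mul_zero, zero_mul, sub_zero, add_zero, mul_one]
      ring
    rcases mul_eq_zero.1 h with h | h
    · exact absurd h (by positivity)
    · exact h
  -- the derivative of `ell`
  have hell0 : ∀ x, 0 ≤ deriv ell x := by
    intro x
    rcases le_or_gt x 0 with h | h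
    · exact (ell_deriv_of_nonpos h).ge
    · exact (ell_deriv_pos h).le
  have hs0 : 0 ≤ z.re ^ 2 + z.im ^ 2 := by positivity
  have hw0 : 0 ≤ w.re ^ 2 + w.im ^ 2 := by positivity
  -- step 3
  have hq : z.re * w.im - z.im * w.re = 0 := by
    have h : 2 * c.K * (z.re * w.im - z.im * w.re) * (z.re ^ 2 + z.im ^ 2) +
        deriv ell (w.re ^ 2 + w.im ^ 2 - 4) * (2 * (z.re * w.im - z.im * w.re)) = 0 := by
      have d1 := dpoly (rho c β ![z, w, v, p, r] - ell (w.re ^ 2 + w.im ^ 2 - 4))
        (2 * c.K * (z.re * w.im - z.im * w.re) * (z.re ^ 2 + z.im ^ 2))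
        (c.K * (z.re ^ 2 + z.im ^ 2) ^ 2) 0 0
      have d2 := dcomp ell_contDiff (dpoly (w.re ^ 2 + w.im ^ 2 - 4)
        (2 * (z.re * w.im - z.im * w.re)) (z.re ^ 2 + z.im ^ 2) 0 0)
      have d3 := d1.add d2
      have e0 : w.re ^ 2 + w.im ^ 2 - 4 + 2 * (z.re * w.im - z.im * w.re) * 0 +
          (z.re ^ 2 + z.im ^ 2) * 0 ^ 2 + 0 * 0 ^ 3 + 0 * 0 ^ 4 =
          w.re ^ 2 + w.im ^ 2 - 4 := by ring
      rw [e0] at d3
      refine key hβ hd (fun _ => z) (fun x => w + x • (Complex.I * z)) (fun _ => v)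
        (fun _ => p) (fun _ => r) (by fun_prop) (by fun_prop) (by fun_prop) (by fun_prop)
        (by fun_prop) (by simp) _ _ d3 (Eventually.of_forall fun x => ?_)
      rw [rho_re, rho_re]
      have e1 : (w + x • (Complex.I * z)).re = w.re - x * z.im := by
        simp
        ring
      have e2 : (w + x • (Complex.I * z)).im = w.im + x * z.re := by
        simp
      have e3 : (w.re - x * z.im) ^ 2 + (w.im + x * z.re) ^ 2 - 4 =
          w.re ^ 2 + w.im ^ 2 - 4 + 2 * (z.re * w.im - z.im * w.re) * x +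
          (z.re ^ 2 + z.im ^ 2) * x ^ 2 + 0 * x ^ 3 + 0 * x ^ 4 := by ring
      have e4 : z.re * (w.re - x * z.im) + z.im * (w.im + x * z.re) =
          z.re * w.re + z.im * w.im := by ring
      simp only [e1, e2, e3, e4, Pi.add_apply]
      ring
    have h' : (z.re * w.im - z.im * w.re) *
        (c.K * (z.re ^ 2 + z.im ^ 2) + deriv ell (w.re ^ 2 + w.im ^ 2 - 4)) = 0 := by
      linarith
    rcases mul_eq_zero.1 h' with h2 | h2
    · exact h2
    · have h3 := hell0 (w.re ^ 2 + w.im ^ 2 - 4)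
      have h4 : c.K * (z.re ^ 2 + z.im ^ 2) = 0 := by
        have := mul_nonneg hK0.le hs0
        linarith
      have h5 : z.re ^ 2 + z.im ^ 2 = 0 := by
        rcases mul_eq_zero.1 h4 with h | h
        · exact absurd h hK0.ne'
        · exact h
      have h6 : z.re = 0 := by nlinarith
      have h7 : z.im = 0 := by nlinarith
      rw [h6, h7]
      ring
  -- the value
  have hval : -(z.re ^ 2 + z.im ^ 2) / (4 * c.M) + (z.re ^ 2 + z.im ^ 2 - 1) ^ 2
      + ell (w.re ^ 2 + w.im ^ 2 - 4) + ell (p.re ^ 2 - 16) + ell (-1 - r.re)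
      - gg r.re - β (z.re * w.re + z.im * w.im, p.re, r.re) = 0 := by
    have h := hP
    rw [rho_re, hq, hp, hr] at h
    have e1 : z.re * v.re - z.im * v.im + c.M * (v.re ^ 2 + v.im ^ 2) =
        -(z.re ^ 2 + z.im ^ 2) / (4 * c.M) := by
      have hv1' : v.re = -z.re / (2 * c.M) := by
        field_simp
        linarith
      have hv2' : v.im = z.im / (2 * c.M) := by
        field_simp
        linarith
      rw [hv1', hv2']
      field_simp
      ring
    rw [e1] at h
    linarith
  have hzv : z.re * v.re - z.im * v.im = -(z.re ^ 2 + z.im ^ 2) / (2 * c.M) := by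
    have hv1' : v.re = -z.re / (2 * c.M) := by
      field_simp
      linarith
    have hv2' : v.im = z.im / (2 * c.M) := by
      field_simp
      linarith
    rw [hv1', hv2']
    field_simp
    ring
  -- derivative in the `r`-direction, if `β = 0` near `P`
  have dr : 1 / 5 ≤ |r.re| → deriv ell (-1 - r.re) + deriv gg r.re = 0 := by
    intro hr5
    have h : -deriv ell (-1 - r.re) - deriv gg r.re = 0 := by
      have d1 := dpoly (rho c β ![z, w, v, p, r] - ell (-1 - r.re) + gg r.re) 0 0 0 0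
      have d2 := dcomp ell_contDiff (dpoly (-1 - r.re) (-1) 0 0 0)
      have d3 := dcomp gg_contDiff (dpoly r.re 1 0 0 0)
      have d4 := (d1.add d2).sub d3
      have e0 : -1 - r.re + -1 * 0 + 0 * 0 ^ 2 + 0 * 0 ^ 3 + 0 * 0 ^ 4 = -1 - r.re := by ring
      have e0' : r.re + 1 * 0 + 0 * 0 ^ 2 + 0 * 0 ^ 3 + 0 * 0 ^ 4 = r.re := by ring
      rw [e0, e0'] at d4
      have h := key hβ hd (fun _ => z) (fun _ => w) (fun _ => v) (fun _ => p)
        (fun x => r + x • (1 : ℂ)) (by fun_prop) (by fun_prop) (by fun_prop) (by fun_prop)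
        (by fun_prop) (by simp) _ _ d4 (by
          filter_upwards [near0] with x hx
          rw [rho_re, rho_re]
          have e1 : (r + x • (1 : ℂ)).re = r.re + x := by simp
          have e2 : (r + x • (1 : ℂ)).im = r.im := by simp
          have b0 := beta_y hβ (z.re * w.re + z.im * w.im) p.re r.re (by linarith)
          have b1 := beta_y hβ (z.re * w.re + z.im * w.im) p.re (r.re + x) (by
            have h1 := abs_sub_abs_le_abs_sub (r.re) (-x)
            have h2 : |(-x)| ≤ 1 / 20 := by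
              rw [abs_neg]
              exact (abs_lt.2 hx).le
            rw [sub_neg_eq_add] at h1
            linarith)
          have e3 : -1 - (r.re + x) = -1 - r.re + -1 * x + 0 * x ^ 2 + 0 * x ^ 3 + 0 * x ^ 4 := by
            ring
          have e4 : r.re + x = r.re + 1 * x + 0 * x ^ 2 + 0 * x ^ 3 + 0 * x ^ 4 := by
            ring
          simp only [Pi.add_apply, Pi.sub_apply]
          rw [e1, e2, b0, b1, ← e3, ← e4]
          ring)
      linarith
    linarith
  -- derivative in the `p`-direction, if `β = 0` near `P`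
  have dp : (1 / 5 ≤ |r.re| ∨ 2 ≤ |p.re|) → deriv ell (p.re ^ 2 - 16) * (2 * p.re) = 0 := by
    intro hor
    have d1 := dpoly (rho c β ![z, w, v, p, r] - ell (p.re ^ 2 - 16)) 0 0 0 0
    have d2 := dcomp ell_contDiff (dpoly (p.re ^ 2 - 16) (2 * p.re) 1 0 0)
    have d4 := d1.add d2
    have e0 : p.re ^ 2 - 16 + 2 * p.re * 0 + 1 * 0 ^ 2 + 0 * 0 ^ 3 + 0 * 0 ^ 4 =
        p.re ^ 2 - 16 := by ring
    rw [e0] at d4
    have h := key hβ hd (fun _ => z) (fun _ => w) (fun _ => v) (fun x => p + x • (1 : ℂ))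
      (fun _ => r) (by fun_prop) (by fun_prop) (by fun_prop) (by fun_prop)
      (by fun_prop) (by simp) _ _ d4 (by
        filter_upwards [near0] with x hx
        rw [rho_re, rho_re]
        have e1 : (p + x • (1 : ℂ)).re = p.re + x := by simp
        have e2 : (p + x • (1 : ℂ)).im = p.im := by simp
        have b0 : β (z.re * w.re + z.im * w.im, p.re, r.re) = 0 := by
          rcases hor with h | h
          · exact beta_y hβ _ _ _ (by linarith)
          · exact beta_x hβ _ _ _ (by linarith)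
        have b1 : β (z.re * w.re + z.im * w.im, p.re + x, r.re) = 0 := by
          rcases hor with h | h
          · exact beta_y hβ _ _ _ (by linarith)
          · refine beta_x hβ _ _ _ ?_
            have h1 := abs_sub_abs_le_abs_sub (p.re) (-x)
            have h2 : |(-x)| ≤ 1 / 20 := by
              rw [abs_neg]
              exact (abs_lt.2 hx).le
            rw [sub_neg_eq_add] at h1
            linarith
        have e3 : (p.re + x) ^ 2 - 16 =
            p.re ^ 2 - 16 + 2 * p.re * x + 1 * x ^ 2 + 0 * x ^ 3 + 0 * x ^ 4 := by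
          ring
        simp only [Pi.add_apply]
        rw [e1, e2, b0, b1, ← e3]
        ring)
    linarith
  -- derivative in the `w`-direction
  have dw : (1 / 5 ≤ |r.re| ∨ (4 < w.re ^ 2 + w.im ^ 2 ∧ 2 / 5 ≤ z.re ^ 2 + z.im ^ 2 ∧
      z.re ^ 2 + z.im ^ 2 ≤ 8 / 5)) →
      deriv ell (w.re ^ 2 + w.im ^ 2 - 4) * (2 * (w.re ^ 2 + w.im ^ 2)) = 0 := by
    intro hor
    have d1 := dpoly (rho c β ![z, w, v, p, r] - ell (w.re ^ 2 + w.im ^ 2 - 4)) 0 0 0 0
    have d2 := dcomp ell_contDiff (dpoly (w.re ^ 2 + w.im ^ 2 - 4)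
      (2 * (w.re ^ 2 + w.im ^ 2)) (w.re ^ 2 + w.im ^ 2) 0 0)
    have d4 := d1.add d2
    have e0 : w.re ^ 2 + w.im ^ 2 - 4 + 2 * (w.re ^ 2 + w.im ^ 2) * 0 +
        (w.re ^ 2 + w.im ^ 2) * 0 ^ 2 + 0 * 0 ^ 3 + 0 * 0 ^ 4 =
        w.re ^ 2 + w.im ^ 2 - 4 := by ring
    rw [e0] at d4
    have htt : (z.re * w.re + z.im * w.im) ^ 2 =
        (z.re ^ 2 + z.im ^ 2) * (w.re ^ 2 + w.im ^ 2) := by
      have : (z.re * w.re + z.im * w.im) ^ 2 + (z.re * w.im - z.im * w.re) ^ 2 =
        (z.re ^ 2 + z.im ^ 2) * (w.re ^ 2 + w.im ^ 2) := by ring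
      rw [hq] at this
      linarith
    have h := key hβ hd (fun _ => z) (fun x => (1 + x) • w) (fun _ => v) (fun _ => p)
      (fun _ => r) (by fun_prop) (by fun_prop) (by fun_prop) (by fun_prop)
      (by fun_prop) (by simp) _ _ d4 (by
        filter_upwards [near0] with x hx
        rw [rho_re, rho_re]
        have e1 : ((1 + x) • w).re = (1 + x) * w.re := by simp
        have e2 : ((1 + x) • w).im = (1 + x) * w.im := by simp
        have e3 : ((1 + x) * w.re) ^ 2 + ((1 + x) * w.im) ^ 2 - 4 =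
            w.re ^ 2 + w.im ^ 2 - 4 + 2 * (w.re ^ 2 + w.im ^ 2) * x +
            (w.re ^ 2 + w.im ^ 2) * x ^ 2 + 0 * x ^ 3 + 0 * x ^ 4 := by ring
        have e4 : z.re * ((1 + x) * w.im) - z.im * ((1 + x) * w.re) = 0 := by
          have : z.re * ((1 + x) * w.im) - z.im * ((1 + x) * w.re) =
            (1 + x) * (z.re * w.im - z.im * w.re) := by ring
          rw [this, hq, mul_zero]
        have b : β (z.re * ((1 + x) * w.re) + z.im * ((1 + x) * w.im), p.re, r.re) =
            β (z.re * w.re + z.im * w.im, p.re, r.re) := by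
          rcases hor with h | ⟨h4, hs1, hs2⟩
          · rw [beta_y hβ _ _ _ (by linarith), beta_y hβ _ _ _ (by linarith)]
          · have f1 : (8 : ℝ) / 5 ≤ (z.re * w.re + z.im * w.im) ^ 2 := by
              rw [htt]
              nlinarith
            have f2 : (z.re * w.re + z.im * w.im) ^ 2 ≤ 72 / 5 := by
              rw [htt]
              nlinarith
            have f3 : z.re * ((1 + x) * w.re) + z.im * ((1 + x) * w.im) =
                (1 + x) * (z.re * w.re + z.im * w.im) := by ring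
            rw [f3]
            set T := z.re * w.re + z.im * w.im with hT
            have g1 : (9 : ℝ) / 10 ≤ (1 + x) ^ 2 := by nlinarith [hx.1, hx.2]
            have g2 : (1 + x) ^ 2 ≤ 12 / 10 := by nlinarith [hx.1, hx.2]
            have k1 : 1 ≤ |(1 + x) * T| := by
              rw [← one_le_sq_iff_one_le_abs, mul_pow]
              nlinarith
            have k2 : |(1 + x) * T| ≤ 5 := by
              apply abs_le_of_sq_le_sq _ (by norm_num)
              rw [mul_pow]
              nlinarith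
            have k3 : 1 ≤ |T| := by
              rw [← one_le_sq_iff_one_le_abs]
              linarith
            have k4 : |T| ≤ 5 := by
              apply abs_le_of_sq_le_sq _ (by norm_num)
              linarith
            rw [hβ.tconst _ _ _ k1 k2, hβ.tconst _ _ _ k3 k4]
        simp only [Pi.add_apply]
        rw [e1, e2, b, e4, hq, ← e3]
        ring)
    linarith
  have w_le : (1 / 5 ≤ |r.re| ∨ (2 / 5 ≤ z.re ^ 2 + z.im ^ 2 ∧
      z.re ^ 2 + z.im ^ 2 ≤ 8 / 5)) → w.re ^ 2 + w.im ^ 2 ≤ 4 := by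
    intro hor
    by_contra hc
    push_neg at hc
    have h1 := dw (by
      rcases hor with h | h
      · exact Or.inl h
      · exact Or.inr ⟨hc, h⟩)
    have h2 := ell_deriv_pos (show 0 < w.re ^ 2 + w.im ^ 2 - 4 by linarith)
    have h3 : 0 < deriv ell (w.re ^ 2 + w.im ^ 2 - 4) * (2 * (w.re ^ 2 + w.im ^ 2)) := by
      have : 0 < w.re ^ 2 + w.im ^ 2 := by linarith
      positivity
    linarith
  have p_le : p.re ^ 2 ≤ 16 := by
    by_contra hc
    push_neg at hc
    have h1 := dp (Or.inr (by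
      by_contra h
      push_neg at h
      have := abs_lt.1 h
      nlinarith))
    have h2 := ell_deriv_pos (show 0 < p.re ^ 2 - 16 by linarith)
    have h3 : p.re ≠ 0 := by
      intro h
      rw [h] at hc
      norm_num at hc
    rcases mul_eq_zero.1 h1 with h | h
    · exact h2.ne' h
    · exact h3 (by linarith)
  have r_ge : -1 ≤ r.re := by
    by_contra hc
    push_neg at hc
    have h1 := dr (by
      rw [abs_of_neg (by linarith)]
      linarith)
    have h2 := ell_deriv_pos (show 0 < -1 - r.re by linarith)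
    have h3 := gg_deriv_of_nonpos (show r.re ≤ 0 by linarith)
    linarith
  have r_le : r.re ≤ 2 := by
    by_contra hc
    push_neg at hc
    have h1 := dr (by
      rw [abs_of_pos (by linarith)]
      linarith)
    have h2 := gg_deriv_neg hc
    have h3 := ell_deriv_of_nonpos (show -1 - r.re ≤ 0 by linarith)
    linarith
  have ell2 : ell (p.re ^ 2 - 16) = 0 := ell_of_nonpos (by linarith)
  have ell3 : ell (-1 - r.re) = 0 := ell_of_nonpos (by linarith)
  rcases le_or_gt (1 / 4) (gg r.re) with hg | hg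
  · -- case A
    have r5 : 1 / 5 ≤ r.re := gg_quarter hg
    have hr5 : 1 / 5 ≤ |r.re| := by
      rw [abs_of_pos (by linarith)]
      exact r5
    have hr2 : r.re = 2 := by
      rcases lt_or_eq_of_le r_le with h | h
      · exfalso
        have h1 := dr hr5
        have h2 := gg_deriv_pos (by linarith) h
        have h3 := hell0 (-1 - r.re)
        linarith
      · exact h
    have hw4 := w_le (Or.inl hr5)
    have ell1 : ell (w.re ^ 2 + w.im ^ 2 - 4) = 0 := ell_of_nonpos (by linarith)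
    have b0 : β (z.re * w.re + z.im * w.im, p.re, r.re) = 0 :=
      beta_y hβ _ _ _ (by linarith)
    -- the `z`-direction
    have dz : z.re * v.re - z.im * v.im +
        4 * (z.re ^ 2 + z.im ^ 2) * (z.re ^ 2 + z.im ^ 2 - 1) = 0 := by
      have d1 := dpoly (rho c β ![z, w, v, p, r]) (z.re * v.re - z.im * v.im +
        4 * (z.re ^ 2 + z.im ^ 2) * (z.re ^ 2 + z.im ^ 2 - 1))
        (2 * (z.re ^ 2 + z.im ^ 2) * (z.re ^ 2 + z.im ^ 2 - 1) + 4 * (z.re ^ 2 + z.im ^ 2) ^ 2)
        (4 * (z.re ^ 2 + z.im ^ 2) ^ 2) ((z.re ^ 2 + z.im ^ 2) ^ 2)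
      refine key hβ hd (fun x => (1 + x) • z) (fun _ => w) (fun _ => v) (fun _ => p)
        (fun _ => r) (by fun_prop) (by fun_prop) (by fun_prop) (by fun_prop)
        (by fun_prop) (by simp) _ _ d1 (Eventually.of_forall fun x => ?_)
      rw [rho_re, rho_re]
      have e1 : ((1 + x) • z).re = (1 + x) * z.re := by simp
      have e2 : ((1 + x) • z).im = (1 + x) * z.im := by simp
      have e4 : (1 + x) * z.re * w.im - (1 + x) * z.im * w.re = 0 := by
        have : (1 + x) * z.re * w.im - (1 + x) * z.im * w.re =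
          (1 + x) * (z.re * w.im - z.im * w.re) := by ring
        rw [this, hq, mul_zero]
      rw [e1, e2, e4, hq, b0, beta_y hβ _ _ _ (by linarith : 1 / 10 ≤ |r.re|)]
      ring
    rw [hzv] at dz
    rw [ell1, ell2, ell3, b0, hr2] at hval
    have hg2 := gg_two
    set s := z.re ^ 2 + z.im ^ 2 with hs
    have dz' : s * (4 * (s - 1) - 1 / (2 * c.M)) = 0 := by
      have e : -s / (2 * c.M) + 4 * s * (s - 1) = s * (4 * (s - 1) - 1 / (2 * c.M)) := by
        ring
      rw [← e]
      exact dz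
    have hsM : 0 ≤ s / (4 * c.M) := by positivity
    have hneg : -s / (4 * c.M) = -(s / (4 * c.M)) := by ring
    rcases mul_eq_zero.1 dz' with h | h
    · rw [h] at hval
      norm_num at hval
      linarith
    · have h1 : s - 1 = 1 / (8 * c.M) := by
        have : 1 / (8 * c.M) = 1 / (2 * c.M) / 4 := by
          field_simp
          norm_num
        rw [this]
        linarith
      have h2 : 1 / (8 * c.M) ≤ 1 := by
        rw [div_le_one (by positivity)]
        linarith [show (1 : ℝ) ≤ 10 ^ 4 by norm_num]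
      have h3 : 0 < 1 / (8 * c.M) := by positivity
      rw [h1, hneg] at hval
      nlinarith
  · -- case B
    have hs_range : 2 / 5 ≤ z.re ^ 2 + z.im ^ 2 ∧ z.re ^ 2 + z.im ^ 2 ≤ 8 / 5 := by
      refine s_range hM4 hs0 ?_
      have h1 := ell_nonneg (w.re ^ 2 + w.im ^ 2 - 4)
      have h2 : -(z.re ^ 2 + z.im ^ 2) / (4 * c.M) = -((z.re ^ 2 + z.im ^ 2) / (4 * c.M)) := by
        ring
      rw [h2, ell2, ell3] at hval
      linarith [hβabs.2]
    have hw4 := w_le (Or.inr hs_range)
    have ell1 : ell (w.re ^ 2 + w.im ^ 2 - 4) = 0 := ell_of_nonpos (by linarith)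
    have ell1' : deriv ell (w.re ^ 2 + w.im ^ 2 - 4) = 0 := ell_deriv_of_nonpos (by linarith)
    have hgg : 0 ≤ gg r.re := by
      rcases le_or_gt r.re 0 with h | h
      · exact (gg_of_nonpos h).ge
      · exact (gg_pos h (by linarith)).le
    -- the direction `dz = z, dw = -w`
    have dz : z.re * v.re - z.im * v.im +
        4 * (z.re ^ 2 + z.im ^ 2) * (z.re ^ 2 + z.im ^ 2 - 1) = 0 := by
      have d1 := dpoly (rho c β ![z, w, v, p, r] - ell (w.re ^ 2 + w.im ^ 2 - 4))
        (z.re * v.re - z.im * v.im +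
        4 * (z.re ^ 2 + z.im ^ 2) * (z.re ^ 2 + z.im ^ 2 - 1))
        (2 * (z.re ^ 2 + z.im ^ 2) * (z.re ^ 2 + z.im ^ 2 - 1) + 4 * (z.re ^ 2 + z.im ^ 2) ^ 2)
        (4 * (z.re ^ 2 + z.im ^ 2) ^ 2) ((z.re ^ 2 + z.im ^ 2) ^ 2)
      have hu : DifferentiableAt ℝ
          (fun x : ℝ => ((1 + x)⁻¹) ^ 2 * (w.re ^ 2 + w.im ^ 2) - 4) 0 := by
        have hi : DifferentiableAt ℝ (fun x : ℝ => (1 + x)⁻¹) 0 := by
          apply DifferentiableAt.inv (by fun_prop)
          norm_num
        exact ((hi.pow 2).mul_const _).sub_const _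
      have d2 := dcomp ell_contDiff hu.hasDerivAt
      have e0 : ((1 + (0 : ℝ))⁻¹) ^ 2 * (w.re ^ 2 + w.im ^ 2) - 4 =
          w.re ^ 2 + w.im ^ 2 - 4 := by norm_num
      simp only [e0, ell1', zero_mul] at d2
      have d3 := d1.add d2
      rw [add_zero] at d3
      refine key hβ hd (fun x => (1 + x) • z) (fun x => (1 + x)⁻¹ • w) (fun _ => v)
        (fun _ => p) (fun _ => r) (by fun_prop) ?_ (by fun_prop) (by fun_prop)
        (by fun_prop) (by simp) _ _ d3 ?_
      · have hi : DifferentiableAt ℝ (fun x : ℝ => (1 + x)⁻¹) 0 := by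
          apply DifferentiableAt.inv (by fun_prop)
          norm_num
        exact hi.smul_const w
      · filter_upwards [near0] with x hx
        have hx1 : 1 + x ≠ 0 := by linarith [hx.1]
        rw [rho_re, rho_re]
        have e1 : ((1 + x) • z).re = (1 + x) * z.re := by simp
        have e2 : ((1 + x) • z).im = (1 + x) * z.im := by simp
        have e1' : ((1 + x)⁻¹ • w).re = (1 + x)⁻¹ * w.re := by
          rw [Complex.smul_re, smul_eq_mul]
        have e2' : ((1 + x)⁻¹ • w).im = (1 + x)⁻¹ * w.im := by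
          rw [Complex.smul_im, smul_eq_mul]
        have e3 : ((1 + x)⁻¹ * w.re) ^ 2 + ((1 + x)⁻¹ * w.im) ^ 2 - 4 =
            ((1 + x)⁻¹) ^ 2 * (w.re ^ 2 + w.im ^ 2) - 4 := by ring
        have e4 : (1 + x) * z.re * ((1 + x)⁻¹ * w.im) - (1 + x) * z.im * ((1 + x)⁻¹ * w.re) =
            0 := by
          rw [← hq]
          field_simp
        have e5 : (1 + x) * z.re * ((1 + x)⁻¹ * w.re) + (1 + x) * z.im * ((1 + x)⁻¹ * w.im) =
            z.re * w.re + z.im * w.im := by
          field_simp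
        simp only [Pi.add_apply]
        rw [e1, e2, e1', e2', e3, e4, e5, hq]
        ring
    rw [hzv] at dz
    rw [ell1, ell2, ell3] at hval
    set s := z.re ^ 2 + z.im ^ 2 with hs
    have dz' : s * (4 * (s - 1) - 1 / (2 * c.M)) = 0 := by
      have e : -s / (2 * c.M) + 4 * s * (s - 1) = s * (4 * (s - 1) - 1 / (2 * c.M)) := by
        ring
      rw [← e]
      exact dz
    have hneg : -s / (4 * c.M) = -(s * (1 / (4 * c.M))) := by ring
    rcases mul_eq_zero.1 dz' with h | h
    · linarith [hs_range.1]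
    · have h1 : s - 1 = 1 / (8 * c.M) := by
        have : 1 / (8 * c.M) = 1 / (2 * c.M) / 4 := by
          field_simp
          norm_num
        rw [this]
        linarith
      have h4 : 1 / (4 * c.M) = 2 * (1 / (8 * c.M)) := by
        field_simp
        norm_num
      have h2 : 1 / (8 * c.M) ≤ 1 := by
        rw [div_le_one (by positivity)]
        linarith [show (1 : ℝ) ≤ 10 ^ 4 by norm_num]
      have h3 : 0 < 1 / (8 * c.M) := by positivity
      have hβ1 := hβabs.1
      have hs1 : s = 1 + 1 / (8 * c.M) := by linarith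
      rw [h1, hneg, hs1, h4] at hval
      set e := 1 / (8 * c.M) with he
      nlinarith

/-- (frontier of `{rho < 0}` is in `{rho = 0}`; take `U = univ`) -/
theorem dom_smoothBoundary (hβ : IsBeta c.M ε β) : HasSmoothBoundary (Dom c β) := by
  intro a ha
  refine ⟨Set.univ, rho c β, isOpen_univ, Set.mem_univ a, (rho_contDiff hβ).contDiffOn,
    fun x _ => Iff.rfl, ?_⟩
  have h := frontier_lt_subset_eq (rho_contDiff hβ).continuous continuous_const ha
  exact rho_regular hβ h

end P4cae09
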