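import Pool.Agent.Lib.P4cae09.Pub

/-!
# MP_4cae09_an: the explicit functions of the construction

(paper proof: /team-store/4cae09_proof.txt)
-/

namespace P4cae09

open scoped ContDiff

/-- a univalent (schlicht) domain as a Riemann domain -/
noncomputable def schlicht {n : ℕ} (D : Set (Fin n → ℂ)) (ho : IsOpen D) (hc : IsConnected D) :
    RiemannDomain n where
  carrier := D
  top := inferInstance
  t2 := inferInstance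
  conn := isConnected_iff_connectedSpace.mp hc
  proj := Subtype.val
  isLocalHomeomorph := ho.isOpenEmbedding_subtypeVal.isLocalHomeomorph

/-! ## The functions of the construction -/

/-- `g(x) = e^{-1/x} (20 - x²)` for `x > 0`, zero for `x ≤ 0` -/
noncomputable def gg (x : ℝ) : ℝ := expNegInvGlue x * (20 - x ^ 2)

/-- `ℓ(x) = 20 x e^{-1/x}` for `x > 0`, zero for `x ≤ 0` -/
noncomputable def ell (x : ℝ) : ℝ := 20 * x * expNegInvGlue x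

/-- the flat weight `Ψ(ζ) = exp(-λ ζ^{-1/2})`, `λ = 1/100` -/
noncomputable def Psi (ζ : ℂ) : ℂ := Complex.exp (-(1 / 100) * ζ ^ (-(1 / 2) : ℂ))

/-- absolute constants `u` (bound of `|zv|` on the domain), `K`, `M`, with the phase lemma -/
structure Consts where
  u : ℝ
  K : ℝ
  M : ℝ
  u_pos : 0 < u
  u_le : u ≤ 1 / 10 ^ 6
  K_ge : 10 ^ 14 ≤ K
  M_ge : 10 ^ 4 / u ^ 2 ≤ M
  phase : ∀ (U ζ : ℂ) (R Y om : ℝ), 0 < R → R ≤ 1 / 10 → 0 ≤ Y →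
    ζ = U + (R ^ 2 - Y ^ 2 : ℝ) + (om : ℂ) * Complex.I → |om| ≤ 2 * R * Y → 0 < ζ.re →
    ‖U‖ ≤ u → ‖U‖ ≤ 9 * ‖Psi ζ‖ → K * Y ^ 2 ≤ 10 * ‖Psi ζ‖ →
    9 / 10 * ‖Psi ζ‖ ≤ (Psi ζ).re

/-- threshold for `|A|` -/
noncomputable def CC (m : ℕ) : ℝ := 1000 * Real.exp (1000 * m)

/-- height of the barrier between the bands -/
noncomputable def NN (m : ℕ) : ℝ := 2 * CC m + 10

/-- half width of the bands -/
noncomputable def dd (m : ℕ) : ℝ := 1 / (10 ^ 7 * m * CC m)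

/-- `η = 1/400` -/
noncomputable def eta : ℝ := 1 / 400

/-- centre `2^{-m}` of the `m`-th gadget -/
noncomputable def cen (m : ℕ) : ℝ := (1 / 2) ^ m

/-- `1/a = 160 e^{-1/ε}` -/
noncomputable def ia (ε : ℝ) : ℝ := 160 * Real.exp (-ε⁻¹)

/-- second coordinate of the direction vector `e_j = (j/m, sqrt(1-(j/m)²))` -/
noncomputable def sn (m : ℕ) (j : ℤ) : ℝ := Real.sqrt (1 - ((j : ℝ) / m) ^ 2)

/-- `ε` is small enough for the `m`-th gadget -/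
structure Small (m : ℕ) (ε : ℝ) : Prop where
  pos : 0 < ε
  le : ε ≤ 1 / 20
  le_cen : ε ≤ cen m / 8
  s1 : ia ε ≤ ε ^ 2 / 10 ^ 6
  s2 : 1000 * CC m ≤ Real.exp (98 / 100 * ε⁻¹)
  s3 : m * CC m * Real.sqrt (26 * CC m * ia ε) ≤ ε / 10 ^ 10
  s4 : m * Real.exp (-(9 / 10) * ε⁻¹) ≤ 1 / 10 ^ 6
  s5 : NN m * ia ε ≤ ε / 10 ^ 6
  s6 : Real.exp (-(1 / 3) * ε⁻¹) ≤ (dd m) ^ 2 / 10 ^ 4

/-- the properties of the bump function `b_m(t, x, y)` -/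
structure IsBand (m : ℕ) (b : ℝ × ℝ × ℝ → ℝ) : Prop where
  smooth : ContDiff ℝ ∞ b
  supp : HasCompactSupport b
  zero : ∀ t x y, 4 ≤ x ^ 2 + y ^ 2 → b (t, x, y) = 0
  tconst : ∀ t x y, 1 ≤ |t| → |t| ≤ 5 → b (t, x, y) = b (1, x, y)
  le : ∀ q, b q ≤ 1 / 8
  abs_le : ∀ q, |b q| ≤ NN m + 1
  band : ∀ t x y, |t| ≤ 5 → x ^ 2 + y ^ 2 ≤ 1 → b (t, x, y) ≤ -NN m ∨
    ∃ j : ℤ, 2 * |j| ≤ m ∧ |t - (j : ℝ) / m| < dd m ∧ (x ^ 2 + y ^ 2 < eta ^ 2 ∨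
      |x - (j : ℝ) / m * Real.sqrt (x ^ 2 + y ^ 2)| < dd m * Real.sqrt (x ^ 2 + y ^ 2))
  ray : ∀ j : ℤ, 2 * |j| ≤ m → ∀ t t' x y s, |t - (j : ℝ) / m| ≤ dd m / 2 →
    |t' - (j : ℝ) / m| ≤ dd m / 2 → 0 ≤ s → |x - s * ((j : ℝ) / m)| ≤ dd m * eta / 16 →
    |y - s * sn m j| ≤ dd m * eta / 16 →
    b (t, x, y) = b (t', x, y) ∧ 0 ≤ b (t, x, y) ∧ (x ^ 2 + y ^ 2 ≤ 1 → b (t, x, y) = 1 / 8)

/-- the properties of the sum `β(t, x, y)` of the gadgets, at scales `ε_m` -/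
structure IsBeta (M : ℝ) (ε : ℕ → ℝ) (β : ℝ × ℝ × ℝ → ℝ) : Prop where
  small : ∀ m : ℕ, 1 ≤ m → Small m (ε m)
  smooth : ContDiff ℝ ∞ β
  abs_le : ∀ q, |β q| ≤ 1 / (8 * M)
  zero : ∀ t x y, (∀ m : ℕ, 1 ≤ m → (2 * ε m) ^ 2 ≤ (x - cen m) ^ 2 + y ^ 2) → β (t, x, y) = 0
  tconst : ∀ t x y, 1 ≤ |t| → |t| ≤ 5 → β (t, x, y) = β (1, x, y)
  upper : ∀ m : ℕ, 1 ≤ m → ∀ t x y, (x - cen m) ^ 2 + y ^ 2 < (2 * ε m) ^ 2 →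
    β (t, x, y) ≤ ia (ε m) / 8
  band : ∀ m : ℕ, 1 ≤ m → ∀ t x y, |t| ≤ 5 → (x - cen m) ^ 2 + y ^ 2 ≤ (ε m) ^ 2 →
    β (t, x, y) ≤ -(NN m * ia (ε m)) ∨
    ∃ j : ℤ, 2 * |j| ≤ m ∧ |t - (j : ℝ) / m| < dd m ∧
      ((x - cen m) ^ 2 + y ^ 2 < (eta * ε m) ^ 2 ∨
      |(x - cen m) - (j : ℝ) / m * Real.sqrt ((x - cen m) ^ 2 + y ^ 2)| <
        dd m * Real.sqrt ((x - cen m) ^ 2 + y ^ 2))
  ray : ∀ m : ℕ, 1 ≤ m → ∀ j : ℤ, 2 * |j| ≤ m → ∀ t t' x y s, |t - (j : ℝ) / m| ≤ dd m / 2 →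
    |t' - (j : ℝ) / m| ≤ dd m / 2 → 0 ≤ s →
    |x - cen m - s * ((j : ℝ) / m)| ≤ dd m * eta * ε m / 16 →
    |y - s * sn m j| ≤ dd m * eta * ε m / 16 →
    β (t, x, y) = β (t', x, y) ∧ 0 ≤ β (t, x, y) ∧
      ((x - cen m) ^ 2 + y ^ 2 ≤ (ε m) ^ 2 → β (t, x, y) = ia (ε m) / 8)

/-- the coordinate `t = Re (conj z · w)` -/
noncomputable def tt (P : Fin 5 → ℂ) : ℝ := ((starRingEnd ℂ) (P 0) * P 1).re

/-- the defining function; coordinates `P = (z, w, v, p, r)` -/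
noncomputable def rho (c : Consts) (β : ℝ × ℝ × ℝ → ℝ) (P : Fin 5 → ℂ) : ℝ :=
  (P 0 * P 2).re + c.M * ‖P 2‖ ^ 2 + (‖P 0‖ ^ 2 - 1) ^ 2
    + c.K * (((starRingEnd ℂ) (P 0) * P 1).im) ^ 2 + c.K * (P 3).im ^ 2 + c.K * (P 4).im ^ 2
    + ell (‖P 1‖ ^ 2 - 4) + ell ((P 3).re ^ 2 - 16) + ell (-1 - (P 4).re)
    - gg (P 4).re - β (tt P, (P 3).re, (P 4).re)

/-- the domain -/
def Dom (c : Consts) (β : ℝ × ℝ × ℝ → ℝ) : Set (Fin 5 → ℂ) := {P | rho c β P < 0}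

/-! ### The quantities attached to the `m`-th gadget at a point `P` -/

/-- `U = -zv` -/
def UU (P : Fin 5 → ℂ) : ℂ := -(P 0 * P 2)

/-- `X = |Re (p - c_m, r)|` -/
noncomputable def XX (m : ℕ) (P : Fin 5 → ℂ) : ℝ :=
  Real.sqrt (((P 3).re - cen m) ^ 2 + (P 4).re ^ 2)

/-- `ζ = U + (p - c_m)² + r² + 1/a` -/
noncomputable def zz (m : ℕ) (ε : ℝ) (P : Fin 5 → ℂ) : ℂ :=
  UU P + (P 3 - cen m) ^ 2 + P 4 ^ 2 + ia ε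

/-- `S = (p - c_m) ζ^{-1/2}` -/
noncomputable def SS (m : ℕ) (ε : ℝ) (P : Fin 5 → ℂ) : ℂ :=
  (P 3 - cen m) * (zz m ε P) ^ (-(1 / 2) : ℂ)

/-- `A = a (U + Ψ(ζ))` -/
noncomputable def AA (m : ℕ) (ε : ℝ) (P : Fin 5 → ℂ) : ℂ :=
  (ia ε)⁻¹ * (UU P + Psi (zz m ε P))

/-- `B = 2πi m a (-vw + Ψ S)` -/
noncomputable def BB (m : ℕ) (ε : ℝ) (P : Fin 5 → ℂ) : ℂ :=
  2 * Real.pi * Complex.I * m * (ia ε)⁻¹ * (-(P 2 * P 1) + Psi (zz m ε P) * SS m ε P)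

/-- the fattened band `j` of the `m`-th gadget -/
def bandSet (m : ℕ) (ε : ℝ) (j : ℤ) : Set (Fin 5 → ℂ) :=
  {P | XX m P < ε ∧ |tt P - (j : ℝ) / m| < dd m ∧
    (XX m P < eta * ε ∨ |(P 3).re - cen m - (j : ℝ) / m * XX m P| < dd m * XX m P)}

/-! ### The small root -/

/-- the root `y`, `|y| ≤ 1/40`, of `1 - e^{-y} + A y = b` (when it exists) -/
noncomputable def Yroot (A b : ℂ) : ℂ :=
  open Classical in
  if h : ∃ y : ℂ, ‖y‖ ≤ 1 / 40 ∧ 1 - Complex.exp (-y) + A * y = b then h.choose else 0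

/-! ### Shears and discs -/

/-- the point with coordinates `(ζ, n₀ + tζ, n₁, n₂, n₃)` -/
def shear (t : ℂ) (ζ : ℂ) (n : Fin 4 → ℂ) : Fin 5 → ℂ := ![ζ, n 0 + t * ζ, n 1, n 2, n 3]

/-- the inverse of `shear`: `n`-coordinates of a point -/
def unsh (t : ℂ) (P : Fin 5 → ℂ) : Fin 4 → ℂ := ![P 1 - t * P 0, P 2, P 3, P 4]

/-- the slope `j/m` as a complex number -/
noncomputable def tj (m : ℕ) (j : ℤ) : ℂ := (((j : ℝ) / m : ℝ) : ℂ)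

/-- the Hartogs figure `{ |z| < 1, n ∈ N }` in sheared coordinates -/
def fig (t : ℂ) (N : Set (Fin 4 → ℂ)) : Set (Fin 5 → ℂ) := {P | ‖P 0‖ < 1 ∧ unsh t P ∈ N}

/-- the path of parameters `s ↦ (0, 0, c_m + s j/m, s sqrt(1-(j/m)²))` -/
noncomputable def pth (m : ℕ) (j : ℤ) (s : ℝ) : Fin 4 → ℂ :=
  ![0, 0, ((cen m + s * ((j : ℝ) / m) : ℝ) : ℂ), ((s * sn m j : ℝ) : ℂ)]

end P4cae09
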