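import Pool.Agent.Lib.P4cae09.Ident

/-!
# P4cae09.EnvExists (3 h, may be split): existence of the envelope of holomorphy

Cartan-Thullen construction. Let `O = {f : (Fin n → ℂ) → ℂ // DifferentiableOn ℂ f D}`. Points of the étale space
`𝓔`: pairs `(z, Γ)`, `z ∈ ℂⁿ`, `Γ : ∀ f : O, (nhds z).Germ ℂ` such that there are an open `U ∋ z` and `G : O → (ℂⁿ → ℂ)` with all
`G f` holomorphic on `U` and `Γ f = ` germ of `G f` at `z`. Topology generated by the sets
`B(U,G) = {(z, germs of G at z) : z ∈ U}` (a basis, by shrinking `U`). `π(z,Γ) = z` is a local homeomorphism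
(`B(U,G) → U` is a homeomorphism: `IsLocalHomeomorph.mk` with an explicit `OpenPartialHomeomorph`, or
`isLocalHomeomorph_iff_isOpenEmbedding_restrict`). Hausdorff: two points over different `z` are separated by `π`; over the same `z`
with `Γ ≠ Γ'`: on a common ball `B ∋ z` both are given by `G`, `G'`; `B(B,G) ∩ B(B,G') = ∅` because if the germs agreed at one
point for all `f`, then `G f = G' f` on `B` (`ident`). `D` embeds by `ι(z) = (z, germs of f at z)`, continuous; `X` = connected
component of `ι(D)` in `𝓔` (open because `𝓔` is locally connected: locally homeomorphic to `ℂⁿ`). The extension of `f` to `X` is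
`F(z,Γ) = (Γ f).value`, i.e. `G f z`: holomorphic. Largest: if `(Y, j)` is an `IsExtension`, choose for every `f ∈ O` an extension
`F_f` on `Y` (unique by the identity theorem, but only a choice is needed), and map `y ↦ (π y, germs at π y of F_f ∘ (π near y)⁻¹)`.
For a COMMON neighbourhood for all `f`: fix a chart `e` at `y` (local inverse of `π` on a ball `B ∋ π y`,
`OpenPartialHomeomorph`); each `F_f ∘ e.symm` is holomorphic on the whole ball: near each point it coincides with the
function read in the chart given by `IsHolo` (local inverses of `π` agree near a common point). So `φ` is well defined,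
continuous, and sends `j(D)` to `ι(D)` (germs of `F_f ∘ e.symm` near `π(j x)`, with `j` = local inverse of `π` near `x` by
continuity: `F_f ∘ j = f`); as `Y` is connected, `φ(Y)` lies in the component `X`.
-/

namespace P4cae09

open Topology Set Filter

namespace Env

variable {n : ℕ}

/-- holomorphic functions on `D` -/
abbrev OO (D : Set (Fin n → ℂ)) : Type := {f : (Fin n → ℂ) → ℂ // DifferentiableOn ℂ f D}

variable {D : Set (Fin n → ℂ)}

/-- a family of functions, all holomorphic on the open set `U` -/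
def Hol (G : OO D → (Fin n → ℂ) → ℂ) (U : Set (Fin n → ℂ)) : Prop :=
  IsOpen U ∧ ∀ f, DifferentiableOn ℂ (G f) U

theorem Hol.mono {G : OO D → (Fin n → ℂ) → ℂ} {U W : Set (Fin n → ℂ)} (h : Hol G U)
    (hW : IsOpen W) (hWU : W ⊆ U) : Hol G W := ⟨hW, fun f => (h.2 f).mono hWU⟩

/-- representatives of points of the etale space -/
abbrev Raw (D : Set (Fin n → ℂ)) : Type :=
  {p : (Fin n → ℂ) × (OO D → (Fin n → ℂ) → ℂ) // ∃ U, p.1 ∈ U ∧ Hol p.2 U}

instance setoid (D : Set (Fin n → ℂ)) : Setoid (Raw D) where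
  r p q := p.1.1 = q.1.1 ∧ ∀ f, p.1.2 f =ᶠ[𝓝 p.1.1] q.1.2 f
  iseqv := {
    refl := fun p => ⟨rfl, fun f => EventuallyEq.rfl⟩
    symm := fun {p q} h => ⟨h.1.symm, fun f => by rw [← h.1]; exact (h.2 f).symm⟩
    trans := fun {p q r} h h' => ⟨h.1.trans h'.1, fun f => (h.2 f).trans (by
      rw [h.1]; exact h'.2 f)⟩ }

/-- the etale space -/
def Pt (D : Set (Fin n → ℂ)) : Type := Quotient (setoid D)

/-- the projection -/
def pr : Pt D → (Fin n → ℂ) := Quotient.lift (fun p => p.1.1) (fun _ _ h => h.1)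

/-- the value of the extension of `f` -/
def val (f : OO D) : Pt D → ℂ := Quotient.lift (fun p => p.1.2 f p.1.1) (fun p q h => by
  have h1 := (h.2 f).eq_of_nhds
  exact h1.trans (congrArg (q.1.2 f) h.1))

open Classical in
/-- the section given by a family of functions -/
noncomputable def sec (G : OO D → (Fin n → ℂ) → ℂ) (z : Fin n → ℂ) : Pt D :=
  if h : ∃ U, z ∈ U ∧ Hol G U then Quotient.mk (setoid D) ⟨(z, G), h⟩
  else Quotient.mk (setoid D) ⟨(z, fun _ _ => 0),
    ⟨univ, trivial, isOpen_univ, fun _ => differentiableOn_const _⟩⟩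

variable {G G' : OO D → (Fin n → ℂ) → ℂ} {U U' : Set (Fin n → ℂ)} {z : Fin n → ℂ}

theorem sec_of (h : z ∈ U) (hG : Hol G U) :
    sec G z = Quotient.mk (setoid D) ⟨(z, G), ⟨U, h, hG⟩⟩ := dif_pos ⟨U, h, hG⟩

@[simp] theorem pr_sec (G : OO D → (Fin n → ℂ) → ℂ) (z : Fin n → ℂ) : pr (sec G z) = z := by
  unfold sec
  split_ifs <;> rfl

theorem val_sec (h : z ∈ U) (hG : Hol G U) (f : OO D) : val f (sec G z) = G f z := by
  rw [sec_of h hG]
  rfl

theorem sec_eq_iff (h : z ∈ U) (hG : Hol G U) (h' : z ∈ U') (hG' : Hol G' U') :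
    sec G z = sec G' z ↔ ∀ f, G f =ᶠ[𝓝 z] G' f := by
  rw [sec_of h hG, sec_of h' hG']
  constructor
  · intro h1
    exact (Quotient.exact h1).2
  · intro h1
    exact Quotient.sound ⟨rfl, h1⟩

theorem exists_sec (p : Pt D) : ∃ (G : OO D → (Fin n → ℂ) → ℂ) (U : Set (Fin n → ℂ)),
    pr p ∈ U ∧ Hol G U ∧ p = sec G (pr p) := by
  induction p using Quotient.inductionOn with
  | h r =>
    obtain ⟨⟨z, G⟩, U, hz, hG⟩ := r
    exact ⟨G, U, hz, hG, (sec_of hz hG).symm⟩

instance : TopologicalSpace (Pt D) where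
  IsOpen V := ∀ (G : OO D → (Fin n → ℂ) → ℂ) (U : Set (Fin n → ℂ)), Hol G U →
    IsOpen (U ∩ sec G ⁻¹' V)
  isOpen_univ := fun G U hG => by
    rw [preimage_univ, inter_univ]
    exact hG.1
  isOpen_inter := fun V W hV hW G U hG => by
    have := (hV G U hG).inter (hW G U hG)
    rw [preimage_inter, inter_inter_distrib_left]
    exact this
  isOpen_sUnion := fun s hs G U hG => by
    rw [preimage_sUnion, inter_iUnion₂]
    exact isOpen_biUnion fun V hV => hs V hV G U hG

theorem isOpen_pt {V : Set (Pt D)} : IsOpen V ↔ ∀ (G : OO D → (Fin n → ℂ) → ℂ)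
    (U : Set (Fin n → ℂ)), Hol G U → IsOpen (U ∩ sec G ⁻¹' V) := Iff.rfl

theorem sec_cont (hG : Hol G U) : ContinuousOn (sec G) U :=
  (continuousOn_open_iff hG.1).2 fun _ hV => hV G U hG

theorem eq_on_ball (hG : Hol G U) (hG' : Hol G' U') {r : ℝ}
    (hU : Metric.ball z r ⊆ U) (hU' : Metric.ball z r ⊆ U') {w : Fin n → ℂ}
    (hw : w ∈ Metric.ball z r) (h : ∀ f, G f =ᶠ[𝓝 w] G' f) (f : OO D) :
    EqOn (G f) (G' f) (Metric.ball z r) :=
  ident Metric.isOpen_ball (convex_ball z r).isPreconnected ((hG.2 f).mono hU)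
    ((hG'.2 f).mono hU') hw (h f)

theorem sec_open (hG : Hol G U) {W : Set (Fin n → ℂ)} (hW : IsOpen W) (hWU : W ⊆ U) :
    IsOpen (sec G '' W) := by
  intro G' U' hG'
  rw [isOpen_iff_mem_nhds]
  rintro z ⟨hz, w, hw, hwz⟩
  have e : w = z := by rw [← pr_sec G w, hwz, pr_sec]
  subst e
  obtain ⟨r, hr, hB⟩ := Metric.isOpen_iff.1 (hG'.1.inter hW) w ⟨hz, hw⟩
  have h1 := (sec_eq_iff (hWU hw) hG hz hG').1 hwz
  filter_upwards [Metric.ball_mem_nhds w hr] with y hy
  refine ⟨(hB hy).1, y, (hB hy).2, ?_⟩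
  rw [sec_eq_iff (hWU (hB hy).2) hG (hB hy).1 hG']
  intro f
  exact (eq_on_ball hG hG' (fun a ha => hWU (hB ha).2) (fun a ha => (hB ha).1)
    (Metric.mem_ball_self hr) h1 f).eventuallyEq_of_mem (Metric.isOpen_ball.mem_nhds hy)

theorem pr_cont : Continuous (pr : Pt D → (Fin n → ℂ)) := by
  rw [continuous_def]
  intro V hV G U hG
  have e : U ∩ sec G ⁻¹' (pr ⁻¹' V) = U ∩ V := by
    ext z
    simp
  rw [e]
  exact hG.1.inter hV

instance : T2Space (Pt D) where
  t2 := by
    intro p q hpq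
    by_cases h : pr p = pr q
    · obtain ⟨G, U, hpU, hG, hp⟩ := exists_sec p
      obtain ⟨G', U', hqU, hG', hq⟩ := exists_sec q
      rw [← h] at hqU hq
      obtain ⟨r, hr, hB⟩ := Metric.isOpen_iff.1 (hG.1.inter hG'.1) (pr p) ⟨hpU, hqU⟩
      have hB1 : Metric.ball (pr p) r ⊆ U := fun a ha => (hB ha).1
      have hB2 : Metric.ball (pr p) r ⊆ U' := fun a ha => (hB ha).2
      refine ⟨sec G '' Metric.ball (pr p) r, sec G' '' Metric.ball (pr p) r,
        sec_open hG Metric.isOpen_ball hB1, sec_open hG' Metric.isOpen_ball hB2,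
        ⟨pr p, Metric.mem_ball_self hr, hp.symm⟩, ⟨pr p, Metric.mem_ball_self hr, hq.symm⟩, ?_⟩
      rw [Set.disjoint_left]
      rintro x ⟨w, hw, rfl⟩ ⟨w', hw', hww'⟩
      have e : w' = w := by rw [← pr_sec G' w', hww', pr_sec]
      subst e
      apply hpq
      rw [hp, hq, sec_eq_iff hpU hG hqU hG']
      intro f
      have h1 := (sec_eq_iff (hB2 hw) hG' (hB1 hw) hG).1 hww'
      exact ((eq_on_ball hG' hG hB2 hB1 hw h1 f).eventuallyEq_of_mem
        (Metric.ball_mem_nhds _ hr)).symm
    · obtain ⟨u, v, hu, hv, hpu, hqv, huv⟩ := t2_separation h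
      exact ⟨pr ⁻¹' u, pr ⁻¹' v, hu.preimage pr_cont, hv.preimage pr_cont, hpu, hqv,
        huv.preimage _⟩

open Classical in
/-- the chart given by a section inside the subset `C` -/
noncomputable def chart {C : Set (Pt D)} (hG : Hol G U)
    (hC : ∀ z ∈ U, sec G z ∈ C) (p₀ : C) : OpenPartialHomeomorph C (Fin n → ℂ) where
  toFun p := pr p.1
  invFun z := if h : sec G z ∈ C then ⟨sec G z, h⟩ else p₀
  source := {p | p.1 ∈ sec G '' U}
  target := U
  map_source' := by
    rintro p ⟨z, hz, hzp⟩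
    rw [← hzp, pr_sec]
    exact hz
  map_target' := by
    intro z hz
    rw [dif_pos (hC z hz)]
    exact ⟨z, hz, rfl⟩
  left_inv' := by
    rintro p ⟨z, hz, hzp⟩
    have e : sec G (pr p.1) = p.1 := by rw [← hzp, pr_sec]
    rw [dif_pos (by rw [e]; exact p.2)]
    exact Subtype.ext e
  right_inv' := by
    intro z hz
    rw [dif_pos (hC z hz)]
    simp
  continuousOn_toFun := (pr_cont.comp continuous_subtype_val).continuousOn
  continuousOn_invFun := by
    rw [IsInducing.subtypeVal.continuousOn_iff]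
    refine (sec_cont hG).congr fun z hz => ?_
    simp only [Function.comp_apply]
    rw [dif_pos (hC z hz)]
  open_source := (sec_open hG hG.1 le_rfl).preimage continuous_subtype_val
  open_target := hG.1

theorem isOpen_comp (p : Pt D) : IsOpen (connectedComponent p) := by
  rw [isOpen_iff_mem_nhds]
  intro q hq
  obtain ⟨G, U, hqU, hG, hqs⟩ := exists_sec q
  obtain ⟨r, hr, hB⟩ := Metric.isOpen_iff.1 hG.1 _ hqU
  have h1 : sec G '' Metric.ball (pr q) r ∈ 𝓝 q :=
    (sec_open hG Metric.isOpen_ball hB).mem_nhds ⟨pr q, Metric.mem_ball_self hr, hqs.symm⟩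
  refine mem_of_superset h1 ?_
  rw [connectedComponent_eq hq]
  refine IsPreconnected.subset_connectedComponent ?_ ⟨pr q, Metric.mem_ball_self hr, hqs.symm⟩
  exact (convex_ball _ r).isPreconnected.image _ ((sec_cont hG).mono hB)

/-- local sections of a chart are unique -/
theorem sec_unique {Y : Type*} [TopologicalSpace Y] {π : Y → (Fin n → ℂ)}
    {e : OpenPartialHomeomorph Y (Fin n → ℂ)} (he : EqOn e π e.source)
    {σ : (Fin n → ℂ) → Y} {w : Fin n → ℂ} (hσ : ContinuousAt σ w) (hσw : σ w ∈ e.source)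
    (hπ : ∀ᶠ z in 𝓝 w, π (σ z) = z) : ∀ᶠ z in 𝓝 w, e.symm z = σ z := by
  filter_upwards [hπ, hσ (e.open_source.mem_nhds hσw)] with z h1 h2
  have h3 : σ z ∈ e.source := h2
  rw [← h1, ← he h3, e.left_inv h3, he h3, h1]

end Env

open Env

theorem envelope_exists {n : ℕ} {D : Set (Fin n → ℂ)} (ho : IsOpen D) (hc : IsConnected D) :
    ∃ (X : RiemannDomain n) (ι : D → X.carrier), IsEnvelope D X ι := by
  classical
  obtain ⟨x₀, hx₀⟩ := hc.nonempty
  obtain ⟨G₀, hG₀⟩ : ∃ G₀ : OO D → (Fin n → ℂ) → ℂ, G₀ = fun f => f.1 := ⟨_, rfl⟩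
  have hH₀ : Hol G₀ D := ⟨ho, fun f => by rw [hG₀]; exact f.2⟩
  obtain ⟨C, hC⟩ : ∃ C, C = connectedComponent (sec G₀ x₀) := ⟨_, rfl⟩
  have hCo : IsOpen C := by rw [hC]; exact isOpen_comp _
  have hCc : IsConnected C := by rw [hC]; exact isConnected_connectedComponent
  have hDC : ∀ x ∈ D, sec G₀ x ∈ C := by
    intro x hx
    rw [hC]
    have h1 : IsPreconnected (sec G₀ '' D) := hc.isPreconnected.image _ (sec_cont hH₀)
    exact h1.subset_connectedComponent ⟨x₀, hx₀, rfl⟩ ⟨x, hx, rfl⟩
  -- charts around the points of `C`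
  have hchart : ∀ p : C, ∃ (G : OO D → (Fin n → ℂ) → ℂ) (U : Set (Fin n → ℂ)) (hG : Hol G U)
      (hU : ∀ z ∈ U, sec G z ∈ C), p ∈ (chart hG hU p).source := by
    intro p
    obtain ⟨G, U, hpU, hG, hp⟩ := exists_sec p.1
    have h1 : IsOpen (U ∩ sec G ⁻¹' C) := hCo G U hG
    have h2 : Hol G (U ∩ sec G ⁻¹' C) := hG.mono h1 inter_subset_left
    refine ⟨G, U ∩ sec G ⁻¹' C, h2, fun z hz => hz.2, pr p.1, ⟨hpU, ?_⟩, hp.symm⟩
    show sec G (pr p.1) ∈ C
    rw [← hp]
    exact p.2
  have hloc : IsLocalHomeomorph (fun p : C => pr p.1) := by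
    refine IsLocalHomeomorph.mk _ fun p => ?_
    obtain ⟨G, U, hG, hU, hp⟩ := hchart p
    exact ⟨chart hG hU p, hp, fun q _ => rfl⟩
  have : ConnectedSpace C := isConnected_iff_connectedSpace.1 hCc
  let X : RiemannDomain n := {
    carrier := C
    proj := fun p => pr p.1
    isLocalHomeomorph := hloc }
  let ι : D → X.carrier := fun x => ⟨sec G₀ x, hDC x x.2⟩
  refine ⟨X, ι, ⟨?_, ?_, ?_⟩, ?_⟩
  · exact Continuous.subtype_mk ((continuousOn_iff_continuous_domRestrict.1 (sec_cont hH₀))) _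
  · intro x
    exact pr_sec _ _
  · intro f hf
    refine ⟨fun p : C => val ⟨f, hf⟩ p.1, ?_, ?_⟩
    · intro p
      obtain ⟨G, U, hG, hU, hp⟩ := hchart p
      refine ⟨chart hG hU p, hp, fun q _ => rfl, ?_⟩
      refine (hG.2 ⟨f, hf⟩).congr fun z hz => ?_
      show val ⟨f, hf⟩ ((if h : sec G z ∈ C then (⟨sec G z, h⟩ : C) else p) : C).1 = G ⟨f, hf⟩ z
      rw [dif_pos (hU z hz)]
      exact val_sec hz hG _
    · intro x
      show val ⟨f, hf⟩ (sec G₀ x) = f x
      rw [val_sec x.2 hH₀, hG₀]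
  · intro Y j hj
    have hext := hj.extend
    have hF : ∀ f : OO D, ∃ F : Y.carrier → ℂ, Y.IsHolo F ∧ ∀ x : D, F (j x) = f.1 x :=
      fun f => hext f.1 f.2
    choose F hFh hFj using hF
    choose e he hep using Y.isLocalHomeomorph
    have hep' : ∀ y, EqOn (e y) Y.proj (e y).source := fun y z _ => by rw [← hep y]
    obtain ⟨Gy, hGy⟩ : ∃ Gy : Y.carrier → OO D → (Fin n → ℂ) → ℂ,
      Gy = fun y f => F f ∘ (e y).symm := ⟨_, rfl⟩
    have hsymm : ∀ (y : Y.carrier) (w : Fin n → ℂ), w ∈ (e y).target →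
        ∀ᶠ z in 𝓝 w, Y.proj ((e y).symm z) = z := by
      intro y w hw
      filter_upwards [(e y).open_target.mem_nhds hw] with z hz
      rw [← hep' y ((e y).map_target hz), (e y).right_inv hz]
    have hHol : ∀ y, Hol (Gy y) (e y).target := by
      intro y
      refine ⟨(e y).open_target, fun f w hw => ?_⟩
      have hmem := (e y).map_target hw
      obtain ⟨e', he', hee', hd'⟩ := hFh f ((e y).symm w)
      have h1 : ∀ᶠ z in 𝓝 w, e'.symm z = (e y).symm z :=
        sec_unique hee' ((e y).continuousAt_symm hw) he' (hsymm y w hw)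
      have hw' : w ∈ e'.target := by
        have h2 := e'.map_source he'
        rw [hee' he', ← hep' y hmem, (e y).right_inv hw] at h2
        exact h2
      have h3 : DifferentiableAt ℂ (F f ∘ e'.symm) w :=
        (hd' w hw').differentiableAt (e'.open_target.mem_nhds hw')
      have h4 : (Gy y f) =ᶠ[𝓝 w] F f ∘ e'.symm := by
        filter_upwards [h1] with z hz
        rw [hGy]
        simp only [Function.comp_apply]
        rw [hz]
      exact (h3.congr_of_eventuallyEq h4).differentiableWithinAt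
    have hyt : ∀ y, Y.proj y ∈ (e y).target := by
      intro y
      have := (e y).map_source (he y)
      rwa [hep' y (he y)] at this
    obtain ⟨φ, hφ⟩ : ∃ φ : Y.carrier → Pt D, φ = fun y => sec (Gy y) (Y.proj y) := ⟨_, rfl⟩
    have hφloc : ∀ y, ∀ y' ∈ (e y).source, φ y' = sec (Gy y) (Y.proj y') := by
      intro y y' hy'
      have hy't : Y.proj y' ∈ (e y).target := by
        have := (e y).map_source hy'
        rwa [hep' y hy'] at this
      rw [hφ]
      simp only
      rw [sec_eq_iff (hyt y') (hHol y') hy't (hHol y)]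
      intro f
      have h0 : (e y).symm (Y.proj y') = y' := by
        rw [← hep' y hy', (e y).left_inv hy']
      have h1 : ∀ᶠ z in 𝓝 (Y.proj y'), (e y').symm z = (e y).symm z := by
        refine sec_unique (hep' y') ((e y).continuousAt_symm hy't) ?_ (hsymm y _ hy't)
        rw [h0]
        exact he y'
      filter_upwards [h1] with z hz
      rw [hGy]
      simp only [Function.comp_apply]
      rw [hz]
    have hprc : Continuous Y.proj := Y.isLocalHomeomorph.continuous
    have hφc : Continuous φ := by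
      rw [continuous_iff_continuousAt]
      intro y
      have h1 : φ =ᶠ[𝓝 y] fun y' => sec (Gy y) (Y.proj y') := by
        filter_upwards [(e y).open_source.mem_nhds (he y)] with y' hy'
        exact hφloc y y' hy'
      refine ContinuousAt.congr ?_ h1.symm
      exact ContinuousAt.comp (f := Y.proj) (g := sec (Gy y))
        ((sec_cont (hHol y)).continuousAt ((hHol y).1.mem_nhds (hyt y))) hprc.continuousAt
    have hφj : ∀ x : D, φ (j x) = sec G₀ x := by
      intro x
      have hpj : Y.proj (j x) = x := hj.proj_ι x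
      rw [hφ]
      simp only
      rw [hpj, sec_eq_iff (by have := hyt (j x); rwa [hpj] at this) (hHol (j x)) x.2 hH₀]
      intro f
      obtain ⟨σ, hσ⟩ : ∃ σ : (Fin n → ℂ) → Y.carrier,
        σ = fun z => if h : z ∈ D then j ⟨z, h⟩ else j x := ⟨_, rfl⟩
      have hσD : ∀ z (h : z ∈ D), σ z = j ⟨z, h⟩ := fun z h => by rw [hσ]; exact dif_pos h
      have hσc : ContinuousAt σ x := by
        have h1 : ContinuousOn σ D := by
          rw [continuousOn_iff_continuous_domRestrict]
          have : D.domRestrict σ = j := by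
            funext z
            exact hσD z z.2
          rw [this]
          exact hj.cont
        exact h1.continuousAt (ho.mem_nhds x.2)
      have h1 : ∀ᶠ z in 𝓝 (x : Fin n → ℂ), (e (j x)).symm z = σ z := by
        refine sec_unique (hep' (j x)) hσc ?_ ?_
        · rw [hσD x x.2]
          exact he (j x)
        · filter_upwards [ho.mem_nhds x.2] with z hz
          rw [hσD z hz]
          exact hj.proj_ι ⟨z, hz⟩
      filter_upwards [h1, ho.mem_nhds x.2] with z hz hzD
      rw [hGy, hG₀]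
      simp only [Function.comp_apply]
      rw [hz, hσD z hzD]
      exact hFj f ⟨z, hzD⟩
    have hφC : ∀ y, φ y ∈ C := by
      intro y
      rw [hC]
      have h1 : IsPreconnected (range φ) := isPreconnected_range hφc
      refine h1.subset_connectedComponent ⟨j ⟨x₀, hx₀⟩, ?_⟩ ⟨y, rfl⟩
      exact hφj ⟨x₀, hx₀⟩
    refine ⟨fun y => ⟨φ y, hφC y⟩, Continuous.subtype_mk hφc _, fun y => ?_, fun x => ?_⟩
    · show pr (φ y) = Y.proj y
      rw [hφ]
      exact pr_sec _ _
    · exact Subtype.ext (hφj x)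

end P4cae09
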