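import Pool.Agent.Lib.P4cae09.Ring
import Pool.Agent.Lib.P4cae09.Bounds

/-!
# P4cae09.Figure (2.2 h): the Hartogs figures

Path `γ(s) = pth m j s`, `s ∈ [0, s_max]`, `s_max sn m j = 2`. `N` = open `ν`-neighbourhood of `γ([0,s_max])`, `N'` = open
`ν`-neighbourhood of `γ([0,s₁])`, where `s₁ sn m j = 1/4` (so `gg (Re r) ≤ 20 e^{-1/(1/4+ν)} ≤ 9/10` on `N'`:
`20 e^{-3.9} < 0.41`). Both are open and connected (`Metric.thickening` of a connected set, = union of balls centred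
on a connected set). By compactness (`IsCompact.exists_thickening_subset_open` or `exists_cthickening_subset_open` for the
compact set `{‖ζ‖=1} × γ`, resp. a tube argument) for small `ν` there is `c₀ ∈ (0,1/2)` with
(a) `shear (tj m j) ζ n ∈ Dom` for `n ∈ N`, `1 - c₀ ≤ ‖ζ‖ ≤ 1`.
The end disc: `n₀ = γ(s_max)` (`disc_mem`).
Radial property for `n = (w', v, p, r) ∈ N'`, `0 < ‖ζ‖ < 1`, `y = κ‖ζ‖`, `κ ≥ 1`, `κ‖ζ‖ ≤ 1`: with `τ = j/m` real
`rho(shear τ (κζ) n) = κ Re(ζv) + M‖v‖² + (y²-1)² + K κ² (Im(conj ζ w'))² + K(Im p)² + K(Im r)² + ell(‖w'+τκζ‖²-4)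
   + ell(..) + ell(..) - gg(Re r) - β(τy² + κ Re(conj ζ w'), Re p, Re r)`, all the `ell` are `0` (`‖w‖ ≤ 1`, `|Re p| ≤ 2`,
`Re r ≥ -ν`). If `shear τ ζ n ∈ Dom`: `(‖ζ‖²-1)² < 0.41 + 1/(8M) + ν < 0.9`, so `‖ζ‖ ≥ 1/5`, in particular `ζ ≠ 0`.
The `β` term is the same for all `κ`: if `(Re p, Re r)` is in no disc it is `0`; if it is in a disc, it is the disc of
`m` (for `l ≠ m` the path stays away, see BetaSum: distance `≥ 3 ε_l` up to `ν`), then `gg (Re r) + β` is tiny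
(`≤ 20 e^{-1/(2ε)} + ia/8`, as `Re r ≤ 2ε`), so `(‖ζ‖²-1)²` is tiny, `τy² + κRe(..)` is within `dd m/2` of `τ` (this needs
`20 e^{-1/(2ε)}·2 ≤ (dd m)²/100`: from `Small.s6`) and `ray` applies (`n` within `ν ≤ dd m eta ε/16` of the path).
Derivative in `κ` of the rest: `Re(ζv) + 4κ‖ζ‖²(y²-1) + 2Kκ(Im conj ζ w')²`, times `κ`: `≤ yν + 4y²(y²-1) + 2Ky²ν²< 0` for
`1/5 ≤ y ≤ 1-c₀` as soon as `5ν + 2Kν² < 4c₀`. So `rho` decreases until `y = 1-c₀` and for `y ≥ 1-c₀` use (a).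
-/

namespace P4cae09

open Metric Set Filter Topology

variable {c : Consts} {ε : ℕ → ℝ} {β : ℝ × ℝ × ℝ → ℝ}

namespace Figure

theorem tau_abs {m : ℕ} (hm : 1 ≤ m) {j : ℤ} (hj : 2 * |j| ≤ m) : |(j : ℝ) / m| ≤ 1 / 2 := by
  have hm' : (0 : ℝ) < m := by exact_mod_cast hm
  rw [abs_div, abs_of_pos hm', div_le_iff₀ hm']
  have h2 : ((2 * |j| : ℤ) : ℝ) ≤ ((m : ℤ) : ℝ) := by exact_mod_cast hj
  push_cast at h2
  linarith

theorem sn_sq {m : ℕ} (hm : 1 ≤ m) {j : ℤ} (hj : 2 * |j| ≤ m) :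
    sn m j ^ 2 + ((j : ℝ) / m) ^ 2 = 1 := by
  have h := tau_abs hm hj
  have h2 : ((j : ℝ) / m) ^ 2 ≤ 1 := by
    rw [← sq_abs]
    nlinarith [abs_nonneg ((j : ℝ) / m)]
  unfold sn
  rw [Real.sq_sqrt (by linarith)]
  ring

theorem sn_ge {m : ℕ} (hm : 1 ≤ m) {j : ℤ} (hj : 2 * |j| ≤ m) : 4 / 5 ≤ sn m j := by
  have h := tau_abs hm hj
  have h2 : ((j : ℝ) / m) ^ 2 ≤ 1 / 4 := by
    rw [← sq_abs]
    nlinarith [abs_nonneg ((j : ℝ) / m)]
  unfold sn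
  apply Real.le_sqrt_of_sq_le
  linarith

theorem sn_le (m : ℕ) (j : ℤ) : sn m j ≤ 1 := by
  unfold sn
  rw [Real.sqrt_le_one]
  nlinarith [sq_nonneg ((j : ℝ) / m)]

theorem cen_pos (m : ℕ) : 0 < cen m := by unfold cen; positivity

theorem cen_lt {l m : ℕ} (h : l < m) : cen m ≤ cen l / 2 := by
  unfold cen
  calc ((1 : ℝ) / 2) ^ m ≤ (1 / 2) ^ (l + 1) :=
        pow_le_pow_of_le_one (by norm_num) (by norm_num) h
    _ = (1 / 2) ^ l / 2 := by rw [pow_succ]; ring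

theorem cen_le {m : ℕ} (hm : 1 ≤ m) : cen m ≤ 1 / 2 := by
  have h := cen_lt (l := 0) (m := m) (by omega)
  have : cen 0 = 1 := by simp [cen]
  linarith

theorem pth_combo (m : ℕ) (j : ℤ) {u v : ℝ} (h : u + v = 1) (a b : ℝ) :
    u • pth m j a + v • pth m j b = pth m j (u * a + v * b) := by
  have hv : v = 1 - u := by linarith
  subst hv
  ext i
  fin_cases i
  · simp [pth]
  · simp [pth]
  · simp only [pth, Pi.add_apply, Pi.smul_apply, Fin.reduceFinMk, Matrix.cons_val,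
      Complex.real_smul]
    push_cast
    ring
  · simp only [pth, Pi.add_apply, Pi.smul_apply, Fin.reduceFinMk, Matrix.cons_val,
      Complex.real_smul]
    push_cast
    ring

theorem convex_path (m : ℕ) (j : ℤ) (S : ℝ) : Convex ℝ (pth m j '' Icc 0 S) := by
  rintro _ ⟨a, ha, rfl⟩ _ ⟨b, hb, rfl⟩ u v hu hv huv
  rw [pth_combo m j huv]
  exact ⟨u * a + v * b, (convex_Icc 0 S) ha hb hu hv huv, rfl⟩

theorem continuous_pth (m : ℕ) (j : ℤ) : Continuous (pth m j) := by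
  refine continuous_pi fun i => ?_
  fin_cases i
  · simp only [pth, Fin.zero_eta, Matrix.cons_val_zero]
    exact continuous_const
  · simp only [pth, Fin.mk_one, Matrix.cons_val_one]
    exact continuous_const
  · simp only [pth, Fin.reduceFinMk, Matrix.cons_val]
    fun_prop
  · simp only [pth, Fin.reduceFinMk, Matrix.cons_val]
    fun_prop

theorem continuous_shear (t : ℂ) :
    Continuous (fun p : ℂ × (Fin 4 → ℂ) => shear t p.1 p.2) := by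
  refine continuous_pi fun i => ?_
  fin_cases i
  · simp only [shear, Fin.zero_eta, Matrix.cons_val_zero]
    fun_prop
  · simp only [shear, Fin.mk_one, Matrix.cons_val_one]
    fun_prop
  · simp only [shear, Fin.reduceFinMk, Matrix.cons_val]
    fun_prop
  · simp only [shear, Fin.reduceFinMk, Matrix.cons_val]
    fun_prop
  · simp only [shear, Fin.reduceFinMk, Matrix.cons_val]
    fun_prop

theorem conj_mul_shear (τ : ℝ) (z w : ℂ) :
    (starRingEnd ℂ) z * (w + (τ : ℂ) * z) =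
      (starRingEnd ℂ) z * w + ((τ * ‖z‖ ^ 2 : ℝ) : ℂ) := by
  have h : (starRingEnd ℂ) z * z = ((‖z‖ ^ 2 : ℝ) : ℂ) := by
    rw [Complex.conj_mul']
    push_cast
    rfl
  rw [mul_add]
  congr 1
  rw [mul_left_comm, h]
  push_cast
  ring

theorem rho_shear (τ : ℝ) (z : ℂ) (n : Fin 4 → ℂ) :
    rho c β (shear (τ : ℂ) z n) = (z * n 1).re + c.M * ‖n 1‖ ^ 2 + (‖z‖ ^ 2 - 1) ^ 2
      + c.K * (((starRingEnd ℂ) z * n 0).im) ^ 2 + c.K * (n 2).im ^ 2 + c.K * (n 3).im ^ 2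
      + ell (‖n 0 + (τ : ℂ) * z‖ ^ 2 - 4) + ell ((n 2).re ^ 2 - 16) + ell (-1 - (n 3).re)
      - gg (n 3).re
      - β (((starRingEnd ℂ) z * n 0).re + τ * ‖z‖ ^ 2, (n 2).re, (n 3).re) := by
  have e0 : shear (τ : ℂ) z n 0 = z := rfl
  have e1 : shear (τ : ℂ) z n 1 = n 0 + (τ : ℂ) * z := rfl
  have e2 : shear (τ : ℂ) z n 2 = n 1 := rfl
  have e3 : shear (τ : ℂ) z n 3 = n 2 := rfl
  have e4 : shear (τ : ℂ) z n 4 = n 3 := rfl
  unfold rho tt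
  rw [e0, e1, e2, e3, e4, conj_mul_shear, Complex.add_im, Complex.add_re, Complex.ofReal_im,
    Complex.ofReal_re, add_zero]

/-- the path stays away from the other discs -/
theorem far_disc (hβ : IsBeta c.M ε β) {m : ℕ} (hm : 1 ≤ m) {j : ℤ} (hj : 2 * |j| ≤ m) {l : ℕ}
    (hl : 1 ≤ l) (hlm : l ≠ m) {x y s ν : ℝ} (hν : ν ≤ cen m / 10)
    (hx : |x - (cen m + s * ((j : ℝ) / m))| ≤ ν) (hy : |y - s * sn m j| ≤ ν) :
    (2 * ε l) ^ 2 ≤ (x - cen l) ^ 2 + y ^ 2 := by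
  by_contra hc
  rw [not_le] at hc
  have hτ := tau_abs hm hj
  have hσ := sn_ge hm hj
  have hσ1 := sn_le m j
  have hsq := sn_sq hm hj
  set τ : ℝ := (j : ℝ) / m with hτd
  set σ : ℝ := sn m j with hσd
  have hεl := (hβ.small l hl).pos
  have hεc := (hβ.small l hl).le_cen
  have hq : (σ * (x - cen l) - τ * y) ^ 2 < (2 * ε l) ^ 2 := by
    have e : (σ * (x - cen l) - τ * y) ^ 2 + (τ * (x - cen l) + σ * y) ^ 2 =
        (σ ^ 2 + τ ^ 2) * ((x - cen l) ^ 2 + y ^ 2) := by ring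
    rw [hsq, one_mul] at e
    nlinarith [sq_nonneg (τ * (x - cen l) + σ * y)]
  have hq2 := abs_lt_of_sq_lt_sq hq (by linarith)
  rw [abs_lt] at hq2
  have e1 : |σ * (x - (cen m + s * τ))| ≤ ν := by
    rw [abs_mul, abs_of_nonneg (by linarith : 0 ≤ σ)]
    calc σ * |x - (cen m + s * τ)| ≤ 1 * ν :=
          mul_le_mul hσ1 hx (abs_nonneg _) (by norm_num)
      _ = ν := one_mul _
  have e2 : |τ * (y - s * σ)| ≤ ν := by
    rw [abs_mul]
    calc |τ| * |y - s * σ| ≤ 1 * ν :=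
          mul_le_mul (by linarith) hy (abs_nonneg _) (by norm_num)
      _ = ν := one_mul _
  rw [abs_le] at e1 e2
  have e3 : σ * (cen m - cen l) = (σ * (x - cen l) - τ * y) - σ * (x - (cen m + s * τ)) +
      τ * (y - s * σ) := by ring
  have hcm := cen_pos m
  have hcl := cen_pos l
  rcases lt_or_gt_of_ne hlm with h | h
  · have h1 := cen_lt h
    nlinarith
  · have h1 := cen_lt h
    nlinarith

theorem exp38 : Real.exp (-(13 / 50 : ℝ)⁻¹) ≤ 1 / 40 := by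
  have h1 : (2.7 : ℝ) ≤ Real.exp 1 := by
    have := Real.exp_one_gt_d9
    linarith
  have h3 : (19 : ℝ) ≤ Real.exp 3 := by
    have : Real.exp 3 = Real.exp 1 ^ 3 := by rw [← Real.exp_nat_mul]; norm_num
    rw [this]
    calc (19 : ℝ) ≤ 2.7 ^ 3 := by norm_num
      _ ≤ _ := pow_le_pow_left₀ (by norm_num) h1 3
  have h4 : (2.12 : ℝ) ≤ Real.exp 0.8 := by
    have := Real.quadratic_le_exp_of_nonneg (show (0 : ℝ) ≤ 0.8 by norm_num)
    linarith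
  have h5 : (40 : ℝ) ≤ Real.exp 3.8 := by
    have : Real.exp 3.8 = Real.exp 3 * Real.exp 0.8 := by rw [← Real.exp_add]; norm_num
    rw [this]
    nlinarith
  have h6 : Real.exp (-(13 / 50 : ℝ)⁻¹) ≤ Real.exp (-3.8) := by
    apply Real.exp_le_exp.2
    norm_num
  refine h6.trans ?_
  rw [Real.exp_neg, ← one_div]
  exact one_div_le_one_div_of_le (by norm_num) h5

theorem dd_pos {m : ℕ} (hm : 1 ≤ m) : 0 < dd m := by
  have : (0 : ℝ) < m := by exact_mod_cast hm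
  unfold dd CC
  positivity

theorem num_half {r : ℝ} (h0 : 0 ≤ r) (h : r < 1 / 2) : (3 / 4 : ℝ) ^ 2 ≤ (r ^ 2 - 1) ^ 2 := by
  have : r ^ 2 ≤ 1 / 4 := by nlinarith
  nlinarith

theorem num_near {κ r d ν τ D : ℝ} (hκ : 1 ≤ κ) (hr : 0 ≤ r) (hκr : κ * r ≤ 1)
    (hd : |d| ≤ r * ν) (hν : 0 ≤ ν) (hτ : |τ| ≤ 1 / 2) (h1 : 1 - r ^ 2 ≤ D / 14)
    (h2 : ν ≤ D / 4) (hD : 0 ≤ D) : |κ * d + τ * (κ * r) ^ 2 - τ| ≤ D / 2 := by
  have hκ0 : 0 ≤ κ := by linarith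
  have hκr0 : 0 ≤ κ * r := mul_nonneg hκ0 hr
  have p1 : |κ * d| ≤ ν := by
    rw [abs_mul, abs_of_nonneg hκ0]
    calc κ * |d| ≤ κ * (r * ν) := mul_le_mul_of_nonneg_left hd hκ0
      _ = (κ * r) * ν := by ring
      _ ≤ 1 * ν := mul_le_mul_of_nonneg_right hκr hν
      _ = ν := one_mul _
  have p2 : 0 ≤ 1 - (κ * r) ^ 2 := by
    have := pow_le_one₀ hκr0 hκr (n := 2)
    linarith
  have p3 : 1 - (κ * r) ^ 2 ≤ 1 - r ^ 2 := by
    have h3 : r ≤ κ * r := le_mul_of_one_le_left hr hκ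
    have := pow_le_pow_left₀ hr h3 2
    linarith
  have p4 : |τ * (1 - (κ * r) ^ 2)| ≤ 1 / 2 * (1 - (κ * r) ^ 2) := by
    rw [abs_mul, abs_of_nonneg p2]
    exact mul_le_mul_of_nonneg_right hτ p2
  have e : κ * d + τ * (κ * r) ^ 2 - τ = κ * d - τ * (1 - (κ * r) ^ 2) := by ring
  rw [e]
  refine (abs_sub _ _).trans ?_
  linarith

theorem num_compare {r κ c₀ ν a b K : ℝ} (hr : 1 / 2 ≤ r) (hκ : 1 ≤ κ) (hκr : κ * r ≤ 1 - c₀)
    (hc₀ : 0 < c₀) (hc₀1 : c₀ ≤ 1 / 2) (hν : 0 < ν) (hK : 0 ≤ K) (ha : |a| ≤ ν) (hb : |b| ≤ ν)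
    (n6 : ν ≤ c₀ / 4) (n7 : K * ν ≤ 1) :
    κ * a + ((κ * r) ^ 2 - 1) ^ 2 + K * (κ * b) ^ 2 ≤ a + (r ^ 2 - 1) ^ 2 + K * b ^ 2 := by
  have hκ0 : 0 ≤ κ := by linarith
  have hr0 : 0 ≤ r := by linarith
  have hκr0 : 0 ≤ κ * r := mul_nonneg hκ0 hr0
  have h3 : r ≤ κ * r := le_mul_of_one_le_left hr0 hκ
  have q2 : r ^ 2 ≤ (κ * r) ^ 2 := pow_le_pow_left₀ hr0 h3 2
  have q1 : (κ * r) ^ 2 ≤ 1 - c₀ := by
    have : (κ * r) ^ 2 ≤ (1 - c₀) ^ 2 := pow_le_pow_left₀ hκr0 hκr 2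
    have : (1 - c₀) ^ 2 ≤ 1 - c₀ := by nlinarith
    linarith
  have q3 : 0 ≤ κ ^ 2 - 1 := by nlinarith
  have q4 : 1 / 4 ≤ r ^ 2 := by nlinarith
  have q5 : ((κ * r) ^ 2 - 1) ^ 2 - (r ^ 2 - 1) ^ 2 ≤ -((κ ^ 2 - 1) * (c₀ / 2)) := by
    have e : ((κ * r) ^ 2 - 1) ^ 2 - (r ^ 2 - 1) ^ 2 =
        (κ ^ 2 - 1) * (r ^ 2 * ((κ * r) ^ 2 + r ^ 2 - 2)) := by ring
    rw [e]
    have h4 : (κ * r) ^ 2 + r ^ 2 - 2 ≤ -(2 * c₀) := by linarith
    have h5 : r ^ 2 * ((κ * r) ^ 2 + r ^ 2 - 2) ≤ r ^ 2 * (-(2 * c₀)) :=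
      mul_le_mul_of_nonneg_left h4 (by positivity)
    have h6 : r ^ 2 * (-(2 * c₀)) ≤ -(c₀ / 2) := by nlinarith
    calc (κ ^ 2 - 1) * (r ^ 2 * ((κ * r) ^ 2 + r ^ 2 - 2)) ≤ (κ ^ 2 - 1) * (-(c₀ / 2)) :=
          mul_le_mul_of_nonneg_left (h5.trans h6) q3
      _ = -((κ ^ 2 - 1) * (c₀ / 2)) := by ring
  have q6 : (κ - 1) * a ≤ (κ ^ 2 - 1) * ν := by
    have s1 : (κ - 1) * a ≤ (κ - 1) * ν :=
      mul_le_mul_of_nonneg_left (abs_le.1 ha).2 (by linarith)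
    have s2 : (κ - 1) * ν ≤ (κ ^ 2 - 1) * ν :=
      mul_le_mul_of_nonneg_right (by nlinarith) hν.le
    exact s1.trans s2
  have q7 : K * (κ * b) ^ 2 - K * b ^ 2 ≤ (κ ^ 2 - 1) * ν := by
    have s0 : b ^ 2 ≤ ν ^ 2 := by
      rw [← sq_abs b]
      exact pow_le_pow_left₀ (abs_nonneg _) hb 2
    have s1 : K * b ^ 2 ≤ ν := by
      calc K * b ^ 2 ≤ K * ν ^ 2 := mul_le_mul_of_nonneg_left s0 hK
        _ = (K * ν) * ν := by ring
        _ ≤ 1 * ν := mul_le_mul_of_nonneg_right n7 hν.le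
        _ = ν := one_mul _
    calc K * (κ * b) ^ 2 - K * b ^ 2 = (κ ^ 2 - 1) * (K * b ^ 2) := by ring
      _ ≤ (κ ^ 2 - 1) * ν := mul_le_mul_of_nonneg_left s1 q3
  have q8 : (κ ^ 2 - 1) * (ν + ν) ≤ (κ ^ 2 - 1) * (c₀ / 2) :=
    mul_le_mul_of_nonneg_left (by linarith) q3
  have q9 : (κ ^ 2 - 1) * (ν + ν) = (κ ^ 2 - 1) * ν + (κ ^ 2 - 1) * ν := by ring
  have q10 : κ * a = a + (κ - 1) * a := by ring
  linarith

theorem radial (hβ : IsBeta c.M ε β) {m : ℕ} (hm : 1 ≤ m) {j : ℤ} (hj : 2 * |j| ≤ m)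
    {ν c₀ : ℝ} (hν : 0 < ν) (hc₀ : 0 < c₀) (hc₀1 : c₀ ≤ 1 / 2)
    (n1 : ν ≤ 1 / 100) (n2 : ν ≤ cen m / 10) (n3 : ν ≤ dd m ^ 2 / 1000) (n4 : ν ≤ dd m / 4)
    (n5 : ν ≤ dd m * eta * ε m / 16) (n6 : ν ≤ c₀ / 4) (n7 : c.K * ν ≤ 1)
    {n : Fin 4 → ℂ} {s : ℝ} (hs : 0 ≤ s) (hs1 : s * sn m j ≤ 1 / 4)
    (hn : dist n (pth m j s) < ν) {ζ : ℂ} (hζ : ‖ζ‖ < 1)
    (hP : shear (tj m j) ζ n ∈ Dom c β) :
    1 / 2 ≤ ‖ζ‖ ∧ ∀ κ : ℝ, 1 ≤ κ → κ * ‖ζ‖ ≤ 1 - c₀ → shear (tj m j) (κ * ζ) n ∈ Dom c β := by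
  have hτ := tau_abs hm hj
  have hσ := sn_ge hm hj
  have hσ1 := sn_le m j
  have hdd := dd_pos hm
  have hcm := cen_pos m
  have hcm2 := cen_le hm
  have hS := hβ.small m hm
  have hε := hS.pos
  have hK : 0 ≤ c.K := by linarith [c.K_ge, (by positivity : (0:ℝ) ≤ 10 ^ 14)]
  have hM : 10 ^ 4 ≤ c.M := by
    refine le_trans ?_ c.M_ge
    rw [le_div_iff₀ (by have := c.u_pos; positivity)]
    have h2 : c.u ≤ 1 := by
      have := c.u_le
      linarith [show (1:ℝ) / 10 ^ 6 ≤ 1 by norm_num]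
    have h3 : c.u ^ 2 ≤ 1 := pow_le_one₀ c.u_pos.le h2
    linarith
  -- coordinates
  rw [dist_pi_lt_iff hν] at hn
  have h0 : ‖n 0‖ < ν := by
    have := hn 0
    simpa [pth] using this
  have h1 : ‖n 1‖ < ν := by
    have := hn 1
    simpa [pth] using this
  have hx : |(n 2).re - (cen m + s * ((j : ℝ) / m))| ≤ ν := by
    have h := hn 2
    have e : pth m j s 2 = ((cen m + s * ((j : ℝ) / m) : ℝ) : ℂ) := rfl
    rw [e, Complex.dist_eq] at h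
    have h2 := Complex.abs_re_le_norm (n 2 - ((cen m + s * ((j : ℝ) / m) : ℝ) : ℂ))
    rw [Complex.sub_re, Complex.ofReal_re] at h2
    linarith
  have hy : |(n 3).re - s * sn m j| ≤ ν := by
    have h := hn 3
    have e : pth m j s 3 = ((s * sn m j : ℝ) : ℂ) := rfl
    rw [e, Complex.dist_eq] at h
    have h2 := Complex.abs_re_le_norm (n 3 - ((s * sn m j : ℝ) : ℂ))
    rw [Complex.sub_re, Complex.ofReal_re] at h2
    linarith
  set τ : ℝ := (j : ℝ) / m with hτd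
  set σ : ℝ := sn m j with hσd
  set x : ℝ := (n 2).re with hxd
  set y : ℝ := (n 3).re with hyd
  have hs5 : s ≤ 5 / 16 := by
    have : s * (4 / 5) ≤ s * σ := mul_le_mul_of_nonneg_left hσ hs
    linarith
  have hsσ : 0 ≤ s * σ := mul_nonneg hs (by linarith)
  have hτs : |s * τ| ≤ 5 / 32 := by
    rw [abs_mul, abs_of_nonneg hs]
    calc s * |τ| ≤ 5 / 16 * (1 / 2) := mul_le_mul hs5 hτ (abs_nonneg _) (by norm_num)
      _ = 5 / 32 := by norm_num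
  have hx' := abs_le.1 hx
  have hy' := abs_le.1 hy
  have hτs' := abs_le.1 hτs
  have hτ' := abs_le.1 hτ
  -- the formula on the closed unit disc
  have hform : ∀ z : ℂ, ‖z‖ ≤ 1 → rho c β (shear (tj m j) z n) =
      (z * n 1).re + c.M * ‖n 1‖ ^ 2 + (‖z‖ ^ 2 - 1) ^ 2
      + c.K * (((starRingEnd ℂ) z * n 0).im) ^ 2 + c.K * (n 2).im ^ 2 + c.K * (n 3).im ^ 2
      - gg y - β (((starRingEnd ℂ) z * n 0).re + τ * ‖z‖ ^ 2, x, y) := by
    intro z hz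
    have e : tj m j = (τ : ℂ) := rfl
    rw [e, rho_shear]
    have l1 : ell (‖n 0 + (τ : ℂ) * z‖ ^ 2 - 4) = 0 := by
      apply ell_of_nonpos
      have : ‖n 0 + (τ : ℂ) * z‖ ≤ 1 := by
        refine (norm_add_le _ _).trans ?_
        rw [norm_mul, Complex.norm_real, Real.norm_eq_abs]
        have : |τ| * ‖z‖ ≤ 1 / 2 * 1 := mul_le_mul hτ hz (norm_nonneg _) (by norm_num)
        linarith
      have h2 := pow_le_one₀ (norm_nonneg (n 0 + (τ : ℂ) * z)) this (n := 2)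
      linarith
    have l2 : ell ((n 2).re ^ 2 - 16) = 0 := by
      apply ell_of_nonpos
      have h1 : |x| ≤ 1 := by
        rw [abs_le]
        constructor <;> linarith
      have h2 : x ^ 2 ≤ 1 := by
        rw [← sq_abs]
        exact pow_le_one₀ (abs_nonneg x) h1
      rw [← hxd]
      linarith
    have l3 : ell (-1 - (n 3).re) = 0 := by
      apply ell_of_nonpos
      rw [← hyd]
      linarith
    rw [l1, l2, l3]
    ring
  set r : ℝ := ‖ζ‖ with hr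
  have hr0 : 0 ≤ r := norm_nonneg _
  set a : ℝ := (ζ * n 1).re with ha
  set b : ℝ := ((starRingEnd ℂ) ζ * n 0).im with hb
  set d : ℝ := ((starRingEnd ℂ) ζ * n 0).re with hd
  have ha' : |a| ≤ r * ν := by
    refine (Complex.abs_re_le_norm _).trans ?_
    rw [norm_mul]
    exact mul_le_mul_of_nonneg_left h1.le hr0
  have hb' : |b| ≤ r * ν := by
    refine (Complex.abs_im_le_norm _).trans ?_
    rw [norm_mul, RCLike.norm_conj]
    exact mul_le_mul_of_nonneg_left h0.le hr0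
  have hd' : |d| ≤ r * ν := by
    refine (Complex.abs_re_le_norm _).trans ?_
    rw [norm_mul, RCLike.norm_conj]
    exact mul_le_mul_of_nonneg_left h0.le hr0
  have hP' : a + c.M * ‖n 1‖ ^ 2 + (r ^ 2 - 1) ^ 2 + c.K * b ^ 2 + c.K * (n 2).im ^ 2
      + c.K * (n 3).im ^ 2 - gg y - β (d + τ * r ^ 2, x, y) < 0 := by
    have h : rho c β (shear (tj m j) ζ n) < 0 := hP
    rw [hform ζ hζ.le] at h
    exact h
  have hrν : r * ν ≤ ν := mul_le_of_le_one_left hν.le hζ.le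
  have haν := abs_le.1 (ha'.trans hrν)
  have key1 : (r ^ 2 - 1) ^ 2 < r * ν + gg y + β (d + τ * r ^ 2, x, y) := by
    have t1 : 0 ≤ c.M * ‖n 1‖ ^ 2 := by positivity
    have t2 : 0 ≤ c.K * b ^ 2 := by positivity
    have t3 : 0 ≤ c.K * (n 2).im ^ 2 := by positivity
    have t4 : 0 ≤ c.K * (n 3).im ^ 2 := by positivity
    have t5 := (abs_le.1 ha').1
    linarith
  have hhalf : 1 / 2 ≤ r := by
    by_contra hc
    rw [not_le] at hc
    have g1 : gg y ≤ 20 * Real.exp (-(13 / 50 : ℝ)⁻¹) :=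
      gg_le_exp (by linarith) (by norm_num)
    have g2 := exp38
    have g3 := (abs_le.1 (hβ.abs_le (d + τ * r ^ 2, x, y))).2
    have g4 : 1 / (8 * c.M) ≤ 1 / 100 := by
      apply one_div_le_one_div_of_le (by norm_num)
      linarith
    have g5 := num_half hr0 hc
    linarith
  refine ⟨hhalf, ?_⟩
  intro κ hκ hκr
  have hκ0 : 0 < κ := by linarith
  have hκr1 : κ * r ≤ 1 := by linarith
  have hκr0 : 0 ≤ κ * r := by positivity
  have hnorm : ‖(κ : ℂ) * ζ‖ = κ * r := by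
    rw [norm_mul, Complex.norm_real, Real.norm_of_nonneg hκ0.le]
  -- the beta terms agree
  have hbeta : β (κ * d + τ * (κ * r) ^ 2, x, y) = β (d + τ * r ^ 2, x, y) := by
    by_cases hin : (x - cen m) ^ 2 + y ^ 2 < (2 * ε m) ^ 2
    · have y1 : y ≤ 2 * ε m := by
        have : y ^ 2 < (2 * ε m) ^ 2 := by linarith [sq_nonneg (x - cen m)]
        exact (abs_lt.1 (abs_lt_of_sq_lt_sq this (by linarith))).2.le
      have g1 : gg y ≤ 20 * Real.exp (-(2 * ε m)⁻¹) := gg_le_exp y1 (by linarith)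
      have g2 := hβ.upper m hm (d + τ * r ^ 2) x y hin
      have g3 : Real.exp (-(2 * ε m)⁻¹) ≤ Real.exp (-(1 / 3) * (ε m)⁻¹) := by
        apply Real.exp_le_exp.2
        have : 0 < (ε m)⁻¹ := inv_pos.2 hε
        rw [mul_inv]
        linarith
      have g4 : Real.exp (-(ε m)⁻¹) ≤ Real.exp (-(1 / 3) * (ε m)⁻¹) := by
        apply Real.exp_le_exp.2
        have : 0 < (ε m)⁻¹ := inv_pos.2 hε
        linarith
      have g5 := hS.s6
      have g6 : ia (ε m) / 8 = 20 * Real.exp (-(ε m)⁻¹) := by unfold ia; ring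
      rw [g6] at g2
      have g7 : (r ^ 2 - 1) ^ 2 < (dd m / 14) ^ 2 := by
        have h5 : (dd m / 14) ^ 2 = dd m ^ 2 / 196 := by ring
        have h6 := sq_nonneg (dd m)
        rw [h5]
        linarith
      have g8 := (abs_lt.1 (abs_lt_of_sq_lt_sq g7 (by linarith))).1
      have g9 : 1 - r ^ 2 ≤ dd m / 14 := by linarith
      have k1 := num_near hκ hr0 hκr1 hd' hν.le hτ g9 n4 hdd.le
      have k2 := num_near le_rfl hr0 (by linarith : 1 * r ≤ 1) hd' hν.le hτ g9 n4 hdd.le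
      rw [one_mul, one_mul] at k2
      have := (hβ.ray m hm j hj (κ * d + τ * (κ * r) ^ 2) (d + τ * r ^ 2) x y s k1 k2 hs
        (by
          refine le_trans (le_of_eq ?_) (hx.trans n5)
          congr 1
          ring) (hy.trans n5)).1
      exact this
    · have hz : ∀ t : ℝ, β (t, x, y) = 0 := by
        intro t
        apply hβ.zero
        intro l hl
        by_cases hlm : l = m
        · subst hlm
          exact not_lt.1 hin
        · exact far_disc hβ hm hj hl hlm n2 hx hy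
      rw [hz, hz]
  change rho c β (shear (tj m j) (κ * ζ) n) < 0
  rw [hform _ (by rw [hnorm]; exact hκr1), hnorm]
  have e1 : ((κ : ℂ) * ζ * n 1).re = κ * a := by
    rw [mul_assoc, Complex.re_ofReal_mul]
  have e2 : ((starRingEnd ℂ) ((κ : ℂ) * ζ) * n 0).im = κ * b := by
    rw [map_mul, Complex.conj_ofReal, mul_assoc, Complex.im_ofReal_mul]
  have e3 : ((starRingEnd ℂ) ((κ : ℂ) * ζ) * n 0).re = κ * d := by
    rw [map_mul, Complex.conj_ofReal, mul_assoc, Complex.re_ofReal_mul]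
  rw [e1, e2, e3, hbeta]
  refine lt_of_le_of_lt ?_ hP'
  have hcmp := num_compare hhalf hκ hκr hc₀ hc₀1 hν hK (ha'.trans hrν) (hb'.trans hrν) n6 n7
  linarith

end Figure

open Figure in
theorem exists_figure (hβ : IsBeta c.M ε β) {m : ℕ} (hm : 1 ≤ m) {j : ℤ} (hj : 2 * |j| ≤ m) :
    ∃ N N' : Set (Fin 4 → ℂ), IsOpen N ∧ IsConnected N ∧ IsOpen N' ∧ IsConnected N' ∧ N' ⊆ N ∧
      pth m j 0 ∈ N' ∧
      (∀ n ∈ N, ∀ ζ : ℂ, ‖ζ‖ = 1 → shear (tj m j) ζ n ∈ Dom c β) ∧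
      (∃ n₀ ∈ N, ∀ ζ : ℂ, ‖ζ‖ ≤ 1 → shear (tj m j) ζ n₀ ∈ Dom c β) ∧
      (∀ n ∈ N', ∀ ζ : ℂ, ‖ζ‖ < 1 → shear (tj m j) ζ n ∈ Dom c β →
        ζ ≠ 0 ∧ ∀ κ : ℝ, 1 ≤ κ → κ * ‖ζ‖ ≤ 1 → shear (tj m j) (κ * ζ) n ∈ Dom c β) := by
  have hσ := sn_ge hm hj
  have hσ0 : 0 < sn m j := by linarith
  set S : ℝ := 2 / sn m j with hSd
  have hSσ : S * sn m j = 2 := div_mul_cancel₀ _ hσ0.ne'
  have hS0 : 0 < S := by positivity
  -- compactness
  have hKc : IsCompact (sphere (0 : ℂ) 1 ×ˢ (pth m j '' Icc 0 S)) :=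
    (isCompact_sphere 0 1).prod (isCompact_Icc.image (continuous_pth m j))
  have hW : IsOpen ((fun p : ℂ × (Fin 4 → ℂ) => shear (tj m j) p.1 p.2) ⁻¹' Dom c β) :=
    (dom_isOpen hβ).preimage (continuous_shear _)
  have hsub : sphere (0 : ℂ) 1 ×ˢ (pth m j '' Icc 0 S) ⊆
      (fun p : ℂ × (Fin 4 → ℂ) => shear (tj m j) p.1 p.2) ⁻¹' Dom c β := by
    rintro ⟨z, n⟩ ⟨hz, s, hs, rfl⟩
    have hz' : ‖z‖ = 1 := by simpa using hz
    refine ring_mem hβ hm hj hs.1 ?_ hz'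
    calc s * sn m j ≤ S * sn m j := mul_le_mul_of_nonneg_right hs.2 hσ0.le
      _ = 2 := hSσ
  obtain ⟨δ, hδ, hδs⟩ := hKc.exists_thickening_subset_open hW hsub
  have hdd := dd_pos hm
  have hε := (hβ.small m hm).pos
  have hK : 0 < c.K := by linarith [c.K_ge, (by positivity : (0:ℝ) < 10 ^ 14)]
  set c₀ : ℝ := min (δ / 2) (1 / 2) with hc₀d
  have hc₀ : 0 < c₀ := lt_min (by linarith) (by norm_num)
  have hc₀1 : c₀ ≤ 1 / 2 := min_le_right _ _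
  have hc₀δ : c₀ ≤ δ / 2 := min_le_left _ _
  obtain ⟨ν, hν, n0, n1, n2, n3, n4, n5, n6, n7⟩ : ∃ ν : ℝ, 0 < ν ∧ ν ≤ δ ∧ ν ≤ 1 / 100 ∧
      ν ≤ cen m / 10 ∧ ν ≤ dd m ^ 2 / 1000 ∧ ν ≤ dd m / 4 ∧ ν ≤ dd m * eta * ε m / 16 ∧
      ν ≤ c₀ / 4 ∧ c.K * ν ≤ 1 := by
    have heta : 0 < eta := by unfold eta; norm_num
    have hcm := cen_pos m
    have ev : ∀ C : ℝ, 0 < C → ∀ᶠ ν : ℝ in 𝓝[>] 0, ν ≤ C := fun C hC => by
      filter_upwards [Ioc_mem_nhdsGT hC] with ν hν using hν.2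
    have : ∀ᶠ ν : ℝ in 𝓝[>] 0, 0 < ν ∧ ν ≤ δ ∧ ν ≤ 1 / 100 ∧
        ν ≤ cen m / 10 ∧ ν ≤ dd m ^ 2 / 1000 ∧ ν ≤ dd m / 4 ∧ ν ≤ dd m * eta * ε m / 16 ∧
        ν ≤ c₀ / 4 ∧ c.K * ν ≤ 1 := by
      filter_upwards [self_mem_nhdsWithin, ev δ hδ, ev (1 / 100) (by norm_num),
        ev (cen m / 10) (by positivity), ev (dd m ^ 2 / 1000) (by positivity),
        ev (dd m / 4) (by positivity), ev (dd m * eta * ε m / 16) (by positivity),
        ev (c₀ / 4) (by positivity), ev (1 / c.K) (by positivity)] with ν h0 h1 h2 h3 h4 h5 h6 h7 h8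
      refine ⟨h0, h1, h2, h3, h4, h5, h6, h7, ?_⟩
      rw [le_div_iff₀ hK] at h8
      linarith
    exact this.exists
  have hring : ∀ n ∈ thickening ν (pth m j '' Icc 0 S), ∀ ζ : ℂ, 1 - c₀ ≤ ‖ζ‖ → ‖ζ‖ ≤ 1 →
      shear (tj m j) ζ n ∈ Dom c β := by
    intro n hn ζ hζ1 hζ2
    have hζ0 : 0 < ‖ζ‖ := by linarith
    rw [mem_thickening_iff] at hn
    obtain ⟨q, hq, hnq⟩ := hn
    have : ((ζ, n) : ℂ × (Fin 4 → ℂ)) ∈
        thickening δ (sphere (0 : ℂ) 1 ×ˢ (pth m j '' Icc 0 S)) := by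
      rw [mem_thickening_iff]
      refine ⟨((((‖ζ‖⁻¹ : ℝ) : ℂ) * ζ, q) : ℂ × (Fin 4 → ℂ)), ⟨?_, hq⟩, ?_⟩
      · simp only [mem_sphere_iff_norm, sub_zero, norm_mul, Complex.norm_real, norm_inv, norm_norm]
        exact inv_mul_cancel₀ hζ0.ne'
      · rw [Prod.dist_eq, max_lt_iff]
        refine ⟨?_, lt_of_lt_of_le hnq n0⟩
        change dist ζ (((‖ζ‖⁻¹ : ℝ) : ℂ) * ζ) < δ
        have e : ζ - ((‖ζ‖⁻¹ : ℝ) : ℂ) * ζ = ((1 - ‖ζ‖⁻¹ : ℝ) : ℂ) * ζ := by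
          push_cast
          ring
        rw [dist_eq_norm, e, norm_mul, Complex.norm_real, Real.norm_eq_abs]
        have e2 : |1 - ‖ζ‖⁻¹| * ‖ζ‖ = |‖ζ‖ - 1| := by
          rw [← abs_of_pos hζ0, ← abs_mul, abs_of_pos hζ0]
          congr 1
          field_simp
        rw [e2, abs_lt]
        constructor <;> linarith
    have h3 := hδs this
    rw [Set.mem_preimage] at h3
    exact h3
  have hmem : ∀ {T : ℝ}, 0 ≤ T → ∀ s ∈ Icc 0 T, pth m j s ∈ thickening ν (pth m j '' Icc 0 T) :=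
    fun hT s hs => self_subset_thickening hν _ ⟨s, hs, rfl⟩
  have hconn : ∀ {T : ℝ}, 0 ≤ T → IsConnected (thickening ν (pth m j '' Icc 0 T)) := by
    intro T hT
    exact ((convex_path m j T).thickening ν).isConnected ⟨_, hmem hT 0 ⟨le_rfl, hT⟩⟩
  have hS1 : S / 8 ≤ S := by linarith
  have hNN : thickening ν (pth m j '' Icc 0 (S / 8)) ⊆ thickening ν (pth m j '' Icc 0 S) :=
    thickening_subset_of_subset _ (image_mono (Icc_subset_Icc le_rfl hS1))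
  refine ⟨thickening ν (pth m j '' Icc 0 S), thickening ν (pth m j '' Icc 0 (S / 8)),
    isOpen_thickening, hconn hS0.le, isOpen_thickening, hconn (by positivity), hNN,
    hmem (by positivity) 0 ⟨le_rfl, by positivity⟩, ?_, ?_, ?_⟩
  · intro n hn ζ hζ
    exact hring n hn ζ (by linarith) hζ.le
  · refine ⟨pth m j S, hmem hS0.le S ⟨hS0.le, le_rfl⟩, fun ζ hζ => disc_mem hβ hm hj hSσ hζ⟩
  · intro n hn ζ hζ hP
    have hn' := hn
    rw [mem_thickening_iff] at hn'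
    obtain ⟨_, ⟨s, hs, rfl⟩, hd⟩ := hn'
    have hs1 : s * sn m j ≤ 1 / 4 := by
      calc s * sn m j ≤ S / 8 * sn m j := mul_le_mul_of_nonneg_right hs.2 hσ0.le
        _ = 1 / 4 := by rw [div_mul_eq_mul_div, hSσ]; norm_num
    obtain ⟨h1, h2⟩ := radial hβ hm hj hν hc₀ hc₀1 n1 n2 n3 n4 n5 n6 n7 hs.1 hs1 hd hζ hP
    refine ⟨?_, ?_⟩
    · intro h0
      rw [h0, norm_zero] at h1
      linarith
    · intro κ hκ hκ1
      by_cases hc : κ * ‖ζ‖ ≤ 1 - c₀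
      · exact h2 κ hκ hc
      · have hnorm : ‖(κ : ℂ) * ζ‖ = κ * ‖ζ‖ := by
          rw [norm_mul, Complex.norm_real, Real.norm_of_nonneg (by linarith)]
        refine hring n (hNN hn) _ ?_ ?_
        · rw [hnorm]
          linarith
        · rw [hnorm]
          exact hκ1

end P4cae09
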