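import Pool.Agent.Lib.P4cae09.Defs

/-!
# P4cae09.GGfun: elementary facts on `gg` and `ell`

`expNegInvGlue x = if x ≤ 0 then 0 else exp (-x⁻¹)` is smooth, with derivative
`x⁻² expNegInvGlue x` everywhere.
-/

namespace P4cae09
open scoped ContDiff

theorem glue_hasDerivAt (x : ℝ) :
    HasDerivAt expNegInvGlue ((x⁻¹) ^ 2 * expNegInvGlue x) x := by
  have h := expNegInvGlue.hasDerivAt_polynomial_eval_inv_mul 1 x
  simpa using h

theorem gg_hasDerivAt (x : ℝ) :
    HasDerivAt gg ((x⁻¹) ^ 2 * expNegInvGlue x * (20 - x ^ 2) + expNegInvGlue x * (-(2 * x))) x := by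
  have h1 : HasDerivAt (fun y : ℝ => 20 - y ^ 2) (-(2 * x)) x := by
    have := (hasDerivAt_pow 2 x).const_sub 20
    simpa using this
  exact (glue_hasDerivAt x).mul h1

theorem ell_hasDerivAt (x : ℝ) :
    HasDerivAt ell (20 * expNegInvGlue x + 20 * x * ((x⁻¹) ^ 2 * expNegInvGlue x)) x := by
  have h1 : HasDerivAt (fun y : ℝ => 20 * y) 20 x := by
    simpa using (hasDerivAt_id x).const_mul 20
  exact h1.mul (glue_hasDerivAt x)

theorem gg_contDiff : ContDiff ℝ ∞ gg := by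
  unfold gg
  exact expNegInvGlue.contDiff.mul (contDiff_const.sub (contDiff_id.pow 2))

theorem ell_contDiff : ContDiff ℝ ∞ ell := by
  unfold ell
  exact (contDiff_const.mul contDiff_id).mul expNegInvGlue.contDiff

theorem gg_of_nonpos {x : ℝ} (hx : x ≤ 0) : gg x = 0 := by
  unfold gg
  rw [expNegInvGlue.zero_of_nonpos hx, zero_mul]

theorem gg_pos {x : ℝ} (hx : 0 < x) (hx4 : x ≤ 4) : 0 < gg x := by
  unfold gg
  refine mul_pos (expNegInvGlue.pos_of_pos hx) ?_
  nlinarith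

theorem glue_two_sq : expNegInvGlue 2 ^ 2 = Real.exp (-1) := by
  have h : expNegInvGlue 2 = Real.exp (-(2:ℝ)⁻¹) := by
    unfold expNegInvGlue
    rw [if_neg (by norm_num)]
  rw [h, sq, ← Real.exp_add]
  norm_num

theorem gg_two_bounds : 9 < gg 2 ∧ gg 2 ≤ 10 := by
  have h0 : 0 ≤ expNegInvGlue 2 := expNegInvGlue.nonneg 2
  have h1 := glue_two_sq
  have h2 := Real.exp_neg_one_gt_d9
  have h3 := Real.exp_neg_one_lt_d9
  have e : gg 2 = expNegInvGlue 2 * 16 := by
    unfold gg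
    norm_num
  rw [e]
  constructor
  · nlinarith
  · nlinarith

theorem gg_two : 9 < gg 2 := gg_two_bounds.1

theorem gg_deriv_pos {x : ℝ} (h0 : 0 < x) (h2 : x < 2) : 0 < deriv gg x := by
  rw [(gg_hasDerivAt x).deriv]
  have hE := expNegInvGlue.pos_of_pos h0
  have e : (x⁻¹) ^ 2 * expNegInvGlue x * (20 - x ^ 2) + expNegInvGlue x * (-(2 * x)) =
      expNegInvGlue x * ((20 - x ^ 2 - 2 * x ^ 3) / x ^ 2) := by
    field_simp
    ring
  rw [e]
  refine mul_pos hE (div_pos ?_ (by positivity))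
  have h3 : x ^ 2 < 4 := by nlinarith
  have h4 : x ^ 3 < 8 := by nlinarith
  linarith

theorem gg_deriv_neg {x : ℝ} (h2 : 2 < x) : deriv gg x < 0 := by
  rw [(gg_hasDerivAt x).deriv]
  have h0 : 0 < x := by linarith
  have hE := expNegInvGlue.pos_of_pos h0
  have e : (x⁻¹) ^ 2 * expNegInvGlue x * (20 - x ^ 2) + expNegInvGlue x * (-(2 * x)) =
      expNegInvGlue x * ((20 - x ^ 2 - 2 * x ^ 3) / x ^ 2) := by
    field_simp
    ring
  rw [e]
  refine mul_neg_of_pos_of_neg hE (div_neg_of_neg_of_pos ?_ (by positivity))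
  have h3 : 4 < x ^ 2 := by nlinarith
  have h4 : 8 < x ^ 3 := by nlinarith
  linarith

theorem gg_deriv_of_nonpos {x : ℝ} (hx : x ≤ 0) : deriv gg x = 0 := by
  rw [(gg_hasDerivAt x).deriv, expNegInvGlue.zero_of_nonpos hx]
  simp

theorem gg_mono : MonotoneOn gg (Set.Iic 2) := by
  refine monotoneOn_of_deriv_nonneg (convex_Iic 2) gg_contDiff.continuous.continuousOn
    (fun x _ => (gg_hasDerivAt x).differentiableAt.differentiableWithinAt) fun x hx => ?_
  rw [interior_Iic, Set.mem_Iio] at hx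
  rcases le_or_gt x 0 with h | h
  · exact (gg_deriv_of_nonpos h).ge
  · exact (gg_deriv_pos h hx).le

theorem gg_anti : AntitoneOn gg (Set.Ici 2) := by
  refine antitoneOn_of_deriv_nonpos (convex_Ici 2) gg_contDiff.continuous.continuousOn
    (fun x _ => (gg_hasDerivAt x).differentiableAt.differentiableWithinAt) fun x hx => ?_
  rw [interior_Ici, Set.mem_Ioi] at hx
  exact (gg_deriv_neg hx).le

theorem gg_le (x : ℝ) : gg x ≤ 10 := by
  refine le_trans ?_ gg_two_bounds.2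
  rcases le_total x 2 with h | h
  · exact gg_mono h (Set.mem_Iic.mpr le_rfl) h
  · exact gg_anti (Set.mem_Ici.mpr le_rfl) h h

theorem gg_large {x : ℝ} (hx : 5 ≤ x) : gg x ≤ -4 := by
  have h1 : gg x ≤ gg 5 := gg_anti (Set.mem_Ici.mpr (by norm_num)) (Set.mem_Ici.mpr (by linarith)) hx
  refine h1.trans ?_
  have h : expNegInvGlue 5 = Real.exp (-(5:ℝ)⁻¹) := by
    unfold expNegInvGlue
    rw [if_neg (by norm_num)]
  have h2 := Real.add_one_le_exp (-(5:ℝ)⁻¹)
  unfold gg
  rw [h]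
  norm_num at h2 ⊢
  linarith

/-- (`gg` is increasing in `X` up to `2` and the bound is increasing too; or directly
`e^{-1/x} (20 - x²) ≤ 20 e^{-1/X}` when `0 < x ≤ X`) -/
theorem gg_le_exp {x X : ℝ} (hx : x ≤ X) (hX : 0 < X) : gg x ≤ 20 * Real.exp (-X⁻¹) := by
  have h : expNegInvGlue X = Real.exp (-X⁻¹) := by
    unfold expNegInvGlue
    rw [if_neg (not_le.mpr hX)]
  have h1 := expNegInvGlue.monotone hx
  have h2 := expNegInvGlue.nonneg x
  unfold gg
  rw [← h]
  have h3 : 0 ≤ expNegInvGlue x * x ^ 2 := by positivity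
  nlinarith

theorem gg_quarter {x : ℝ} (h : 1 / 4 ≤ gg x) : 1 / 5 ≤ x := by
  by_contra hc
  push Not at hc
  have h1 := gg_le_exp hc.le (by norm_num : (0:ℝ) < 1 / 5)
  have h2 : Real.exp (-(1 / 5 : ℝ)⁻¹) < 1 / 80 := by
    have e : (-(1 / 5 : ℝ)⁻¹) = -5 := by norm_num
    rw [e, Real.exp_neg, inv_lt_comm₀ (Real.exp_pos _) (by norm_num)]
    have h3 : Real.exp 5 = Real.exp 1 ^ 5 := by
      rw [← Real.exp_nat_mul]
      norm_num
    rw [h3]
    have h4 := Real.exp_one_gt_d9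
    have h5 : (2.7:ℝ) ^ 5 ≤ Real.exp 1 ^ 5 := by
      gcongr
      linarith
    norm_num at h5 ⊢
    linarith
  linarith

theorem ell_of_nonpos {x : ℝ} (hx : x ≤ 0) : ell x = 0 := by
  unfold ell
  rw [expNegInvGlue.zero_of_nonpos hx, mul_zero]

theorem ell_nonneg (x : ℝ) : 0 ≤ ell x := by
  rcases le_or_gt x 0 with h | h
  · exact (ell_of_nonpos h).ge
  · unfold ell
    have := expNegInvGlue.nonneg x
    positivity

theorem ell_mono : Monotone ell := by
  intro x y hxy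
  rcases le_or_gt x 0 with h | h
  · rw [ell_of_nonpos h]
    exact ell_nonneg y
  · unfold ell
    have h1 := expNegInvGlue.monotone hxy
    have h2 := expNegInvGlue.nonneg x
    have h3 : 0 ≤ 20 * y := by linarith
    exact mul_le_mul (by linarith) h1 h2 h3

theorem ell_large {x : ℝ} (hx : 2 ≤ x) : 12 ≤ ell x := by
  refine le_trans ?_ (ell_mono hx)
  have h0 : 0 ≤ expNegInvGlue 2 := expNegInvGlue.nonneg 2
  have h1 := glue_two_sq
  have h2 := Real.exp_neg_one_gt_d9
  unfold ell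
  nlinarith

theorem ell_deriv_pos {x : ℝ} (hx : 0 < x) : 0 < deriv ell x := by
  rw [(ell_hasDerivAt x).deriv]
  have := expNegInvGlue.pos_of_pos hx
  positivity

theorem ell_deriv_of_nonpos {x : ℝ} (hx : x ≤ 0) : deriv ell x = 0 := by
  rw [(ell_hasDerivAt x).deriv, expNegInvGlue.zero_of_nonpos hx]
  simp

end P4cae09
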