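import Pool.Agent.Lib.P4cae09.Ident
import Pool.Agent.Lib.P4cae09.CauchyParam

/-!
# P4cae09.HartogsExt (2 h): extension across a Hartogs figure

`F(P) = (2πi)⁻¹ ∮ (u - P 0)⁻¹ f(shear t u (unsh t P)) du` on `fig t N` (`cauchyParam`).
`W = {P ∈ fig t N : P 0 ≠ 0, ∀ κ ≥ 1, κ‖P 0‖ ≤ 1 → shear t (κ P 0) (unsh t P) ∈ D}` (note `shear t (P 0) (unsh t P) = P`).
`W` is open (compactness) and connected: in the coordinates `(ζ, n)` the projection to `N` is open, and its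
fibres are connected (radial segments and an annulus).
Near `n₀` the closed disc is in `D` (compactness), so `F = f` near the points over `n₀` by Cauchy's formula.
`ident` on `W`: `F = f` on `W`. Hypothesis `hrad`: `D ∩ fig t N' ⊆ W`. So `g = f` on `D`, `g = F` on `fig t N'` is well
defined and holomorphic on the open set `D ∪ fig t N'`. If `f = κ` on the ring over `n ∈ N'` then
`F(shear t 0 n) = (2πi)⁻¹ ∮ u⁻¹ κ = κ`.
`union_connected`: `fig t N'` is connected (image of `ball × N'` under `shear`) and meets `D` near the ring.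
-/

namespace P4cae09

open Set Filter Topology

private lemma he_shear0 (t ζ : ℂ) (n : Fin 4 → ℂ) : shear t ζ n 0 = ζ := rfl

private lemma he_unsh_shear (t ζ : ℂ) (n : Fin 4 → ℂ) : unsh t (shear t ζ n) = n := by
  funext i
  fin_cases i <;> simp [unsh, shear]

private lemma he_shear_unsh (t : ℂ) (P : Fin 5 → ℂ) : shear t (P 0) (unsh t P) = P := by
  funext i
  fin_cases i <;> simp [unsh, shear]

private lemma he_cont_shear (t : ℂ) :
    Continuous (fun q : ℂ × (Fin 4 → ℂ) => shear t q.1 q.2) := by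
  refine continuous_pi fun i => ?_
  fin_cases i <;> simp [shear] <;> fun_prop

private lemma he_cont_unsh (t : ℂ) : Continuous (unsh t) := by
  refine continuous_pi fun i => ?_
  fin_cases i <;> simp [unsh] <;> fun_prop

private lemma he_diff_shear (t : ℂ) (n : Fin 4 → ℂ) : Differentiable ℂ (fun ζ : ℂ => shear t ζ n) := by
  rw [differentiable_pi]
  intro i
  fin_cases i
  · exact differentiable_id
  · exact (differentiable_const _).add (differentiable_id.const_mul t)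
  · exact differentiable_const _
  · exact differentiable_const _
  · exact differentiable_const _

/-- The set `W` in the coordinates `(ζ, n)`. -/
private def Wt (D : Set (Fin 5 → ℂ)) (t : ℂ) (N : Set (Fin 4 → ℂ)) : Set (ℂ × (Fin 4 → ℂ)) :=
  {q | q.2 ∈ N ∧ q.1 ≠ 0 ∧ ‖q.1‖ < 1 ∧
    ∀ κ : ℝ, 1 ≤ κ → κ * ‖q.1‖ ≤ 1 → shear t (κ * q.1) q.2 ∈ D}

private lemma Wt_isOpen {D : Set (Fin 5 → ℂ)} (hD : IsOpen D) (t : ℂ) {N : Set (Fin 4 → ℂ)}
    (hN : IsOpen N) : IsOpen (Wt D t N) := by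
  rw [isOpen_iff_mem_nhds]
  rintro ⟨ζ₀, n₀⟩ ⟨h1, h2, h3, h4⟩
  simp only at h1 h2 h3 h4
  have hz0 : 0 < ‖ζ₀‖ := norm_pos_iff.2 h2
  have e1 : ∀ᶠ q : ℂ × (Fin 4 → ℂ) in 𝓝 (ζ₀, n₀), q.2 ∈ N :=
    continuous_snd.continuousAt (hN.mem_nhds h1)
  have e2 : ∀ᶠ q : ℂ × (Fin 4 → ℂ) in 𝓝 (ζ₀, n₀), q.1 ≠ 0 :=
    (isOpen_compl_singleton.preimage continuous_fst).mem_nhds h2
  have e3 : ∀ᶠ q : ℂ × (Fin 4 → ℂ) in 𝓝 (ζ₀, n₀), ‖q.1‖ < 1 :=
    (continuous_fst.norm).continuousAt (isOpen_Iio.mem_nhds h3)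
  have e4 : ∀ᶠ q : ℂ × (Fin 4 → ℂ) in 𝓝 (ζ₀, n₀), ∀ s ∈ Icc (0 : ℝ) 1,
      shear t ((((1 - s) + s * ‖q.1‖⁻¹ : ℝ) : ℂ) * q.1) q.2 ∈ D := by
    refine isCompact_Icc.eventually_forall_of_forall_eventually ?_
    intro s hs
    have hc : ContinuousAt (fun z : (ℂ × (Fin 4 → ℂ)) × ℝ =>
        shear t ((((1 - z.2) + z.2 * ‖z.1.1‖⁻¹ : ℝ) : ℂ) * z.1.1) z.1.2) ((ζ₀, n₀), s) := by
      have hcn : ContinuousAt (fun z : (ℂ × (Fin 4 → ℂ)) × ℝ => ‖z.1.1‖⁻¹) ((ζ₀, n₀), s) := by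
        refine ContinuousAt.inv₀ (by fun_prop) ?_
        simpa using hz0.ne'
      have hcs : ContinuousAt (fun z : (ℂ × (Fin 4 → ℂ)) × ℝ =>
          (1 - z.2) + z.2 * ‖z.1.1‖⁻¹) ((ζ₀, n₀), s) :=
        ContinuousAt.add (by fun_prop) (ContinuousAt.mul (by fun_prop) hcn)
      have hcc : ContinuousAt (fun z : (ℂ × (Fin 4 → ℂ)) × ℝ =>
          ((((1 - z.2) + z.2 * ‖z.1.1‖⁻¹ : ℝ) : ℂ) * z.1.1, z.1.2)) ((ζ₀, n₀), s) := by
        refine ContinuousAt.prodMk (ContinuousAt.mul ?_ (by fun_prop)) (by fun_prop)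
        exact Complex.continuous_ofReal.continuousAt.comp hcs
      exact (he_cont_shear t).continuousAt.comp hcc
    refine hc (hD.mem_nhds ?_)
    refine h4 _ ?_ ?_
    · have : 1 ≤ ‖ζ₀‖⁻¹ := (one_le_inv₀ hz0).2 h3.le
      nlinarith [hs.1, hs.2]
    · have : ((1 - s) + s * ‖ζ₀‖⁻¹) * ‖ζ₀‖ = (1 - s) * ‖ζ₀‖ + s := by
        field_simp
      simp only
      rw [this]
      nlinarith [hs.1, hs.2]
  filter_upwards [e1, e2, e3, e4] with q q1 q2 q3 q4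
  refine ⟨q1, q2, q3, fun κ hκ1 hκ2 => ?_⟩
  have hq0 : 0 < ‖q.1‖ := norm_pos_iff.2 q2
  have hinv : 0 < ‖q.1‖⁻¹ - 1 := by
    have := (one_lt_inv₀ hq0).2 q3
    linarith
  have hκ3 : κ ≤ ‖q.1‖⁻¹ := by
    rw [← one_div, le_div_iff₀ hq0]
    exact hκ2
  have hs := q4 ((κ - 1) / (‖q.1‖⁻¹ - 1)) ⟨div_nonneg (by linarith) hinv.le, by
    rw [div_le_one hinv]
    linarith⟩
  have he : (1 - (κ - 1) / (‖q.1‖⁻¹ - 1)) + (κ - 1) / (‖q.1‖⁻¹ - 1) * ‖q.1‖⁻¹ = κ := by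
    have : (κ - 1) / (‖q.1‖⁻¹ - 1) * (‖q.1‖⁻¹ - 1) = κ - 1 := div_mul_cancel₀ _ hinv.ne'
    linarith
  rw [he] at hs
  exact hs


/-- The fibre over `n` and the annulus in it. -/
private lemma fibre_conn {D : Set (Fin 5 → ℂ)} (hD : IsOpen D) (t : ℂ) {N : Set (Fin 4 → ℂ)}
    (hring : ∀ n ∈ N, ∀ ζ : ℂ, ‖ζ‖ = 1 → shear t ζ n ∈ D) {n : Fin 4 → ℂ} (hn : n ∈ N) :
    {ζ : ℂ | (ζ, n) ∈ Wt D t N}.Nonempty ∧ IsPreconnected {ζ : ℂ | (ζ, n) ∈ Wt D t N} := by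
  have hcn : Continuous (fun ζ : ℂ => shear t ζ n) :=
    (he_cont_shear t).comp (continuous_id.prodMk continuous_const)
  obtain ⟨δ, hδ, hsub⟩ := (isCompact_sphere (0 : ℂ) 1).exists_thickening_subset_open
    (hD.preimage hcn) (fun ζ hζ => hring n hn ζ (by simpa using hζ))
  set a : ℝ := 1 - min δ (1 / 2) with ha
  have hmin : 0 < min δ (1 / 2) := lt_min hδ (by norm_num)
  have ha1 : a < 1 := by linarith
  have ha0 : 1 / 2 ≤ a := by
    have := min_le_right δ (1 / 2)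
    linarith
  have hD' : ∀ ζ : ℂ, a < ‖ζ‖ → ‖ζ‖ ≤ 1 → shear t ζ n ∈ D := by
    intro ζ h1 h2
    have hz0 : 0 < ‖ζ‖ := by linarith
    refine hsub ?_
    rw [Metric.mem_thickening_iff]
    refine ⟨ζ / ‖ζ‖, ?_, ?_⟩
    · rw [mem_sphere_zero_iff_norm, norm_div, Complex.norm_real, norm_norm, div_self hz0.ne']
    · rw [dist_comm, dist_eq_norm]
      have : ζ / (‖ζ‖ : ℂ) - ζ = ((1 - ‖ζ‖ : ℝ) : ℂ) * (ζ / (‖ζ‖ : ℂ)) := by
        have hne : (‖ζ‖ : ℂ) ≠ 0 := by exact_mod_cast hz0.ne'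
        push_cast
        field_simp
      rw [this, norm_mul, norm_div, Complex.norm_real, Complex.norm_real, norm_norm,
        div_self hz0.ne', mul_one, Real.norm_of_nonneg (by linarith)]
      have := min_le_left δ (1 / 2)
      linarith
  set A : Set ℂ := {ζ | a < ‖ζ‖ ∧ ‖ζ‖ < 1} with hA
  have hAsub : A ⊆ {ζ : ℂ | (ζ, n) ∈ Wt D t N} := by
    rintro ζ ⟨h1, h2⟩
    refine ⟨hn, ?_, h2, ?_⟩
    · intro h0
      simp only at h0
      rw [h0, norm_zero] at h1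
      linarith
    · intro κ hκ1 hκ2
      simp only at hκ2 ⊢
      have hnk : ‖(κ : ℂ) * ζ‖ = κ * ‖ζ‖ := by
        rw [norm_mul, Complex.norm_real, Real.norm_of_nonneg (by linarith)]
      refine hD' _ ?_ ?_
      · rw [hnk]
        nlinarith [norm_nonneg ζ]
      · rw [hnk]
        exact hκ2
  have hAconn : IsPreconnected A := by
    have h1 : IsPreconnected ((Ioo a 1) ×ˢ (univ : Set ℝ)) :=
      isPreconnected_Ioo.prod isPreconnected_univ
    have h2 := h1.image (fun q : ℝ × ℝ => (q.1 : ℂ) * Complex.exp (q.2 * Complex.I))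
      (by fun_prop)
    have h3 : (fun q : ℝ × ℝ => (q.1 : ℂ) * Complex.exp (q.2 * Complex.I)) ''
        ((Ioo a 1) ×ˢ (univ : Set ℝ)) = A := by
      ext ζ
      constructor
      · rintro ⟨⟨r, θ⟩, ⟨hr, -⟩, rfl⟩
        simp only [mem_Ioo] at hr
        have : ‖(r : ℂ) * Complex.exp (θ * Complex.I)‖ = r := by
          rw [norm_mul, Complex.norm_exp_ofReal_mul_I, mul_one, Complex.norm_real,
            Real.norm_of_nonneg (by linarith)]
        simp only [hA, mem_ofPred_eq]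
        rw [this]
        exact hr
      · intro hζ
        exact ⟨(‖ζ‖, Complex.arg ζ), ⟨hζ, mem_univ _⟩, Complex.norm_mul_exp_arg_mul_I ζ⟩
    rw [← h3]
    exact h2
  set b : ℝ := (a + 1) / 2 with hb
  have hb1 : a < b := by linarith
  have hb2 : b < 1 := by linarith
  have hbA : (b : ℂ) ∈ A := by
    simp only [hA, mem_ofPred_eq]
    rw [Complex.norm_real, Real.norm_of_nonneg (by linarith)]
    exact ⟨hb1, hb2⟩
  refine ⟨⟨_, hAsub hbA⟩, isPreconnected_of_forall (b : ℂ) ?_⟩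
  rintro y hy
  obtain ⟨-, hy0, hy1, hy2⟩ := hy
  simp only at hy0 hy1 hy2
  have hyp : 0 < ‖y‖ := norm_pos_iff.2 hy0
  set κ₁ : ℝ := max 1 (b / ‖y‖) with hκ₁
  have hκ11 : 1 ≤ κ₁ := le_max_left _ _
  have hκ12 : κ₁ * ‖y‖ < 1 := by
    rw [hκ₁]
    rcases le_total 1 (b / ‖y‖) with h | h
    · rw [max_eq_right h, div_mul_cancel₀ _ hyp.ne']
      exact hb2
    · rw [max_eq_left h, one_mul]
      exact hy1
  have hκ13 : a < κ₁ * ‖y‖ := by
    have h1 : b / ‖y‖ ≤ κ₁ := le_max_right _ _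
    rw [div_le_iff₀ hyp] at h1
    linarith
  have hnorm : ∀ r : ℝ, 0 ≤ r → ‖(r : ℂ) * y‖ = r * ‖y‖ := by
    intro r hr
    rw [norm_mul, Complex.norm_real, Real.norm_of_nonneg hr]
  refine ⟨A ∪ (fun r : ℝ => (r : ℂ) * y) '' Icc 1 κ₁, ?_, Or.inl hbA, Or.inr ⟨1, ⟨le_refl _, hκ11⟩, by simp⟩,
    ?_⟩
  · rintro ζ (hζ | ⟨r, hr, rfl⟩)
    · exact hAsub hζ
    · have hr0 : 0 < r := by linarith [hr.1]
      refine ⟨hn, ?_, ?_, ?_⟩
      · simp only
        exact mul_ne_zero (by exact_mod_cast hr0.ne') hy0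
      · simp only
        rw [hnorm r hr0.le]
        nlinarith [hr.2]
      · intro κ hκ1 hκ2
        simp only at hκ2 ⊢
        rw [hnorm r hr0.le] at hκ2
        have h5 := hy2 (κ * r) (by nlinarith [hr.1]) (by nlinarith)
        push_cast at h5
        rw [← mul_assoc]
        exact h5
  · refine IsPreconnected.union ((κ₁ : ℂ) * y) ?_ ⟨κ₁, ⟨hκ11, le_refl _⟩, rfl⟩ hAconn
      (isPreconnected_Icc.image _ (by fun_prop))
    simp only [hA, mem_ofPred_eq]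
    rw [hnorm κ₁ (by linarith)]
    exact ⟨hκ13, hκ12⟩

private lemma Wt_preconn {D : Set (Fin 5 → ℂ)} (hD : IsOpen D) (t : ℂ) {N : Set (Fin 4 → ℂ)}
    (hN : IsOpen N) (hNc : IsPreconnected N)
    (hring : ∀ n ∈ N, ∀ ζ : ℂ, ‖ζ‖ = 1 → shear t ζ n ∈ D) : IsPreconnected (Wt D t N) := by
  intro u v hu hv huv hnu hnv
  have hW := Wt_isOpen hD t hN
  have h1 : IsOpen (Prod.snd '' (Wt D t N ∩ u)) := isOpenMap_snd _ (hW.inter hu)
  have h2 : IsOpen (Prod.snd '' (Wt D t N ∩ v)) := isOpenMap_snd _ (hW.inter hv)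
  obtain ⟨n, hnN, ⟨⟨ζ₁, n₁⟩, hq1, rfl⟩, ⟨⟨ζ₂, n₂⟩, hq2, h12⟩⟩ := hNc _ _ h1 h2 (by
    intro n hn
    obtain ⟨⟨ζ, hζ⟩, -⟩ := fibre_conn hD t hring hn
    rcases huv hζ with h | h
    · exact Or.inl ⟨(ζ, n), ⟨hζ, h⟩, rfl⟩
    · exact Or.inr ⟨(ζ, n), ⟨hζ, h⟩, rfl⟩) (by
    obtain ⟨q, hq⟩ := hnu
    exact ⟨q.2, hq.1.1, q, hq, rfl⟩) (by
    obtain ⟨q, hq⟩ := hnv
    exact ⟨q.2, hq.1.1, q, hq, rfl⟩)
  simp only at h12 hnN
  subst h12
  have hc : Continuous (fun ζ : ℂ => (ζ, n₂)) := continuous_id.prodMk continuous_const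
  obtain ⟨-, hf⟩ := fibre_conn hD t hring hnN
  obtain ⟨ζ, hζ, hζu, hζv⟩ := hf _ _ (hu.preimage hc) (hv.preimage hc)
    (fun ζ hζ => huv hζ) ⟨ζ₁, hq1.1, hq1.2⟩ ⟨ζ₂, hq2.1, hq2.2⟩
  exact ⟨(ζ, n₂), hζ, hζu, hζv⟩

theorem fig_isOpen {t : ℂ} {N' : Set (Fin 4 → ℂ)} (hN' : IsOpen N') : IsOpen (fig t N') := by
  have h1 : IsOpen {P : Fin 5 → ℂ | ‖P 0‖ < 1} :=
    isOpen_Iio.preimage (by fun_prop : Continuous fun P : Fin 5 → ℂ => ‖P 0‖)
  exact h1.inter (hN'.preimage (he_cont_unsh t))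

theorem hartogsExt {D : Set (Fin 5 → ℂ)} (hD : IsOpen D) {t : ℂ} {N N' : Set (Fin 4 → ℂ)}
    (hN : IsOpen N) (hNc : IsConnected N) (hN' : IsOpen N') (hsub : N' ⊆ N)
    (hring : ∀ n ∈ N, ∀ ζ : ℂ, ‖ζ‖ = 1 → shear t ζ n ∈ D)
    (hdisc : ∃ n₀ ∈ N, ∀ ζ : ℂ, ‖ζ‖ ≤ 1 → shear t ζ n₀ ∈ D)
    (hrad : ∀ n ∈ N', ∀ ζ : ℂ, ‖ζ‖ < 1 → shear t ζ n ∈ D →
        ζ ≠ 0 ∧ ∀ κ : ℝ, 1 ≤ κ → κ * ‖ζ‖ ≤ 1 → shear t (κ * ζ) n ∈ D)
    {f : (Fin 5 → ℂ) → ℂ} (hf : DifferentiableOn ℂ f D) :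
    ∃ g : (Fin 5 → ℂ) → ℂ, DifferentiableOn ℂ g (D ∪ fig t N') ∧ Set.EqOn g f D ∧
      ∀ n ∈ N', ∀ κ : ℂ, (∀ ζ : ℂ, ‖ζ‖ = 1 → f (shear t ζ n) = κ) → g (shear t 0 n) = κ := by
  have hpi : (2 * (Real.pi : ℂ) * Complex.I) ≠ 0 := Complex.two_pi_I_ne_zero
  set F : (Fin 5 → ℂ) → ℂ := fun P : Fin 5 → ℂ => (2 * Real.pi * Complex.I)⁻¹ *
      ∮ u in C(0, 1), (u - P 0)⁻¹ * f (shear t u (unsh t P)) with hF
  have hFd : DifferentiableOn ℂ F (fig t N) := cauchyParam hD hf t hN hring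
  have hchart : Continuous (fun P : Fin 5 → ℂ => (P 0, unsh t P)) :=
    (continuous_apply 0).prodMk (he_cont_unsh t)
  set W : Set (Fin 5 → ℂ) := (fun P : Fin 5 → ℂ => (P 0, unsh t P)) ⁻¹' (Wt D t N) with hW
  have hWo : IsOpen W := (Wt_isOpen hD t hN).preimage hchart
  have hWim : W = (fun q : ℂ × (Fin 4 → ℂ) => shear t q.1 q.2) '' (Wt D t N) := by
    ext P
    constructor
    · intro hP
      exact ⟨_, hP, he_shear_unsh t P⟩
    · rintro ⟨q, hq, rfl⟩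
      simp only [hW, mem_preimage]
      rw [he_shear0, he_unsh_shear]
      exact hq
  have hWc : IsPreconnected W := by
    rw [hWim]
    exact (Wt_preconn hD t hN hNc.isPreconnected hring).image _ (he_cont_shear t).continuousOn
  have hWD : W ⊆ D := by
    intro P hP
    have h := hP.2.2.2 1 (le_refl _) (by simpa using hP.2.2.1.le)
    simp only [Complex.ofReal_one, one_mul] at h
    rw [he_shear_unsh] at h
    exact h
  have hWfig : W ⊆ fig t N := fun P hP => ⟨hP.2.2.1, hP.1⟩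
  obtain ⟨n₀, hn₀, hn₀D⟩ := hdisc
  have hev : ∀ᶠ n in 𝓝 n₀, ∀ ζ ∈ Metric.closedBall (0 : ℂ) 1, shear t ζ n ∈ D := by
    refine (isCompact_closedBall (0 : ℂ) 1).eventually_forall_of_forall_eventually ?_
    intro ζ hζ
    have hc : Continuous (fun z : (Fin 4 → ℂ) × ℂ => shear t z.2 z.1) :=
      (he_cont_shear t).comp (continuous_snd.prodMk continuous_fst)
    exact hc.continuousAt (hD.mem_nhds (hn₀D ζ (by simpa using hζ)))
  set P₀ : Fin 5 → ℂ := shear t (1 / 2) n₀ with hP₀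
  have hP₀0 : P₀ 0 = 1 / 2 := rfl
  have hP₀u : unsh t P₀ = n₀ := he_unsh_shear t _ _
  have hP₀W : P₀ ∈ W := by
    simp only [hW, mem_preimage]
    rw [hP₀0, hP₀u]
    refine ⟨hn₀, by simp, by simp; norm_num, fun κ hκ1 hκ2 => hn₀D _ ?_⟩
    simp only
    simp only at hκ2
    rw [norm_mul, Complex.norm_real, Real.norm_of_nonneg (by linarith)]
    exact hκ2
  have hcauchy : ∀ P : Fin 5 → ℂ, ‖P 0‖ < 1 →
      (∀ ζ ∈ Metric.closedBall (0 : ℂ) 1, shear t ζ (unsh t P) ∈ D) → F P = f P := by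
    intro P hP0 hPd
    have hdc : DifferentiableOn ℂ (fun u : ℂ => f (shear t u (unsh t P)))
        (Metric.closedBall (0 : ℂ) 1) := by
      refine hf.comp (he_diff_shear t (unsh t P)).differentiableOn ?_
      exact hPd
    have h1 := hdc.circleIntegral_sub_inv_smul (w := P 0) (by simpa using hP0)
    simp only [smul_eq_mul] at h1
    simp only [hF]
    rw [h1, ← mul_assoc, inv_mul_cancel₀ hpi, one_mul, he_shear_unsh]
  have hFf : F =ᶠ[𝓝 P₀] f := by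
    have e1 : ∀ᶠ P in 𝓝 P₀, ‖P 0‖ < 1 := by
      have hc : Continuous (fun P : Fin 5 → ℂ => ‖P 0‖) := by fun_prop
      refine hc.continuousAt (isOpen_Iio.mem_nhds ?_)
      rw [hP₀0]
      simp
      norm_num
    have e2 : ∀ᶠ P in 𝓝 P₀, ∀ ζ ∈ Metric.closedBall (0 : ℂ) 1, shear t ζ (unsh t P) ∈ D := by
      have hc := (he_cont_unsh t).continuousAt (x := P₀)
      unfold ContinuousAt at hc
      rw [hP₀u] at hc
      exact hc.eventually hev
    filter_upwards [e1, e2] with P h1 h2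
    exact hcauchy P h1 h2
  have hEq : EqOn F f W :=
    ident hWo hWc (hFd.mono hWfig) (hf.mono hWD) hP₀W hFf
  have hDW : D ∩ fig t N' ⊆ W := by
    rintro P ⟨hPD, hP1, hP2⟩
    have h := hrad (unsh t P) hP2 (P 0) hP1 (by rw [he_shear_unsh]; exact hPD)
    exact ⟨hsub hP2, h.1, hP1, h.2⟩
  have hfigsub : fig t N' ⊆ fig t N := fun P hP => ⟨hP.1, hsub hP.2⟩
  classical
  refine ⟨fun P => if P ∈ D then f P else F P, ?_, ?_, ?_⟩
  · intro P hP
    rcases hP with hP | hP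
    · have h1 : DifferentiableAt ℂ f P := (hf P hP).differentiableAt (hD.mem_nhds hP)
      refine (h1.congr_of_eventuallyEq ?_).differentiableWithinAt
      filter_upwards [hD.mem_nhds hP] with Q hQ
      exact if_pos hQ
    · have h1 : DifferentiableAt ℂ F P :=
        (hFd P (hfigsub hP)).differentiableAt ((fig_isOpen hN).mem_nhds (hfigsub hP))
      refine (h1.congr_of_eventuallyEq ?_).differentiableWithinAt
      filter_upwards [(fig_isOpen hN').mem_nhds hP] with Q hQ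
      by_cases hQD : Q ∈ D
      · rw [if_pos hQD]
        exact (hEq (hDW ⟨hQD, hQ⟩)).symm
      · exact if_neg hQD
  · intro P hP
    exact if_pos hP
  · intro n hn κ hκ
    have hnotD : shear t 0 n ∉ D := by
      intro h
      exact (hrad n hn 0 (by simp) h).1 rfl
    simp only
    rw [if_neg hnotD]
    simp only [hF]
    rw [he_unsh_shear, he_shear0]
    have h1 : (∮ u in C(0, 1), (u - 0)⁻¹ * f (shear t u n)) =
        ∮ u in C(0, 1), (u - 0)⁻¹ * κ := by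
      refine circleIntegral.integral_congr (by norm_num) ?_
      intro u hu
      simp only
      rw [hκ u (by simpa using hu)]
    have h2 : (∮ u in C((0 : ℂ), 1), (u - 0)⁻¹ * κ) = 2 * Real.pi * Complex.I * κ := by
      have h3 := circleIntegral.integral_sub_center_inv (0 : ℂ) (one_ne_zero' ℝ)
      have h4 : (∮ u in C((0 : ℂ), 1), (u - 0)⁻¹ * κ) = ∮ u in C((0 : ℂ), 1), κ • (u - 0)⁻¹ := by
        congr 1
        funext u
        rw [smul_eq_mul, mul_comm]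
      rw [h4, circleIntegral.integral_smul, h3, smul_eq_mul]
      ring
    rw [h1, h2, ← mul_assoc, inv_mul_cancel₀ hpi, one_mul]

theorem union_connected {D : Set (Fin 5 → ℂ)} (hD : IsOpen D) (hDc : IsConnected D) {t : ℂ}
    {N' : Set (Fin 4 → ℂ)} (hN' : IsConnected N')
    (hring : ∀ n ∈ N', ∀ ζ : ℂ, ‖ζ‖ = 1 → shear t ζ n ∈ D) :
    IsConnected (D ∪ fig t N') := by
  have hfig : fig t N' = (fun q : ℂ × (Fin 4 → ℂ) => shear t q.1 q.2) ''
      (Metric.ball (0 : ℂ) 1 ×ˢ N') := by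
    ext P
    constructor
    · intro hP
      exact ⟨(P 0, unsh t P), ⟨by simpa using hP.1, hP.2⟩, he_shear_unsh t P⟩
    · rintro ⟨q, hq, rfl⟩
      refine ⟨?_, ?_⟩
      · change ‖shear t q.1 q.2 0‖ < 1
        rw [he_shear0]
        simpa using hq.1
      · change unsh t (shear t q.1 q.2) ∈ N'
        rw [he_unsh_shear]
        exact hq.2
  have hball : IsConnected (Metric.ball (0 : ℂ) 1) :=
    ⟨⟨0, by simp⟩, (convex_ball _ _).isPreconnected⟩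
  have hfc : IsConnected (fig t N') := by
    rw [hfig]
    exact (hball.prod hN').image _ (he_cont_shear t).continuousOn
  refine IsConnected.union ?_ hDc hfc
  obtain ⟨n, hn⟩ := hN'.nonempty
  have hcn : Continuous (fun s : ℝ => shear t ((s : ℝ) : ℂ) n) :=
    (he_cont_shear t).comp (Complex.continuous_ofReal.prodMk continuous_const)
  have h1 : ∀ᶠ s : ℝ in 𝓝 1, shear t (s : ℂ) n ∈ D :=
    hcn.continuousAt (hD.mem_nhds (hring n hn _ (by simp)))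
  have h2 : ∀ᶠ s : ℝ in 𝓝[<] 1, shear t (s : ℂ) n ∈ D := h1.filter_mono nhdsWithin_le_nhds
  have h3 : ∀ᶠ s : ℝ in 𝓝[<] 1, s < 1 := eventually_mem_nhdsWithin
  have h4 : ∀ᶠ s : ℝ in 𝓝[<] 1, 0 < s :=
    (lt_mem_nhds (show (0 : ℝ) < 1 by norm_num)).filter_mono nhdsWithin_le_nhds
  obtain ⟨s, hs1, hs2, hs3⟩ := (h2.and (h3.and h4)).exists
  refine ⟨_, hs1, ?_, ?_⟩
  · rw [he_shear0, Complex.norm_real, Real.norm_of_nonneg hs3.le]
    exact hs2
  · rw [he_unsh_shear]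
    exact hn

end P4cae09
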