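import Pool.Agent.Lib.P4cae09.Defs

/-!
# P4cae09.Ident: the identity theorem in several complex variables

`E` a complex normed space. `S = {z ∈ Ω : f = g near z}` is open; closed in `Ω`: if `a ∈ Ω` is a limit of `S`, take a
ball `B ⊆ Ω` around `a` and `b ∈ S ∩ B`; for `z ∈ B` the function `s ↦ (f-g)(b + s(z-b))` is holomorphic on the convex
open set `{s : b + s(z-b) ∈ B}` of `ℂ` containing `0`, `1`, and vanishes near `0`, so it vanishes at `1`.
-/

namespace P4cae09

/-- the local step: on a ball the identity theorem holds -/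
theorem ident_ball {E : Type*} [NormedAddCommGroup E] [NormedSpace ℂ E] {a b : E} {r : ℝ}
    {f g : E → ℂ} (hf : DifferentiableOn ℂ f (Metric.ball a r))
    (hg : DifferentiableOn ℂ g (Metric.ball a r)) (hb : b ∈ Metric.ball a r)
    (h : f =ᶠ[nhds b] g) : Set.EqOn f g (Metric.ball a r) := by
  intro z hz
  set L : ℂ → E := fun s => b + s • (z - b) with hL
  have hLd : Differentiable ℂ L := by
    intro s
    exact (differentiableAt_id.smul_const (z - b)).const_add b
  have hLc : Continuous L := hLd.continuous
  set V : Set ℂ := L ⁻¹' (Metric.ball a r) with hV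
  have hVo : IsOpen V := Metric.isOpen_ball.preimage hLc
  have hVc : Convex ℝ V := by
    intro x hx y hy p q hp hq hpq
    have hx' : L x ∈ Metric.ball a r := hx
    have hy' : L y ∈ Metric.ball a r := hy
    have h1 : L (p • x + q • y) = p • L x + q • L y := by
      simp only [hL]
      have e1 : (p • x + q • y : ℂ) • (z - b) = p • (x • (z - b)) + q • (y • (z - b)) := by
        rw [add_smul, smul_assoc, smul_assoc]
      rw [e1, smul_add, smul_add]
      have e2 : b = p • b + q • b := by rw [← add_smul, hpq, one_smul]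
      nth_rewrite 1 [e2]
      abel
    change L (p • x + q • y) ∈ Metric.ball a r
    rw [h1]
    exact convex_ball a r hx' hy' hp hq hpq
  have h0 : (0 : ℂ) ∈ V := by
    change L 0 ∈ Metric.ball a r
    simpa [hL] using hb
  have h1 : (1 : ℂ) ∈ V := by
    change L 1 ∈ Metric.ball a r
    simpa [hL] using hz
  have hfL : DifferentiableOn ℂ (fun s => f (L s)) V :=
    hf.comp hLd.differentiableOn (fun s hs => hs)
  have hgL : DifferentiableOn ℂ (fun s => g (L s)) V :=
    hg.comp hLd.differentiableOn (fun s hs => hs)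
  have hev : (fun s => f (L s)) =ᶠ[nhds 0] (fun s => g (L s)) := by
    have ht : Filter.Tendsto L (nhds 0) (nhds b) := by
      have := hLc.tendsto 0
      simpa [hL] using this
    exact ht.eventually h
  have := (hfL.analyticOnNhd hVo).eqOn_of_preconnected_of_eventuallyEq
    (hgL.analyticOnNhd hVo) hVc.isPreconnected h0 hev h1
  simpa [hL] using this

theorem ident {E : Type*} [NormedAddCommGroup E] [NormedSpace ℂ E] {Ω : Set E} (ho : IsOpen Ω)
    (hc : IsPreconnected Ω) {f g : E → ℂ} (hf : DifferentiableOn ℂ f Ω)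
    (hg : DifferentiableOn ℂ g Ω) {a : E} (ha : a ∈ Ω) (h : f =ᶠ[nhds a] g) :
    Set.EqOn f g Ω := by
  set S : Set E := {z | f =ᶠ[nhds z] g} with hS
  have hSo : IsOpen S := by
    rw [isOpen_iff_mem_nhds]
    intro x hx
    exact eventually_eventually_nhds.mpr hx
  have hsub : Ω ⊆ S := by
    refine hc.subset_of_closure_inter_subset hSo ⟨a, ha, h⟩ ?_
    rintro x ⟨hxc, hxΩ⟩
    obtain ⟨r, hr, hball⟩ := Metric.isOpen_iff.mp ho x hxΩ
    obtain ⟨b, hbS, hbd⟩ := Metric.mem_closure_iff.mp hxc r hr
    have hb : b ∈ Metric.ball x r := by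
      rw [Metric.mem_ball, dist_comm]; exact hbd
    have := ident_ball (hf.mono hball) (hg.mono hball) hb hbS
    exact Filter.eventuallyEq_of_mem (Metric.ball_mem_nhds x hr) this
  intro z hz
  exact (hsub hz).self_of_nhds

end P4cae09
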