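import Pool.Agent.Lib.P4cae09.Defs

/-!
# P4cae09.Phase (2 h): the phase lemma and the absolute constants

Write `ψ = ‖Psi ζ‖`, `λ = 1/100`, `ζ = U + R² - Y² + i om`, `|om| ≤ 2RY`, `Re ζ > 0`.
`ψ = exp(-λ Re ζ^{-1/2})` and `arg ζ^{-1/2} = -arg ζ/2 ∈ (-π/4, π/4)`, so
(1) `ψ ≤ exp(-0.7 λ ‖ζ‖^{-1/2})`.
Step 1: `‖U‖ < R²/8` and `Y < R/20`. Otherwise `R² ≤ 8‖U‖ + 400 Y²`, hence
`‖ζ‖ ≤ ‖U‖ + R² + Y² + 2RY ≤ ‖U‖ + 2(R² + Y²) ≤ 17‖U‖ + 1000 Y²`, which is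
`≤ 17·9 ψ + 10^4 ψ/K ≤ 154 ψ` and also `≤ 17 u + 10^4/K` (as `ψ ≤ 1`). By (1)
`ψ ≤ exp(-0.7 λ/√(154 ψ))` and `ψ ≤ exp(-0.7 λ/√(17u + 10^4/K))`: the second one makes `ψ` so small
that the first one fails (`e^{-c/√ψ} < ψ` for `ψ` small; e.g. `e^{-s} ≤ 24/s⁴`, with
`s = c/√ψ`: `24 ψ²/c⁴ < ψ` as soon as `ψ < c⁴/24`).
Step 2: so `‖ζ - R²‖ ≤ R²/8 + R²/400 + R²/10 ≤ R²/4`, `ψ ≤ exp(-0.8 λ/R)`, and
`|Im ζ| ≤ ‖U‖ + 2RY ≤ min(u, 9ψ) + 2R√(10ψ/K)`. The argument of `Psi ζ` is `-λ Im ζ^{-1/2}` and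
`|Im ζ^{-1/2}| ≤ 0.8 |Im ζ|/R³` (`Im ζ^{-1/2} = -‖ζ‖^{-1/2} sin(arg ζ/2)`,
`|sin(arg ζ/2)| ≤ |tan arg ζ|/2 · ... ≤ |Im ζ|/(2 Re ζ)·1.1`, `Re ζ ≥ 3R²/4`), so it suffices that
`|Im ζ| ≤ 50 R³` (then `|arg Psi ζ| ≤ 0.4`, `cos 0.4 ≥ 0.9`): for `R ≥ r₁` by the choice of `u`, `K`
(`u ≤ 25 r₁³`, `2√(10/K) ≤ 25 r₁²`), for `R < r₁` because `9 e^{-0.8λ/R} ≤ 25 R³` and
`2 R √(10/K) e^{-0.4 λ/R} ≤ 25 R³` for small `R` (again `e^{-s} ≤ 24/s⁴`).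
Choose `r₁`, then `u`, then `K ≥ 10^14`, then `M = 10^4/u²`. The constants may be as small/large as you
like (e.g. `r₁ = 10^{-11}`, `u = 10^{-40}`, `K = 10^{60}`).
-/

namespace P4cae09

namespace PhaseAux

theorem psi_facts {ζ : ℂ} (hre : 0 < ζ.re) : ∃ a b : ℝ, 0 < a ∧ 1 ≤ 2 * a ^ 2 * ‖ζ‖ ∧
    4 * a ^ 2 * b ^ 2 * ‖ζ‖ ^ 4 = ζ.im ^ 2 ∧ ‖Psi ζ‖ = Real.exp (-(a / 100)) ∧
    (Psi ζ).re = Real.exp (-(a / 100)) * Real.cos (b / 100) := by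
  have hζ : ζ ≠ 0 := by
    rintro rfl
    simp at hre
  obtain ⟨w, hw⟩ : ∃ w, w = ζ ^ (-(1 / 2) : ℂ) := ⟨_, rfl⟩
  have hw2 : w * w = ζ⁻¹ := by
    rw [hw, ← Complex.cpow_add _ _ hζ, ← Complex.cpow_neg_one]
    norm_num
  have ha : 0 < w.re := by
    rw [hw, Complex.cpow_def_of_ne_zero hζ, Complex.exp_re]
    refine mul_pos (Real.exp_pos _) ?_
    have h1 : (Complex.log ζ * (-(1 / 2) : ℂ)).im = -(Complex.arg ζ / 2) := by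
      have h2 : Complex.log ζ * (-(1 / 2) : ℂ) = (((-(1 / 2) : ℝ)) : ℂ) * Complex.log ζ := by
        push_cast
        ring
      rw [h2, Complex.im_ofReal_mul, Complex.log_im]
      ring
    rw [h1, Real.cos_neg]
    have h3 : |Complex.arg ζ| < Real.pi / 2 :=
      Complex.abs_arg_lt_pi_div_two_iff.2 (Or.inl hre)
    have h4 := abs_lt.1 h3
    have hpi := Real.pi_pos
    exact Real.cos_pos_of_mem_Ioo ⟨by linarith, by linarith⟩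
  have hN : 0 < ‖ζ‖ := norm_pos_iff.2 hζ
  have hNsq : Complex.normSq ζ = ‖ζ‖ ^ 2 := Complex.normSq_eq_norm_sq ζ
  have hNsq' : ζ.re * ζ.re + ζ.im * ζ.im = ‖ζ‖ ^ 2 := by
    rw [← hNsq, Complex.normSq_apply]
  have h1 : w.re * w.re - w.im * w.im = ζ.re / ‖ζ‖ ^ 2 := by
    have := congrArg Complex.re hw2
    rwa [Complex.mul_re, Complex.inv_re, hNsq] at this
  have h2 : w.re * w.im + w.im * w.re = -ζ.im / ‖ζ‖ ^ 2 := by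
    have := congrArg Complex.im hw2
    rwa [Complex.mul_im, Complex.inv_im, hNsq] at this
  obtain ⟨a, hadef⟩ : ∃ a, a = w.re := ⟨_, rfl⟩
  obtain ⟨b, hbdef⟩ : ∃ b, b = w.im := ⟨_, rfl⟩
  rw [← hadef, ← hbdef] at h1 h2
  rw [← hadef] at ha
  generalize hN' : ‖ζ‖ = N at *
  have h1' : (a * a - b * b) * N ^ 2 = ζ.re := by
    rw [h1]
    field_simp
  have h2' : (2 * a * b) * N ^ 2 = -ζ.im := by
    have : (a * b + b * a) * N ^ 2 = -ζ.im := by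
      rw [h2]
      field_simp
    linarith
  have h3 : ((a * a + b * b) * N) ^ 2 = 1 := by
    have h4 : ((a * a + b * b) * N ^ 2) ^ 2 = N ^ 2 := by
      have e : ((a * a + b * b) * N ^ 2) ^ 2 =
          ((a * a - b * b) * N ^ 2) ^ 2 + ((2 * a * b) * N ^ 2) ^ 2 := by ring
      rw [e, h1', h2', ← hNsq']
      ring
    have h5 : N ^ 2 * (((a * a + b * b) * N) ^ 2 - 1) = 0 := by
      have : N ^ 2 * (((a * a + b * b) * N) ^ 2 - 1) = ((a * a + b * b) * N ^ 2) ^ 2 - N ^ 2 := by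
        ring
      rw [this, h4, sub_self]
    have h6 : N ^ 2 ≠ 0 := by positivity
    have h7 := (mul_eq_zero.1 h5).resolve_left h6
    linarith
  have h4 : (a * a + b * b) * N = 1 := by
    have h5 : 0 ≤ (a * a + b * b) * N :=
      mul_nonneg (add_nonneg (mul_self_nonneg a) (mul_self_nonneg b)) hN.le
    nlinarith
  refine ⟨a, b, ha, ?_, ?_, ?_, ?_⟩
  · have h5 : 0 < (a * a - b * b) * N ^ 2 := by rw [h1']; exact hre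
    have h6 : 0 < a * a - b * b := (pos_iff_pos_of_mul_pos h5).2 (by positivity)
    nlinarith
  · have : 4 * a ^ 2 * b ^ 2 * N ^ 4 = ((2 * a * b) * N ^ 2) ^ 2 := by ring
    rw [this, h2']
    ring
  · unfold Psi
    rw [Complex.norm_exp, ← hw]
    congr 1
    have : (-(1 / 100) : ℂ) * w = (((-(1 / 100) : ℝ)) : ℂ) * w := by push_cast; ring
    rw [this, Complex.re_ofReal_mul, ← hadef]
    ring
  · unfold Psi
    rw [Complex.exp_re, ← hw]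
    have : (-(1 / 100) : ℂ) * w = (((-(1 / 100) : ℝ)) : ℂ) * w := by push_cast; ring
    rw [this, Complex.re_ofReal_mul, Complex.im_ofReal_mul, ← hadef, ← hbdef]
    have e1 : -(1 / 100) * a = -(a / 100) := by ring
    have e2 : -(1 / 100) * b = -(b / 100) := by ring
    rw [e1, e2, Real.cos_neg]

/-- polynomial decay -/
theorem psi_decay {a N : ℝ} (ha : 0 < a) (h : 1 ≤ 2 * a ^ 2 * N) :
    Real.exp (-(a / 100)) ≤ 10 ^ 10 * N ^ 2 := by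
  have h1 := Real.pow_div_factorial_le_exp (a / 100) (by positivity) 4
  have h2 : (Nat.factorial 4 : ℝ) = 24 := by norm_num [Nat.factorial]
  rw [h2] at h1
  have h3 : Real.exp (-(a / 100)) * Real.exp (a / 100) = 1 := by
    rw [← Real.exp_add]
    simp
  have h4 : 0 < Real.exp (-(a / 100)) := Real.exp_pos _
  set e := Real.exp (-(a / 100))
  have h5 : e * ((a / 100) ^ 4 / 24) ≤ 1 := by
    calc e * ((a / 100) ^ 4 / 24) ≤ e * Real.exp (a / 100) := mul_le_mul_of_nonneg_left h1 h4.le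
      _ = 1 := h3
  have h6 : e * a ^ 4 ≤ 24 * 10 ^ 8 := by
    have : e * ((a / 100) ^ 4 / 24) = e * a ^ 4 / (24 * 10 ^ 8) := by ring
    rw [this, div_le_one (by norm_num)] at h5
    exact h5
  have h7 : 1 ≤ 4 * a ^ 4 * N ^ 2 := by
    have : 4 * a ^ 4 * N ^ 2 = (2 * a ^ 2 * N) ^ 2 := by ring
    rw [this]
    nlinarith
  calc e = e * 1 := (mul_one e).symm
    _ ≤ e * (4 * a ^ 4 * N ^ 2) := mul_le_mul_of_nonneg_left h7 h4.le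
    _ = 4 * (e * a ^ 4) * N ^ 2 := by ring
    _ ≤ 4 * (24 * 10 ^ 8) * N ^ 2 := by gcongr
    _ ≤ 10 ^ 10 * N ^ 2 := by nlinarith [sq_nonneg N]

theorem phase_main (U ζ : ℂ) (R Y om : ℝ) (hR0 : 0 < R) (hR1 : R ≤ 1 / 10) (hY : 0 ≤ Y)
    (hζ : ζ = U + (R ^ 2 - Y ^ 2 : ℝ) + (om : ℂ) * Complex.I) (hom : |om| ≤ 2 * R * Y)
    (hre : 0 < ζ.re) (hU : ‖U‖ ≤ 1 / 10 ^ 32) (hU9 : ‖U‖ ≤ 9 * ‖Psi ζ‖)
    (hK : 10 ^ 20 * Y ^ 2 ≤ 10 * ‖Psi ζ‖) : 9 / 10 * ‖Psi ζ‖ ≤ (Psi ζ).re := by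
  obtain ⟨a, b, ha, h1, h2, h3, h4⟩ := psi_facts hre
  have h5 := psi_decay ha h1
  rw [h3] at hU9 hK ⊢
  rw [h4]
  have hψ : 0 < Real.exp (-(a / 100)) := Real.exp_pos _
  have hψ1 : Real.exp (-(a / 100)) ≤ 1 := by
    rw [Real.exp_le_one_iff]
    linarith [div_pos ha (by norm_num : (0 : ℝ) < 100)]
  generalize Real.exp (-(a / 100)) = ψ at *
  have hN0 := norm_nonneg ζ
  have hU0 := norm_nonneg U
  -- distance from R^2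
  have hd : ‖ζ - ((R ^ 2 : ℝ) : ℂ)‖ ≤ ‖U‖ + Y ^ 2 + 2 * R * Y := by
    have e : ζ - ((R ^ 2 : ℝ) : ℂ) = U + (((-(Y ^ 2) : ℝ)) : ℂ) + (om : ℂ) * Complex.I := by
      rw [hζ]
      push_cast
      ring
    rw [e]
    refine (norm_add_le _ _).trans ?_
    refine add_le_add ((norm_add_le _ _).trans ?_) ?_
    · rw [Complex.norm_real, Real.norm_eq_abs, abs_neg, abs_of_nonneg (sq_nonneg Y)]
    · rw [norm_mul, Complex.norm_I, mul_one, Complex.norm_real, Real.norm_eq_abs]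
      exact hom
  have hR2 : ‖((R ^ 2 : ℝ) : ℂ)‖ = R ^ 2 := by
    rw [Complex.norm_real, Real.norm_eq_abs, abs_of_nonneg (sq_nonneg R)]
  have hup : ‖ζ‖ ≤ R ^ 2 + (‖U‖ + Y ^ 2 + 2 * R * Y) := by
    have := norm_sub_norm_le ζ ((R ^ 2 : ℝ) : ℂ)
    rw [hR2] at this
    linarith
  have hlow : R ^ 2 - (‖U‖ + Y ^ 2 + 2 * R * Y) ≤ ‖ζ‖ := by
    have := norm_sub_norm_le ((R ^ 2 : ℝ) : ℂ) ζ
    rw [hR2, norm_sub_rev] at this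
    linarith
  -- step 1
  have hstep : ‖U‖ < R ^ 2 / 8 ∧ Y < R / 20 := by
    by_contra hcon
    have h6 : R ^ 2 ≤ 8 * ‖U‖ + 400 * Y ^ 2 := by
      rw [not_and_or, not_lt, not_lt] at hcon
      rcases hcon with h | h
      · nlinarith [sq_nonneg Y]
      · nlinarith
    have h7 : ‖ζ‖ ≤ 17 * ‖U‖ + 1000 * Y ^ 2 := by
      nlinarith [sq_nonneg (R - Y), sq_nonneg Y]
    have h8 : ‖ζ‖ ≤ 154 * ψ := by nlinarith
    have h9 : ‖ζ‖ ≤ 1 / 10 ^ 15 := by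
      have h10 : Y ^ 2 ≤ 1 / 10 ^ 19 := by nlinarith
      calc ‖ζ‖ ≤ 17 * (1 / 10 ^ 32) + 1000 * (1 / 10 ^ 19) := by linarith
        _ ≤ 1 / 10 ^ 15 := by norm_num
    have h10 : ψ ≤ 10 ^ 10 * (154 * ψ) * (1 / 10 ^ 15) := by
      calc ψ ≤ 10 ^ 10 * ‖ζ‖ ^ 2 := h5
        _ = 10 ^ 10 * ‖ζ‖ * ‖ζ‖ := by ring
        _ ≤ 10 ^ 10 * (154 * ψ) * (1 / 10 ^ 15) := by gcongr
    nlinarith
  obtain ⟨s1, s2⟩ := hstep
  have hYR : Y ^ 2 ≤ R ^ 2 / 400 := by nlinarith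
  have hYR2 : 2 * R * Y ≤ R ^ 2 / 10 := by nlinarith
  have hNup : ‖ζ‖ ≤ 5 / 4 * R ^ 2 := by linarith
  have hNlow : 3 / 4 * R ^ 2 ≤ ‖ζ‖ := by linarith
  have hψR : ψ ≤ 16 * 10 ^ 9 * R ^ 4 := by
    calc ψ ≤ 10 ^ 10 * ‖ζ‖ ^ 2 := h5
      _ ≤ 10 ^ 10 * (5 / 4 * R ^ 2) ^ 2 := by gcongr
      _ = (10 ^ 10 * 25 / 16) * R ^ 4 := by ring
      _ ≤ 16 * 10 ^ 9 * R ^ 4 := by
        gcongr
        norm_num
  -- bound of Y
  have hYb : Y ≤ R ^ 2 := by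
    have h6 : Y ^ 2 ≤ (R ^ 2) ^ 2 := by
      have : 10 ^ 20 * Y ^ 2 ≤ 10 * (16 * 10 ^ 9 * R ^ 4) := hK.trans (by linarith)
      nlinarith [sq_nonneg (R ^ 2)]
    exact (pow_le_pow_iff_left₀ hY (by positivity) (by norm_num)).1 h6
  have hUb : ‖U‖ ≤ 20 * R ^ 3 := by
    by_cases hc : R ≤ 1 / 10 ^ 10
    · calc ‖U‖ ≤ 9 * ψ := hU9
        _ ≤ 9 * (16 * 10 ^ 9 * R ^ 4) := by linarith
        _ = 144 * 10 ^ 9 * R * R ^ 3 := by ring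
        _ ≤ 144 * 10 ^ 9 * (1 / 10 ^ 10) * R ^ 3 := by gcongr
        _ ≤ 20 * R ^ 3 := by
          have : 0 ≤ R ^ 3 := by positivity
          nlinarith
    · push Not at hc
      have h6 : (1 / 10 ^ 10 : ℝ) ^ 3 ≤ R ^ 3 := by gcongr
      calc ‖U‖ ≤ 1 / 10 ^ 32 := hU
        _ ≤ (1 / 10 ^ 10) ^ 3 := by norm_num
        _ ≤ R ^ 3 := h6
        _ ≤ 20 * R ^ 3 := by
          have : 0 ≤ R ^ 3 := by positivity
          linarith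
  have him : |ζ.im| ≤ 22 * R ^ 3 := by
    have e : ζ.im = U.im + om := by
      rw [hζ, Complex.add_im, Complex.add_im, Complex.ofReal_im, Complex.im_ofReal_mul,
        Complex.I_im]
      ring
    rw [e]
    calc |U.im + om| ≤ |U.im| + |om| := abs_add_le _ _
      _ ≤ ‖U‖ + 2 * R * Y := add_le_add (Complex.abs_im_le_norm U) hom
      _ ≤ 20 * R ^ 3 + 2 * R * R ^ 2 := by gcongr
      _ = 22 * R ^ 3 := by ring
  -- bound of b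
  have hb : b ^ 2 ≤ 1600 := by
    have hN : 0 < ‖ζ‖ := lt_of_lt_of_le (by positivity) hNlow
    have h6 : 2 * b ^ 2 * ‖ζ‖ ^ 3 ≤ ζ.im ^ 2 := by
      rw [← h2]
      have h7 : 4 * a ^ 2 * b ^ 2 * ‖ζ‖ ^ 4 = 2 * (2 * a ^ 2 * ‖ζ‖) * b ^ 2 * ‖ζ‖ ^ 3 := by ring
      rw [h7]
      have h8 : 0 ≤ b ^ 2 * ‖ζ‖ ^ 3 := by positivity
      nlinarith
    have h7 : ζ.im ^ 2 ≤ (22 * R ^ 3) ^ 2 := by
      rw [← sq_abs]
      gcongr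
    have h8 : (3 / 4 * R ^ 2) ^ 3 ≤ ‖ζ‖ ^ 3 := by gcongr
    have h9 : 2 * b ^ 2 * (3 / 4 * R ^ 2) ^ 3 ≤ (22 * R ^ 3) ^ 2 := by
      calc 2 * b ^ 2 * (3 / 4 * R ^ 2) ^ 3 ≤ 2 * b ^ 2 * ‖ζ‖ ^ 3 := by gcongr
        _ ≤ _ := h6.trans h7
    have h10 : 0 < R ^ 6 := by positivity
    have h11 : 2 * b ^ 2 * (3 / 4 * R ^ 2) ^ 3 = (27 / 32 * b ^ 2) * R ^ 6 := by ring
    have h12 : (22 * R ^ 3) ^ 2 = 484 * R ^ 6 := by ring
    rw [h11, h12] at h9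
    have h13 := le_of_mul_le_mul_right h9 h10
    linarith
  have hcos := Real.one_sub_sq_div_two_le_cos (x := b / 100)
  have hcos' : 9 / 10 ≤ Real.cos (b / 100) := by
    have : (b / 100) ^ 2 = b ^ 2 / 10000 := by ring
    rw [this] at hcos
    linarith
  nlinarith

end PhaseAux

theorem exists_consts : Nonempty Consts := by
  refine ⟨⟨1 / 10 ^ 32, 10 ^ 20, 10 ^ 4 / (1 / 10 ^ 32) ^ 2, by norm_num, by norm_num,
    by norm_num, le_rfl, ?_⟩⟩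
  intro U ζ R Y om h1 h2 h3 h4 h5 h6 h7 h8 h9
  exact PhaseAux.phase_main U ζ R Y om h1 h2 h3 h4 h5 h6 h7 h8 h9

end P4cae09
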