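import Pool.Agent.Lib.P4cae09.Ident

/-!
# P4cae09.Sheets (1.5 h): many univalent extension domains force many sheets

For each `j : Fin k`, `E j ⊇ D` is a domain through `P` to which all holomorphic functions on `D` extend.
`schlicht (E j)` with the inclusion of `D` is an `IsExtension` (a holomorphic `g` on `E j` is `IsHolo` on the Riemann domain
`schlicht (E j)`: chart = the open embedding `Subtype.val` as `OpenPartialHomeomorph`). By maximality of the envelope `X` there is
`φ_j : E j → X`, continuous, over `ℂⁿ`, compatible with the embeddings of `D`. Let `F` on `X` extend `χ`. Then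
`g_j(z) = F(φ_j z)` (extended by `0` outside `E j`) is holomorphic on `E j` (near `z`: chart `e` of `X` at `φ_j z`,
`φ_j = e.symm ∘ id` near `z` because `π ∘ φ_j = id` and `e = π` on `e.source`, `φ_j` continuous), equal to `χ` on `D`, so
`g_j(P) = κ_j` by `hval`. Hence the points `φ_j(P) ∈ π⁻¹(P)` are pairwise different.
-/

namespace P4cae09

/-- a holomorphic function on an open connected set is holomorphic on the Riemann domain
`schlicht` -/
private lemma isHolo_schlicht {n : ℕ} {E : Set (Fin n → ℂ)} (ho : IsOpen E) (hc : IsConnected E)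
    {g : (Fin n → ℂ) → ℂ} (hg : DifferentiableOn ℂ g E) :
    (schlicht E ho hc).IsHolo (fun y : E => g y.1) := by
  intro x
  have : Nonempty E := ⟨x⟩
  let e : OpenPartialHomeomorph E (Fin n → ℂ) :=
    ho.isOpenEmbedding_subtypeVal.toOpenPartialHomeomorph Subtype.val
  refine ⟨e, ?_, ?_, ?_⟩
  · have hsrc : e.source = Set.univ := by
      simp [e]
    rw [hsrc]
    exact Set.mem_univ _
  · intro y _
    rfl
  · have htar : e.target = E := by
      simp [e]
    rw [htar]
    refine hg.congr ?_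
    intro z hz
    have h1 : e (e.symm z) = z := e.right_inv (by rw [htar]; exact hz)
    have h2 : ((e.symm z : E) : Fin n → ℂ) = z := h1
    show g ((e.symm z : E) : Fin n → ℂ) = g z
    rw [h2]

theorem many_sheets {n : ℕ} {D : Set (Fin n → ℂ)} (ho : IsOpen D) (hc : IsConnected D)
    {X : RiemannDomain n} {ι : D → X.carrier} (hX : IsEnvelope D X ι)
    {χ : (Fin n → ℂ) → ℂ} (hχ : DifferentiableOn ℂ χ D) {P : Fin n → ℂ} {k : ℕ}
    (E : Fin k → Set (Fin n → ℂ)) (hEo : ∀ j, IsOpen (E j)) (hEc : ∀ j, IsConnected (E j))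
    (hDE : ∀ j, D ⊆ E j) (hP : ∀ j, P ∈ E j)
    (hext : ∀ j, ∀ f : (Fin n → ℂ) → ℂ, DifferentiableOn ℂ f D →
      ∃ g : (Fin n → ℂ) → ℂ, DifferentiableOn ℂ g (E j) ∧ Set.EqOn g f D)
    (κ : Fin k → ℂ) (hκ : Function.Injective κ)
    (hval : ∀ j, ∀ g : (Fin n → ℂ) → ℂ, DifferentiableOn ℂ g (E j) → Set.EqOn g χ D →
      g P = κ j) :
    (k : ℕ∞) ≤ (X.proj ⁻¹' {P}).encard := by
  classical
  have hφ : ∀ j, ∃ φ : E j → X.carrier, Continuous φ ∧ (∀ y : E j, X.proj (φ y) = y.1) ∧
      ∀ x : D, φ ⟨x.1, hDE j x.2⟩ = ι x := by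
    intro j
    have hY : IsExtension D (schlicht (E j) (hEo j) (hEc j))
        (fun x : D => (⟨x.1, hDE j x.2⟩ : E j)) := by
      refine ⟨?_, ?_, ?_⟩
      · exact Continuous.subtype_mk continuous_subtype_val _
      · intro x
        rfl
      · intro f hf
        obtain ⟨g, hg, hgf⟩ := hext j f hf
        exact ⟨fun y : E j => g y.1, isHolo_schlicht (hEo j) (hEc j) hg, fun x => hgf x.2⟩
    obtain ⟨φ, h1, h2, h3⟩ := hX.largest _ _ hY
    exact ⟨φ, h1, h2, h3⟩
  choose φ hφc hφp hφι using hφ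
  obtain ⟨F, hF, hFι⟩ := hX.ext.extend χ hχ
  have key : ∀ j, F (φ j ⟨P, hP j⟩) = κ j := by
    intro j
    set g : (Fin n → ℂ) → ℂ := fun z => if h : z ∈ E j then F (φ j ⟨z, h⟩) else 0 with hgdef
    have hgE : ∀ y : E j, g y.1 = F (φ j y) := by
      intro y
      simp only [hgdef]
      rw [dif_pos y.2]
    have hg1 : DifferentiableOn ℂ g (E j) := by
      intro z hz
      obtain ⟨e, hxe, heq, hdiff⟩ := hF (φ j ⟨z, hz⟩)
      have hez : ∀ y : E j, φ j y ∈ e.source → e (φ j y) = y.1 := by
        intro y hy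
        rw [heq hy, hφp j y]
      have hzt : z ∈ e.target := by
        have h1 := e.map_source hxe
        rw [hez _ hxe] at h1
        exact h1
      have hd : DifferentiableAt ℂ (F ∘ e.symm) z :=
        hdiff.differentiableAt (e.open_target.mem_nhds hzt)
      have hev : g =ᶠ[nhds z] F ∘ e.symm := by
        have hmap : Filter.map (Subtype.val : E j → (Fin n → ℂ)) (nhds ⟨z, hz⟩) = nhds z :=
          (hEo j).isOpenEmbedding_subtypeVal.map_nhds_eq ⟨z, hz⟩
        show ∀ᶠ y in nhds z, g y = (F ∘ e.symm) y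
        rw [← hmap, Filter.eventually_map]
        have hsrc : ∀ᶠ y in nhds (⟨z, hz⟩ : E j), φ j y ∈ e.source :=
          (hφc j).continuousAt.eventually_mem (e.open_source.mem_nhds hxe)
        filter_upwards [hsrc] with y hy
        rw [hgE y]
        show F (φ j y) = F (e.symm y.1)
        rw [← hez y hy, e.left_inv hy]
      exact (hd.congr_of_eventuallyEq hev).differentiableWithinAt
    have hg2 : Set.EqOn g χ D := by
      intro z hz
      have h1 : g z = F (φ j ⟨z, hDE j hz⟩) := hgE ⟨z, hDE j hz⟩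
      rw [h1, hφι j ⟨z, hz⟩, hFι ⟨z, hz⟩]
    have h := hval j g hg1 hg2
    rw [← h, hgE ⟨P, hP j⟩]
  have hinj : Function.Injective (fun j : Fin k => φ j ⟨P, hP j⟩) := by
    intro i j hij
    apply hκ
    rw [← key i, ← key j]
    exact congrArg F hij
  have hsub : Set.range (fun j : Fin k => φ j ⟨P, hP j⟩) ⊆ X.proj ⁻¹' {P} := by
    rintro _ ⟨j, rfl⟩
    show X.proj (φ j ⟨P, hP j⟩) = P
    exact hφp j ⟨P, hP j⟩
  calc (k : ℕ∞) ≤ (Set.range (fun j : Fin k => φ j ⟨P, hP j⟩)).encard := by
        have h := hinj.encard_range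
        simpa using h
    _ ≤ (X.proj ⁻¹' {P}).encard := Set.encard_le_encard hsub

end P4cae09
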