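import Pool.Agent.Lib.P4cae09.BetaSum
import Pool.Agent.Lib.P4cae09.Phase
import Pool.Agent.Lib.P4cae09.Crit
import Pool.Agent.Lib.P4cae09.ConnB
import Pool.Agent.Lib.P4cae09.Chi
import Pool.Agent.Lib.P4cae09.Figure
import Pool.Agent.Lib.P4cae09.HartogsExt
import Pool.Agent.Lib.P4cae09.Sheets
import Pool.Agent.Lib.P4cae09.EnvExists

/-!
# P4cae09.Main: the assembly (helper91)
-/

namespace P4cae09

variable {c : Consts} {ε : ℕ → ℝ} {β : ℝ × ℝ × ℝ → ℝ}

theorem shear_pth_zero (m : ℕ) (j : ℤ) :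
    shear (tj m j) 0 (pth m j 0) = ![0, 0, 0, (cen m : ℂ), 0] := by
  simp [shear, pth]

theorem mem_fig_shear {t : ℂ} {N : Set (Fin 4 → ℂ)} {n : Fin 4 → ℂ} (hn : n ∈ N) {ζ : ℂ}
    (hζ : ‖ζ‖ < 1) : shear t ζ n ∈ fig t N := by
  refine ⟨by simpa [shear] using hζ, ?_⟩
  have : unsh t (shear t ζ n) = n := by
    funext i
    fin_cases i <;> simp [unsh, shear]
  rw [this]
  exact hn

/-- every envelope of the domain has fibres with more than `N` points -/
theorem sheets_large (hβ : IsBeta c.M ε β) {X : RiemannDomain 5} {ι : Dom c β → X.carrier}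
    (hX : IsEnvelope (Dom c β) X ι) (N : ℕ) :
    ∃ z, (N : ℕ∞) < (X.proj ⁻¹' {z}).encard := by
  have hDo : IsOpen (Dom c β) := dom_isOpen hβ
  have hDc : IsConnected (Dom c β) := dom_isConnected hβ
  set m : ℕ := 2 * N + 2 with hm
  have hm1 : 1 ≤ m := by omega
  have hjm : ∀ i : Fin (N + 1), 2 * |((i : ℕ) : ℤ)| ≤ (m : ℤ) := by
    intro i
    have := i.2
    rw [abs_of_nonneg (by positivity)]
    omega
  have hring0 : ∀ j : ℤ, 2 * |j| ≤ (m : ℤ) → ∀ ζ : ℂ, ‖ζ‖ = 1 →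
      shear (tj m j) ζ (pth m j 0) ∈ Dom c β := by
    intro j hj ζ hζ
    exact ring_mem hβ hm1 hj le_rfl (by simp) hζ
  obtain ⟨χ, hχ, hval⟩ := exists_chi hβ hm1 hring0
  have hfig := fun i : Fin (N + 1) => exists_figure hβ hm1 (hjm i)
  choose Nn Nn' hNo hNc hNo' hNc' hsub hpth hring hdisc hrad using hfig
  have hval' := fun i : Fin (N + 1) => hval _ (hjm i)
  choose κ hκ1 hκ2 using hval'
  refine ⟨![0, 0, 0, (cen m : ℂ), 0], ?_⟩
  have hinj : Function.Injective κ := by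
    intro i i' hii
    by_contra hne
    have h1 := hκ1 i
    have h2 := hκ1 i'
    rw [hii] at h1
    have h3 : ‖2 * Real.pi * Complex.I * ((((i : ℕ) : ℤ) : ℂ)) -
        2 * Real.pi * Complex.I * ((((i' : ℕ) : ℤ) : ℂ))‖ ≤ 1 / 20 := by
      calc _ = ‖(κ i' - 2 * Real.pi * Complex.I * ((((i' : ℕ) : ℤ) : ℂ))) -
            (κ i' - 2 * Real.pi * Complex.I * ((((i : ℕ) : ℤ) : ℂ)))‖ := by
              congr 1; ring
        _ ≤ _ := (norm_sub_le _ _).trans (by linarith)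
    have h4 : 2 * Real.pi * Complex.I * ((((i : ℕ) : ℤ) : ℂ)) -
        2 * Real.pi * Complex.I * ((((i' : ℕ) : ℤ) : ℂ)) =
        2 * Real.pi * Complex.I * (((((i : ℕ) : ℤ) - ((i' : ℕ) : ℤ) : ℤ) : ℂ)) := by
      push_cast; ring
    rw [h4] at h3
    have h5 : (1 : ℝ) ≤ |((((i : ℕ) : ℤ) - ((i' : ℕ) : ℤ) : ℤ) : ℝ)| := by
      have : (1 : ℤ) ≤ |(((i : ℕ) : ℤ) - ((i' : ℕ) : ℤ))| := by
        apply Int.one_le_abs
        intro h
        apply hne
        ext
        omega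
      exact_mod_cast this
    have h6 : ‖2 * Real.pi * Complex.I * (((((i : ℕ) : ℤ) - ((i' : ℕ) : ℤ) : ℤ) : ℂ))‖ =
        2 * Real.pi * |((((i : ℕ) : ℤ) - ((i' : ℕ) : ℤ) : ℤ) : ℝ)| := by
      rw [norm_mul, Complex.norm_intCast]
      congr 1
      rw [norm_mul, norm_mul, Complex.norm_I, Complex.norm_real]
      simp [abs_of_pos Real.pi_pos]
    rw [h6] at h3
    nlinarith [Real.pi_gt_three]
  have key : ((N + 1 : ℕ) : ℕ∞) ≤ (X.proj ⁻¹' {![0, 0, 0, (cen m : ℂ), 0]}).encard := by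
    refine many_sheets hDo hDc hX hχ (fun i => Dom c β ∪ fig (tj m _) (Nn' i))
      (fun i => hDo.union (fig_isOpen (hNo' i)))
      (fun i => union_connected hDo hDc (hNc' i) (fun n hn => hring i n (hsub i hn)))
      (fun i => Set.subset_union_left) ?_ ?_ κ hinj ?_
    · intro i
      right
      rw [← shear_pth_zero m ((i : ℕ) : ℤ)]
      exact mem_fig_shear (hpth i) (by simp)
    · intro i f hf
      obtain ⟨g, hg, hgf, -⟩ := hartogsExt hDo (hNo i) (hNc i) (hNo' i) (hsub i) (hring i)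
        (hdisc i) (hrad i) hf
      exact ⟨g, hg, hgf⟩
    · intro i g hg hgχ
      obtain ⟨g', hg', hgf', hv'⟩ := hartogsExt hDo (hNo i) (hNc i) (hNo' i) (hsub i) (hring i)
        (hdisc i) (hrad i) hχ
      have huo : IsOpen (Dom c β ∪ fig (tj m ((i : ℕ) : ℤ)) (Nn' i)) :=
        hDo.union (fig_isOpen (hNo' i))
      have huc : IsConnected (Dom c β ∪ fig (tj m ((i : ℕ) : ℤ)) (Nn' i)) :=
        union_connected hDo hDc (hNc' i) (fun n hn => hring i n (hsub i hn))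
      obtain ⟨a, ha⟩ := hDc.nonempty
      have heq : Set.EqOn g g' (Dom c β ∪ fig (tj m ((i : ℕ) : ℤ)) (Nn' i)) := by
        refine ident huo huc.isPreconnected hg hg' (Or.inl ha) ?_
        filter_upwards [hDo.mem_nhds ha] with x hx
        rw [hgχ hx, hgf' hx]
      have hmem : shear (tj m ((i : ℕ) : ℤ)) 0 (pth m ((i : ℕ) : ℤ) 0) ∈
          Dom c β ∪ fig (tj m ((i : ℕ) : ℤ)) (Nn' i) :=
        Or.inr (mem_fig_shear (hpth i) (by simp))
      rw [← shear_pth_zero m ((i : ℕ) : ℤ), heq hmem]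
      exact hv' _ (hpth i) _ (hκ2 i)
  exact lt_of_lt_of_le (by exact_mod_cast Nat.lt_succ_self N) key

/-- **Main theorem.** There is a bounded domain `D ⊆ ℂ⁵` with `C^∞` boundary whose envelope of
holomorphy has fibres of arbitrarily large cardinality. -/
theorem main : ∃ D : Set (Fin 5 → ℂ), IsOpen D ∧ IsConnected D ∧ Bornology.IsBounded D ∧
    HasSmoothBoundary D ∧ (∃ (X : RiemannDomain 5) (ι : D → X.carrier), IsEnvelope D X ι) ∧
    ∀ (X : RiemannDomain 5) (ι : D → X.carrier), IsEnvelope D X ι →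
      ¬ X.FinitelySheeted ∧ ∀ N : ℕ, ∃ z, (N : ℕ∞) < (X.proj ⁻¹' {z}).encard := by
  obtain ⟨c⟩ := exists_consts
  have hM : 0 < c.M := by
    have := c.M_ge
    have h2 := c.u_pos
    have : 0 < (10 : ℝ) ^ 4 / c.u ^ 2 := by positivity
    linarith [c.M_ge]
  obtain ⟨ε, β, hβ⟩ := exists_beta c.M hM
  refine ⟨Dom c β, dom_isOpen hβ, dom_isConnected hβ, dom_isBounded hβ, dom_smoothBoundary hβ,
    envelope_exists (dom_isOpen hβ) (dom_isConnected hβ), ?_⟩
  intro X ι hX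
  refine ⟨?_, sheets_large hβ hX⟩
  rintro ⟨N, hN⟩
  obtain ⟨z, hz⟩ := sheets_large hβ hX N
  exact absurd (hN z) (not_le.mpr hz)

end P4cae09
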