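import Mathlib

/-!
# MP_4cae09_an: the public definitions

Smooth boundaries, Riemann domains over `ℂⁿ`, holomorphic functions on them, envelopes of
holomorphy, finitely sheeted Riemann domains.
-/

namespace P4cae09

open scoped ContDiff

/-- `D` has smooth (`C^∞`) boundary: near each boundary point `D` is given by `ρ < 0` with a real
`C^∞` function `ρ` whose differential at the point does not vanish. -/
def HasSmoothBoundary {n : ℕ} (D : Set (Fin n → ℂ)) : Prop :=
  ∀ a ∈ frontier D, ∃ (U : Set (Fin n → ℂ)) (ρ : (Fin n → ℂ) → ℝ), IsOpen U ∧ a ∈ U ∧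
    ContDiffOn ℝ ∞ ρ U ∧ (∀ x ∈ U, x ∈ D ↔ ρ x < 0) ∧ fderiv ℝ ρ a ≠ 0

/-- A Riemann domain over `ℂⁿ`: a connected Hausdorff space with a local homeomorphism to `ℂⁿ`
(this local homeomorphism induces the complex structure for which it is locally biholomorphic). -/
structure RiemannDomain (n : ℕ) where
  /-- the underlying space -/
  carrier : Type
  [top : TopologicalSpace carrier]
  [t2 : T2Space carrier]
  [conn : ConnectedSpace carrier]
  /-- the projection to `ℂⁿ` -/
  proj : carrier → (Fin n → ℂ)
  isLocalHomeomorph : IsLocalHomeomorph proj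

attribute [instance] RiemannDomain.top RiemannDomain.t2 RiemannDomain.conn

/-- Holomorphic functions on a Riemann domain: holomorphic when read through local inverses of the
projection. -/
def RiemannDomain.IsHolo {n : ℕ} (X : RiemannDomain n) (F : X.carrier → ℂ) : Prop :=
  ∀ x : X.carrier, ∃ e : OpenPartialHomeomorph X.carrier (Fin n → ℂ), x ∈ e.source ∧
    Set.EqOn e X.proj e.source ∧ DifferentiableOn ℂ (F ∘ e.symm) e.target

/-- `ι : D → X` is an embedding over `ℂⁿ`, and every holomorphic function on `D` extends to a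
holomorphic function on `X`. -/
structure IsExtension {n : ℕ} (D : Set (Fin n → ℂ)) (X : RiemannDomain n) (ι : D → X.carrier) :
    Prop where
  cont : Continuous ι
  proj_ι : ∀ x : D, X.proj (ι x) = x
  extend : ∀ f : (Fin n → ℂ) → ℂ, DifferentiableOn ℂ f D →
    ∃ F : X.carrier → ℂ, X.IsHolo F ∧ ∀ x : D, F (ι x) = f x

/-- `(X, ι)` is an envelope of holomorphy of `D`: every holomorphic function on `D` extends to `X`,
and `X` is the largest Riemann domain with this property. -/
structure IsEnvelope {n : ℕ} (D : Set (Fin n → ℂ)) (X : RiemannDomain n) (ι : D → X.carrier) :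
    Prop where
  ext : IsExtension D X ι
  largest : ∀ (Y : RiemannDomain n) (j : D → Y.carrier), IsExtension D Y j →
    ∃ φ : Y.carrier → X.carrier, Continuous φ ∧ (∀ y, X.proj (φ y) = Y.proj y) ∧
      ∀ x : D, φ (j x) = ι x

/-- Finitely sheeted Riemann domains. -/
def RiemannDomain.FinitelySheeted {n : ℕ} (X : RiemannDomain n) : Prop :=
  ∃ N : ℕ, ∀ z : Fin n → ℂ, (X.proj ⁻¹' {z}).encard ≤ N

end P4cae09
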