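import Pool.Agent.Lib.P4cae09.RhoSmooth

/-!
# P4cae09.Ring: the rings of the path and the end disc are in the domain

`P = shear (tj m j) ζ (pth m j s) = (ζ, (j/m)ζ, 0, c_m + s j/m, s sn m j)`: `Re(zv) = 0`, `conj z w = (j/m)‖ζ‖²` real,
`‖w‖ ≤ 1/2`, `|Re p| ≤ 1/2 + s/2 ≤ 4` (`s sn m j ≤ 2`, `sn m j ≥ 1/2`), `Re r = s sn ≥ 0`: all the `ell` vanish.
`‖ζ‖ = 1`: `rho = - gg (s sn) - β(j/m, ..)`, and `β ≥ 0` (`ray` with `t = t' = j/m`, the same `s`); if `s > 0` then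
`gg > 0` (`gg_pos`), if `s = 0` then `β = ia/8 > 0` (`ray`).
`s sn = 2`, `‖ζ‖ ≤ 1`: `r = 2`, outside all discs (`2 ε_m ≤ 1/10`), `β = 0`, `rho = (‖ζ‖²-1)² - gg 2 ≤ 1 - 9 < 0`.
-/

namespace P4cae09

variable {c : Consts} {ε : ℕ → ℝ} {β : ℝ × ℝ × ℝ → ℝ}

theorem ring_frac {m : ℕ} (hm : 1 ≤ m) {j : ℤ} (hj : 2 * |j| ≤ m) : |(j : ℝ) / m| ≤ 1 / 2 := by
  have hm0 : (0 : ℝ) < m := by exact_mod_cast hm
  have h : (2 : ℝ) * |(j : ℝ)| ≤ m := by exact_mod_cast hj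
  rw [abs_div, abs_of_pos hm0, div_le_iff₀ hm0]
  linarith

theorem ring_sn {m : ℕ} (hm : 1 ≤ m) {j : ℤ} (hj : 2 * |j| ≤ m) : 1 / 2 ≤ sn m j := by
  have h := ring_frac hm hj
  have h2 : ((j : ℝ) / m) ^ 2 ≤ 1 / 4 := by
    have := abs_le.mp h
    nlinarith [this.1, this.2]
  unfold sn
  apply Real.le_sqrt_of_sq_le
  linarith

theorem ring_cen {m : ℕ} (hm : 1 ≤ m) : 0 < cen m ∧ cen m ≤ 1 / 2 := by
  refine ⟨by unfold cen; positivity, ?_⟩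
  unfold cen
  calc (1 / 2 : ℝ) ^ m ≤ (1 / 2) ^ 1 :=
        pow_le_pow_of_le_one (by norm_num) (by norm_num) hm
    _ = 1 / 2 := by norm_num

theorem ring_dd (m : ℕ) : 0 ≤ dd m := by
  unfold dd CC
  positivity

theorem ring_ia (e : ℝ) : 0 < ia e := by
  unfold ia
  positivity

/-- the value of `rho` at the points of the family of discs -/
theorem ring_rho {m : ℕ} (hm : 1 ≤ m) {j : ℤ} (hj : 2 * |j| ≤ m) {s : ℝ}
    (hs : 0 ≤ s) (hs' : s * sn m j ≤ 2) {ζ : ℂ} (hζ : ‖ζ‖ ≤ 1) :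
    rho c β (shear (tj m j) ζ (pth m j s)) =
      (‖ζ‖ ^ 2 - 1) ^ 2 - gg (s * sn m j) -
        β ((j : ℝ) / m * ‖ζ‖ ^ 2, cen m + s * ((j : ℝ) / m), s * sn m j) := by
  have hq := ring_frac hm hj
  have hsn := ring_sn hm hj
  have hc := ring_cen hm
  have hs4 : s ≤ 4 := by nlinarith
  set q : ℝ := (j : ℝ) / m with hqdef
  have htj : tj m j = (q : ℂ) := by
    simp only [tj, hqdef]
  have e0 : shear (tj m j) ζ (pth m j s) 0 = ζ := by simp [shear]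
  have e1 : shear (tj m j) ζ (pth m j s) 1 = (q : ℂ) * ζ := by simp [shear, pth, htj]
  have e2 : shear (tj m j) ζ (pth m j s) 2 = 0 := by simp [shear, pth]
  have e3 : shear (tj m j) ζ (pth m j s) 3 = ((cen m + s * q : ℝ) : ℂ) := by
    simp [shear, pth, hqdef]
  have e4 : shear (tj m j) ζ (pth m j s) 4 = ((s * sn m j : ℝ) : ℂ) := by
    simp [shear, pth]
  have hcw : (starRingEnd ℂ) ζ * ((q : ℂ) * ζ) = ((q * ‖ζ‖ ^ 2 : ℝ) : ℂ) := by
    have : (starRingEnd ℂ) ζ * ζ = ((‖ζ‖ ^ 2 : ℝ) : ℂ) := by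
      rw [mul_comm, Complex.mul_conj, Complex.normSq_eq_norm_sq]
    calc (starRingEnd ℂ) ζ * ((q : ℂ) * ζ) = (q : ℂ) * ((starRingEnd ℂ) ζ * ζ) := by ring
      _ = ((q * ‖ζ‖ ^ 2 : ℝ) : ℂ) := by rw [this]; push_cast; ring
  have hn1 : ‖(q : ℂ) * ζ‖ ^ 2 - 4 ≤ 0 := by
    rw [norm_mul, Complex.norm_real, Real.norm_eq_abs]
    have h1 : |q| * ‖ζ‖ ≤ 1 / 2 := by
      calc |q| * ‖ζ‖ ≤ 1 / 2 * 1 := mul_le_mul hq hζ (norm_nonneg _) (by norm_num)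
        _ = 1 / 2 := by norm_num
    have h2 : 0 ≤ |q| * ‖ζ‖ := by positivity
    nlinarith
  have hp : (cen m + s * q) ^ 2 - 16 ≤ 0 := by
    have h1 := abs_le.mp hq
    have h2 : s * q ≤ 2 := by nlinarith [h1.2]
    have h3 : -2 ≤ s * q := by nlinarith [h1.1]
    nlinarith [hc.1, hc.2]
  have hr : -1 - s * sn m j ≤ 0 := by
    have : 0 ≤ s * sn m j := mul_nonneg hs (by linarith)
    linarith
  unfold rho tt
  rw [e0, e1, e2, e3, e4, hcw]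
  simp only [mul_zero, Complex.zero_re, norm_zero, Complex.ofReal_im, Complex.ofReal_re]
  rw [ell_of_nonpos hn1, ell_of_nonpos hp, ell_of_nonpos hr]
  ring

theorem ring_mem (hβ : IsBeta c.M ε β) {m : ℕ} (hm : 1 ≤ m) {j : ℤ} (hj : 2 * |j| ≤ m) {s : ℝ}
    (hs : 0 ≤ s) (hs' : s * sn m j ≤ 2) {ζ : ℂ} (hζ : ‖ζ‖ = 1) :
    shear (tj m j) ζ (pth m j s) ∈ Dom c β := by
  change rho c β _ < 0
  rw [ring_rho hm hj hs hs' hζ.le, hζ]
  have hsn := ring_sn hm hj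
  have hdd := ring_dd m
  have hε := (hβ.small m hm).pos
  have hnn : 0 ≤ dd m * eta * ε m / 16 := by
    have : 0 ≤ eta := by unfold eta; norm_num
    positivity
  have hray := hβ.ray m hm j hj ((j : ℝ) / m) ((j : ℝ) / m) (cen m + s * ((j : ℝ) / m))
    (s * sn m j) s (by rw [sub_self, abs_zero]; linarith) (by rw [sub_self, abs_zero]; linarith) hs
    (by simpa using hnn) (by simpa using hnn)
  obtain ⟨-, h0, h1⟩ := hray
  have e1 : (j : ℝ) / m * 1 ^ 2 = (j : ℝ) / m := by ring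
  rw [e1]
  rcases hs.eq_or_lt with h | h
  · subst h
    have hb := h1 (by simp; positivity)
    rw [hb]
    have := ring_ia (ε m)
    have hg : gg (0 * sn m j) = 0 := gg_of_nonpos (by simp)
    rw [hg]
    norm_num
    exact this
  · have hg := gg_pos (x := s * sn m j) (mul_pos h (by linarith)) (by linarith)
    norm_num
    linarith

theorem disc_mem (hβ : IsBeta c.M ε β) {m : ℕ} (hm : 1 ≤ m) {j : ℤ} (hj : 2 * |j| ≤ m) {s : ℝ}
    (hs' : s * sn m j = 2) {ζ : ℂ} (hζ : ‖ζ‖ ≤ 1) :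
    shear (tj m j) ζ (pth m j s) ∈ Dom c β := by
  have hsn := ring_sn hm hj
  have hs : 0 ≤ s := by
    by_contra h
    push Not at h
    nlinarith
  change rho c β _ < 0
  rw [ring_rho hm hj hs hs'.le hζ, hs']
  have hβ0 := hβ.zero ((j : ℝ) / m * ‖ζ‖ ^ 2) (cen m + s * ((j : ℝ) / m)) 2 (by
    intro k hk
    have h1 := (hβ.small k hk).le
    have h2 := (hβ.small k hk).pos
    nlinarith [sq_nonneg (cen m + s * ((j : ℝ) / m) - cen k)])
  rw [hβ0]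
  have hg := gg_two
  have hz := norm_nonneg ζ
  have h1 : ‖ζ‖ ^ 2 ≤ 1 := by nlinarith
  nlinarith [sq_nonneg ‖ζ‖]

end P4cae09
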