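import Pool.Agent.Lib.P4cae09.Defs

/-!
# P4cae09.Root (1.5 h): the small root of `1 - e^{-y} + A y = b`

`T(y) = (b + (e^{-y} - 1 + y))/(1+A)` on the closed ball `‖y‖ ≤ 1/40`: `‖e^{-y} - 1 + y‖ ≤ ‖y‖²`
(`Complex.norm_exp_sub_one_sub_id_le`), and `y ↦ e^{-y} - 1 + y` is Lipschitz with constant `1/20` there (derivative
`1 - e^{-y}`, norm `≤ 2‖y‖`). With `‖1+A‖ ≥ 1/10` the contraction constant is `≤ 1/2`, and
`‖T y‖ ≤ 1/80 + (1/1600)·10 ≤ 1/40`. Existence: `ContractingWith` or intermediate iteration; uniqueness: two roots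
`y, y'`: `(1+A)(y-y') = (e^{-y}-1+y) - (e^{-y'}-1+y')`. Bound: `‖y‖‖1+A‖ ≤ ‖b‖ + ‖y‖²≤ ‖b‖ + ‖y‖/40`,
`‖1+A‖ ≥ 1/10` so `‖y‖ (3/4)‖1+A‖ ≤ ‖b‖`.
-/

namespace P4cae09

/-- `φ(y) = e^{-y} - 1 + y` -/
noncomputable def phiR (y : ℂ) : ℂ := Complex.exp (-y) - 1 + y

theorem phiR_norm_le {y : ℂ} (hy : ‖y‖ ≤ 1) : ‖phiR y‖ ≤ ‖y‖ ^ 2 := by
  have h := Complex.norm_exp_sub_one_sub_id_le (x := -y) (by simpa using hy)
  have e : Complex.exp (-y) - 1 - -y = phiR y := by unfold phiR; ring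
  rw [e, norm_neg] at h
  exact h

theorem phiR_hasDerivAt (y : ℂ) : HasDerivAt phiR (1 - Complex.exp (-y)) y := by
  have h1 : HasDerivAt (fun y : ℂ => Complex.exp (-y)) (Complex.exp (-y) * (-1)) y :=
    (Complex.hasDerivAt_exp (-y)).comp y (hasDerivAt_neg y)
  have h2 := (h1.sub_const 1).add (hasDerivAt_id y)
  have e : Complex.exp (-y) * (-1) + 1 = 1 - Complex.exp (-y) := by ring
  rw [e] at h2
  exact h2

theorem phiR_deriv_norm_le {y : ℂ} (hy : ‖y‖ ≤ 1) : ‖1 - Complex.exp (-y)‖ ≤ 2 * ‖y‖ := by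
  have h := Complex.norm_exp_sub_one_le (x := -y) (by simpa using hy)
  rw [norm_neg] at h
  rw [norm_sub_rev]
  exact h

theorem phiR_lip {y y' : ℂ} (hy : ‖y‖ ≤ 1 / 40) (hy' : ‖y'‖ ≤ 1 / 40) :
    ‖phiR y - phiR y'‖ ≤ 1 / 20 * ‖y - y'‖ := by
  refine Convex.norm_image_sub_le_of_norm_hasDerivWithin_le (𝕜 := ℂ)
    (s := Metric.closedBall (0 : ℂ) (1 / 40)) (f' := fun y => 1 - Complex.exp (-y)) ?_ ?_
    (convex_closedBall _ _) ?_ ?_
  · intro x _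
    exact (phiR_hasDerivAt x).hasDerivWithinAt
  · intro x hx
    have hx' : ‖x‖ ≤ 1 / 40 := by simpa using hx
    have h1 := phiR_deriv_norm_le (y := x) (by linarith)
    show ‖1 - Complex.exp (-x)‖ ≤ 1 / 20
    linarith
  · simpa using hy'
  · simpa using hy

theorem root_eq {A b y : ℂ} (h : 1 - Complex.exp (-y) + A * y = b) : (1 + A) * y = b + phiR y := by
  rw [← h]; unfold phiR; ring

theorem root_exists {A b : ℂ} (hA : 1 / 10 ≤ ‖1 + A‖) (hb : ‖b‖ ≤ ‖1 + A‖ / 80) :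
    ∃ y : ℂ, ‖y‖ ≤ 1 / 40 ∧ 1 - Complex.exp (-y) + A * y = b := by
  have hpos : 0 < ‖1 + A‖ := by linarith
  have hne : (1 + A) ≠ 0 := norm_pos_iff.mp hpos
  set T : ℂ → ℂ := fun y => (b + phiR y) / (1 + A) with hT
  have hmaps : Set.MapsTo T (Metric.closedBall (0 : ℂ) (1 / 40)) (Metric.closedBall (0 : ℂ) (1 / 40)) := by
    intro y hy
    have hy' : ‖y‖ ≤ 1 / 40 := by simpa using hy
    have h1 : ‖phiR y‖ ≤ ‖y‖ ^ 2 := phiR_norm_le (by linarith)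
    have h2 : ‖y‖ ^ 2 ≤ (1 / 40) ^ 2 := pow_le_pow_left₀ (norm_nonneg _) hy' 2
    have h3 : ‖b + phiR y‖ ≤ ‖1 + A‖ / 80 + 1 / 1600 := by
      refine (norm_add_le _ _).trans ?_
      have : ((1 : ℝ) / 40) ^ 2 = 1 / 1600 := by norm_num
      linarith
    have h4 : ‖T y‖ ≤ 1 / 40 := by
      rw [hT]
      show ‖(b + phiR y) / (1 + A)‖ ≤ 1 / 40
      rw [norm_div, div_le_iff₀ hpos]
      linarith
    simpa using h4
  have hlip : ∀ y y' : ℂ, ‖y‖ ≤ 1 / 40 → ‖y'‖ ≤ 1 / 40 → ‖T y - T y'‖ ≤ 1 / 2 * ‖y - y'‖ := by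
    intro y y' hy hy'
    have e : T y - T y' = (phiR y - phiR y') / (1 + A) := by
      rw [hT]
      show (b + phiR y) / (1 + A) - (b + phiR y') / (1 + A) = _
      rw [← sub_div]
      congr 1
      ring
    rw [e, norm_div, div_le_iff₀ hpos]
    have h1 := phiR_lip hy hy'
    have h2 : 1 / 10 * ‖y - y'‖ ≤ ‖1 + A‖ * ‖y - y'‖ :=
      mul_le_mul_of_nonneg_right hA (norm_nonneg _)
    nlinarith
  have hcomplete : IsComplete (Metric.closedBall (0 : ℂ) (1 / 40)) :=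
    Metric.isClosed_closedBall.isComplete
  have hcontr : ContractingWith (1 / 2) (hmaps.restrict T _ _) := by
    refine ⟨?_, ?_⟩
    · have : (1 / 2 : NNReal) < 1 := by
        rw [← NNReal.coe_lt_coe]; push_cast; norm_num
      exact this
    · refine LipschitzWith.of_dist_le_mul ?_
      rintro ⟨y, hy⟩ ⟨y', hy'⟩
      have h1 : ‖y‖ ≤ 1 / 40 := by simpa using hy
      have h2 : ‖y'‖ ≤ 1 / 40 := by simpa using hy'
      have h3 := hlip y y' h1 h2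
      rw [Subtype.dist_eq, Subtype.dist_eq]
      show dist (T y) (T y') ≤ ((1 / 2 : NNReal) : ℝ) * dist y y'
      rw [dist_eq_norm, dist_eq_norm]
      push_cast
      exact h3
  have hx0 : (0 : ℂ) ∈ Metric.closedBall (0 : ℂ) (1 / 40) := by simp
  obtain ⟨y, hys, hfix, -⟩ := hcontr.exists_fixedPoint' hcomplete hmaps hx0 (edist_ne_top _ _)
  refine ⟨y, by simpa using hys, ?_⟩
  have h1 : T y = y := hfix
  have h2 : (b + phiR y) / (1 + A) = y := h1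
  rw [div_eq_iff hne] at h2
  unfold phiR at h2
  linear_combination -h2

theorem root_unique {A b y y' : ℂ} (hA : 1 / 10 ≤ ‖1 + A‖) (hy : ‖y‖ ≤ 1 / 40)
    (hy' : ‖y'‖ ≤ 1 / 40) (h : 1 - Complex.exp (-y) + A * y = b)
    (h' : 1 - Complex.exp (-y') + A * y' = b) : y = y' := by
  have e1 := root_eq h
  have e2 := root_eq h'
  have e : (1 + A) * (y - y') = phiR y - phiR y' := by
    rw [mul_sub, e1, e2]; ring
  have h1 : ‖1 + A‖ * ‖y - y'‖ ≤ 1 / 20 * ‖y - y'‖ := by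
    rw [← norm_mul, e]; exact phiR_lip hy hy'
  have h2 : 1 / 10 * ‖y - y'‖ ≤ ‖1 + A‖ * ‖y - y'‖ :=
    mul_le_mul_of_nonneg_right hA (norm_nonneg _)
  have h3 : ‖y - y'‖ = 0 := by
    have := norm_nonneg (y - y')
    linarith
  exact sub_eq_zero.mp (norm_eq_zero.mp h3)

theorem root_bound {A b y : ℂ} (hA : 1 / 10 ≤ ‖1 + A‖) (hy : ‖y‖ ≤ 1 / 40)
    (h : 1 - Complex.exp (-y) + A * y = b) : ‖y‖ ≤ 2 * ‖b‖ / ‖1 + A‖ := by
  have hpos : 0 < ‖1 + A‖ := by linarith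
  have e1 := root_eq h
  have h1 : ‖1 + A‖ * ‖y‖ ≤ ‖b‖ + ‖y‖ ^ 2 := by
    rw [← norm_mul, e1]
    exact (norm_add_le _ _).trans (by linarith [phiR_norm_le (y := y) (by linarith)])
  have h2 : ‖y‖ ^ 2 ≤ 1 / 40 * ‖y‖ := by
    rw [sq]; exact mul_le_mul_of_nonneg_right hy (norm_nonneg _)
  have h3 : 1 / 10 * ‖y‖ ≤ ‖1 + A‖ * ‖y‖ :=
    mul_le_mul_of_nonneg_right hA (norm_nonneg _)
  rw [le_div_iff₀ hpos]
  have hb0 := norm_nonneg b
  nlinarith [norm_nonneg y]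

theorem Yroot_spec {A b : ℂ} (hA : 1 / 10 ≤ ‖1 + A‖) (hb : ‖b‖ ≤ ‖1 + A‖ / 80) :
    ‖Yroot A b‖ ≤ 1 / 40 ∧ 1 - Complex.exp (-(Yroot A b)) + A * Yroot A b = b := by
  have h := root_exists hA hb
  unfold Yroot
  rw [dif_pos h]
  exact h.choose_spec

end P4cae09
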