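import Pool.Agent.Lib.P4cae09.Defs

/-!
# P4cae09.ZoneO1 (1.2 h): far from the gadget (`X ≥ 1/20`), and general facts on `ζ^{-1/2}`, `Psi`

General facts (`Re ζ > 0`): `‖ζ^{-1/2}‖ = ‖ζ‖^{-1/2}`, `|arg ζ^{-1/2}| ≤ π/4`, so
`exp(-‖ζ‖^{-1/2}/100) ≤ ‖Psi ζ‖ = exp(-Re(ζ^{-1/2})/100) ≤ exp(-(7/1000) ‖ζ‖^{-1/2}) ≤ 1`
(`cos(π/4) ≥ 0.7`).
`zoneO1`: `Re ζ ≥ X² - ‖U‖ - Y² ≥ (9/10) X²` (`Y² ≤ 12/K ≤ 12/10^14`, `‖U‖ ≤ 10^{-6}`), `‖ζ‖^{-1/2} ≤ 20·1.06 ≤ 22`, so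
`‖Psi ζ‖ ≥ e^{-0.22} ≥ 4/5`; `‖q‖²/‖ζ‖ ≤ (X²+Y²)/(0.9X²) ≤ 36/25`.
-/

namespace P4cae09

theorem norm_zinv {ζ : ℂ} (h : 0 < ζ.re) :
    ‖ζ ^ (-(1 / 2) : ℂ)‖ = (Real.sqrt ‖ζ‖)⁻¹ := by
  have h0 : ζ ≠ 0 := by
    rintro rfl
    simp at h
  rw [Complex.norm_cpow_of_ne_zero h0]
  have h1 : (-(1 / 2) : ℂ).re = -(1 / 2 : ℝ) := by norm_num
  have h2 : (-(1 / 2) : ℂ).im = 0 := by norm_num
  rw [h1, h2, mul_zero, Real.exp_zero, div_one, Real.sqrt_eq_rpow,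
    Real.rpow_neg (norm_nonneg _)]

theorem re_zinv {ζ : ℂ} (h : 0 < ζ.re) :
    7 / 10 * ‖ζ ^ (-(1 / 2) : ℂ)‖ ≤ (ζ ^ (-(1 / 2) : ℂ)).re := by
  have h0 : ζ ≠ 0 := by
    rintro rfl
    simp at h
  rw [Complex.cpow_def_of_ne_zero h0, Complex.norm_exp, Complex.exp_re]
  have him : (Complex.log ζ * (-(1 / 2) : ℂ)).im = -(ζ.arg / 2) := by
    rw [Complex.mul_im, Complex.log_im]
    have h1 : (-(1 / 2) : ℂ).re = -(1 / 2 : ℝ) := by norm_num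
    have h2 : (-(1 / 2) : ℂ).im = 0 := by norm_num
    rw [h1, h2]
    ring
  rw [him, Real.cos_neg]
  have harg : |ζ.arg| < Real.pi / 2 := Complex.abs_arg_lt_pi_div_two_iff.mpr (Or.inl h)
  have hcos : 7 / 10 ≤ Real.cos (ζ.arg / 2) := by
    rw [← Real.cos_abs]
    have h1 : Real.cos (Real.pi / 4) ≤ Real.cos |ζ.arg / 2| := by
      apply Real.cos_le_cos_of_nonneg_of_le_pi (abs_nonneg _)
      · linarith [Real.pi_pos]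
      · rw [abs_div, abs_two]
        linarith
    rw [Real.cos_pi_div_four] at h1
    have h2 : (7 / 5 : ℝ) ≤ Real.sqrt 2 := by
      apply Real.le_sqrt_of_sq_le
      norm_num
    linarith
  rw [mul_comm]
  exact mul_le_mul_of_nonneg_left hcos (Real.exp_pos _).le

theorem norm_psi (ζ : ℂ) : ‖Psi ζ‖ = Real.exp (-(1 / 100) * (ζ ^ (-(1 / 2) : ℂ)).re) := by
  unfold Psi
  rw [Complex.norm_exp]
  congr 1
  have h1 : (-(1 / 100) : ℂ).re = -(1 / 100 : ℝ) := by norm_num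
  have h2 : (-(1 / 100) : ℂ).im = 0 := by norm_num
  rw [Complex.mul_re, h1, h2]
  ring

theorem psi_lower {ζ : ℂ} (h : 0 < ζ.re) :
    Real.exp (-(1 / 100) * (Real.sqrt ‖ζ‖)⁻¹) ≤ ‖Psi ζ‖ := by
  rw [norm_psi, ← norm_zinv h]
  apply Real.exp_le_exp.mpr
  have := Complex.re_le_norm (ζ ^ (-(1 / 2) : ℂ))
  linarith

theorem psi_upper {ζ : ℂ} (h : 0 < ζ.re) :
    ‖Psi ζ‖ ≤ Real.exp (-(7 / 1000) * (Real.sqrt ‖ζ‖)⁻¹) := by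
  rw [norm_psi, ← norm_zinv h]
  apply Real.exp_le_exp.mpr
  have := re_zinv h
  linarith

theorem psi_le_one {ζ : ℂ} (h : 0 < ζ.re) : ‖Psi ζ‖ ≤ 1 := by
  refine (psi_upper h).trans ?_
  rw [Real.exp_le_one_iff]
  have : 0 ≤ (Real.sqrt ‖ζ‖)⁻¹ := by positivity
  linarith

/-- bound for `‖q ζ^{-1/2}‖` -/
theorem norm_mul_zinv_le {ζ q : ℂ} (h : 0 < ζ.re) (hq : ‖q‖ ^ 2 ≤ 36 / 25 * ζ.re) :
    ‖q * ζ ^ (-(1 / 2) : ℂ)‖ ≤ 6 / 5 := by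
  rw [norm_mul, norm_zinv h]
  have h1 : ζ.re ≤ ‖ζ‖ := Complex.re_le_norm ζ
  have h2 : 0 < ‖ζ‖ := lt_of_lt_of_le h h1
  have h3 : 0 < Real.sqrt ‖ζ‖ := Real.sqrt_pos.mpr h2
  rw [← div_eq_mul_inv, div_le_iff₀ h3]
  apply le_of_sq_le_sq _ (by positivity)
  rw [mul_pow, Real.sq_sqrt h2.le]
  linarith

theorem zoneO1 (c : Consts) {U ζ q : ℂ} {X Y om i0 : ℝ} (hX : 1 / 20 ≤ X) (hX' : X ≤ 12)
    (hY : 0 ≤ Y) (hi : 0 ≤ i0) (hU : ‖U‖ ≤ c.u) (hK : c.K * Y ^ 2 ≤ 12)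
    (hζ : ζ = U + (X ^ 2 + i0 - Y ^ 2 : ℝ) + (om : ℂ) * Complex.I) (hom : |om| ≤ 2 * X * Y)
    (hq : ‖q‖ ^ 2 ≤ X ^ 2 + Y ^ 2) :
    0 < ζ.re ∧ 4 / 5 ≤ ‖Psi ζ‖ ∧ ‖q * ζ ^ (-(1 / 2) : ℂ)‖ ≤ 6 / 5 := by
  have hre : ζ.re = U.re + (X ^ 2 + i0 - Y ^ 2) := by
    rw [hζ, Complex.add_re, Complex.add_re, Complex.ofReal_re, Complex.re_ofReal_mul,
      Complex.I_re, mul_zero, add_zero]
  have hK14 := c.K_ge
  have hu6 := c.u_le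
  have hY2 : 10 ^ 14 * Y ^ 2 ≤ 12 :=
    le_trans (mul_le_mul_of_nonneg_right hK14 (sq_nonneg Y)) hK
  have hU1 : -(1 / 10 ^ 6) ≤ U.re := by
    have := (abs_le.mp (Complex.abs_re_le_norm U)).1
    linarith
  have hX2 : 1 / 400 ≤ X ^ 2 := by nlinarith
  have hmain : 9 / 10 * X ^ 2 ≤ ζ.re := by
    rw [hre]
    linarith
  have hpos : 0 < ζ.re := by linarith
  refine ⟨hpos, ?_, ?_⟩
  · refine le_trans ?_ (psi_lower hpos)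
    have h1 : ζ.re ≤ ‖ζ‖ := Complex.re_le_norm ζ
    have h2 : (10 / 211 : ℝ) ≤ Real.sqrt ‖ζ‖ := by
      apply Real.le_sqrt_of_sq_le
      norm_num
      linarith
    have h3 : (Real.sqrt ‖ζ‖)⁻¹ ≤ 211 / 10 := by
      rw [inv_le_comm₀ (by linarith) (by norm_num)]
      norm_num
      linarith
    have h4 : Real.exp (-(211 / 1000)) ≤ Real.exp (-(1 / 100) * (Real.sqrt ‖ζ‖)⁻¹) := by
      apply Real.exp_le_exp.mpr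
      linarith
    refine le_trans ?_ h4
    have h5 : Real.exp (-(211 / 1000)) = Real.exp (-(211 / 2000)) ^ 2 := by
      rw [← Real.exp_nat_mul]
      congr 1
      norm_num
    have h6 : 1 - 211 / 2000 ≤ Real.exp (-(211 / 2000)) := Real.one_sub_le_exp_neg _
    rw [h5]
    nlinarith
  · apply norm_mul_zinv_le hpos
    linarith

end P4cae09
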