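import Pool.Agent.Lib.P4cae09.ZoneO1

/-!
# P4cae09.ZoneO2 (1.5 h): the zone `ε ≤ X ≤ 1/20`

`Re ζ ≥ U.re + X² + ia - Y² ≥ K Y² - h + X² - Y² ≥ X² - h ≥ (9/10)X²` since `h ≤ 40 e^{-1/X} ≤ X²/10` for
`X ≤ 1/20` (`e^{-s} ≤ 8!/s^8`). `‖Psi ζ‖ ≥ exp(-‖ζ‖^{-1/2}/100) ≥ exp(-0.011/X) ≥ 100 h` (`e^{0.989/X} ≥ 4000`).
If `9‖Psi‖ ≤ ‖U‖`: `‖U+Psi‖ ≥ (8/9)‖U‖`. Otherwise `K Y² ≤ ‖U‖ + h ≤ 10‖Psi‖` and the phase lemma
`c.phase` with `R = √(X² + ia)` (`R ≤ 1/10`; `|om| ≤ 2XY ≤ 2RY`) gives `Re Psi ≥ 0.9‖Psi‖`, so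
`‖U+Psi‖ ≥ Re ≥ 0.9‖Psi‖ - h ≥ 0.89‖Psi‖` (`Re U ≥ -h`). In both cases `‖U‖+‖Psi‖ ≤ 13‖U+Psi‖` and
`(ia)⁻¹‖U+Psi‖ ≥ 0.89 (e^{1/ε}/160) e^{-0.011/X} ≥ e^{0.989/ε}/180 > CC m` (`s2`, `X ≥ ε`).
`‖q‖²/‖ζ‖ ≤ (X²+Y²)/(0.9X² + (K-1)Y²)` (from `Re ζ ≥ X² - h + (K-1)Y²`) `≤ 36/25`.
-/

namespace P4cae09

theorem zoneO2 (c : Consts) {m : ℕ} {ε : ℝ} (hs : Small m ε) {U ζ q : ℂ} {X Y om h : ℝ}
    (hX : ε ≤ X) (hX' : X ≤ 1 / 20) (hY : 0 ≤ Y) (hU : ‖U‖ ≤ c.u)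
    (hre : c.K * Y ^ 2 ≤ U.re + h) (hh : h ≤ 40 * Real.exp (-X⁻¹))
    (hζ : ζ = U + (X ^ 2 + ia ε - Y ^ 2 : ℝ) + (om : ℂ) * Complex.I) (hom : |om| ≤ 2 * X * Y)
    (hq : ‖q‖ ^ 2 ≤ X ^ 2 + Y ^ 2) :
    0 < ζ.re ∧ ‖U‖ + ‖Psi ζ‖ ≤ 13 * ‖U + Psi ζ‖ ∧ CC m < (ia ε)⁻¹ * ‖U + Psi ζ‖ ∧
      ‖q * ζ ^ (-(1 / 2) : ℂ)‖ ≤ 6 / 5 := by
  have hε0 := hs.pos
  have hX0 : 0 < X := lt_of_lt_of_le hε0 hX
  have hK14 := c.K_ge
  have hia : 0 < ia ε := by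
    unfold ia
    positivity
  -- the size of `exp (-1/X)`
  set s : ℝ := X⁻¹ with hsdef
  have hs20 : 20 ≤ s := by
    rw [hsdef, le_inv_comm₀ (by norm_num) hX0]
    linarith
  have hXs : X * s = 1 := mul_inv_cancel₀ hX0.ne'
  have hexp : Real.exp (-s) ≤ X ^ 2 / 400 := by
    have h1 := Real.pow_div_factorial_le_exp s (by linarith) 8
    have h2 : 400 * s ^ 2 ≤ s ^ 8 / ((8 : ℕ).factorial : ℝ) := by
      have h3 : ((8 : ℕ).factorial : ℝ) = 40320 := by norm_num [Nat.factorial]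
      rw [h3, le_div_iff₀ (by norm_num)]
      have h4 : (20 : ℝ) ^ 6 ≤ s ^ 6 := pow_le_pow_left₀ (by norm_num) hs20 6
      have h5 : s ^ 8 = s ^ 2 * s ^ 6 := by ring
      have h6 : 0 ≤ s ^ 2 := sq_nonneg s
      rw [h5]
      nlinarith
    have h7 : 400 * s ^ 2 ≤ Real.exp s := h2.trans h1
    rw [Real.exp_neg, inv_le_comm₀ (Real.exp_pos _) (by positivity)]
    refine le_trans (le_of_eq ?_) h7
    rw [hsdef]
    field_simp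
  have hh2 : h ≤ X ^ 2 / 10 := by linarith
  have hre' : ζ.re = U.re + (X ^ 2 + ia ε - Y ^ 2) := by
    rw [hζ, Complex.add_re, Complex.add_re, Complex.ofReal_re, Complex.re_ofReal_mul,
      Complex.I_re, mul_zero, add_zero]
  have hmain : 9 / 10 * X ^ 2 + (c.K - 1) * Y ^ 2 ≤ ζ.re := by
    rw [hre']
    nlinarith
  have hKY : 0 ≤ (c.K - 1) * Y ^ 2 := by
    apply mul_nonneg _ (sq_nonneg Y)
    linarith
  have hXpos : 0 < X ^ 2 := by positivity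
  have hpos : 0 < ζ.re := by linarith
  have hUre := Complex.re_le_norm U
  have hKY0 : 0 ≤ c.K * Y ^ 2 := by
    apply mul_nonneg _ (sq_nonneg Y)
    linarith
  -- lower bound for `Psi`
  have hpsi : Real.exp (-(11 / 1000) * s) ≤ ‖Psi ζ‖ := by
    refine le_trans ?_ (psi_lower hpos)
    apply Real.exp_le_exp.mpr
    have h1 : ζ.re ≤ ‖ζ‖ := Complex.re_le_norm ζ
    have h2 : 10 / 11 * X ≤ Real.sqrt ‖ζ‖ := by
      apply Real.le_sqrt_of_sq_le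
      nlinarith
    have h3 : (Real.sqrt ‖ζ‖)⁻¹ ≤ 11 / 10 * s := by
      have h4 : (Real.sqrt ‖ζ‖)⁻¹ ≤ (10 / 11 * X)⁻¹ := inv_anti₀ (by positivity) h2
      refine h4.trans (le_of_eq ?_)
      rw [hsdef, mul_inv]
      norm_num
    linarith
  have h100 : 100 * h ≤ ‖Psi ζ‖ := by
    refine le_trans ?_ hpsi
    have h1 : Real.exp (-(11 / 1000) * s) = Real.exp (-s) * Real.exp (989 / 1000 * s) := by
      rw [← Real.exp_add]
      congr 1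
      ring
    have h2 : (4000 : ℝ) ≤ Real.exp (989 / 1000 * s) := by
      have h3 : Real.exp (19 : ℝ) ≤ Real.exp (989 / 1000 * s) := by
        apply Real.exp_le_exp.mpr
        linarith
      have h4 : Real.exp (19 : ℝ) = Real.exp 1 ^ 19 := by
        rw [← Real.exp_nat_mul]
        norm_num
      have h5 : (2 : ℝ) ≤ Real.exp 1 := by
        have := Real.add_one_le_exp (1 : ℝ)
        linarith
      have h6 : (2 : ℝ) ^ 19 ≤ Real.exp 1 ^ 19 := pow_le_pow_left₀ (by norm_num) h5 19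
      rw [← h4] at h6
      norm_num at h6
      linarith
    rw [h1]
    have h3 := Real.exp_pos (-s)
    nlinarith
  have hPpos : 0 < ‖Psi ζ‖ := lt_of_lt_of_le (Real.exp_pos _) hpsi
  -- the main estimate
  have hkey : ‖U‖ + ‖Psi ζ‖ ≤ 13 * ‖U + Psi ζ‖ ∧ 89 / 100 * ‖Psi ζ‖ ≤ ‖U + Psi ζ‖ := by
    rcases le_or_gt (9 * ‖Psi ζ‖) ‖U‖ with hc | hc
    · have h1 : ‖U‖ ≤ ‖U + Psi ζ‖ + ‖Psi ζ‖ := by
        have h2 : U = (U + Psi ζ) - Psi ζ := by ring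
        calc ‖U‖ = ‖(U + Psi ζ) - Psi ζ‖ := by rw [← h2]
          _ ≤ _ := norm_sub_le _ _
      constructor <;> linarith
    · have hR : 0 < X ^ 2 + ia ε := by positivity
      set R : ℝ := Real.sqrt (X ^ 2 + ia ε) with hRdef
      have hR0 : 0 < R := Real.sqrt_pos.mpr hR
      have hR2 : R ^ 2 = X ^ 2 + ia ε := Real.sq_sqrt hR.le
      have hXR : X ≤ R := by
        apply Real.le_sqrt_of_sq_le
        linarith
      have hR10 : R ≤ 1 / 10 := by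
        rw [hRdef]
        apply Real.sqrt_le_iff.mpr
        refine ⟨by norm_num, ?_⟩
        have h1 := hs.s1
        have h2 := hs.le
        have h3 : ε ^ 2 ≤ 1 := by nlinarith
        nlinarith
      have hph := c.phase U ζ R Y om hR0 hR10 hY (by rw [hR2]; exact hζ)
        (hom.trans (by nlinarith)) hpos hU hc.le (by linarith)
      have h1 : (U + Psi ζ).re ≤ ‖U + Psi ζ‖ := Complex.re_le_norm _
      rw [Complex.add_re] at h1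
      constructor <;> linarith
  refine ⟨hpos, hkey.1, ?_, ?_⟩
  · have h1 : Real.exp (-(11 / 1000) * ε⁻¹) ≤ ‖Psi ζ‖ := by
      refine le_trans ?_ hpsi
      apply Real.exp_le_exp.mpr
      have : s ≤ ε⁻¹ := inv_anti₀ hε0 hX
      linarith
    have h2 := hkey.2
    have hCC : 0 < CC m := by
      unfold CC
      positivity
    have h3 : (ia ε)⁻¹ = Real.exp ε⁻¹ / 160 := by
      unfold ia
      rw [Real.exp_neg, mul_inv, inv_inv]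
      ring
    have h4 : Real.exp (98 / 100 * ε⁻¹) ≤ Real.exp ε⁻¹ * Real.exp (-(11 / 1000) * ε⁻¹) := by
      rw [← Real.exp_add]
      apply Real.exp_le_exp.mpr
      have : 0 < ε⁻¹ := inv_pos.mpr hε0
      linarith
    have h5 := hs.s2
    rw [h3]
    have h6 : 0 < Real.exp ε⁻¹ := Real.exp_pos _
    have h7 : Real.exp ε⁻¹ * Real.exp (-(11 / 1000) * ε⁻¹) ≤ Real.exp ε⁻¹ * ‖Psi ζ‖ :=
      mul_le_mul_of_nonneg_left h1 h6.le
    have h8 : Real.exp ε⁻¹ * (89 / 100 * ‖Psi ζ‖) ≤ Real.exp ε⁻¹ * ‖U + Psi ζ‖ :=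
      mul_le_mul_of_nonneg_left h2 h6.le
    have h9 : Real.exp ε⁻¹ / 160 * ‖U + Psi ζ‖ = (Real.exp ε⁻¹ * ‖U + Psi ζ‖) / 160 := by ring
    rw [h9, lt_div_iff₀ (by norm_num)]
    nlinarith
  · apply norm_mul_zinv_le hpos
    nlinarith

end P4cae09
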